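import Mathlib
import Pool.Agent.W746.LD.Final
import Pool.Agent.H713R2.AR.T1

/-!
# The holomorphic motion of the basin of infinity, at finite level
-/

set_option autoImplicit false
open Set Filter Topology Metric Complex

namespace Pool.Agent.J4H16

open Pool.Agent.W746.LD
open Pool.Agent.H713R2 Pool.Agent.H713R2.AR
open Pool.Agent.H712R2 hiding P P_succ

/-- Holomorphic dependence on the parameter. -/
theorem seq_diff1 {d : ℕ} (hd : 2 ≤ d) {G : ℕ → ℂ × ℂ → ℂ} (hG : IsSeq d G) (j : ℕ) :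
    ∀ c x, (c, x) ∈ AA d j → DifferentiableAt ℂ (fun c => G j (c, x)) c := by
  induction j with
  | zero =>
    intro c x _
    have h1 : (fun c => G 0 (c, x)) = fun _ => 1 := by funext c; exact hG.base _
    rw [h1]
    exact differentiableAt_const _
  | succ j ih =>
    intro c x hx
    have hopen : {y : ℂ | (y, x) ∈ AA d (j + 1)} ∈ 𝓝 c :=
      ((isOpen_AA d (j + 1)).preimage (by fun_prop : Continuous fun y : ℂ => (y, x))).mem_nhds hx
    have hcont : ContinuousAt (fun c => G (j + 1) (c, x)) c := by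
      have h1 : ContinuousAt (G (j + 1)) (c, x) :=
        (hG.isG (j + 1)).cont.continuousAt ((isOpen_AA d (j + 1)).mem_nhds hx)
      exact h1.comp (f := fun c : ℂ => (c, x)) (by fun_prop)
    apply differentiableAt_of_pow (N := d) (p := fun y => G j (y, x ^ d) - y * x ^ d) (by omega) hcont
      ((hG.isG (j + 1)).ne _ hx)
    · have h2 := ih c (x ^ d) (AA'_subset d j ((mem_AA_succ c x).mp hx))
      exact h2.sub (by fun_prop)
    · filter_upwards [hopen] with y hy
      exact hG.relation j y x hy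

/-- the derivative of the iterate with respect to the parameter -/
noncomputable def B (n : ℕ) (c : ℂ) (z : ℂ) : ℕ → ℂ
  | 0 => 0
  | k + 1 => n * (orb n c z k) ^ (n - 1) * B n c z k + 1

theorem orb_fc (n : ℕ) (c z : ℂ) (k : ℕ) : orb n c z k = (fc n c)^[k] z := rfl

/-- The motion of the points of the basin, at level `j`. -/
theorem motion {n : ℕ} (hn : 2 ≤ n) {c : ℂ} {r : ℝ} (hr : 0 < r) (hM : ∀ a ∈ ball c r, Bd n a)
    (j : ℕ) : ∃ Φ : ℂ → ℂ → ℂ, (∀ w, 2 < ‖orb n c w j‖ → DifferentiableOn ℂ (Φ w) (ball c r) ∧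
      Φ w c = w ∧ ∀ a ∈ ball c r, orb n a (Φ w a) j = orb n c w j) ∧
      ∀ w w', 2 < ‖orb n c w j‖ → 2 < ‖orb n c w' j‖ → w ≠ w' → ∀ a ∈ ball c r, Φ w a ≠ Φ w' a := by
  classical
  obtain ⟨G, hG⟩ := exists_seq hn
  have hcm : c ∈ ball c r := mem_ball_self hr
  have key : ∀ w, 2 < ‖orb n c w j‖ → ∃ x, x ≠ 0 ∧ (∀ a ∈ ball c r, (a, x) ∈ AA n j) ∧
      x⁻¹ * G j (c, x) = w := by
    intro w hw
    have hw0 : w ≠ 0 := by
      rintro rfl
      have h1 : orb n c 0 j = Pool.Agent.H712R2.P n j c := rfl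
      rw [h1] at hw
      have := hM c hcm j
      linarith
    have hfw : (fc n c)^[j] w ≠ 0 := by
      intro h
      rw [orb_fc, h, norm_zero] at hw
      linarith
    obtain ⟨x, hx0, hxA, hx⟩ := (hG.isG j).surj c w hw0 hfw (fun i _ _ => by
      have := hM c hcm i
      rw [orb_fc] at hw
      linarith)
    refine ⟨x, hx0, ?_, hx⟩
    have h1 := (hG.isG j).conj c x hxA hx0
    rw [hx, ← orb_fc] at h1
    have h2 : 2 * ‖x‖ ^ (n ^ j) < 1 := by
      rw [h1, norm_pow, norm_inv, inv_pow] at hw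
      have hxp : 0 < ‖x‖ ^ (n ^ j) := by have := norm_pos_iff.mpr hx0; positivity
      calc 2 * ‖x‖ ^ (n ^ j) < (‖x‖ ^ (n ^ j))⁻¹ * ‖x‖ ^ (n ^ j) := by gcongr
        _ = 1 := inv_mul_cancel₀ hxp.ne'
    intro a ha i _ _
    have h3 := hM a ha i
    show ‖x‖ ^ (n ^ j) * ‖Pool.Agent.H712R2.P n i a‖ < 1
    have hxp : 0 ≤ ‖x‖ ^ (n ^ j) := by positivity
    nlinarith
  set X : ℂ → ℂ := fun w => if h : 2 < ‖orb n c w j‖ then (key w h).choose else 1 with hX
  have hXs : ∀ w, 2 < ‖orb n c w j‖ → X w ≠ 0 ∧ (∀ a ∈ ball c r, (a, X w) ∈ AA n j) ∧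
      (X w)⁻¹ * G j (c, X w) = w := by
    intro w hw
    simp only [hX, dif_pos hw]
    exact (key w hw).choose_spec
  refine ⟨fun w a => (X w)⁻¹ * G j (a, X w), ?_, ?_⟩
  · intro w hw
    obtain ⟨h1, h2, h3⟩ := hXs w hw
    refine ⟨?_, h3, ?_⟩
    · intro a ha
      exact ((seq_diff1 hn hG j a (X w) (h2 a ha)).const_mul _).differentiableWithinAt
    · intro a ha
      have h4 := (hG.isG j).conj a (X w) (h2 a ha) h1
      have h5 := (hG.isG j).conj c (X w) (h2 c hcm) h1
      rw [orb_fc, orb_fc, h4, ← h5, h3]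
  · intro w w' hw hw' hne a ha heq
    obtain ⟨h1, h2, h3⟩ := hXs w hw
    obtain ⟨h1', h2', h3'⟩ := hXs w' hw'
    have := (hG.isG j).inj a (X w) (X w') (h2 a ha) (h2' a ha) h1 h1' heq
    apply hne
    rw [← h3, ← h3', this]

/-- the velocity of the motion at level `k` -/
noncomputable def vk (n : ℕ) (c : ℂ) (k : ℕ) (z : ℂ) : ℂ := - ∑ i ∈ Finset.range k, (P n c z (i + 1))⁻¹

theorem B_eq {n : ℕ} {c z : ℂ} {k : ℕ} (h : P n c z k ≠ 0) (hn : 2 ≤ n) :
    B n c z k = - P n c z k * vk n c k z := by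
  induction k with
  | zero => simp [B, vk]
  | succ k ih =>
    have h0 : P n c z k ≠ 0 := by
      intro h0
      rw [P_succ, h0, zero_mul] at h
      exact h rfl
    have h1 := ih h0
    have h2 : vk n c (k + 1) z = vk n c k z - (P n c z (k + 1))⁻¹ := by
      simp only [vk, Finset.sum_range_succ]
      ring
    rw [B, h1, h2, mul_sub, neg_mul, neg_mul, neg_mul, mul_inv_cancel₀ h, P_succ]
    ring

/-- The velocity of the motion. -/
theorem hasDerivAt_motion {n : ℕ} {c : ℂ} {W : ℂ → ℂ} {w : ℂ} (hW : HasDerivAt W w c) (k : ℕ) :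
    HasDerivAt (fun a => orb n a (W a) k) (P n c (W c) k * w + B n c (W c) k) c := by
  induction k with
  | zero => simpa [B] using hW
  | succ k ih =>
    have h1 := (ih.fun_pow n).add (hasDerivAt_id c)
    have h2 : (fun a => orb n a (W a) (k + 1)) = fun a => (orb n a (W a) k) ^ n + id a := by
      funext a
      simp only [orb_succ, id]
    rw [h2]
    convert! h1 using 1
    rw [P_succ, B]
    ring

theorem deriv_motion {n : ℕ} (hn : 2 ≤ n) {c : ℂ} {r : ℝ} (hr : 0 < r) {W : ℂ → ℂ} {j : ℕ} {C : ℂ}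
    (hW : DifferentiableOn ℂ W (ball c r)) (he : ∀ a ∈ ball c r, orb n a (W a) j = C)
    (hP : P n c (W c) j ≠ 0) : deriv W c = vk n c j (W c) := by
  have h1 : HasDerivAt W (deriv W c) c :=
    (hW.differentiableAt (isOpen_ball.mem_nhds (mem_ball_self hr))).hasDerivAt
  have h2 := hasDerivAt_motion (n := n) h1 j
  have h3 : HasDerivAt (fun a => orb n a (W a) j) 0 c := by
    apply (hasDerivAt_const c C).congr_of_eventuallyEq
    filter_upwards [isOpen_ball.mem_nhds (mem_ball_self hr)] with a ha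
    exact he a ha
  have h4 := h2.unique h3
  rw [B_eq hP hn] at h4
  have h5 : P n c (W c) j * (deriv W c - vk n c j (W c)) = 0 := by rw [← h4]; ring
  exact sub_eq_zero.mp ((mul_eq_zero.mp h5).resolve_left hP)

end Pool.Agent.J4H16
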