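import Mathlib
import Pool.Agent.J4H16.Mot

/-!
# The filled Julia set and its complement
-/

set_option autoImplicit false
open Set Filter Topology Metric Complex

namespace Pool.Agent.J4H16

open Pool.Agent.W746.LD
open Pool.Agent.H713R2.AR (Bd)

/-- A parameter with a ball of parameters in the Multibrot set without attracting cycles. -/
structure Q (n : ℕ) (c : ℂ) (r : ℝ) : Prop where
  hn : 2 ≤ n
  hr : 0 < r
  mem : ∀ a ∈ ball c r, Bd n a
  na : ∀ a ∈ ball c r, ¬ ∃ m z, N62a1eb23.IsAttractingCycle (fun z => z ^ n + a) m z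

/-- The filled Julia set. -/
def K (n : ℕ) (c : ℂ) : Set ℂ := {z | ∀ k, ‖orb n c z k‖ ≤ 3}

variable {n : ℕ} {c : ℂ} {r : ℝ}

theorem Q.bd (h : Q n c r) : Bd n c := h.mem c (mem_ball_self h.hr)

theorem Q.orb0 (h : Q n c r) (k : ℕ) : ‖orb n c 0 k‖ ≤ 2 := h.bd k

theorem Q.orbc (h : Q n c r) (k : ℕ) : ‖orb n c c k‖ ≤ 2 := by
  have h1 := h.orb0 (k + 1)
  rw [add_comm, orb_add, orb_one, zero_pow (by have := h.hn; omega), zero_add] at h1
  exact h1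

theorem Q.c2 (h : Q n c r) : ‖c‖ ≤ 2 := h.orbc 0

theorem grow (hn : 2 ≤ n) (hc : ‖c‖ ≤ 2) {z : ℂ} (hz : 3 < ‖z‖) : 2 * ‖z‖ ≤ ‖z ^ n + c‖ :=
  Pool.Agent.H713R2.AR.fc_grow hn hc hz

theorem orb_grow (hn : 2 ≤ n) (hc : ‖c‖ ≤ 2) {z : ℂ} {k : ℕ} (hz : 3 < ‖orb n c z k‖) (m : ℕ) :
    2 ^ m * ‖orb n c z k‖ ≤ ‖orb n c z (k + m)‖ ∧ 3 < ‖orb n c z (k + m)‖ := by
  induction m with
  | zero => simpa using hz
  | succ m ih =>
    have h1 := grow hn hc ih.2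
    rw [← orb_succ] at h1
    rw [← add_assoc, pow_succ]
    constructor <;> linarith [ih.1, ih.2]

theorem isClosed_K (n : ℕ) (c : ℂ) : IsClosed (K n c) := by
  have h1 : K n c = ⋂ k, {z | ‖orb n c z k‖ ≤ 3} := by
    ext z; simp [K]
  rw [h1]
  exact isClosed_iInter fun k => isClosed_le
    ((differentiable_orb k).continuous.norm) continuous_const

theorem K_sub {z : ℂ} (hz : z ∈ K n c) : ‖z‖ ≤ 3 := hz 0

theorem not_mem_K {z : ℂ} : z ∉ K n c ↔ ∃ k, 3 < ‖orb n c z k‖ := by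
  simp [K]

theorem mem_K_iff (hn : 2 ≤ n) (hc : ‖c‖ ≤ 2) (z : ℂ) : z ^ n + c ∈ K n c ↔ z ∈ K n c := by
  constructor
  · intro h k
    rcases Nat.eq_zero_or_pos k with rfl | hk
    · by_contra hcon
      rw [orb_zero] at hcon
      have h1 := grow hn hc (not_le.mp hcon)
      have h2 : ‖z ^ n + c‖ ≤ 3 := h 0
      linarith
    · obtain ⟨k, rfl⟩ : ∃ i, k = 1 + i := ⟨k - 1, by omega⟩
      rw [orb_add, orb_one]
      exact h k
  · intro h k
    rw [← orb_one, ← orb_add]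
    exact h _

theorem orb_mem_K (hn : 2 ≤ n) (hc : ‖c‖ ≤ 2) (z : ℂ) (k : ℕ) : orb n c z k ∈ K n c ↔ z ∈ K n c := by
  induction k with
  | zero => simp
  | succ k ih => rw [orb_succ, mem_K_iff hn hc, ih]

theorem Q.zero_mem (h : Q n c r) : (0 : ℂ) ∈ K n c := fun k => (h.orb0 k).trans (by norm_num)

theorem Q.c_mem (h : Q n c r) : c ∈ K n c := fun k => (h.orbc k).trans (by norm_num)

theorem Q.orb_ne_zero (h : Q n c r) {z : ℂ} (hz : z ∉ K n c) (k : ℕ) : orb n c z k ≠ 0 := by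
  intro h0
  apply hz
  rw [← orb_mem_K h.hn h.c2 z k, h0]
  exact h.zero_mem

theorem Q.P_ne (h : Q n c r) {z : ℂ} (hz : z ∉ K n c) (k : ℕ) : P n c z k ≠ 0 :=
  Pool.Agent.W746.LD.P_ne_zero h.hn fun i _ => h.orb_ne_zero hz i

theorem P_grow (hn : 2 ≤ n) (hc : ‖c‖ ≤ 2) {z : ℂ} {k : ℕ} (hz : 3 < ‖orb n c z k‖) (m : ℕ) :
    6 ^ m * ‖P n c z k‖ ≤ ‖P n c z (k + m)‖ := by
  induction m with
  | zero => simp
  | succ m ih =>
    have h1 := (orb_grow hn hc hz m).2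
    rw [← add_assoc, P_succ, norm_mul, norm_mul, norm_pow, Complex.norm_natCast, pow_succ]
    have h2 : (6 : ℝ) ≤ n * ‖orb n c z (k + m)‖ ^ (n - 1) := by
      have h3 : (2 : ℝ) ≤ n := by exact_mod_cast hn
      have h4 : ‖orb n c z (k + m)‖ ≤ ‖orb n c z (k + m)‖ ^ (n - 1) :=
        le_self_pow₀ (by linarith) (by omega)
      nlinarith
    have h5 : (0 : ℝ) ≤ ‖P n c z (k + m)‖ := norm_nonneg _
    nlinarith

end Pool.Agent.J4H16
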