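import Mathlib
import Pool.Agent.J4H16.Bas

/-!
# Branches of the inverse iterates on balls
-/

set_option autoImplicit false
open Set Filter Topology Metric Complex

namespace Pool.Agent.J4H16

open Pool.Agent.W746.LD

/-- `g` is a holomorphic branch on `ball p ρ` of the inverse of the `m`-th iterate. -/
structure Br (n : ℕ) (c : ℂ) (m : ℕ) (p : ℂ) (ρ : ℝ) (g : ℂ → ℂ) : Prop where
  diff : DifferentiableOn ℂ g (ball p ρ)
  eq : ∀ w ∈ ball p ρ, orb n c (g w) m = w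

variable {n : ℕ} {c : ℂ} {m : ℕ} {p : ℂ} {ρ : ℝ} {g : ℂ → ℂ}

theorem br_zero (p : ℂ) (ρ : ℝ) : Br n c 0 p ρ id := ⟨differentiableOn_id, fun _ _ => rfl⟩

theorem Br.injOn (h : Br n c m p ρ g) : InjOn g (ball p ρ) := by
  intro x hx y hy hxy
  rw [← h.eq x hx, ← h.eq y hy, hxy]

theorem Br.univ (h : Br n c m p ρ g) : Univ g p ρ := ⟨h.diff, h.injOn⟩

theorem Br.mono (h : Br n c m p ρ g) {p' : ℂ} {ρ' : ℝ} (hs : ball p' ρ' ⊆ ball p ρ) :
    Br n c m p' ρ' g := ⟨h.diff.mono hs, fun w hw => h.eq w (hs hw)⟩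

theorem Br.hasDerivAt (h : Br n c m p ρ g) {w : ℂ} (hw : w ∈ ball p ρ) :
    HasDerivAt g (deriv g w) w :=
  (h.diff.differentiableAt (isOpen_ball.mem_nhds hw)).hasDerivAt

theorem Br.mul_deriv (h : Br n c m p ρ g) {w : ℂ} (hw : w ∈ ball p ρ) :
    P n c (g w) m * deriv g w = 1 := by
  have h1 : HasDerivAt (fun ζ => orb n c (g ζ) m) (P n c (g w) m * deriv g w) w :=
    (hasDerivAt_orb (n := n) (c := c) (g w) m).comp w (h.hasDerivAt hw)
  have h2 : (fun ζ => orb n c (g ζ) m) =ᶠ[𝓝 w] id := by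
    filter_upwards [isOpen_ball.mem_nhds hw] with u hu using h.eq u hu
  exact h1.unique ((hasDerivAt_id w).congr_of_eventuallyEq h2)

theorem Br.P_ne (h : Br n c m p ρ g) {w : ℂ} (hw : w ∈ ball p ρ) : P n c (g w) m ≠ 0 :=
  left_ne_zero_of_mul_eq_one (h.mul_deriv hw)

theorem Br.deriv_ne (h : Br n c m p ρ g) {w : ℂ} (hw : w ∈ ball p ρ) : deriv g w ≠ 0 :=
  right_ne_zero_of_mul_eq_one (h.mul_deriv hw)

theorem Br.orb_ne_zero (h : Br n c m p ρ g) (hn : 2 ≤ n) {w : ℂ} (hw : w ∈ ball p ρ) {j : ℕ}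
    (hj : j < m) : orb n c (g w) j ≠ 0 :=
  orb_ne_zero_of_P hn (h.P_ne hw) hj

theorem Br.diff_orb (h : Br n c m p ρ g) (j : ℕ) :
    DifferentiableOn ℂ (fun w => orb n c (g w) j) (ball p ρ) :=
  (differentiable_orb j).comp_differentiableOn h.diff

theorem Br.shift (h : Br n c m p ρ g) {i : ℕ} (hi : i ≤ m) :
    Br n c (m - i) p ρ (fun w => orb n c (g w) i) := by
  refine ⟨h.diff_orb i, ?_⟩
  intro w hw
  rw [← orb_add, Nat.add_sub_cancel' hi, h.eq w hw]

/-- Uniqueness of branches. -/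
theorem Br.unique (hn : 2 ≤ n) (h : Br n c m p ρ g) {g' : ℂ → ℂ} (h' : Br n c m p ρ g')
    {w0 : ℂ} (hw0 : w0 ∈ ball p ρ) (h0 : g w0 = g' w0) : ∀ w ∈ ball p ρ, g w = g' w := by
  have key : ∀ j ≤ m, ∀ w ∈ ball p ρ, orb n c (g w) (m - j) = orb n c (g' w) (m - j) := by
    intro j
    induction j with
    | zero =>
      intro _ w hw
      rw [Nat.sub_zero, h.eq w hw, h'.eq w hw]
    | succ j ih =>
      intro hj
      have h1 := ih (by omega)
      refine pow_unique hn isOpen_ball (convex_ball p ρ).isPreconnected (h.diff_orb _)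
        (h'.diff_orb _) ?_ ?_ hw0 ?_
      · intro w hw
        have h2 := h1 w hw
        have h3 : m - j = (m - (j + 1)) + 1 := by omega
        rw [h3, orb_succ, orb_succ] at h2
        exact add_right_cancel h2
      · intro w hw
        exact h'.orb_ne_zero hn hw (by omega)
      · rw [h0]
  intro w hw
  have := key m le_rfl w hw
  simpa using this

/-- Extension by one step. -/
theorem Br.ext (hn : 2 ≤ n) (h : Br n c m p ρ g) (hne : ∀ w ∈ ball p ρ, g w ≠ c) {w0 z : ℂ}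
    (hw0 : w0 ∈ ball p ρ) (hz : z ^ n + c = g w0) :
    ∃ g' : ℂ → ℂ, Br n c (m + 1) p ρ g' ∧ g' w0 = z ∧ ∀ w ∈ ball p ρ, g' w ^ n + c = g w := by
  have hn0 : (n : ℂ) ≠ 0 := by exact_mod_cast (by omega : n ≠ 0)
  have hρ : 0 < ρ := pos_of_mem_ball hw0
  have hp : p ∈ ball p ρ := mem_ball_self hρ
  have hz0 : z ≠ 0 := by
    rintro rfl
    rw [zero_pow (by omega), zero_add] at hz
    exact hne w0 hw0 hz.symm
  obtain ⟨l, hl1, hl2, hl3⟩ := Pool.Agent.H712R2.M.exists_log_ball hρ (h.diff.sub_const c)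
    (fun ζ hζ => sub_ne_zero.mpr (hne ζ hζ)) (Complex.log (g p - c)) (by
      rw [Complex.exp_log (sub_ne_zero.mpr (hne p hp))])
  set u : ℂ := z / Complex.exp (l w0 / n) with hu
  have he0 : ∀ w, Complex.exp (l w / n) ≠ 0 := fun w => Complex.exp_ne_zero _
  have hu1 : u ^ n = 1 := by
    rw [hu, div_pow, exp_pow hn, hl3 w0 hw0, ← hz, add_sub_cancel_right, div_self]
    exact pow_ne_zero _ hz0
  have key : ∀ w ∈ ball p ρ, (u * Complex.exp (l w / n)) ^ n + c = g w := by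
    intro w hw
    rw [mul_pow, hu1, one_mul, exp_pow hn, hl3 w hw]
    ring
  refine ⟨fun w => u * Complex.exp (l w / n), ⟨?_, ?_⟩, ?_, key⟩
  · exact ((hl1.div_const _).cexp).const_mul u
  · intro w hw
    rw [add_comm, orb_add, orb_one, key w hw, h.eq w hw]
  · simp only [hu]
    rw [div_mul_cancel₀ _ (he0 w0)]

/-- The critical value in the image of a branch. -/
theorem Br.crit (h : Br n c m p ρ g) (hn : 2 ≤ n) {w : ℂ} (hw : w ∈ ball p ρ) (hc : g w = c) :
    orb n c 0 (m + 1) = w := by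
  rw [add_comm, orb_add, orb_one, zero_pow (by omega), zero_add, ← hc]
  have := h.eq w hw
  rw [hc] at this ⊢
  exact this

/-- Branches along an orbit. -/
theorem exists_br (hn : 2 ≤ n) {x : ℂ} {k : ℕ} (hx : orb n c x k ∈ ball p ρ)
    (H : ∀ j < k, ∀ g, Br n c j p ρ g → g (orb n c x k) = orb n c x (k - j) →
      ∀ w ∈ ball p ρ, g w ≠ c) :
    ∃ G, Br n c k p ρ G ∧ G (orb n c x k) = x := by
  have key : ∀ j ≤ k, ∃ g, Br n c j p ρ g ∧ g (orb n c x k) = orb n c x (k - j) := by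
    intro j
    induction j with
    | zero => intro _; exact ⟨id, br_zero p ρ, rfl⟩
    | succ j ih =>
      intro hj
      obtain ⟨g, h1, h2⟩ := ih (by omega)
      have h3 := H j (by omega) g h1 h2
      have h4 : (orb n c x (k - (j + 1))) ^ n + c = g (orb n c x k) := by
        rw [h2, ← orb_succ]
        congr 1
        omega
      obtain ⟨g', h5, h6, -⟩ := h1.ext hn h3 hx h4
      exact ⟨g', h5, h6⟩
  obtain ⟨G, h1, h2⟩ := key k le_rfl
  exact ⟨G, h1, by simpa using h2⟩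

/-- Branches along an orbit when the critical orbit avoids the ball. -/
theorem exists_br' (hn : 2 ≤ n) {x : ℂ} {k : ℕ} (hx : orb n c x k ∈ ball p ρ)
    (H : ∀ j, 1 ≤ j → j ≤ k → orb n c 0 j ∉ ball p ρ) :
    ∃ G, Br n c k p ρ G ∧ G (orb n c x k) = x := by
  apply exists_br hn hx
  intro j hj g hg _ w hw hc
  apply H (j + 1) (by omega) (by omega)
  rw [hg.crit hn hw hc]
  exact hw

/-- Koebe covering. -/
theorem KC.cover {C0 c0 : ℝ} (K : KC C0 c0) {φ : ℂ → ℂ} {z : ℂ} {r : ℝ} (hr : 0 < r)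
    (hu : Univ φ z r) {a : ℂ} (ha : ‖a - φ z‖ < c0 * r * ‖deriv φ z‖) : ∃ w ∈ ball z r, φ w = a := by
  by_contra hcon
  push Not at hcon
  have := K.komit φ z r hr hu a hcon
  rw [norm_sub_rev] at this
  linarith

/-- A ball in the image of a branch is mapped back into the ball. -/
theorem Br.cover {C0 c0 : ℝ} (K : KC C0 c0) (h : Br n c m p ρ g) {z : ℂ} {s : ℝ} (hs : 0 < s)
    (hsub : ball z s ⊆ ball p ρ) {a : ℂ} (ha : ‖a - g z‖ < c0 * s * ‖deriv g z‖) :
    orb n c a m ∈ ball z s ∧ g (orb n c a m) = a := by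
  obtain ⟨w, hw, hwa⟩ := KC.cover K hs (h.mono hsub).univ ha
  have := h.eq w (hsub hw)
  rw [hwa] at this
  rw [this]
  exact ⟨hw, hwa⟩

/-- Distortion: the derivative is nearly constant. -/
theorem KC.distort {C0 c0 : ℝ} (K : KC C0 c0) {φ : ℂ → ℂ} {z : ℂ} {r : ℝ} (hr : 0 < r)
    (hu : Univ φ z r) (hd : deriv φ z ≠ 0) {w : ℂ} (hw : ‖w - z‖ < r / 4) :
    ‖deriv φ w - deriv φ z‖ ≤ 4 * (C0 + 2) / r * ‖w - z‖ * ‖deriv φ z‖ := by
  have hdp : 0 < ‖deriv φ z‖ := norm_pos_iff.mpr hd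
  have hsub : ball z (r / 4) ⊆ ball z r := ball_subset_ball (by linarith)
  have hdd : DifferentiableOn ℂ (deriv φ) (ball z r) := hu.1.deriv isOpen_ball
  set F : ℂ → ℂ := fun w => deriv φ w / deriv φ z with hF
  have hFd : DifferentiableOn ℂ F (ball z (r / 4)) := (hdd.mono hsub).div_const _
  have hFz : F z = 1 := by simp only [hF]; exact div_self hd
  have hmaps : MapsTo F (ball z (r / 4)) (ball (F z) (C0 + 2)) := by
    intro u hu'
    rw [mem_ball, dist_eq_norm] at hu'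
    rw [mem_ball, dist_eq_norm, hFz]
    have h1 := (K.kdist φ z r hr hu u hu'.le).1
    have h2 : ‖F u‖ ≤ C0 := by
      simp only [hF]
      rw [norm_div, div_le_iff₀ hdp]
      exact h1
    calc ‖F u - 1‖ ≤ ‖F u‖ + ‖(1 : ℂ)‖ := norm_sub_le _ _
      _ < C0 + 2 := by rw [norm_one]; linarith
  have h3 := Complex.dist_le_div_mul_dist_of_mapsTo_ball hFd (hmaps.mono_right ball_subset_closedBall)
    (show w ∈ ball z (r / 4) by rw [mem_ball, dist_eq_norm]; exact hw)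
  rw [dist_eq_norm, dist_eq_norm, hFz] at h3
  have h4 : deriv φ w - deriv φ z = (F w - 1) * deriv φ z := by
    simp only [hF]
    rw [sub_mul, div_mul_cancel₀ _ hd, one_mul]
  rw [h4, norm_mul]
  have h5 : (C0 + 2) / (r / 4) = 4 * (C0 + 2) / r := by field_simp
  rw [h5] at h3
  gcongr

end Pool.Agent.J4H16
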