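import Mathlib
import Pool.Agent.J4H16.Br

/-!
# Non-normality on the filled Julia set
-/

set_option autoImplicit false
open Set Filter Topology Metric Complex

namespace Pool.Agent.J4H16

open Pool.Agent.W746.LD

variable {n : ℕ} {c : ℂ} {r : ℝ}

theorem isCompact_K (n : ℕ) (c : ℂ) : IsCompact (K n c) := by
  apply isCompact_of_isClosed_isBounded (isClosed_K n c)
  rw [isBounded_iff_forall_norm_le]
  exact ⟨3, fun z hz => K_sub hz⟩

theorem Q.escape_dist (h : Q n c r) {e : ℂ} (he : e ∉ K n c) :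
    ∃ d : ℝ, 0 < d ∧ ∀ t, ∀ u ∈ K n c, d ≤ ‖orb n c e t - u‖ := by
  obtain ⟨t0, ht0⟩ := not_mem_K.mp he
  have hfin : ∀ N : ℕ, ∃ d : ℝ, 0 < d ∧ ∀ t < N, ∀ u ∈ K n c, d ≤ ‖orb n c e t - u‖ := by
    intro N
    induction N with
    | zero => exact ⟨1, one_pos, fun t ht => absurd ht (Nat.not_lt_zero t)⟩
    | succ N ih =>
      obtain ⟨d, hd, hd'⟩ := ih
      have h1 : orb n c e N ∉ K n c := by rwa [orb_mem_K h.hn h.c2]
      obtain ⟨ε, hε, hε'⟩ := Metric.isOpen_iff.mp (isClosed_K n c).isOpen_compl _ h1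
      refine ⟨min d ε, lt_min hd hε, ?_⟩
      intro t ht u hu
      rcases Nat.lt_succ_iff_lt_or_eq.mp ht with ht | rfl
      · exact (min_le_left _ _).trans (hd' t ht u hu)
      · refine (min_le_right _ _).trans ?_
        by_contra hcon
        push Not at hcon
        rw [norm_sub_rev, ← dist_eq_norm] at hcon
        exact hε' hcon hu
  obtain ⟨d, hd, hd'⟩ := hfin (t0 + 1)
  refine ⟨min d 3, lt_min hd (by norm_num), ?_⟩
  intro t u hu
  rcases lt_or_ge t (t0 + 1) with ht | ht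
  · exact (min_le_left _ _).trans (hd' t ht u hu)
  · refine (min_le_right _ _).trans ?_
    obtain ⟨m, rfl⟩ := Nat.exists_eq_add_of_le ht
    have h1 := (orb_grow h.hn h.c2 ht0 (1 + m)).1
    have h2 : (2 : ℝ) ≤ 2 ^ (1 + m) := by
      rw [pow_add, pow_one]
      have : (1 : ℝ) ≤ 2 ^ m := one_le_pow₀ (by norm_num)
      linarith
    have h3 : (6 : ℝ) ≤ ‖orb n c e (t0 + 1 + m)‖ := by
      rw [add_assoc]
      nlinarith
    have h4 := K_sub hu
    have h5 := norm_sub_norm_le (orb n c e (t0 + 1 + m)) u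
    linarith

theorem Q.nn (h : Q n c r) (hd : Dense (K n c)ᶜ) {ε : ℝ} (hε : 0 < ε) :
    ∃ d : ℝ, 0 < d ∧ ∀ y ∈ K n c, ∀ (t : ℕ) (w : ℂ),
      ¬ (∀ z ∈ ball y ε, orb n c z t ∈ ball w d) := by
  suffices key : ∃ d : ℝ, 0 < d ∧ ∀ y ∈ K n c, y ∈ K n c → ∀ (t : ℕ) (w : ℂ),
      ¬ (∀ z ∈ ball y ε, orb n c z t ∈ ball w d) by
    obtain ⟨d, hd1, hd2⟩ := key
    exact ⟨d, hd1, fun y hy => hd2 y hy hy⟩
  refine (isCompact_K n c).induction_on
    (p := fun S => ∃ d : ℝ, 0 < d ∧ ∀ y ∈ K n c, y ∈ S → ∀ (t : ℕ) (w : ℂ),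
      ¬ (∀ z ∈ ball y ε, orb n c z t ∈ ball w d)) ?_ ?_ ?_ ?_
  · exact ⟨1, one_pos, fun y _ hy => absurd hy (Set.notMem_empty y)⟩
  · rintro s t hst ⟨d, hd1, hd2⟩
    exact ⟨d, hd1, fun y hy hys => hd2 y hy (hst hys)⟩
  · rintro s t ⟨d, hd1, hd2⟩ ⟨d', hd1', hd2'⟩
    refine ⟨min d d', lt_min hd1 hd1', ?_⟩
    intro y hy hys k w hz
    rcases hys with hys | hys
    · exact hd2 y hy hys k w fun z hz' => ball_subset_ball (min_le_left _ _) (hz z hz')
    · exact hd2' y hy hys k w fun z hz' => ball_subset_ball (min_le_right _ _) (hz z hz')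
  · intro x _
    obtain ⟨e, he1, he2⟩ := hd.exists_mem_open isOpen_ball ⟨x, mem_ball_self (half_pos hε)⟩
    obtain ⟨d, hd1, hd2⟩ := h.escape_dist he1
    refine ⟨ball x (ε / 2), mem_nhdsWithin_of_mem_nhds (ball_mem_nhds x (half_pos hε)), d / 2,
      half_pos hd1, ?_⟩
    intro y hy hyx k w hz
    have h1 : e ∈ ball y ε := by
      rw [mem_ball] at he2 hyx ⊢
      rw [dist_comm] at hyx
      linarith [dist_triangle e x y]
    have h2 := hz e h1
    have h3 := hz y (mem_ball_self hε)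
    have h4 := hd2 k _ ((orb_mem_K h.hn h.c2 y k).mpr hy)
    rw [← dist_eq_norm] at h4
    rw [mem_ball] at h2 h3
    rw [dist_comm] at h3
    linarith [dist_triangle (orb n c e k) w (orb n c y k)]

/-- Derivatives of branches at points of the filled Julia set are small. -/
theorem Q.branch_small (h : Q n c r) (hd : Dense (K n c)ᶜ) {C0 c0 : ℝ} (K : KC C0 c0) {ε : ℝ}
    (hε : 0 < ε) : ∃ d : ℝ, 0 < d ∧ ∀ (m : ℕ) (p : ℂ) (ρ : ℝ) (g : ℂ → ℂ), 0 < ρ → ρ ≤ d →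
      Br n c m p ρ g → g p ∈ J4H16.K n c → ρ * ‖deriv g p‖ < ε := by
  obtain ⟨d, hd1, hd2⟩ := h.nn hd (ε := c0 * ε) (mul_pos K.pos hε)
  refine ⟨d, hd1, ?_⟩
  intro m p ρ g hρ hρd hg hgp
  by_contra hcon
  push Not at hcon
  apply hd2 (g p) hgp m p
  intro z hz
  rw [mem_ball, dist_eq_norm] at hz
  have h1 := hg.cover K hρ le_rfl (a := z) (z := p) (by
    calc ‖z - g p‖ < c0 * ε := hz
      _ ≤ c0 * (ρ * ‖deriv g p‖) := by
        have := K.pos
        gcongr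
      _ = c0 * ρ * ‖deriv g p‖ := by ring)
  exact ball_subset_ball hρd h1.1

end Pool.Agent.J4H16
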