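import Mathlib
import Pool.Agent.J4H16.Bas

/-!
# The vector field of the motion of the basin
-/

set_option autoImplicit false
open Set Filter Topology Metric Complex

namespace Pool.Agent.J4H16

open Pool.Agent.W746.LD
open Pool.Agent.H713R2.AR (Bd)

variable {n : ℕ} {c : ℂ} {r : ℝ}

/-- the velocity -/
noncomputable def v0 (n : ℕ) (c : ℂ) (z : ℂ) : ℂ := - ∑' k : ℕ, (P n c z (k + 1))⁻¹

theorem Q.inv_le (h : Q n c r) {z : ℂ} {j : ℕ} (hz : 3 < ‖orb n c z j‖) (m : ℕ) :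
    ‖(P n c z (j + m))⁻¹‖ ≤ ‖(P n c z j)⁻¹‖ * (1 / 6) ^ m := by
  have hzK : z ∉ K n c := not_mem_K.mpr ⟨j, hz⟩
  have h1 := P_grow h.hn h.c2 hz m
  have h2 : 0 < ‖P n c z j‖ := norm_pos_iff.mpr (h.P_ne hzK j)
  rw [norm_inv, norm_inv, one_div, inv_pow, ← mul_inv, mul_comm]
  exact inv_anti₀ (by positivity) h1

theorem Q.summable (h : Q n c r) {z : ℂ} (hz : z ∉ K n c) :
    Summable fun k : ℕ => (P n c z (k + 1))⁻¹ := by
  obtain ⟨j, hj⟩ := not_mem_K.mp hz
  rw [← summable_nat_add_iff j]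
  refine Summable.of_norm_bounded (g := fun m : ℕ => ‖(P n c z j)⁻¹‖ * (1 / 6) ^ (m + 1)) ?_ ?_
  · exact (((summable_nat_add_iff 1).mpr
      (summable_geometric_of_lt_one (by norm_num) (by norm_num : (1 / 6 : ℝ) < 1)))).mul_left _
  · intro m
    have := h.inv_le hj (m + 1)
    rwa [show j + (m + 1) = m + j + 1 by ring] at this

theorem Q.tendsto_vk (h : Q n c r) {z : ℂ} (hz : z ∉ K n c) :
    Tendsto (fun k => vk n c k z) atTop (𝓝 (v0 n c z)) :=
  ((h.summable hz).hasSum.tendsto_sum_nat).neg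

theorem Q.diff_v0 (h : Q n c r) : DifferentiableOn ℂ (v0 n c) (K n c)ᶜ := by
  intro z0 hz0
  obtain ⟨j, hj⟩ := not_mem_K.mp hz0
  have hopen : IsOpen {z | 3 < ‖orb n c z j‖} :=
    isOpen_lt continuous_const ((differentiable_orb j).continuous.norm)
  obtain ⟨ε, hε, hb⟩ := Metric.isOpen_iff.mp hopen z0 hj
  have hcomp : IsCompact (closedBall z0 (ε / 2)) := isCompact_closedBall _ _
  have hsub : closedBall z0 (ε / 2) ⊆ {z | 3 < ‖orb n c z j‖} :=
    (closedBall_subset_ball (by linarith)).trans hb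
  have hK : ∀ z ∈ closedBall z0 (ε / 2), z ∉ K n c := fun z hz => not_mem_K.mpr ⟨j, hsub hz⟩
  have hcont : ∀ i, ContinuousOn (fun z => ‖(P n c z i)⁻¹‖) (closedBall z0 (ε / 2)) := fun i =>
    (((differentiable_P i).continuous.continuousOn).inv₀ (fun z hz => h.P_ne (hK z hz) i)).norm
  have hbd : ∀ i, ∃ B, ∀ z ∈ closedBall z0 (ε / 2), ‖(P n c z i)⁻¹‖ ≤ B := by
    intro i
    obtain ⟨B, hB⟩ := hcomp.bddAbove_image (hcont i)
    exact ⟨B, fun z hz => hB (mem_image_of_mem _ hz)⟩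
  choose B hB using hbd
  set u : ℕ → ℝ := fun k => if k + 1 ≤ j then |B (k + 1)| else |B j| * (1 / 6) ^ (k + 1 - j) with hu
  have hus : Summable u := by
    rw [← summable_nat_add_iff j]
    refine Summable.of_nonneg_of_le (f := fun m : ℕ => |B j| * (1 / 6) ^ (m + 1)) ?_ ?_ ?_
    · intro m
      simp only [hu]
      split_ifs <;> positivity
    · intro m
      simp only [hu]
      rw [if_neg (by omega), show m + j + 1 - j = m + 1 by omega]
    · exact (((summable_nat_add_iff 1).mpr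
        (summable_geometric_of_lt_one (by norm_num) (by norm_num : (1 / 6 : ℝ) < 1)))).mul_left _
  have hd : DifferentiableOn ℂ (fun z => ∑' k : ℕ, (P n c z (k + 1))⁻¹) (ball z0 (ε / 2)) := by
    apply differentiableOn_tsum_of_summable_norm hus
    · intro i
      exact ((differentiable_P (i + 1)).differentiableOn).inv
        (fun z hz => h.P_ne (hK z (ball_subset_closedBall hz)) _)
    · exact isOpen_ball
    · intro i z hz
      have hz' := ball_subset_closedBall hz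
      simp only [hu]
      split_ifs with hi
      · exact (hB (i + 1) z hz').trans (le_abs_self _)
      · have h1 := h.inv_le (hsub hz') (i + 1 - j)
        rw [show j + (i + 1 - j) = i + 1 by omega] at h1
        refine h1.trans ?_
        gcongr
        exact (hB j z hz').trans (le_abs_self _)
  exact ((hd.differentiableAt (isOpen_ball.mem_nhds (mem_ball_self (by linarith)))).neg).differentiableWithinAt

theorem Q.v0_eq (h : Q n c r) {z : ℂ} (hz : z ∉ K n c) :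
    v0 n c (z ^ n + c) = n * z ^ (n - 1) * v0 n c z + 1 := by
  have hfz : z ^ n + c ∉ K n c := fun h' => hz ((mem_K_iff h.hn h.c2 z).mp h')
  have hs := h.summable hfz
  have h0 : (n * z ^ (n - 1) : ℂ) ≠ 0 := by
    have := h.P_ne hz 1
    rw [P_succ, P_zero, one_mul, orb_zero] at this
    exact this
  have e : ∀ k, P n c z (k + 1) = (n * z ^ (n - 1)) * P n c (z ^ n + c) k := by
    intro k
    rw [add_comm, P_add, orb_one, P_succ, P_zero, one_mul, orb_zero]
  have h1 : ∑' k : ℕ, (P n c z (k + 1))⁻¹ =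
      (n * z ^ (n - 1) : ℂ)⁻¹ * (1 + ∑' k : ℕ, (P n c (z ^ n + c) (k + 1))⁻¹) := by
    have h2 : (fun k : ℕ => (P n c z (k + 1))⁻¹) =
        fun k => (n * z ^ (n - 1) : ℂ)⁻¹ * (P n c (z ^ n + c) k)⁻¹ := by
      funext k
      rw [e k, mul_inv]
    rw [h2, tsum_mul_left]
    congr 1
    rw [Summable.tsum_eq_zero_add (f := fun k => (P n c (z ^ n + c) k)⁻¹)]
    · simp
    · exact (summable_nat_add_iff (f := fun k => (P n c (z ^ n + c) k)⁻¹) 1).mp hs
  simp only [v0]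
  rw [h1, mul_neg, ← mul_assoc, mul_inv_cancel₀ h0]
  ring

/-- The motion stays bounded. -/
theorem motion_bound (hn : 2 ≤ n) {a c : ℂ} (ha : ‖a‖ ≤ 2) (hc : ‖c‖ ≤ 2) {R0 : ℝ} (hR : 3 ≤ R0)
    {y w : ℂ} {j : ℕ} (hw : ‖w‖ ≤ R0) (he : orb n a y j = orb n c w j) : ‖y‖ ≤ R0 + 2 := by
  by_contra hcon
  push Not at hcon
  have key : ∀ i, ∃ U : ℝ, 3 ≤ U ∧ ‖orb n c w i‖ ≤ U ∧ U + 2 ≤ ‖orb n a y i‖ := by
    intro i
    induction i with
    | zero => exact ⟨R0, hR, hw, hcon.le⟩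
    | succ i ih =>
      obtain ⟨U, h1, h2, h3⟩ := ih
      refine ⟨U ^ n + 2, ?_, ?_, ?_⟩
      · have : (1 : ℝ) ≤ U ^ n := one_le_pow₀ (by linarith)
        linarith
      · rw [orb_succ]
        refine (norm_add_le _ _).trans ?_
        rw [norm_pow]
        have : ‖orb n c w i‖ ^ n ≤ U ^ n := pow_le_pow_left₀ (norm_nonneg _) h2 n
        linarith
      · rw [orb_succ]
        have h4 : ‖(orb n a y i) ^ n‖ - ‖a‖ ≤ ‖(orb n a y i) ^ n + a‖ := by
          have := norm_sub_le ((orb n a y i) ^ n + a) a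
          rw [add_sub_cancel_right] at this
          linarith
        rw [norm_pow] at h4
        have h5 : (U + 2) ^ n ≤ ‖orb n a y i‖ ^ n := pow_le_pow_left₀ (by linarith) h3 n
        have h6 : U ^ n + 6 ≤ (U + 2) ^ n := by
          obtain ⟨m, rfl⟩ : ∃ m, n = m + 2 := ⟨n - 2, by omega⟩
          have h7 : U ^ (m + 1) ≤ (U + 2) ^ (m + 1) := pow_le_pow_left₀ (by linarith) (by linarith) _
          have h8 : (1 : ℝ) ≤ U ^ m := one_le_pow₀ (by linarith)
          have e1 : (U + 2) ^ (m + 2) = (U + 2) ^ (m + 1) * (U + 2) := by ring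
          have e2 : U ^ (m + 2) = U ^ (m + 1) * U := by ring
          have e3 : U ^ (m + 1) = U ^ m * U := by ring
          have h9 : 3 ≤ U ^ (m + 1) := by rw [e3]; nlinarith
          rw [e1, e2]
          nlinarith
        linarith
  obtain ⟨U, h1, h2, h3⟩ := key j
  rw [he] at h3
  linarith

/-- The points moved by the motion at a high level. -/
theorem Q.level (h : Q n c r) {z : ℂ} (hz : z ∉ K n c) : ∀ᶠ j in atTop, 3 < ‖orb n c z j‖ := by
  obtain ⟨k, hk⟩ := not_mem_K.mp hz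
  filter_upwards [eventually_ge_atTop k] with j hj
  obtain ⟨m, rfl⟩ := Nat.exists_eq_add_of_le hj
  exact (orb_grow h.hn h.c2 hk m).2

theorem Q.norm_a (h : Q n c r) {a : ℂ} (ha : a ∈ ball c r) : ‖a‖ ≤ 2 := by
  have := h.mem a ha 1
  rwa [Pool.Agent.H712R2.P_one h.hn] at this

/-- Hölder continuity of the velocity. -/
theorem Q.v0_holder (h : Q n c r) {R0 : ℝ} (hR : 3 ≤ R0) {z w : ℂ} (hz : z ∉ K n c)
    (hw : w ∉ K n c) (hz1 : ‖z‖ ≤ R0) (hw1 : ‖w‖ ≤ R0) :
    ‖v0 n c z - v0 n c w‖ ≤ 4 / r * √((2 * R0 + 5) * ‖z - w‖) := by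
  have hr := h.hr
  rcases eq_or_ne z w with rfl | hne
  · simp
  have ht : Tendsto (fun k => ‖vk n c k z - vk n c k w‖) atTop (𝓝 ‖v0 n c z - v0 n c w‖) :=
    ((h.tendsto_vk hz).sub (h.tendsto_vk hw)).norm
  refine le_of_tendsto ht ?_
  filter_upwards [h.level hz, h.level hw] with j hj1 hj2
  obtain ⟨Φ, hΦ1, hΦ2⟩ := motion h.hn hr h.mem j
  obtain ⟨hd1, hc1, he1⟩ := hΦ1 z (by linarith)
  obtain ⟨hd2, hc2, he2⟩ := hΦ1 w (by linarith)
  have hcm : c ∈ ball c r := mem_ball_self hr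
  have hv1 := deriv_motion h.hn hr hd1 he1 (by rw [hc1]; exact h.P_ne hz j)
  have hv2 := deriv_motion h.hn hr hd2 he2 (by rw [hc2]; exact h.P_ne hw j)
  rw [hc1] at hv1
  rw [hc2] at hv2
  have h3 := schwarz_log (F := fun a => Φ z a - Φ w a) (B := 2 * R0 + 5) hr (hd1.sub hd2)
    (fun a ha => sub_ne_zero.mpr (hΦ2 z w (by linarith) (by linarith) hne a ha)) (by
      intro a ha
      have h4 := motion_bound h.hn (h.norm_a ha) h.c2 hR hz1 (he1 a ha)
      have h5 := motion_bound h.hn (h.norm_a ha) h.c2 hR hw1 (he2 a ha)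
      calc ‖Φ z a - Φ w a‖ ≤ ‖Φ z a‖ + ‖Φ w a‖ := norm_sub_le _ _
        _ < 2 * R0 + 5 := by linarith)
  have h6 : deriv (fun a => Φ z a - Φ w a) c = vk n c j z - vk n c j w := by
    rw [deriv_fun_sub (hd1.differentiableAt (isOpen_ball.mem_nhds hcm))
      (hd2.differentiableAt (isOpen_ball.mem_nhds hcm)), hv1, hv2]
  rw [h6, hc1, hc2] at h3
  set t := ‖z - w‖ with ht'
  have ht0 : 0 < t := norm_pos_iff.mpr (sub_ne_zero.mpr hne)
  have hB0 : 0 < 2 * R0 + 5 := by linarith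
  have h7 : Real.log ((2 * R0 + 5) / t) ≤ 2 * √((2 * R0 + 5) / t) := by
    have h8 : (0 : ℝ) < (2 * R0 + 5) / t := by positivity
    have h9 : Real.log ((2 * R0 + 5) / t) = 2 * Real.log (√((2 * R0 + 5) / t)) := by
      rw [Real.log_sqrt h8.le]; ring
    rw [h9]
    have := Real.log_le_sub_one_of_pos (Real.sqrt_pos.mpr h8)
    linarith
  have h10 : t * √((2 * R0 + 5) / t) = √((2 * R0 + 5) * t) := by
    rw [Real.sqrt_div hB0.le, Real.sqrt_mul hB0.le]
    have : √t * √t = t := Real.mul_self_sqrt ht0.le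
    have h11 : 0 < √t := Real.sqrt_pos.mpr ht0
    field_simp
    rw [sq, this]
  rw [div_mul_eq_mul_div, le_div_iff₀ hr]
  calc ‖vk n c j z - vk n c j w‖ * r ≤ 2 * t * Real.log ((2 * R0 + 5) / t) := h3
    _ ≤ 2 * t * (2 * √((2 * R0 + 5) / t)) := by gcongr
    _ = 4 * (t * √((2 * R0 + 5) / t)) := by ring
    _ = 4 * √((2 * R0 + 5) * t) := by rw [h10]

theorem Q.v0_bound (h : Q n c r) {R0 : ℝ} (hR : 3 ≤ R0) {z : ℂ} (hz : z ∉ K n c)
    (hz1 : ‖z‖ ≤ R0) : ‖v0 n c z‖ ≤ (2 * R0 + 4) / r := by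
  have hr := h.hr
  have ht : Tendsto (fun k => ‖vk n c k z‖) atTop (𝓝 ‖v0 n c z‖) := (h.tendsto_vk hz).norm
  refine le_of_tendsto ht ?_
  filter_upwards [h.level hz] with j hj1
  obtain ⟨Φ, hΦ1, hΦ2⟩ := motion h.hn hr h.mem j
  obtain ⟨hd1, hc1, he1⟩ := hΦ1 z (by linarith)
  have hv1 := deriv_motion h.hn hr hd1 he1 (by rw [hc1]; exact h.P_ne hz j)
  rw [hc1] at hv1
  rw [← hv1]
  apply Complex.norm_deriv_le_div_of_mapsTo_ball hd1 _ hr
  intro a ha
  rw [mem_closedBall_iff_norm]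
  have h4 := motion_bound h.hn (h.norm_a ha) h.c2 hR hz1 (he1 a ha)
  calc ‖Φ z a - Φ z c‖ ≤ ‖Φ z a‖ + ‖Φ z c‖ := norm_sub_le _ _
    _ ≤ 2 * R0 + 4 := by rw [hc1]; linarith

theorem Q.v0_far (h : Q n c r) {z : ℂ} (hz : 3 < ‖z‖) : ‖v0 n c z‖ ≤ 1 := by
  have hzK : z ∉ K n c := not_mem_K.mpr ⟨0, hz⟩
  have hz' : 3 < ‖orb n c z 0‖ := hz
  simp only [v0, norm_neg]
  have hs : Summable fun k : ℕ => (1 / 6 : ℝ) ^ (k + 1) :=
    (summable_nat_add_iff 1).mpr (summable_geometric_of_lt_one (by norm_num) (by norm_num))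
  refine (tsum_of_norm_bounded hs.hasSum ?_).trans ?_
  · intro k
    have := h.inv_le hz' (k + 1)
    rw [zero_add, P_zero, inv_one, norm_one, one_mul] at this
    exact this
  · have : ∑' k : ℕ, (1 / 6 : ℝ) ^ (k + 1) = 1 / 5 := by
      simp only [pow_succ]
      rw [tsum_mul_right, tsum_geometric_of_lt_one (by norm_num) (by norm_num)]
      norm_num
    rw [this]; norm_num

end Pool.Agent.J4H16
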