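import Mathlib
import Pool.Agent.J4H16.VF
import Pool.Agent.Helper113.Gorin.Schottky

/-!
# The velocities of the vertices of a square
-/

set_option autoImplicit false
open Set Filter Topology Metric Complex

namespace Pool.Agent.J4H16

open Pool.Agent.W746.LD

/-- Schottky's constant -/
noncomputable def CS : ℝ := Real.exp (Real.pi * Real.exp (Real.pi * (3 + 386)))

theorem CS_pos : 0 < CS := Real.exp_pos _

/-- Four points which move holomorphically without collisions and start at the vertices of a square. -/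
theorem cross {c : ℂ} {r : ℝ} (hr : 0 < r) {W1 W2 W3 W4 : ℂ → ℂ}
    (h1 : DifferentiableOn ℂ W1 (ball c r)) (h2 : DifferentiableOn ℂ W2 (ball c r))
    (h3 : DifferentiableOn ℂ W3 (ball c r)) (h4 : DifferentiableOn ℂ W4 (ball c r))
    (h13 : ∀ a ∈ ball c r, W1 a ≠ W3 a) (h24 : ∀ a ∈ ball c r, W2 a ≠ W4 a)
    (h12 : ∀ a ∈ ball c r, W1 a ≠ W2 a) (h23 : ∀ a ∈ ball c r, W2 a ≠ W3 a)
    (h34 : ∀ a ∈ ball c r, W3 a ≠ W4 a) (h41 : ∀ a ∈ ball c r, W4 a ≠ W1 a) {z h : ℂ} (hh : h ≠ 0)
    (e1 : W1 c = z + h) (e2 : W2 c = z + I * h) (e3 : W3 c = z - h) (e4 : W4 c = z - I * h) :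
    ‖deriv W1 c + I * deriv W2 c - deriv W3 c - I * deriv W4 c‖ ≤ 2 * CS / r * ‖h‖ := by
  have hcm : c ∈ ball c r := mem_ball_self hr
  have hcn := isOpen_ball.mem_nhds hcm
  set v1 := deriv W1 c with hv1
  set v2 := deriv W2 c with hv2
  set v3 := deriv W3 c with hv3
  set v4 := deriv W4 c with hv4
  have d1 : HasDerivAt W1 v1 c := (h1.differentiableAt hcn).hasDerivAt
  have d2 : HasDerivAt W2 v2 c := (h2.differentiableAt hcn).hasDerivAt
  have d3 : HasDerivAt W3 v3 c := (h3.differentiableAt hcn).hasDerivAt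
  have d4 : HasDerivAt W4 v4 c := (h4.differentiableAt hcn).hasDerivAt
  set lam : ℂ → ℂ := fun a => ((W1 a - W2 a) * (W3 a - W4 a)) / ((W2 a - W3 a) * (W4 a - W1 a))
    with hlam
  have hI2 : (I : ℂ) * I = -1 := I_mul_I
  have hden : ∀ a ∈ ball c r, (W2 a - W3 a) * (W4 a - W1 a) ≠ 0 := fun a ha =>
    mul_ne_zero (sub_ne_zero.mpr (h23 a ha)) (sub_ne_zero.mpr (h41 a ha))
  have hld : DifferentiableOn ℂ lam (ball c r) :=
    ((h1.sub h2).mul (h3.sub h4)).div ((h2.sub h3).mul (h4.sub h1)) hden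
  have hl0 : ∀ a ∈ ball c r, lam a ≠ 0 := fun a ha =>
    div_ne_zero (mul_ne_zero (sub_ne_zero.mpr (h12 a ha)) (sub_ne_zero.mpr (h34 a ha))) (hden a ha)
  have hl1 : ∀ a ∈ ball c r, lam a ≠ 1 := by
    intro a ha hc1
    rw [hlam] at hc1
    simp only at hc1
    rw [div_eq_one_iff_eq (hden a ha)] at hc1
    have : (W1 a - W3 a) * (W2 a - W4 a) = 0 := by linear_combination hc1
    exact mul_ne_zero (sub_ne_zero.mpr (h13 a ha)) (sub_ne_zero.mpr (h24 a ha)) this
  have hlc : lam c = -1 := by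
    simp only [hlam, e1, e2, e3, e4]
    have hne : (z + I * h - (z - h)) * (z - I * h - (z + h)) ≠ 0 := by
      have := hden c hcm
      rwa [e1, e2, e3, e4] at this
    rw [div_eq_iff hne]
    linear_combination (-2 * h ^ 2) * hI2
  -- the derivative
  have hld' : HasDerivAt lam (-I * (v1 + I * v2 - v3 - I * v4) / h) c := by
    have hn := (d1.sub d2).mul (d3.sub d4)
    have hd := (d2.sub d3).mul (d4.sub d1)
    have hq := hn.div hd (hden c hcm)
    convert! hq using 1
    simp only [Pi.sub_apply, Pi.mul_apply, e1, e2, e3, e4]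
    have hne : (z + I * h - (z - h)) * (z - I * h - (z + h)) ≠ 0 := by
      have := hden c hcm
      rwa [e1, e2, e3, e4] at this
    have hD : (z + I * h - (z - h)) * (z - I * h - (z + h)) = -2 * I * h ^ 2 := by
      linear_combination (-h ^ 2) * hI2
    rw [hD]
    have hI0 : (I : ℂ) ≠ 0 := I_ne_zero
    have h20 : (-2 * I * h ^ 2 : ℂ) ≠ 0 := by rw [← hD]; exact hne
    rw [div_eq_div_iff hh (pow_ne_zero 2 h20)]
    have hI3 : (I : ℂ) ^ 2 = -1 := I_sq
    ring_nf
    simp only [show (I : ℂ) ^ 3 = -I by rw [pow_succ, hI3]; ring,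
      show (I : ℂ) ^ 4 = 1 by rw [show 4 = 2 * 2 by rfl, pow_mul, hI3]; norm_num, hI3]
    ring
  -- Schottky's theorem
  have hmap : ∀ t ∈ ball (0 : ℂ) 1, c + r * t ∈ ball c r := by
    intro t ht
    rw [mem_ball_zero_iff] at ht
    rw [mem_ball_iff_norm, add_sub_cancel_left, norm_mul, Complex.norm_real, Real.norm_eq_abs,
      abs_of_pos hr]
    nlinarith
  set F : ℂ → ℂ := fun t => 2 * lam (c + r * t) - 1 with hF
  have hFd : DifferentiableOn ℂ F (ball 0 1) := by
    intro t ht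
    have h5 : DifferentiableAt ℂ (fun t : ℂ => c + r * t) t := by fun_prop
    have h6 : DifferentiableAt ℂ (fun t : ℂ => lam (c + r * t)) t :=
      DifferentiableAt.comp t (hld.differentiableAt (isOpen_ball.mem_nhds (hmap t ht))) h5
    exact ((h6.const_mul 2).sub_const 1).differentiableWithinAt
  have hF1 : ∀ t ∈ ball (0 : ℂ) 1, F t ≠ 1 := by
    intro t ht h5
    apply hl1 _ (hmap t ht)
    have h6 : 2 * lam (c + r * t) - 1 = 1 := h5
    linear_combination h6 / 2
  have hF2 : ∀ t ∈ ball (0 : ℂ) 1, F t ≠ -1 := by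
    intro t ht h5
    apply hl0 _ (hmap t ht)
    have h6 : 2 * lam (c + r * t) - 1 = -1 := h5
    linear_combination h6 / 2
  have hF0 : ‖F 0‖ ≤ 3 := by
    simp only [hF, mul_zero, add_zero, hlc]
    norm_num
  have hS := H113G.schottky_all F 3 hFd hF1 hF2 hF0
  have h0 : (0 : ℂ) ∈ ball (0 : ℂ) (1 / 2) := mem_ball_self (by norm_num)
  have hmaps : MapsTo F (ball 0 (1 / 2)) (closedBall (F 0) (2 * CS)) := by
    intro t ht
    rw [mem_closedBall_iff_norm]
    have h5 := hS t ht
    have h6 := hS 0 h0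
    have h7 := norm_sub_le (F t) (F 0)
    simp only [CS]
    linarith
  have h8 := Complex.norm_deriv_le_div_of_mapsTo_ball
    (hFd.mono (ball_subset_ball (by norm_num))) hmaps (by norm_num)
  have h9 : HasDerivAt F (2 * ((-I * (v1 + I * v2 - v3 - I * v4) / h) * r)) 0 := by
    have h10 : HasDerivAt (fun t : ℂ => c + r * t) (r : ℂ) 0 := by
      have := ((hasDerivAt_id (0 : ℂ)).const_mul (r : ℂ)).const_add c
      simpa using this
    have h11 : HasDerivAt lam (-I * (v1 + I * v2 - v3 - I * v4) / h) (c + r * (0 : ℂ)) := by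
      simpa using hld'
    have h12 := HasDerivAt.comp (0 : ℂ) h11 h10
    exact (h12.const_mul 2).sub_const 1
  rw [h9.deriv, norm_mul, norm_mul, norm_div, norm_mul, norm_neg, Complex.norm_I, one_mul,
    Complex.norm_real, Real.norm_eq_abs, abs_of_pos hr, Complex.norm_ofNat] at h8
  have hh' : 0 < ‖h‖ := norm_pos_iff.mpr hh
  rw [div_mul_eq_mul_div, le_div_iff₀ hr]
  have h13 : 2 * CS / (1 / 2) = 4 * CS := by ring
  rw [h13] at h8
  have h14 : 2 * (‖v1 + I * v2 - v3 - I * v4‖ / ‖h‖ * r) =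
      (2 * (‖v1 + I * v2 - v3 - I * v4‖ * r)) / ‖h‖ := by ring
  rw [h14, div_le_iff₀ hh'] at h8
  linarith

open Pool.Agent.H713R2.AR (Bd)

/-- The velocities at the vertices of a square. -/
theorem Q.v0_square {n : ℕ} {c : ℂ} {r : ℝ} (h : Q n c r) {z t : ℂ} (ht : t ≠ 0)
    (k1 : z + t ∉ K n c) (k2 : z + I * t ∉ K n c) (k3 : z - t ∉ K n c) (k4 : z - I * t ∉ K n c) :
    ‖v0 n c (z + t) + I * v0 n c (z + I * t) - v0 n c (z - t) - I * v0 n c (z - I * t)‖ ≤
      2 * CS / r * ‖t‖ := by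
  have hr := h.hr
  have hlim : Tendsto (fun k => ‖vk n c k (z + t) + I * vk n c k (z + I * t) - vk n c k (z - t) -
      I * vk n c k (z - I * t)‖) atTop (𝓝 ‖v0 n c (z + t) + I * v0 n c (z + I * t) -
      v0 n c (z - t) - I * v0 n c (z - I * t)‖) :=
    ((((h.tendsto_vk k1).add ((h.tendsto_vk k2).const_mul I)).sub (h.tendsto_vk k3)).sub
      ((h.tendsto_vk k4).const_mul I)).norm
  refine le_of_tendsto hlim ?_
  filter_upwards [h.level k1, h.level k2, h.level k3, h.level k4] with j l1 l2 l3 l4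
  obtain ⟨Φ, hΦ1, hΦ2⟩ := motion h.hn hr h.mem j
  have key : ∀ w, w ∉ K n c → 3 < ‖orb n c w j‖ → DifferentiableOn ℂ (Φ w) (ball c r) ∧ Φ w c = w ∧
      deriv (Φ w) c = vk n c j w := by
    intro w hwK hw
    obtain ⟨hd, hc, he⟩ := hΦ1 w (by linarith)
    have := deriv_motion h.hn hr hd he (by rw [hc]; exact h.P_ne hwK j)
    rw [hc] at this
    exact ⟨hd, hc, this⟩
  obtain ⟨a1, b1, c1⟩ := key _ k1 l1
  obtain ⟨a2, b2, c2⟩ := key _ k2 l2
  obtain ⟨a3, b3, c3⟩ := key _ k3 l3
  obtain ⟨a4, b4, c4⟩ := key _ k4 l4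
  have hI0 : (I : ℂ) ≠ 0 := I_ne_zero
  have n1 : (1 : ℂ) + I ≠ 0 := by
    intro h; have := congrArg Complex.re h; simp at this
  have n2 : (1 : ℂ) - I ≠ 0 := by
    intro h; have := congrArg Complex.re h; simp at this
  have q13 : z + t ≠ z - t := by
    intro h; apply ht; linear_combination h / 2
  have q24 : z + I * t ≠ z - I * t := by
    intro h
    have : I * t = 0 := by linear_combination h / 2
    exact (mul_ne_zero hI0 ht) this
  have q12 : z + t ≠ z + I * t := by
    intro h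
    have : (1 - I) * t = 0 := by linear_combination h
    exact (mul_ne_zero n2 ht) this
  have q23 : z + I * t ≠ z - t := by
    intro h
    have : (1 + I) * t = 0 := by linear_combination h
    exact (mul_ne_zero n1 ht) this
  have q34 : z - t ≠ z - I * t := by
    intro h
    have : (1 - I) * t = 0 := by linear_combination -h
    exact (mul_ne_zero n2 ht) this
  have q41 : z - I * t ≠ z + t := by
    intro h
    have : (1 + I) * t = 0 := by linear_combination -h
    exact (mul_ne_zero n1 ht) this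
  have := cross hr a1 a2 a3 a4 (hΦ2 _ _ (by linarith) (by linarith) q13)
    (hΦ2 _ _ (by linarith) (by linarith) q24) (hΦ2 _ _ (by linarith) (by linarith) q12)
    (hΦ2 _ _ (by linarith) (by linarith) q23) (hΦ2 _ _ (by linarith) (by linarith) q34)
    (hΦ2 _ _ (by linarith) (by linarith) q41) ht b1 b2 b3 b4
  rwa [c1, c2, c3, c4] at this

end Pool.Agent.J4H16
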