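import Mathlib
import Pool.Agent.J4H16.Sq

/-!
# The vector field on the plane
-/

set_option autoImplicit false
open Set Filter Topology Metric Complex

namespace Pool.Agent.J4H16

open Pool.Agent.W746.LD

variable {n : ℕ} {c : ℂ} {r : ℝ}

/-- The vector field of the deformation. -/
structure VF (n : ℕ) (c : ℂ) (v : ℂ → ℂ) (A M : ℝ) : Prop where
  A0 : 0 < A
  cont : Continuous v
  hol : DifferentiableOn ℂ v (K n c)ᶜ
  eq : ∀ z, v (z ^ n + c) = n * z ^ (n - 1) * v z + 1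
  bd : ∀ z, ‖v z‖ ≤ M
  sq : ∀ z t, ‖v (z + t) + I * v (z + I * t) - v (z - t) - I * v (z - I * t)‖ ≤ A * ‖t‖

theorem Q.tendsto_ext (h : Q n c r) (hd : Dense (K n c)ᶜ) (x : ℂ) :
    ∃ y, Tendsto (v0 n c) (𝓝[(K n c)ᶜ] x) (𝓝 y) := by
  have : NeBot (𝓝[(K n c)ᶜ] x) := mem_closure_iff_nhdsWithin_neBot.mp (hd x)
  rw [← cauchy_map_iff_exists_tendsto, Metric.cauchy_iff]
  refine ⟨inferInstance, ?_⟩
  intro ε hε
  have hr := h.hr
  set R0 : ℝ := ‖x‖ + 4 with hR0
  have hR : 3 ≤ R0 := by rw [hR0]; linarith [norm_nonneg x]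
  have hR5 : 0 < 2 * R0 + 5 := by linarith
  set δ : ℝ := min 1 ((r * ε / 8) ^ 2 / (2 * (2 * R0 + 5))) with hδ
  have hδ0 : 0 < δ := by rw [hδ]; positivity
  refine ⟨v0 n c '' ((K n c)ᶜ ∩ ball x δ), ?_, ?_⟩
  · apply image_mem_map
    exact inter_mem_nhdsWithin _ (ball_mem_nhds x hδ0)
  · rintro _ ⟨z, ⟨hz1, hz2⟩, rfl⟩ _ ⟨w, ⟨hw1, hw2⟩, rfl⟩
    have hb : ∀ y ∈ ball x δ, ‖y‖ ≤ R0 := by
      intro y hy
      rw [mem_ball_iff_norm] at hy
      have h1 : ‖y‖ ≤ ‖y - x‖ + ‖x‖ := by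
        have := norm_add_le (y - x) x
        rwa [sub_add_cancel] at this
      have h2 : δ ≤ 1 := min_le_left _ _
      rw [hR0]; linarith
    have h3 := h.v0_holder hR hz1 hw1 (hb z hz2) (hb w hw2)
    rw [dist_eq_norm]
    refine h3.trans_lt ?_
    have h4 : ‖z - w‖ < 2 * δ := by
      rw [mem_ball, dist_eq_norm] at hz2 hw2
      calc ‖z - w‖ = ‖(z - x) - (w - x)‖ := by congr 1; ring
        _ ≤ ‖z - x‖ + ‖w - x‖ := norm_sub_le _ _
        _ < 2 * δ := by linarith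
    have h5 : (2 * R0 + 5) * ‖z - w‖ ≤ (r * ε / 8) ^ 2 := by
      have h6 : δ ≤ (r * ε / 8) ^ 2 / (2 * (2 * R0 + 5)) := min_le_right _ _
      rw [le_div_iff₀ (by positivity)] at h6
      nlinarith
    have h7 : √((2 * R0 + 5) * ‖z - w‖) ≤ r * ε / 8 := by
      rw [Real.sqrt_le_left (by positivity)]
      exact h5
    calc 4 / r * √((2 * R0 + 5) * ‖z - w‖) ≤ 4 / r * (r * ε / 8) := by gcongr
      _ = ε / 2 := by field_simp; ring
      _ < ε := by linarith

theorem Q.exists_VF (h : Q n c r) (hd : Dense (K n c)ᶜ) : ∃ (v : ℂ → ℂ) (A M : ℝ), VF n c v A M := by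
  have hr := h.hr
  have hO : IsOpen (K n c)ᶜ := (isClosed_K n c).isOpen_compl
  set v := extendFrom (K n c)ᶜ (v0 n c) with hv
  have hcont : Continuous v := continuous_extendFrom hd (h.tendsto_ext hd)
  have hvv : ∀ x ∈ (K n c)ᶜ, v x = v0 n c x := extendFrom_extends h.diff_v0.continuousOn
  refine ⟨v, 2 * CS / r, max 1 ((2 * 3 + 4) / r), ?_, hcont, ?_, ?_, ?_, ?_⟩
  · have := CS_pos; positivity
  · exact h.diff_v0.congr hvv
  · have h1 : Continuous fun z : ℂ => v (z ^ n + c) := by fun_prop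
    have h2 : Continuous fun z : ℂ => n * z ^ (n - 1) * v z + 1 := by fun_prop
    have h3 := Continuous.ext_on hd h1 h2 (fun z hz => by
      have hfz : z ^ n + c ∈ (K n c)ᶜ := fun h' => hz ((mem_K_iff h.hn h.c2 z).mp h')
      simp only [hvv z hz, hvv _ hfz]
      exact h.v0_eq hz)
    exact fun z => congrFun h3 z
  · have hcl : IsClosed {z | ‖v z‖ ≤ max 1 ((2 * 3 + 4) / r)} := isClosed_le hcont.norm continuous_const
    intro z
    have : z ∈ closure (K n c)ᶜ := hd z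
    refine closure_minimal ?_ hcl this
    intro w hw
    rw [mem_ofPred_eq, hvv w hw]
    rcases le_or_gt ‖w‖ 3 with h3 | h3
    · exact (h.v0_bound le_rfl hw h3).trans (le_max_right _ _)
    · exact (h.v0_far h3).trans (le_max_left _ _)
  · intro z t
    rcases eq_or_ne t 0 with rfl | ht
    · simp
    have hT : ∀ s : ℂ, IsOpen {z | z + s ∈ (K n c)ᶜ} ∧ Dense {z | z + s ∈ (K n c)ᶜ} := by
      intro s
      refine ⟨hO.preimage (by fun_prop : Continuous fun z : ℂ => z + s), ?_⟩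
      exact hd.preimage (Homeomorph.addRight s).isOpenMap
    obtain ⟨o1, e1⟩ := hT t
    obtain ⟨o2, e2⟩ := hT (I * t)
    obtain ⟨o3, e3⟩ := hT (-t)
    obtain ⟨o4, e4⟩ := hT (-(I * t))
    have hD := e1.inter_of_isOpen_left (e2.inter_of_isOpen_left (e3.inter_of_isOpen_left e4 o3) o2) o1
    have hcl : IsClosed {z | ‖v (z + t) + I * v (z + I * t) - v (z - t) - I * v (z - I * t)‖ ≤
        2 * CS / r * ‖t‖} := isClosed_le (by fun_prop) continuous_const
    refine closure_minimal ?_ hcl (hD z)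
    rintro w ⟨w1, w2, w3, w4⟩
    simp only [mem_ofPred_eq, ← sub_eq_add_neg] at w1 w2 w3 w4 ⊢
    rw [hvv _ w1, hvv _ w2, hvv _ w3, hvv _ w4]
    exact h.v0_square ht w1 w2 w3 w4

end Pool.Agent.J4H16
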