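import Mathlib
import Pool.Agent.J4H16.Ext
import Pool.Agent.N833.W.WeylPB
import Pool.Agent.N690.W.MOM

/-!
# Difference quotients and weak limits
-/

set_option autoImplicit false
open Set Filter Topology Metric Complex MeasureTheory
open scoped InnerProductSpace ComplexConjugate

namespace Pool.Agent.J4H16

open Pool.Agent.H761R2.SV (dbar)

theorem weak_lim {H : Type*} [NormedAddCommGroup H] [InnerProductSpace ℂ H] [CompleteSpace H]
    (G : ℕ → H) (C : ℝ) (hC : ∀ k, ‖G k‖ ≤ C) :
    ∃ g : H, ∀ q : H, Tendsto (fun k => ⟪G k, q⟫_ℂ) (hyperfilter ℕ : Filter ℕ) (𝓝 ⟪g, q⟫_ℂ) := by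
  have hb : ∀ q k, ‖⟪G k, q⟫_ℂ‖ ≤ C * ‖q‖ := fun q k =>
    (norm_inner_le_norm _ _).trans (mul_le_mul_of_nonneg_right (hC k) (norm_nonneg _))
  have hex : ∀ q : H, ∃ y, ‖y‖ ≤ C * ‖q‖ ∧
      Tendsto (fun k => ⟪G k, q⟫_ℂ) (hyperfilter ℕ : Filter ℕ) (𝓝 y) := by
    intro q
    have h1 := (isCompact_closedBall (0 : ℂ) (C * ‖q‖)).ultrafilter_le_nhds
      (Ultrafilter.map (fun k => ⟪G k, q⟫_ℂ) (hyperfilter ℕ)) (by
        rw [le_principal_iff]
        have : (fun k => ⟪G k, q⟫_ℂ) ⁻¹' closedBall (0 : ℂ) (C * ‖q‖) = univ := by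
          ext k
          simp only [mem_preimage, mem_closedBall_zero_iff, mem_univ, iff_true]
          exact hb q k
        rw [Ultrafilter.mem_coe, Ultrafilter.mem_map, this]
        exact univ_mem)
    obtain ⟨y, hy1, hy2⟩ := h1
    exact ⟨y, by simpa using hy1, hy2⟩
  choose l hl1 hl2 using hex
  have hadd : ∀ p q, l (p + q) = l p + l q := by
    intro p q
    refine tendsto_nhds_unique (hl2 (p + q)) ?_
    have := (hl2 p).add (hl2 q)
    simpa only [inner_add_right] using this
  have hsmul : ∀ (a : ℂ) q, l (a • q) = a • l q := by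
    intro a q
    refine tendsto_nhds_unique (hl2 (a • q)) ?_
    have := (hl2 q).const_mul a
    simpa only [inner_smul_right, smul_eq_mul] using this
  let L0 : H →ₗ[ℂ] ℂ := { toFun := l, map_add' := hadd, map_smul' := hsmul }
  let L : H →L[ℂ] ℂ := L0.mkContinuous C hl1
  refine ⟨(InnerProductSpace.toDual ℂ H).symm L, fun q => ?_⟩
  rw [InnerProductSpace.toDual_symm_apply]
  exact hl2 q

/-- the difference quotient -/
noncomputable def DD (g : ℂ → ℂ) (t : ℝ) (z : ℂ) : ℂ :=
  (g (z + t) + I * g (z + I * t) - g (z - t) - I * g (z - I * t)) / (4 * t)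

theorem line_tendsto {g : ℂ → ℂ} {z : ℂ} (hg : DifferentiableAt ℝ g z) (u : ℂ) :
    Tendsto (fun t : ℝ => (g (z + u * t) - g (z - u * t)) / (2 * t)) (𝓝[≠] 0)
      (𝓝 (fderiv ℝ g z u)) := by
  have h1 : HasDerivAt (fun t : ℝ => z + t • u) u 0 := by
    have := ((hasDerivAt_id (0 : ℝ)).smul_const u).const_add z
    simpa using this
  have h2 : HasFDerivAt g (fderiv ℝ g z) (z + (0 : ℝ) • u) := by simpa using hg.hasFDerivAt
  have h3 : HasDerivAt (fun t : ℝ => g (z + t • u)) (fderiv ℝ g z u) 0 := h2.comp_hasDerivAt 0 h1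
  have h4 := hasDerivAt_iff_tendsto_slope.mp h3
  have hneg : Tendsto (fun t : ℝ => -t) (𝓝[≠] 0) (𝓝[≠] 0) := by
    refine tendsto_nhdsWithin_iff.mpr ⟨?_, ?_⟩
    · have : Tendsto (fun t : ℝ => -t) (𝓝 0) (𝓝 (-0)) := (continuous_neg.tendsto 0)
      rw [neg_zero] at this
      exact this.mono_left nhdsWithin_le_nhds
    · filter_upwards [self_mem_nhdsWithin] with t ht
      simpa using ht
  have h5 := h4.comp hneg
  have h6 := (h4.add h5).const_mul (1 / 2 : ℂ)
  have e : (1 / 2 : ℂ) * (fderiv ℝ g z u + fderiv ℝ g z u) = fderiv ℝ g z u := by ring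
  rw [e] at h6
  refine h6.congr' ?_
  filter_upwards [self_mem_nhdsWithin] with t ht
  have ht' : (t : ℂ) ≠ 0 := by exact_mod_cast ht
  simp only [slope, vsub_eq_sub, sub_zero, Function.comp, zero_smul, add_zero, neg_smul,
    Complex.real_smul, Complex.ofReal_inv, Complex.ofReal_neg]
  rw [mul_comm u (t : ℂ), ← sub_eq_add_neg]
  field_simp
  ring

theorem DD_tendsto {g : ℂ → ℂ} {z : ℂ} (hg : DifferentiableAt ℝ g z) :
    Tendsto (fun t : ℝ => DD g t z) (𝓝[≠] 0) (𝓝 (dbar g z)) := by
  have h1 := line_tendsto hg 1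
  have h2 := line_tendsto hg I
  have h3 := (h1.add (h2.const_mul I)).div_const 2
  refine h3.congr' ?_
  filter_upwards [self_mem_nhdsWithin] with t ht
  have ht' : (t : ℂ) ≠ 0 := by exact_mod_cast ht
  simp only [DD, one_mul]
  field_simp
  ring

/-- the sequence of steps -/
noncomputable def ts (k : ℕ) : ℝ := 1 / ((k : ℝ) + 1)

theorem ts_pos (k : ℕ) : 0 < ts k := by unfold ts; positivity

theorem ts_le (k : ℕ) : ts k ≤ 1 := by
  unfold ts
  rw [div_le_one (by positivity)]
  linarith [(Nat.cast_nonneg k : (0 : ℝ) ≤ k)]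

theorem ts_tendsto : Tendsto ts atTop (𝓝[≠] 0) := by
  refine tendsto_nhdsWithin_iff.mpr ⟨tendsto_one_div_add_atTop_nhds_zero_nat, ?_⟩
  exact Eventually.of_forall fun k => (ts_pos k).ne'

theorem continuous_DD {g : ℂ → ℂ} (hg : Continuous g) (t : ℝ) : Continuous (DD g t) := by
  unfold DD
  fun_prop

theorem int_shift {v χ : ℂ → ℂ} (hv : Continuous v) (hχ : Continuous χ) (hc : HasCompactSupport χ)
    (s : ℂ) : Integrable (fun z => v z * χ (z + s)) ∧ Integrable (fun z => v (z - s) * χ z) ∧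
      ∫ z, v z * χ (z + s) = ∫ z, v (z - s) * χ z := by
  have h1 : Integrable (fun z => v (z - s) * χ z) := by
    apply Continuous.integrable_of_hasCompactSupport (by fun_prop)
    exact hc.mul_left
  have h2 : (fun z => v z * χ (z + s)) = fun z => (fun z => v (z - s) * χ z) (z + s) := by
    funext z
    simp
  refine ⟨?_, h1, ?_⟩
  · rw [h2]
    exact h1.comp_add_right s
  · rw [h2, integral_add_right_eq_self (fun z => v (z - s) * χ z) s]

theorem int4 {F1 F2 F3 F4 : ℂ → ℂ} (h1 : Integrable F1) (h2 : Integrable F2) (h3 : Integrable F3)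
    (h4 : Integrable F4) : ∫ a, (F1 a + I * F2 a - F3 a - I * F4 a) =
      (∫ a, F1 a) + I * (∫ a, F2 a) - (∫ a, F3 a) - I * ∫ a, F4 a := by
  have k2 : Integrable (fun a => I * F2 a) := h2.const_mul I
  have k4 : Integrable (fun a => I * F4 a) := h4.const_mul I
  have k12 : Integrable (fun a => F1 a + I * F2 a) := h1.add k2
  have k123 : Integrable (fun a => F1 a + I * F2 a - F3 a) := k12.sub h3
  rw [integral_sub k123 k4, integral_sub k12 h3, integral_add h1 k2, integral_const_mul,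
    integral_const_mul]

theorem int_DD {v χ : ℂ → ℂ} (hv : Continuous v) (hχ : Continuous χ) (hc : HasCompactSupport χ)
    (t : ℝ) : ∫ z, v z * DD χ t z = - ∫ z, DD v t z * χ z := by
  obtain ⟨a1, b1, c1⟩ := int_shift hv hχ hc t
  obtain ⟨a2, b2, c2⟩ := int_shift hv hχ hc (I * t)
  obtain ⟨a3, b3, c3⟩ := int_shift hv hχ hc (-t)
  obtain ⟨a4, b4, c4⟩ := int_shift hv hχ hc (-(I * t))
  have e1 : (fun z => v z * DD χ t z) = fun z => (4 * t : ℂ)⁻¹ * (v z * χ (z + t) +
      I * (v z * χ (z + I * t)) - v z * χ (z + -t) - I * (v z * χ (z + -(I * t)))) := by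
    funext z
    simp only [DD, ← sub_eq_add_neg]
    ring
  have e2 : (fun z => DD v t z * χ z) = fun z => (4 * t : ℂ)⁻¹ * (v (z - -t) * χ z +
      I * (v (z - -(I * t)) * χ z) - v (z - t) * χ z - I * (v (z - I * t) * χ z)) := by
    funext z
    simp only [DD, sub_neg_eq_add]
    ring
  rw [e1, e2, integral_const_mul, integral_const_mul, int4 a1 a2 a3 a4, int4 b3 b4 b1 b2,
    c1, c2, c3, c4]
  ring

/-- the limit of the integrals of difference quotients -/
theorem tendsto_int_DD {v χ : ℂ → ℂ} (hv : Continuous v) (hχ : ContDiff ℝ 1 χ)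
    (hc : HasCompactSupport χ) :
    Tendsto (fun k => ∫ z, v z * DD χ (ts k) z) atTop (𝓝 (∫ z, v z * dbar χ z)) := by
  obtain ⟨L, hL⟩ := hχ.lipschitzWith_of_hasCompactSupport hc (by simp)
  obtain ⟨R, hR⟩ := (hc.isCompact.isBounded).subset_closedBall (0 : ℂ)
  have hzero : ∀ z : ℂ, R + 1 < ‖z‖ → ∀ s : ℂ, ‖s‖ ≤ 1 → χ (z + s) = 0 := by
    intro z hz s hs
    apply image_eq_zero_of_notMem_tsupport
    intro h
    have h1 := hR h
    rw [mem_closedBall_zero_iff] at h1
    have h2 : ‖z‖ ≤ ‖z + s‖ + ‖s‖ := by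
      have := norm_sub_le (z + s) s
      rwa [add_sub_cancel_right] at this
    linarith
  have hD0 : ∀ k, ∀ z : ℂ, z ∉ closedBall (0 : ℂ) (R + 1) → DD χ (ts k) z = 0 := by
    intro k z hz
    rw [mem_closedBall_zero_iff, not_le] at hz
    have ht0 := ts_pos k
    have ht1 := ts_le k
    have n1 : ‖((ts k : ℝ) : ℂ)‖ ≤ 1 := by
      rw [Complex.norm_real, Real.norm_of_nonneg ht0.le]; exact ht1
    have n2 : ‖I * ((ts k : ℝ) : ℂ)‖ ≤ 1 := by rw [norm_mul, Complex.norm_I, one_mul]; exact n1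
    simp only [DD]
    rw [hzero z hz _ n1, hzero z hz _ n2, sub_eq_add_neg z, hzero z hz _ (by rwa [norm_neg]),
      sub_eq_add_neg z, hzero z hz _ (by rwa [norm_neg])]
    simp
  have hDL : ∀ k z, ‖DD χ (ts k) z‖ ≤ L := by
    intro k z
    have ht0 := ts_pos k
    have e : DD χ (ts k) z = ((χ (z + ts k) - χ (z - ts k)) +
        I * (χ (z + I * ts k) - χ (z - I * ts k))) / (4 * ts k) := by
      simp only [DD]; ring
    rw [e, norm_div, div_le_iff₀ (by rw [norm_mul, Complex.norm_real, Real.norm_of_nonneg ht0.le]; simp; exact ht0)]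
    have l1 : ‖χ (z + ts k) - χ (z - ts k)‖ ≤ L * (2 * ts k) := by
      have := hL.dist_le_mul (z + ts k) (z - ts k)
      rw [dist_eq_norm, dist_eq_norm] at this
      refine this.trans (le_of_eq ?_)
      congr 1
      rw [show z + (ts k : ℂ) - (z - ts k) = ((2 * ts k : ℝ) : ℂ) by push_cast; ring,
        Complex.norm_real, Real.norm_of_nonneg (by positivity)]
    have l2 : ‖χ (z + I * ts k) - χ (z - I * ts k)‖ ≤ L * (2 * ts k) := by
      have := hL.dist_le_mul (z + I * ts k) (z - I * ts k)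
      rw [dist_eq_norm, dist_eq_norm] at this
      refine this.trans (le_of_eq ?_)
      congr 1
      rw [show z + I * (ts k : ℂ) - (z - I * ts k) = I * ((2 * ts k : ℝ) : ℂ) by push_cast; ring,
        norm_mul, Complex.norm_I, one_mul, Complex.norm_real, Real.norm_of_nonneg (by positivity)]
    calc _ ≤ ‖χ (z + ts k) - χ (z - ts k)‖ + ‖I * (χ (z + I * ts k) - χ (z - I * ts k))‖ :=
          norm_add_le _ _
      _ ≤ L * (2 * ts k) + L * (2 * ts k) := by
          rw [norm_mul, Complex.norm_I, one_mul]; linarith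
      _ = L * ‖(4 * (ts k : ℂ))‖ := by
          rw [norm_mul, Complex.norm_real, Real.norm_of_nonneg ht0.le, Complex.norm_ofNat]; ring
  refine tendsto_integral_of_dominated_convergence
    (fun z => (closedBall (0 : ℂ) (R + 1)).indicator (fun z => ‖v z‖ * L) z) ?_ ?_ ?_ ?_
  · intro k
    exact (hv.mul (continuous_DD hχ.continuous _)).aestronglyMeasurable
  · rw [integrable_indicator_iff isClosed_closedBall.measurableSet]
    exact (hv.norm.mul continuous_const).continuousOn.integrableOn_compact (isCompact_closedBall _ _)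
  · intro k
    refine Eventually.of_forall fun z => ?_
    by_cases hz : z ∈ closedBall (0 : ℂ) (R + 1)
    · rw [indicator_of_mem hz, norm_mul]
      exact mul_le_mul_of_nonneg_left (hDL k z) (norm_nonneg _)
    · rw [hD0 k z hz, mul_zero, norm_zero]
      exact indicator_nonneg (fun z _ => by positivity) _
  · refine Eventually.of_forall fun z => ?_
    exact ((DD_tendsto (hχ.differentiable (by simp) z)).comp ts_tendsto).const_mul _

end Pool.Agent.J4H16
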