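import Mathlib
import Pool.Agent.J4H16.Nu1

/-!
# The invariant Beltrami differential
-/

set_option autoImplicit false
open Set Filter Topology Metric Complex MeasureTheory
open scoped InnerProductSpace ComplexConjugate

namespace Pool.Agent.J4H16

open Pool.Agent.H761R2.SV (dbar)
open Pool.Agent.W746.LD

variable {n : ℕ} {c : ℂ} {r : ℝ} {v : ℂ → ℂ} {A M : ℝ}

theorem VF.DD_le (h : VF n c v A M) (k : ℕ) (z : ℂ) : ‖DD v (ts k) z‖ ≤ A / 4 := by
  have ht := ts_pos k
  have h1 := h.sq z (ts k)
  have h2 : ‖(4 * (ts k : ℂ))‖ = 4 * ts k := by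
    rw [norm_mul, Complex.norm_real, Real.norm_of_nonneg ht.le, Complex.norm_ofNat]
  unfold DD
  rw [norm_div, h2, div_le_div_iff₀ (by positivity) (by norm_num)]
  rw [Complex.norm_real, Real.norm_of_nonneg ht.le] at h1
  nlinarith

theorem finite_K (n : ℕ) (c : ℂ) : IsFiniteMeasure (volume.restrict (K n c)) := by
  refine ⟨?_⟩
  rw [Measure.restrict_apply_univ]
  exact (measure_mono (fun z hz => mem_closedBall_zero_iff.mpr (K_sub hz))).trans_lt
    (measure_closedBall_lt_top (x := (0 : ℂ)) (r := 3))

/-- The Beltrami differential of the deformation: bounded, supported in the filled Julia set. -/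
theorem VF.exists_nu (h : VF n c v A M) : ∃ ν : ℂ → ℂ, Measurable ν ∧ (∀ z, ‖ν z‖ ≤ A) ∧
    (∀ z, z ∉ K n c → ν z = 0) ∧ ∀ χ : ℂ → ℂ, ContDiff ℝ 1 χ → HasCompactSupport χ →
      ∫ z, v z * dbar χ z = - ∫ z, ν z * χ z := by
  classical
  have hA := h.A0
  have hKm : MeasurableSet (K n c) := (isClosed_K n c).measurableSet
  set μ : Measure ℂ := volume.restrict (K n c) with hμ
  have : IsFiniteMeasure μ := finite_K n c
  have hcD : ∀ k, Continuous (DD v (ts k)) := fun k => continuous_DD h.cont _
  have hmem : ∀ k, MemLp (fun z => conj (DD v (ts k) z)) 2 μ := fun k =>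
    MemLp.of_bound ((Complex.continuous_conj.comp (hcD k)).aestronglyMeasurable) (A / 4)
      (Eventually.of_forall fun z => by rw [RCLike.norm_conj]; exact h.DD_le k z)
  set G : ℕ → Lp ℂ 2 μ := fun k => (hmem k).toLp _ with hG
  have hGae : ∀ k, ∀ᵐ z ∂μ, G k z = conj (DD v (ts k) z) := fun k => (hmem k).coeFn_toLp
  have hGn : ∀ k, ‖G k‖ ≤ (measureUnivNNReal μ : ℝ) ^ (2 : ENNReal).toReal⁻¹ * (A / 4) := by
    intro k
    refine Lp.norm_le_of_ae_bound (by positivity) ?_
    filter_upwards [hGae k] with z hz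
    rw [hz, RCLike.norm_conj]
    exact h.DD_le k z
  obtain ⟨g, hg⟩ := weak_lim G _ hGn
  -- the inner products
  have hin : ∀ k (q : Lp ℂ 2 μ), ⟪G k, q⟫_ℂ = ∫ z, DD v (ts k) z * q z ∂μ := by
    intro k q
    rw [L2.inner_def]
    apply integral_congr_ae
    filter_upwards [hGae k] with z hz
    rw [hz]
    simp [mul_comm]
  have hint : ∀ q : Lp ℂ 2 μ, Integrable q μ := fun q => (Lp.memLp q).integrable (by norm_num)
  have hle : ∀ q : Lp ℂ 2 μ, ‖⟪g, q⟫_ℂ‖ ≤ A / 4 * ∫ z, ‖q z‖ ∂μ := by
    intro q
    refine le_of_tendsto (hg q).norm (Eventually.of_forall fun k => ?_)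
    rw [hin]
    refine (norm_integral_le_integral_norm _).trans ?_
    rw [← integral_const_mul]
    refine integral_mono_of_nonneg (Eventually.of_forall fun z => norm_nonneg _)
      ((hint q).norm.const_mul _) (Eventually.of_forall fun z => ?_)
    simp only [norm_mul]
    exact mul_le_mul_of_nonneg_right (h.DD_le k z) (norm_nonneg _)
  -- the bound
  have hgm : StronglyMeasurable g := Lp.stronglyMeasurable g
  set S : Set ℂ := {z | A / 4 < ‖g z‖} with hS
  have hSm : MeasurableSet S := measurableSet_lt measurable_const hgm.measurable.norm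
  have hSnull : μ S = 0 := by
    have hq : MemLp (S.indicator g) 2 μ := (Lp.memLp g).indicator hSm
    set q := hq.toLp _ with hqd
    have hqae : ∀ᵐ z ∂μ, q z = S.indicator g z := hq.coeFn_toLp
    have h1 := hle q
    have h2 : ⟪g, q⟫_ℂ = ((∫ z in S, ‖g z‖ ^ 2 ∂μ : ℝ) : ℂ) := by
      rw [L2.inner_def, ← integral_indicator hSm, ← integral_complex_ofReal]
      apply integral_congr_ae
      filter_upwards [hqae] with z hz
      rw [hz]
      by_cases hzS : z ∈ S
      · rw [indicator_of_mem hzS, indicator_of_mem hzS, inner_self_eq_norm_sq_to_K]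
        simp
      · rw [indicator_of_notMem hzS, indicator_of_notMem hzS]
        simp
    have h3 : ∫ z, ‖q z‖ ∂μ = ∫ z in S, ‖g z‖ ∂μ := by
      rw [← integral_indicator hSm]
      apply integral_congr_ae
      filter_upwards [hqae] with z hz
      rw [hz]
      by_cases hzS : z ∈ S
      · rw [indicator_of_mem hzS, indicator_of_mem hzS]
      · rw [indicator_of_notMem hzS, indicator_of_notMem hzS, norm_zero]
    have hi1 : IntegrableOn (fun z => ‖g z‖) S μ := (hint g).norm.integrableOn
    have hi2 : IntegrableOn (fun z => ‖g z‖ ^ 2) S μ :=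
      ((Lp.memLp g).integrable_norm_pow (by norm_num)).integrableOn
    rw [h2, h3, Complex.norm_real, Real.norm_of_nonneg
      (setIntegral_nonneg hSm fun z _ => by positivity)] at h1
    have h4 : ∫ z in S, (‖g z‖ ^ 2 - A / 4 * ‖g z‖) ∂μ ≤ 0 := by
      rw [integral_sub hi2 (hi1.const_mul _), integral_const_mul]
      linarith
    have h5 : 0 ≤ᵐ[μ.restrict S] fun z => ‖g z‖ ^ 2 - A / 4 * ‖g z‖ := by
      filter_upwards [ae_restrict_mem hSm] with z hz
      have hz' : A / 4 < ‖g z‖ := hz
      simp only [Pi.zero_apply]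
      nlinarith [norm_nonneg (g z)]
    have h6 := (integral_eq_zero_iff_of_nonneg_ae h5 (hi2.sub (hi1.const_mul _))).mp
      (le_antisymm h4 (integral_nonneg_of_ae h5))
    have h7 : ∀ᵐ z ∂(μ.restrict S), False := by
      filter_upwards [h6, ae_restrict_mem hSm] with z hz1 hz2
      have hz' : A / 4 < ‖g z‖ := hz2
      simp only [Pi.zero_apply] at hz1
      nlinarith [norm_nonneg (g z)]
    rw [ae_iff] at h7
    simpa using h7
  -- the function
  set ν : ℂ → ℂ := fun z => if z ∈ K n c ∩ Sᶜ then conj (g z) else 0 with hν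
  have hνm : Measurable ν :=
    Measurable.ite (hKm.inter hSm.compl) (Complex.continuous_conj.measurable.comp hgm.measurable)
      measurable_const
  have hνae : ∀ᵐ z ∂μ, ν z = conj (g z) := by
    have h1 : ∀ᵐ z ∂μ, z ∉ S := by rw [ae_iff]; simpa using hSnull
    filter_upwards [h1, ae_restrict_mem hKm] with z hz1 hz2
    simp only [hν]
    rw [if_pos ⟨hz2, hz1⟩]
  refine ⟨ν, hνm, ?_, ?_, ?_⟩
  · intro z
    simp only [hν]
    split_ifs with hz
    · have h1 : ¬ A / 4 < ‖g z‖ := hz.2
      rw [RCLike.norm_conj]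
      linarith
    · rw [norm_zero]; exact hA.le
  · intro z hz
    simp only [hν]
    rw [if_neg fun h' => hz h'.1]
  · intro χ hχ hc
    have hi : ∀ k, Integrable (fun z => DD v (ts k) z * χ z) := fun k =>
      ((hcD k).mul hχ.continuous).integrable_of_hasCompactSupport hc.mul_left
    have hνi : Integrable (fun z => ν z * χ z) := by
      have h1 : Integrable χ := hχ.continuous.integrable_of_hasCompactSupport hc
      refine h1.bdd_mul (c := A) hνm.aestronglyMeasurable (Eventually.of_forall fun z => ?_)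
      simp only [hν]
      split_ifs with hz
      · have h1 : ¬ A / 4 < ‖g z‖ := hz.2
        rw [RCLike.norm_conj]
        linarith
      · rw [norm_zero]; exact hA.le
    -- off the filled Julia set
    have l1 : Tendsto (fun k => ∫ z in (K n c)ᶜ, DD v (ts k) z * χ z) atTop (𝓝 0) := by
      have h0 : (∫ z in (K n c)ᶜ, (0 : ℂ)) = 0 := by simp
      rw [← h0]
      refine tendsto_integral_of_dominated_convergence (fun z => A / 4 * ‖χ z‖) ?_ ?_ ?_ ?_
      · intro k
        exact ((hcD k).mul hχ.continuous).aestronglyMeasurable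
      · exact ((hχ.continuous.integrable_of_hasCompactSupport hc).norm.const_mul _).integrableOn
      · intro k
        refine Eventually.of_forall fun z => ?_
        rw [norm_mul]
        exact mul_le_mul_of_nonneg_right (h.DD_le k z) (norm_nonneg _)
      · filter_upwards [ae_restrict_mem hKm.compl] with z hz
        have hd : DifferentiableAt ℂ v z :=
          h.hol.differentiableAt ((isClosed_K n c).isOpen_compl.mem_nhds hz)
        have h1 := (DD_tendsto (hd.restrictScalars ℝ)).comp ts_tendsto
        rw [Pool.Agent.H761R2.SV.dbar_hol hd] at h1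
        have := h1.mul_const (χ z)
        rwa [zero_mul] at this
    -- on the filled Julia set
    have hqm : MemLp χ 2 μ := by
      obtain ⟨C, hC⟩ := hc.exists_bound_of_continuous hχ.continuous
      exact MemLp.of_bound hχ.continuous.aestronglyMeasurable C (Eventually.of_forall hC)
    have l2 : Tendsto (fun k => ∫ z in K n c, DD v (ts k) z * χ z) (hyperfilter ℕ : Filter ℕ)
        (𝓝 (∫ z in K n c, ν z * χ z)) := by
      have h1 := hg (hqm.toLp _)
      have h2 : ∀ᵐ z ∂μ, hqm.toLp χ z = χ z := hqm.coeFn_toLp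
      have h3 : ⟪g, hqm.toLp χ⟫_ℂ = ∫ z in K n c, ν z * χ z := by
        rw [L2.inner_def]
        apply integral_congr_ae
        filter_upwards [h2, hνae] with z hz1 hz2
        rw [hz1, hz2]
        simp [mul_comm]
      rw [h3] at h1
      refine h1.congr fun k => ?_
      rw [hin]
      apply integral_congr_ae
      filter_upwards [h2] with z hz
      rw [hz]
    have l3 : Tendsto (fun k => ∫ z, DD v (ts k) z * χ z) (hyperfilter ℕ : Filter ℕ)
        (𝓝 (∫ z, ν z * χ z)) := by
      have h1 := l2.add (l1.mono_left Nat.hyperfilter_le_atTop)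
      have h2 : ∫ z, ν z * χ z = (∫ z in K n c, ν z * χ z) + 0 := by
        rw [← integral_add_compl hKm hνi, setIntegral_eq_zero_of_forall_eq_zero (t := (K n c)ᶜ)]
        intro z hz
        have : ν z = 0 := by simp only [hν]; rw [if_neg fun h' => hz h'.1]
        rw [this, zero_mul]
      rw [h2]
      refine h1.congr fun k => ?_
      rw [← integral_add_compl hKm (hi k)]
    have l4 : Tendsto (fun k => ∫ z, v z * DD χ (ts k) z) (hyperfilter ℕ : Filter ℕ)
        (𝓝 (∫ z, v z * dbar χ z)) :=
      (tendsto_int_DD h.cont hχ hc).mono_left Nat.hyperfilter_le_atTop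
    refine tendsto_nhds_unique l4 (l3.neg.congr fun k => ?_)
    rw [int_DD h.cont hχ.continuous hc]

end Pool.Agent.J4H16
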