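import Mathlib
import Pool.Agent.J4H16.Nu2

/-!
# Invariance
-/

set_option autoImplicit false
open Set Filter Topology Metric Complex MeasureTheory
open scoped InnerProductSpace ComplexConjugate ContDiff

namespace Pool.Agent.J4H16

open Pool.Agent.H761R2.SV (dbar)
open Pool.Agent.W746.LD

variable {n : ℕ} {c : ℂ} {r : ℝ}

/-- An invariant Beltrami differential on the filled Julia set. -/
structure Inv (n : ℕ) (c : ℂ) (ν : ℂ → ℂ) (A : ℝ) : Prop where
  meas : Measurable ν
  bd : ∀ z, ‖ν z‖ ≤ A
  supp : ∀ z, z ∉ K n c → ν z = 0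
  inv : ∀ᵐ z : ℂ, ν z = ν (z ^ n + c) * (conj (n * z ^ (n - 1)) / (n * z ^ (n - 1)))
  ne : ¬ ∀ᵐ z : ℂ, ν z = 0

theorem Q.exists_inv (h : Q n c r) (hd : Dense (K n c)ᶜ) : ∃ (ν : ℂ → ℂ) (A : ℝ), Inv n c ν A := by
  obtain ⟨v, A, M, hv⟩ := h.exists_VF hd
  obtain ⟨ν, h1, h2, h3, h4⟩ := hv.exists_nu
  have hn := h.hn
  have hnC : (n : ℂ) ≠ 0 := by exact_mod_cast (by omega : n ≠ 0)
  refine ⟨ν, A, h1, h2, h3, ?_, ?_⟩
  · -- invariance
    set f : ℂ → ℂ := fun z => z ^ n + c with hf
    have hfd : ∀ z, HasDerivAt f (n * z ^ (n - 1)) z := fun z => (hasDerivAt_pow n z).add_const c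
    set F : ℂ → ℂ := fun z => ν (f z) * (conj (n * z ^ (n - 1)) / (n * z ^ (n - 1))) - ν z with hF
    have hFm : Measurable F := by
      have hfm : Measurable f := by fun_prop
      have hg : Measurable fun z : ℂ => (n : ℂ) * z ^ (n - 1) := by fun_prop
      have hg' : Measurable fun z : ℂ => conj ((n : ℂ) * z ^ (n - 1)) :=
        Complex.continuous_conj.measurable.comp hg
      exact ((h1.comp hfm).mul (hg'.div hg)).sub h1
    have hFb : ∀ z, ‖F z‖ ≤ A + A := by
      intro z
      refine (norm_sub_le _ _).trans (add_le_add ?_ (h2 z))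
      rw [norm_mul, norm_div, RCLike.norm_conj]
      have := div_self_le_one ‖(n : ℂ) * z ^ (n - 1)‖
      have h5 := h2 (f z)
      have h6 : 0 ≤ A := (norm_nonneg _).trans h5
      calc ‖ν (f z)‖ * (‖(n : ℂ) * z ^ (n - 1)‖ / ‖(n : ℂ) * z ^ (n - 1)‖) ≤ A * 1 := by
            gcongr
        _ = A := mul_one A
    have hnull : volume {z : ℂ | z ≠ 0 ∧ F z ≠ 0} = 0 := by
      apply measure_null_of_locally_null
      rintro z0 ⟨hz0, -⟩
      obtain ⟨O, hO, hzO, hinj⟩ := Pool.Agent.H712R2.pow_locInj (by omega : n ≠ 0) hz0
      obtain ⟨B, hB⟩ : ∃ B : Set ℂ, B = O ∩ {z | z ≠ 0} := ⟨_, rfl⟩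
      have hBo : IsOpen B := by rw [hB]; exact hO.inter isOpen_ne
      have hzB : z0 ∈ B := by rw [hB]; exact ⟨hzO, hz0⟩
      have hBne : ∀ z ∈ B, z ≠ 0 := fun z hz => by rw [hB] at hz; exact hz.2
      have hBinj : InjOn f B := by
        intro x hx y hy hxy
        rw [hB] at hx hy
        exact hinj hx.1 hy.1 (add_right_cancel hxy)
      have hder : ∀ z, deriv f z = n * z ^ (n - 1) := fun z => (hfd z).deriv
      have hdne : ∀ z ∈ B, (n * z ^ (n - 1) : ℂ) ≠ 0 := fun z hz =>
        mul_ne_zero hnC (pow_ne_zero _ (hBne z hz))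
      have hPB := Pool.Agent.N833.W.t_PB f v ν B hBo
        (fun z _ => (hfd z).differentiableAt.differentiableWithinAt) hBinj
        (fun z hz => by rw [hder]; exact hdne z hz) hv.cont h1 ⟨A, h2⟩ h4
      have key : ∀ χ : ℂ → ℂ, ContDiff ℝ 1 χ → HasCompactSupport χ → tsupport χ ⊆ B →
          ∫ z, F z * χ z = 0 := by
        intro χ hχ hc hs
        have e1 := hPB χ hχ hc hs
        have e2 := h4 χ hχ hc
        have hG : DifferentiableOn ℂ (fun z : ℂ => ((n : ℂ) * z ^ (n - 1))⁻¹) B := by
          intro z hz
          apply DifferentiableAt.differentiableWithinAt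
          have : DifferentiableAt ℂ (fun z : ℂ => (n : ℂ) * z ^ (n - 1)) z := by fun_prop
          exact this.inv (hdne z hz)
        obtain ⟨i3, e3⟩ := Pool.Agent.N690.W.green hBo hG hχ hc hs
        have hdb0 : ∀ z, z ∉ B → dbar χ z = 0 := fun z hz =>
          Pool.Agent.N833.W.dbar_supp fun h' => hz (hs h')
        have hdbc : Continuous (dbar χ) := Pool.Agent.H761R2.SV.continuous_dbar hχ
        have hdbs : HasCompactSupport (dbar χ) := by
          apply HasCompactSupport.intro hc.isCompact
          intro z hz
          exact Pool.Agent.N833.W.dbar_supp hz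
        have i2 : Integrable (fun z => v z * dbar χ z) :=
          (hv.cont.mul hdbc).integrable_of_hasCompactSupport hdbs.mul_left
        have e4 : ∫ z, v (f z) / deriv f z * dbar χ z =
            (∫ z, v z * dbar χ z) + ∫ z, ((n : ℂ) * z ^ (n - 1))⁻¹ * dbar χ z := by
          rw [← integral_add i2 i3]
          apply integral_congr_ae
          refine Eventually.of_forall fun z => ?_
          by_cases hz : z ∈ B
          · have h6 := hdne z hz
            have h7 : v (f z) = n * z ^ (n - 1) * v z + 1 := hv.eq z
            show v (f z) / deriv f z * dbar χ z = v z * dbar χ z + ((n : ℂ) * z ^ (n - 1))⁻¹ * dbar χ z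
            rw [hder z, h7, add_div, mul_div_cancel_left₀ _ h6, add_mul, one_div]
          · simp only [hdb0 z hz, mul_zero, add_zero]
        rw [e1, e3, add_zero, e2] at e4
        have hχi : Integrable χ := hχ.continuous.integrable_of_hasCompactSupport hc
        have j1 : Integrable (fun z => ν (f z) * (conj (deriv f z) / deriv f z) * χ z) := by
          have hm : Measurable fun z => ν (f z) * (conj (deriv f z) / deriv f z) := by
            have : (fun z => ν (f z) * (conj (deriv f z) / deriv f z)) = fun z => F z + ν z := by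
              funext z
              simp only [hF, hder, sub_add_cancel]
            rw [this]
            exact hFm.add h1
          refine hχi.bdd_mul (c := A + A + A) hm.aestronglyMeasurable (Eventually.of_forall fun z => ?_)
          have : ν (f z) * (conj (deriv f z) / deriv f z) = F z + ν z := by
            simp only [hF, hder, sub_add_cancel]
          rw [this]
          exact (norm_add_le _ _).trans (add_le_add (hFb z) (h2 z))
        have j2 : Integrable (fun z => ν z * χ z) :=
          hχi.bdd_mul (c := A) h1.aestronglyMeasurable (Eventually.of_forall h2)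
        have e5 : (fun z => F z * χ z) =
            fun z => ν (f z) * (conj (deriv f z) / deriv f z) * χ z - ν z * χ z := by
          funext z
          simp only [hF, hder]
          ring
        rw [e5, integral_sub j1 j2]
        have := neg_injective e4
        rw [this, sub_self]
      have hae : ∀ᵐ z : ℂ, z ∈ B → F z = 0 := by
        apply hBo.ae_eq_zero_of_integral_contDiff_smul_eq_zero
        · apply LocallyIntegrable.locallyIntegrableOn
          exact (memLp_top_of_bound hFm.aestronglyMeasurable _
            (Eventually.of_forall hFb)).locallyIntegrable le_top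
        · intro g hg hgc hgs
          have hg1 : ContDiff ℝ 1 fun z => ((g z : ℝ) : ℂ) :=
            Complex.ofRealCLM.contDiff.comp (hg.of_le (by simp))
          have hsupp : tsupport (fun z => ((g z : ℝ) : ℂ)) ⊆ tsupport g := by
            apply closure_mono
            intro z hz
            simp only [Function.mem_support] at hz ⊢
            intro h'
            apply hz
            rw [h']; simp
          have hgc' : HasCompactSupport fun z => ((g z : ℝ) : ℂ) :=
            hgc.comp_left (g := fun x : ℝ => (x : ℂ)) (by simp)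
          have := key _ hg1 hgc' (hsupp.trans hgs)
          rw [← this]
          apply integral_congr_ae
          refine Eventually.of_forall fun z => ?_
          simp only [Complex.real_smul]
          ring
      refine ⟨B ∩ {z | z ≠ 0 ∧ F z ≠ 0}, inter_mem (mem_nhdsWithin_of_mem_nhds (hBo.mem_nhds hzB))
        self_mem_nhdsWithin, ?_⟩
      rw [← nonpos_iff_eq_zero]
      refine (measure_mono ?_).trans (le_of_eq hae)
      rintro z ⟨hz1, -, hz2⟩ h'
      exact hz2 (h' hz1)
    have h0 : ∀ᵐ z : ℂ, z ≠ 0 := by
      have := (countable_singleton (0 : ℂ)).measure_zero volume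
      rw [ae_iff]
      simp [this]
    have h5 : ∀ᵐ z : ℂ, ¬ (z ≠ 0 ∧ F z ≠ 0) := by
      rw [ae_iff]
      simp only [not_not]; exact hnull
    filter_upwards [h0, h5] with z hz1 hz2
    have hz3 : F z = 0 := by
      by_contra h'
      exact hz2 ⟨hz1, h'⟩
    exact (sub_eq_zero.mp hz3).symm
  · -- not zero
    intro h0
    have hw : ∀ χ : ℂ → ℂ, ContDiff ℝ 1 χ → HasCompactSupport χ → tsupport χ ⊆ univ →
        ∫ z, v z * dbar χ z = 0 := by
      intro χ hχ hc _
      rw [h4 χ hχ hc, neg_eq_zero]
      apply integral_eq_zero_of_ae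
      filter_upwards [h0] with z hz
      simp [hz]
    have hdiff := Pool.Agent.N833.W.t_WEYL univ v isOpen_univ hv.cont.continuousOn hw
    rw [differentiableOn_univ] at hdiff
    have hbd : Bornology.IsBounded (range v) := by
      rw [isBounded_iff_forall_norm_le]
      exact ⟨M, by rintro _ ⟨z, rfl⟩; exact hv.bd z⟩
    have hcst := fun z w => hdiff.apply_eq_apply_of_bounded hbd z w
    have e0 := hv.eq 0
    have e1 := hv.eq 1
    rw [zero_pow (by omega : n - 1 ≠ 0), mul_zero, zero_mul, zero_add] at e0
    rw [hcst (1 ^ n + c) (0 ^ n + c), hcst 1 (0 ^ n + c), e0, one_pow, mul_one, mul_one] at e1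
    apply hnC
    linear_combination -e1

end Pool.Agent.J4H16
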