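import Mathlib
import Pool.Agent.J4H16.NN
import Pool.Agent.J4H16.Nu3
import Pool.Agent.H713R5.QJ.TAF

/-!
# Good points of the invariant line field
-/

set_option autoImplicit false
open Set Filter Topology Metric Complex MeasureTheory
open scoped ComplexConjugate

namespace Pool.Agent.J4H16

open Pool.Agent.W746.LD

variable {n : ℕ} {c : ℂ} {r : ℝ}

/-- The polynomial. -/
noncomputable def pol (n : ℕ) (c : ℂ) : Polynomial ℂ := Polynomial.X ^ n + Polynomial.C c

theorem pol_eval (z : ℂ) : (pol n c).eval z = z ^ n + c := by simp [pol]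

theorem pol_ev : Pool.Agent.H713R5.QJ.ev (pol n c) = fun z => z ^ n + c := by
  funext z
  exact pol_eval z

theorem pol_deg (hn : 2 ≤ n) : (pol n c).natDegree = n := by
  unfold pol
  exact Polynomial.natDegree_X_pow_add_C

theorem pol_der (z : ℂ) : (Polynomial.derivative (pol n c)).eval z = n * z ^ (n - 1) := by
  unfold pol
  rw [Polynomial.derivative_add, Polynomial.derivative_C, Polynomial.derivative_X_pow]
  simp

theorem null_preimage (hn : 2 ≤ n) {N : Set ℂ} (hN : volume N = 0) :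
    volume ((fun z : ℂ => z ^ n + c) ⁻¹' N) = 0 := by
  set E := toMeasurable volume N with hE
  have hEm : MeasurableSet E := measurableSet_toMeasurable _ _
  have hE0 : volume E = 0 := by rw [hE, measure_toMeasurable, hN]
  have h1 := Pool.Agent.H713R5.QJ.af_holds (pol n c) (fun _ => 1) E (by rw [pol_deg hn]; omega)
    measurable_const hEm
  have h2 : ∫⁻ w in E, ∑ ζ ∈ (pol n c - Polynomial.C w).roots.toFinset, (1 : ENNReal) = 0 := by
    rw [Measure.restrict_eq_zero.mpr hE0, lintegral_zero_measure]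
  rw [h2, pol_ev] at h1
  have hcont : Continuous fun z : ℂ => z ^ n + c := by fun_prop
  have h3 : MeasurableSet ((fun z : ℂ => z ^ n + c) ⁻¹' E) := hcont.measurable hEm
  have h4 : Measurable fun z : ℂ => (1 : ENNReal) *
      ENNReal.ofReal (‖(Polynomial.derivative (pol n c)).eval z‖ ^ 2) := by
    apply Measurable.const_mul
    apply ENNReal.measurable_ofReal.comp
    exact (((Polynomial.derivative (pol n c)).continuous.norm).pow 2).measurable
  have h5 := (lintegral_eq_zero_iff h4).mp h1.symm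
  have h6 : ∀ᵐ z : ℂ, z ∈ (fun z : ℂ => z ^ n + c) ⁻¹' E → z = 0 := by
    rw [← ae_restrict_iff' h3]
    filter_upwards [h5] with z hz
    simp only [one_mul, Pi.zero_apply, ENNReal.ofReal_eq_zero] at hz
    have h7 : ‖(Polynomial.derivative (pol n c)).eval z‖ = 0 := by
      have := norm_nonneg ((Polynomial.derivative (pol n c)).eval z)
      nlinarith
    rw [norm_eq_zero, pol_der] at h7
    rcases mul_eq_zero.mp h7 with h8 | h8
    · exfalso
      have : (n : ℂ) ≠ 0 := by exact_mod_cast (by omega : n ≠ 0)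
      exact this h8
    · exact pow_eq_zero_iff (by omega) |>.mp h8
  have h0 : ∀ᵐ z : ℂ, z ≠ 0 := by
    have := (countable_singleton (0 : ℂ)).measure_zero volume
    rw [ae_iff]
    simp [this]
  have h8 : ∀ᵐ z : ℂ, z ∉ (fun z : ℂ => z ^ n + c) ⁻¹' E := by
    filter_upwards [h0, h6] with z hz1 hz2 hz3
    exact hz1 (hz2 hz3)
  have h9 : volume ((fun z : ℂ => z ^ n + c) ⁻¹' E) = 0 := measure_eq_zero_iff_ae_notMem.mpr h8
  exact measure_mono_null (preimage_mono (subset_toMeasurable _ _)) h9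

theorem ae_orb1 (hn : 2 ≤ n) {p : ℂ → Prop} (hp : ∀ᵐ z : ℂ, p z) (k : ℕ) :
    ∀ᵐ z : ℂ, p (orb n c z k) := by
  induction k with
  | zero => exact hp
  | succ k ih =>
    have h1 : volume ((fun z : ℂ => z ^ n + c) ⁻¹' {z | ¬ p (orb n c z k)}) = 0 :=
      null_preimage hn (ae_iff.mp ih)
    rw [ae_iff]
    have h2 : {z : ℂ | ¬ p (orb n c z (k + 1))} =
        (fun z : ℂ => z ^ n + c) ⁻¹' {z | ¬ p (orb n c z k)} := by
      ext z
      rw [mem_ofPred_eq, mem_preimage, mem_ofPred_eq, add_comm, orb_add, orb_one]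
    rw [h2]
    exact h1

theorem ae_orb (hn : 2 ≤ n) {p : ℂ → Prop} (hp : ∀ᵐ z : ℂ, p z) :
    ∀ᵐ z : ℂ, ∀ k, p (orb n c z k) :=
  ae_all_iff.mpr fun k => ae_orb1 hn hp k

/-- the factor `conj u / u` -/
noncomputable def ph (u : ℂ) : ℂ := conj u / u

theorem ph_mul (u v : ℂ) : ph (u * v) = ph u * ph v := by
  unfold ph
  rw [map_mul, mul_div_mul_comm]

theorem ph_inv (u : ℂ) : ph u⁻¹ = (ph u)⁻¹ := by
  unfold ph
  rw [map_inv₀, inv_div_inv, inv_div]

theorem norm_ph {u : ℂ} (hu : u ≠ 0) : ‖ph u‖ = 1 := by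
  unfold ph
  rw [norm_div, RCLike.norm_conj, div_self (norm_ne_zero_iff.mpr hu)]

theorem ph_one : ph 1 = 1 := by simp [ph]

theorem ph_sub {u v : ℂ} (hu : u ≠ 0) (hv : v ≠ 0) : ‖ph u - ph v‖ ≤ 2 * ‖u - v‖ / ‖v‖ := by
  have hvp : 0 < ‖v‖ := norm_pos_iff.mpr hv
  have hup : 0 < ‖u‖ := norm_pos_iff.mpr hu
  have e : ph u - ph v = (conj (u - v) * u - conj u * (u - v)) / (u * v) := by
    unfold ph
    field_simp
    rw [map_sub]
    ring
  rw [e, norm_div, norm_mul, div_le_div_iff₀ (by positivity) hvp]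
  have h1 : ‖conj (u - v) * u - conj u * (u - v)‖ ≤ 2 * ‖u - v‖ * ‖u‖ := by
    refine (norm_sub_le _ _).trans ?_
    rw [norm_mul, norm_mul, RCLike.norm_conj, RCLike.norm_conj]
    linarith
  calc ‖conj (u - v) * u - conj u * (u - v)‖ * ‖v‖ ≤ 2 * ‖u - v‖ * ‖u‖ * ‖v‖ := by gcongr
    _ = 2 * ‖u - v‖ * (‖u‖ * ‖v‖) := by ring

theorem Inv.inv_k {ν : ℂ → ℂ} {A : ℝ} (hI : Inv n c ν A) (hn : 2 ≤ n) :
    ∀ᵐ z : ℂ, ∀ k, ν z = ν (orb n c z k) * ph (P n c z k) := by
  filter_upwards [ae_orb (c := c) hn hI.inv] with z hz k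
  induction k with
  | zero => simp [ph_one]
  | succ k ih =>
    rw [ih, hz k, P_succ, ph_mul, orb_succ]
    unfold ph
    ring

/-- A good point. -/
structure GP (n : ℕ) (c : ℂ) (ν : ℂ → ℂ) (x : ℂ) : Prop where
  ne : ν x ≠ 0
  orb_ne : ∀ k, orb n c x k ≠ 0
  leb : ∀ ε : ℝ, 0 < ε → ∃ δ0 : ℝ, 0 < δ0 ∧ ∀ δ : ℝ, 0 < δ → δ ≤ δ0 →
    ∫ y in closedBall x δ, ‖ν y - ν x‖ ≤ ε * δ ^ 2

theorem Inv.locInt {ν : ℂ → ℂ} {A : ℝ} (hI : Inv n c ν A) : LocallyIntegrable ν :=
  (memLp_top_of_bound hI.meas.aestronglyMeasurable A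
    (Eventually.of_forall hI.bd)).locallyIntegrable le_top

theorem Inv.exists_good {ν : ℂ → ℂ} {A : ℝ} (hI : Inv n c ν A) (hn : 2 ≤ n) :
    ∃ x, GP n c ν x := by
  have h0 : ∀ᵐ z : ℂ, z ≠ 0 := by
    have := (countable_singleton (0 : ℂ)).measure_zero volume
    rw [ae_iff]
    simp [this]
  have h1 := ae_orb (c := c) hn h0
  have h2 := IsUnifLocDoublingMeasure.ae_tendsto_average_norm_sub (volume : Measure ℂ)
    hI.locInt 1
  have h3 : ∀ᵐ z : ℂ, ν z ≠ 0 → GP n c ν z := by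
    filter_upwards [h1, h2] with x hx1 hx2 hx3
    refine ⟨hx3, hx1, ?_⟩
    intro ε hε
    have h4 := hx2 (l := 𝓝[>] (0 : ℝ)) (fun _ => x) (fun δ => δ) tendsto_id (by
      filter_upwards [self_mem_nhdsWithin] with δ hδ
      rw [mem_Ioi] at hδ
      rw [one_mul]
      exact mem_closedBall_self hδ.le)
    have h5 : ∀ᶠ δ in 𝓝[>] (0 : ℝ), ⨍ y in closedBall x δ, ‖ν y - ν x‖ < ε / Real.pi :=
      h4.eventually_lt_const (by positivity)
    obtain ⟨δ0, hδ0, h6⟩ := mem_nhdsGT_iff_exists_Ioc_subset.mp h5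
    refine ⟨δ0, hδ0, ?_⟩
    intro δ hδ hδ'
    have h7 : ⨍ y in closedBall x δ, ‖ν y - ν x‖ < ε / Real.pi := h6 ⟨hδ, hδ'⟩
    rw [setAverage_eq, smul_eq_mul] at h7
    have h8 : volume.real (closedBall x δ) = Real.pi * δ ^ 2 := by
      rw [Measure.real, Complex.volume_closedBall]
      simp [ENNReal.toReal_ofReal hδ.le]
      ring
    rw [h8] at h7
    have h9 : 0 < Real.pi * δ ^ 2 := by positivity
    have h10 : ∫ y in closedBall x δ, ‖ν y - ν x‖ < ε / Real.pi * (Real.pi * δ ^ 2) := by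
      rw [inv_mul_lt_iff₀ h9] at h7
      linarith
    have h11 : ε / Real.pi * (Real.pi * δ ^ 2) = ε * δ ^ 2 := by field_simp
    linarith
  by_contra hcon
  push Not at hcon
  apply hI.ne
  filter_upwards [h3] with z hz
  by_contra h
  exact hcon z (hz h)

theorem GP.mem {ν : ℂ → ℂ} {A : ℝ} (hI : Inv n c ν A) {x : ℂ} (hx : GP n c ν x) : x ∈ K n c := by
  by_contra h
  exact hx.ne (hI.supp x h)

theorem GP.orb_mem {ν : ℂ → ℂ} {A : ℝ} (hI : Inv n c ν A) {x : ℂ} (hx : GP n c ν x) (hn : 2 ≤ n)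
    (hc : ‖c‖ ≤ 2) (k : ℕ) : orb n c x k ∈ K n c := (orb_mem_K hn hc x k).mpr (hx.mem hI)

end Pool.Agent.J4H16
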