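import Mathlib
import Pool.Agent.J4H16.Good

/-!
# Good points are not conical; their orbits accumulate at the critical point
-/

set_option autoImplicit false
open Set Filter Topology Metric Complex MeasureTheory
open scoped ComplexConjugate

namespace Pool.Agent.J4H16

open Pool.Agent.W746.LD

variable {n : ℕ} {c : ℂ} {r : ℝ} {ν : ℂ → ℂ} {A : ℝ}

theorem Inv.intOn (hI : Inv n c ν A) (l : ℂ) {S : Set ℂ} (hS : volume S ≠ ⊤) :
    IntegrableOn (fun y => ‖ν y - l‖) S := by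
  have : IsFiniteMeasure (volume.restrict S) := ⟨by
    rw [Measure.restrict_apply_univ]
    exact lt_top_iff_ne_top.mpr hS⟩
  refine Integrable.of_bound (C := A + ‖l‖) ?_ (Eventually.of_forall fun y => ?_)
  · exact ((hI.meas.sub_const l).norm).aestronglyMeasurable
  · rw [Real.norm_of_nonneg (norm_nonneg _)]
    exact (norm_sub_le _ _).trans (by gcongr; exact hI.bd y)

theorem vol_closedBall_ne (x : ℂ) (δ : ℝ) : volume (closedBall x δ) ≠ ⊤ :=
  (isCompact_closedBall x δ).measure_ne_top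

theorem vol_ball_ne (x : ℂ) (δ : ℝ) : volume (ball x δ) ≠ ⊤ :=
  measure_ball_lt_top.ne

theorem vol_ball_real (x : ℂ) {δ : ℝ} (hδ : 0 ≤ δ) : volume.real (ball x δ) = Real.pi * δ ^ 2 := by
  rw [Measure.real, Complex.volume_ball]
  simp [ENNReal.toReal_ofReal hδ]
  ring

/-- A point where the line field vanishes on a definite ball is not a good point. -/
theorem GP.no_hole (hI : Inv n c ν A) {x : ℂ} (hx : GP n c ν x) {θ : ℝ} (hθ : 0 < θ) :
    ∃ δ0 : ℝ, 0 < δ0 ∧ ∀ δ : ℝ, 0 < δ → δ ≤ δ0 → ∀ y : ℂ, ball y (θ * δ) ⊆ closedBall x δ →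
      ¬ (∀ z ∈ ball y (θ * δ), ν z = 0) := by
  have hν : 0 < ‖ν x‖ := norm_pos_iff.mpr hx.ne
  obtain ⟨δ0, h1, h2⟩ := hx.leb (‖ν x‖ * Real.pi * θ ^ 2 / 2) (by positivity)
  refine ⟨δ0, h1, ?_⟩
  intro δ hδ hδ' y hy hz
  have h3 := h2 δ hδ hδ'
  have h4 : ∫ z in ball y (θ * δ), ‖ν z - ν x‖ ≤ ∫ z in closedBall x δ, ‖ν z - ν x‖ :=
    setIntegral_mono_set (hI.intOn _ (vol_closedBall_ne _ _))
      (Eventually.of_forall fun z => norm_nonneg _) (LE.le.eventuallyLE hy)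
  have h5 : ∫ z in ball y (θ * δ), ‖ν z - ν x‖ = Real.pi * (θ * δ) ^ 2 * ‖ν x‖ := by
    rw [setIntegral_congr_fun (g := fun _ => ‖ν x‖) measurableSet_ball (fun z hz' => by
      simp only [hz z hz', zero_sub, norm_neg])]
    rw [setIntegral_const, vol_ball_real y (by positivity), smul_eq_mul]
  rw [h5] at h4
  have h6 : 0 < Real.pi * (θ * δ) ^ 2 * ‖ν x‖ := by positivity
  nlinarith

theorem Q.escape_far (h : Q n c r) {e : ℂ} (he : e ∉ K n c) (B : ℝ) :
    ∃ N : ℕ, ∀ k ≥ N, B < ‖orb n c e k‖ := by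
  obtain ⟨t0, ht0⟩ := not_mem_K.mp he
  obtain ⟨N, hN⟩ := pow_unbounded_of_one_lt B (by norm_num : (1 : ℝ) < 2)
  refine ⟨t0 + N, ?_⟩
  intro k hk
  obtain ⟨m, rfl⟩ := Nat.exists_eq_add_of_le hk
  have h1 := (orb_grow h.hn h.c2 ht0 (N + m)).1
  rw [add_assoc]
  have h2 : (2 : ℝ) ^ N ≤ 2 ^ (N + m) := pow_le_pow_right₀ (by norm_num) (by omega)
  have h3 : (0 : ℝ) < 2 ^ (N + m) := by positivity
  nlinarith

/-- A good point is not conical. -/
theorem GP.conical (h : Q n c r) (hd : Dense (K n c)ᶜ) {C0 c0 : ℝ} (Kc : KC C0 c0)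
    (hI : Inv n c ν A) {x : ℂ} (hx : GP n c ν x) {ρ : ℝ} (hρ : 0 < ρ) :
    ∃ N : ℕ, ∀ k ≥ N, ∀ G, Br n c k (orb n c x k) ρ G → G (orb n c x k) = x → False := by
  have hn := h.hn
  have hc0 := Kc.pos
  have hC0 := Kc.one_le
  have hxK := hx.mem hI
  -- the derivatives tend to zero
  have hsmall : ∀ ε : ℝ, 0 < ε → ∃ N : ℕ, ∀ k ≥ N, ∀ G, Br n c k (orb n c x k) ρ G →
      G (orb n c x k) = x → ‖deriv G (orb n c x k)‖ < ε := by
    intro ε hε
    obtain ⟨e, he1, he2⟩ := hd.exists_mem_open (isOpen_ball (x := x) (ε := c0 * ρ * ε))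
      ⟨x, mem_ball_self (by positivity)⟩
    obtain ⟨N, hN⟩ := h.escape_far he1 (3 + ρ)
    refine ⟨N, ?_⟩
    intro k hk G hG hGx
    by_contra hcon
    push Not at hcon
    have h1 := hG.cover Kc hρ le_rfl (a := e) (by
      rw [hGx]
      rw [mem_ball, dist_eq_norm] at he2
      exact he2.trans_le (mul_le_mul_of_nonneg_left hcon (by positivity)))
    have h2 := h1.1
    rw [mem_ball, dist_eq_norm] at h2
    have h3 := hN k hk
    have h4 := K_sub (hx.orb_mem hI hn h.c2 k)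
    have h5 := norm_sub_norm_le (orb n c e k) (orb n c x k)
    linarith
  by_contra hcon
  push Not at hcon
  choose κ hκ G hG hGx' using hcon
  have hGx : ∀ i, G i (orb n c x (κ i)) = x := fun i => by
    have := hGx' i
    tauto
  obtain ⟨w, hwK, φ, hφ, hlim⟩ := (isCompact_K n c).tendsto_subseq
    (x := fun i => orb n c x (κ i)) (fun i => hx.orb_mem hI hn h.c2 (κ i))
  obtain ⟨e, he1, he2⟩ := hd.exists_mem_open (isOpen_ball (x := w) (ε := ρ / 16))
    ⟨w, mem_ball_self (by positivity)⟩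
  obtain ⟨τ, hτ, hτ'⟩ := Metric.isOpen_iff.mp ((isClosed_K n c).isOpen_compl.inter
    (isOpen_ball (x := w) (ε := ρ / 16))) e ⟨he1, he2⟩
  set θ : ℝ := (c0 * τ / C0) / (C0 * ρ / 8) with hθ
  have hθ0 : 0 < θ := by positivity
  obtain ⟨δ0, hδ0, hhole⟩ := hx.no_hole hI hθ0
  obtain ⟨N, hN⟩ := hsmall (δ0 / (C0 * ρ / 8)) (by positivity)
  have hev : ∀ᶠ i in atTop, dist (orb n c x (κ (φ i))) w < ρ / 16 :=
    (Metric.tendsto_nhds.mp hlim) (ρ / 16) (by positivity)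
  obtain ⟨i, hi1, hi2⟩ := (hev.and (eventually_ge_atTop N)).exists
  set k := κ (φ i) with hk
  have hkN : N ≤ k := hi2.trans ((hφ.id_le i).trans (hκ (φ i)))
  have hB := hG (φ i)
  have hBx := hGx (φ i)
  rw [← hk] at hB hBx
  set g := G (φ i) with hg
  set D := ‖deriv g (orb n c x k)‖ with hD
  have hD0 : 0 < D := norm_pos_iff.mpr (hB.deriv_ne (mem_ball_self hρ))
  have hDs : D < δ0 / (C0 * ρ / 8) := hN k hkN g hB hBx
  have hsub : ∀ z ∈ ball e τ, ‖z - orb n c x k‖ < ρ / 8 := by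
    intro z hz
    have h1 := (hτ' hz).2
    rw [mem_ball] at h1
    rw [← dist_eq_norm]
    have h2 := dist_triangle_right z (orb n c x k) w
    linarith
  have hsub' : ball e τ ⊆ ball (orb n c x k) ρ := by
    intro z hz
    rw [mem_ball, dist_eq_norm]
    linarith [hsub z hz]
  have hDe : D ≤ C0 * ‖deriv g e‖ :=
    (Kc.kdist g _ ρ hρ hB.univ e (by linarith [hsub e (mem_ball_self hτ)])).2
  have hδ : 0 < C0 * D * ρ / 8 := by positivity
  have hδ' : C0 * D * ρ / 8 ≤ δ0 := by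
    rw [lt_div_iff₀ (by positivity)] at hDs
    have : C0 * D * ρ / 8 = D * (C0 * ρ / 8) := by ring
    linarith
  have hr : θ * (C0 * D * ρ / 8) = c0 * τ * D / C0 := by
    rw [hθ]
    field_simp
  have hkey : ∀ z ∈ ball (g e) (θ * (C0 * D * ρ / 8)), ∃ u ∈ ball e τ, g u = z := by
    intro z hz
    rw [mem_ball, dist_eq_norm, hr] at hz
    refine KC.cover Kc hτ (hB.mono hsub').univ (hz.trans_le ?_)
    rw [div_le_iff₀ (by linarith)]
    have : c0 * τ * D ≤ c0 * τ * (C0 * ‖deriv g e‖) := by gcongr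
    linarith
  refine hhole (C0 * D * ρ / 8) hδ hδ' (g e) ?_ ?_
  · intro z hz
    obtain ⟨u, hu1, hu2⟩ := hkey z hz
    have h1 := hsub u hu1
    have h2 := Kc.lip hρ hB.univ (w := u) (by linarith)
    rw [hu2, hBx] at h2
    rw [mem_closedBall, dist_eq_norm]
    refine h2.trans ?_
    calc C0 * ‖deriv g (orb n c x k)‖ * ‖u - orb n c x k‖ ≤ C0 * D * (ρ / 8) := by gcongr
      _ = C0 * D * ρ / 8 := by ring
  · intro z hz
    obtain ⟨u, hu1, hu2⟩ := hkey z hz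
    apply hI.supp
    intro hzK
    have h1 := hB.eq u (hsub' hu1)
    rw [hu2] at h1
    have h2 := (orb_mem_K hn h.c2 z k).mpr hzK
    rw [h1] at h2
    exact (hτ' hu1).1 h2

/-- The postcritical set. -/
def PC (n : ℕ) (c : ℂ) : Set ℂ := closure {z | ∃ k, 1 ≤ k ∧ z = orb n c 0 k}

theorem orb_mem_PC {k : ℕ} (hk : 1 ≤ k) : orb n c 0 k ∈ PC n c := subset_closure ⟨k, hk, rfl⟩

theorem Q.PC_sub (h : Q n c r) : PC n c ⊆ K n c := by
  apply closure_minimal _ (isClosed_K n c)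
  rintro _ ⟨k, -, rfl⟩
  exact (orb_mem_K h.hn h.c2 0 k).mpr h.zero_mem

/-- The orbit of a good point tends to the postcritical set. -/
theorem GP.near (h : Q n c r) (hd : Dense (K n c)ᶜ) {C0 c0 : ℝ} (Kc : KC C0 c0)
    (hI : Inv n c ν A) {x : ℂ} (hx : GP n c ν x) {ρ : ℝ} (hρ : 0 < ρ) :
    ∃ N : ℕ, ∀ k ≥ N, ∃ j, 1 ≤ j ∧ orb n c 0 j ∈ ball (orb n c x k) ρ := by
  obtain ⟨N, hN⟩ := hx.conical h hd Kc hI hρ
  refine ⟨N, ?_⟩
  intro k hk
  by_contra hcon
  push Not at hcon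
  obtain ⟨G, h1, h2⟩ := exists_br' h.hn (mem_ball_self hρ) (x := x) (k := k)
    (fun j hj _ => hcon j hj)
  exact hN k hk G h1 h2

/-- Cluster points of the orbit of a good point are postcritical. -/
theorem GP.cluster (h : Q n c r) (hd : Dense (K n c)ᶜ) {C0 c0 : ℝ} (Kc : KC C0 c0)
    (hI : Inv n c ν A) {x : ℂ} (hx : GP n c ν x) {y : ℂ}
    (hy : MapClusterPt y atTop (fun k => orb n c x k)) : y ∈ PC n c := by
  rw [PC, Metric.mem_closure_iff]
  intro ε hε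
  obtain ⟨N, hN⟩ := hx.near h hd Kc hI (half_pos hε)
  have h1 := hy.frequently (ball_mem_nhds y (half_pos hε))
  obtain ⟨k, hk1, hk2⟩ := (h1.and_eventually (eventually_ge_atTop N)).exists
  obtain ⟨j, hj, hj'⟩ := hN k hk2
  refine ⟨_, ⟨j, hj, rfl⟩, ?_⟩
  rw [mem_ball] at hj'
  have := dist_triangle_right y (orb n c 0 j) (orb n c x k)
  rw [dist_comm y (orb n c x k)] at this
  linarith

end Pool.Agent.J4H16
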