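import Mathlib
import Pool.Agent.J4H16.Conic

/-!
# The orbit of a good point accumulates at the critical point
-/

set_option autoImplicit false
open Set Filter Topology Metric Complex MeasureTheory
open scoped ComplexConjugate

namespace Pool.Agent.J4H16

open Pool.Agent.W746.LD

variable {n : ℕ} {c : ℂ} {r : ℝ} {ν : ℂ → ℂ} {A : ℝ}

/-- every point of the postcritical set has the critical point, or a point with arbitrarily small
gaps of a fixed ratio, in the closure of its orbit -/
def HypII (n : ℕ) (c : ℂ) : Prop :=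
  ∀ y ∈ PC n c, (0 : ℂ) ∈ closure (range fun k => orb n c y k) ∨
    ∃ w ∈ closure (range fun k => orb n c y k), ∃ l : ℝ, 1 < l ∧ ∀ η0 : ℝ, 0 < η0 →
      ∃ η : ℝ, 0 < η ∧ η < η0 ∧ ∀ u ∈ PC n c, ¬ (η < ‖u - w‖ ∧ ‖u - w‖ < l * η)

/-- Harnack chain in scale-invariant form. -/
theorem KC.chain' {C0 c0 : ℝ} (K : KC C0 c0) {l : ℝ} (hl : 1 < l) :
    ∃ M : ℝ, 1 ≤ M ∧ ∀ (φ : ℂ → ℂ) (w : ℂ) (η : ℝ), 0 < η → Univ φ w (l * η) →
      ∀ a ∈ closedBall w η, ∀ b ∈ closedBall w η, ‖φ b - φ a‖ ≤ M * η * ‖deriv φ a‖ := by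
  obtain ⟨M, hM1, hM⟩ := K.chain (η := l - 1) (B := 1) (by linarith) one_pos
  refine ⟨M, hM1, ?_⟩
  intro φ w η hη hφ a ha b hb
  have hηC : (η : ℂ) ≠ 0 := by exact_mod_cast hη.ne'
  have hmap : ∀ ζ ∈ ball (0 : ℂ) (1 + (l - 1)), w + η * ζ ∈ ball w (l * η) := by
    intro ζ hζ
    rw [mem_ball, dist_zero_right] at hζ
    rw [mem_ball, dist_eq_norm, add_sub_cancel_left, norm_mul, Complex.norm_real,
      Real.norm_of_nonneg hη.le]
    nlinarith
  have hφ' : Univ (fun ζ : ℂ => φ (w + η * ζ)) 0 (1 + (l - 1)) := by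
    constructor
    · refine hφ.1.comp (f := fun ζ : ℂ => w + η * ζ) (by fun_prop) hmap
    · intro x hx y hy hxy
      have h1 := hφ.2 (hmap x hx) (hmap y hy) hxy
      have h2 : (η : ℂ) * x = η * y := add_left_cancel h1
      exact mul_left_cancel₀ hηC h2
  have hin : ∀ u ∈ closedBall w η, (u - w) / η ∈ closedBall (0 : ℂ) 1 := by
    intro u hu
    rw [mem_closedBall, dist_eq_norm] at hu
    rw [mem_closedBall, dist_zero_right, norm_div, Complex.norm_real, Real.norm_of_nonneg hη.le,
      div_le_one hη]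
    exact hu
  have hback : ∀ u : ℂ, w + η * ((u - w) / η) = u := by
    intro u
    field_simp
    ring
  have h1 := (hM (fun ζ : ℂ => φ (w + η * ζ)) 0 1 zero_le_one le_rfl hφ' _ (hin a ha) _
    (hin b hb)).2
  simp only [hback] at h1
  have hd : deriv (fun ζ : ℂ => φ (w + η * ζ)) ((a - w) / η) = deriv φ a * η := by
    have ha' : a ∈ ball w (l * η) := by
      rw [mem_closedBall] at ha
      rw [mem_ball]
      nlinarith
    have h2 : HasDerivAt φ (deriv φ a) (w + η * ((a - w) / η)) := by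
      rw [hback a]
      exact (hφ.1.differentiableAt (isOpen_ball.mem_nhds ha')).hasDerivAt
    have h3 : HasDerivAt (fun ζ : ℂ => w + η * ζ) (η : ℂ) ((a - w) / η) := by
      have := ((hasDerivAt_id ((a - w) / (η : ℂ))).const_mul (η : ℂ)).const_add w
      simpa using this
    exact (h2.comp ((a - w) / (η : ℂ)) (h := fun ζ : ℂ => w + η * ζ) h3).deriv
  rw [hd, norm_mul, Complex.norm_real, Real.norm_of_nonneg hη.le] at h1
  calc ‖φ b - φ a‖ ≤ M * (‖deriv φ a‖ * η) := h1
    _ = M * η * ‖deriv φ a‖ := by ring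

theorem cluster_orb {x y : ℂ} (hy : MapClusterPt y atTop (fun k => orb n c x k)) (j : ℕ) :
    MapClusterPt (orb n c y j) atTop (fun k => orb n c x k) := by
  have h1 : MapClusterPt (orb n c y j) atTop ((fun z => orb n c z j) ∘ fun k => orb n c x k) :=
    hy.continuousAt_comp ((differentiable_orb j).continuous.continuousAt)
  have h2 : ((fun z => orb n c z j) ∘ fun k => orb n c x k) =
      (fun k => orb n c x k) ∘ fun k => k + j := by
    funext k
    simp only [Function.comp]
    rw [orb_add]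
  rw [h2] at h1
  exact h1.of_comp (tendsto_add_atTop_nat j)

theorem cluster_closed (x : ℂ) :
    IsClosed {y : ℂ | MapClusterPt y atTop (fun k => orb n c x k)} := by
  have : {y : ℂ | MapClusterPt y atTop (fun k => orb n c x k)} =
      ⋂ i : ℕ, closure ((fun k => orb n c x k) '' Ici i) := by
    ext y
    simp only [mem_ofPred_eq, mem_iInter]
    exact mapClusterPt_atTop_iff_forall_mem_closure
  rw [this]
  exact isClosed_iInter fun _ => isClosed_closure

/-- The orbit of a good point accumulates at the critical point. -/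
theorem GP.zero_acc (h : Q n c r) (hd : Dense (K n c)ᶜ) {C0 c0 : ℝ} (Kc : KC C0 c0)
    (hI : Inv n c ν A) {x : ℂ} (hx : GP n c ν x) (H : HypII n c) {δ : ℝ} (hδ : 0 < δ) :
    ∃ k, ‖orb n c x k‖ < δ := by
  have hn := h.hn
  have hc0 := Kc.pos
  have hC0 := Kc.one_le
  by_contra hcon
  push Not at hcon
  -- cluster points
  obtain ⟨y, hyK, hy⟩ := (isCompact_K n c).exists_mapClusterPt (f := atTop)
    (u := fun k => orb n c x k) (by
      rw [le_principal_iff]
      exact mem_map.mpr (Eventually.of_forall fun k => hx.orb_mem hI hn h.c2 k))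
  have hyE := hx.cluster h hd Kc hI hy
  have hcl : closure (range fun k => orb n c y k) ⊆
      {y : ℂ | MapClusterPt y atTop (fun k => orb n c x k)} := by
    apply closure_minimal _ (cluster_closed x)
    rintro _ ⟨k, rfl⟩
    exact cluster_orb hy k
  have hfar : ∀ w ∈ closure (range fun k => orb n c y k), δ ≤ ‖w‖ := by
    intro w hw
    by_contra hlt
    push Not at hlt
    have h1 : MapClusterPt w atTop (fun k => orb n c x k) := hcl hw
    obtain ⟨k, hk⟩ := (h1.frequently (ball_mem_nhds w (sub_pos.mpr hlt))).exists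
    have h2 := hcon k
    have h3 : ‖orb n c x k‖ ≤ ‖orb n c x k - w‖ + ‖w‖ := by
      have := norm_add_le (orb n c x k - w) w
      rwa [sub_add_cancel] at this
    have h4 : ‖orb n c x k - w‖ < δ - ‖w‖ := by
      have := hk
      rwa [dist_eq_norm] at this
    linarith
  rcases H y hyE with h0 | ⟨w, hw, l, hl, hgap⟩
  · have := hfar 0 h0
    rw [norm_zero] at this
    linarith
  have hwcl : MapClusterPt w atTop (fun k => orb n c x k) := hcl hw
  obtain ⟨M, hM1, hM⟩ := KC.chain' Kc hl
  obtain ⟨d, hd1, hd2⟩ := h.nn hd (ε := c0 * (l - 1) * δ ^ n / M)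
    (by have : 0 < l - 1 := by linarith
        positivity)
  obtain ⟨η, hη0, hη1, hη2⟩ := hgap (d / l) (by positivity)
  rw [lt_div_iff₀ (by linarith)] at hη1
  obtain ⟨N, hN⟩ := hx.conical h hd Kc hI (ρ := (l - 1) * η) (by
    have : 0 < l - 1 := by linarith
    positivity)
  obtain ⟨k, hk1, hk2⟩ := ((hwcl.frequently (ball_mem_nhds w hη0)).and_eventually
    (eventually_ge_atTop N)).exists
  have hk1' : orb n c x k ∈ ball w η := hk1
  have hηl : η < l * η := by nlinarith
  have hkl : orb n c x k ∈ ball w (l * η) := ball_subset_ball hηl.le hk1'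
  have hsub : ball (orb n c x k) ((l - 1) * η) ⊆ ball w (l * η) := by
    intro z hz
    rw [mem_ball] at hz hk1' ⊢
    have := dist_triangle z (orb n c x k) w
    linarith
  -- the pull-back hits the critical value
  have hex : ∃ j < k, ∃ g, Br n c j w (l * η) g ∧ g (orb n c x k) = orb n c x (k - j) ∧
      ∃ u ∈ ball w (l * η), g u = c := by
    by_contra hno
    push Not at hno
    obtain ⟨G, h1, h2⟩ := exists_br hn hkl (x := x) (k := k)
      (fun j hj g hg hgx u hu => hno j hj g hg hgx u hu)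
    exact hN k hk2 G (h1.mono hsub) h2
  obtain ⟨j, hj, g, hg, hgx, u, hu, hgu⟩ := hex
  have huE : u ∈ PC n c := by
    rw [← hg.crit hn hu hgu]
    exact orb_mem_PC (by omega)
  have huη : ‖u - w‖ ≤ η := by
    by_contra hgt
    push Not at hgt
    rw [mem_ball, dist_eq_norm] at hu
    exact hη2 u huE ⟨hgt, hu⟩
  have h3 := hM g w η hη0 hg.univ (orb n c x k) (ball_subset_closedBall hk1') u (by
    rw [mem_closedBall, dist_eq_norm]; exact huη)
  rw [hgu, hgx] at h3
  obtain ⟨i, hi⟩ : ∃ i, k - j = i + 1 := ⟨k - j - 1, by omega⟩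
  rw [hi, norm_sub_rev, norm_orb_succ_sub] at h3
  have h4 : δ ^ n ≤ ‖orb n c x i‖ ^ n := by
    have := hcon i
    gcongr
  have h5 : δ ^ n / M ≤ η * ‖deriv g (orb n c x k)‖ := by
    rw [div_le_iff₀ (by linarith)]
    linarith
  apply hd2 (orb n c x (k - j)) (hx.orb_mem hI hn h.c2 _) j w
  intro z hz
  rw [mem_ball, dist_eq_norm] at hz
  have hl1 : 0 < l - 1 := by linarith
  have h6 := hg.cover Kc (z := orb n c x k) (s := (l - 1) * η) (by positivity) hsub (a := z) (by
    rw [hgx]
    calc ‖z - orb n c x (k - j)‖ < c0 * (l - 1) * δ ^ n / M := hz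
      _ = c0 * (l - 1) * (δ ^ n / M) := by ring
      _ ≤ c0 * (l - 1) * (η * ‖deriv g (orb n c x k)‖) := by gcongr
      _ = _ := by ring)
  have h7 := hsub h6.1
  rw [mem_ball] at h7 ⊢
  linarith

end Pool.Agent.J4H16
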