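import Mathlib
import Pool.Agent.J4H16.Lim

/-!
# Gaps of the postcritical set are transferred to the critical point
-/

set_option autoImplicit false
open Set Filter Topology Metric Complex MeasureTheory
open scoped ComplexConjugate

namespace Pool.Agent.J4H16

open Pool.Agent.W746.LD

variable {n : ℕ} {c : ℂ} {r : ℝ}

/-- the postcritical set has arbitrarily small gaps of ratio `L` -/
def HypI (n : ℕ) (c : ℂ) (L : ℝ) : Prop :=
  ∀ η0 : ℝ, 0 < η0 → ∃ η : ℝ, 0 < η ∧ η < η0 ∧ ∃ x ∈ PC n c, ∀ u ∈ PC n c,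
    ¬ (η < ‖u - x‖ ∧ ‖u - x‖ < L * η)

theorem exists_root {n : ℕ} (hn : 2 ≤ n) {y : ℝ} (hy : 0 < y) : ∃ R : ℝ, 0 < R ∧ R ^ n = y :=
  ⟨y ^ ((n : ℝ)⁻¹), Real.rpow_pos_of_pos hy _, Real.rpow_inv_natCast_pow hy.le (by omega)⟩

/-- A gap of the postcritical set is transferred to the critical point. -/
theorem Q.gap_zero (h : Q n c r) (hd : Dense (K n c)ᶜ) {C0 c0 : ℝ} (Kc : KC C0 c0) {K3 L : ℝ}
    (hK3 : 1 ≤ K3) (hL1 : 19 ≤ L) (hL2 : 4 * C0 * K3 ^ n ≤ c0 * (L - 3)) (H : HypI n c L)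
    {ρ0 : ℝ} (hρ0 : 0 < ρ0) :
    ∃ R1 : ℝ, 0 < R1 ∧ K3 * R1 < ρ0 ∧ ∀ j, ‖orb n c 0 j‖ ≤ R1 ∨ K3 * R1 ≤ ‖orb n c 0 j‖ := by
  classical
  have hn := h.hn
  have hc0 := Kc.pos
  have hC0 := Kc.one_le
  obtain ⟨d, hd1, hd2⟩ := h.branch_small hd Kc (ε := ρ0 ^ n / c0) (by positivity)
  obtain ⟨η, hη0, hη1, x, hx, hgap⟩ := H (d / (L - 3)) (by
    have : 0 < L - 3 := by linarith
    positivity)
  rw [lt_div_iff₀ (by linarith)] at hη1
  -- a point of the critical orbit near `x`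
  obtain ⟨y, ⟨k0, hk0, rfl⟩, hy⟩ := Metric.mem_closure_iff.mp hx η hη0
  rw [dist_comm, dist_eq_norm] at hy
  have h1 : ∀ i, 1 ≤ i → ‖orb n c 0 i - orb n c 0 k0‖ ≤ 2 * η ∨
      (L - 1) * η ≤ ‖orb n c 0 i - orb n c 0 k0‖ := by
    intro i hi
    have h2 := hgap _ (orb_mem_PC (c := c) (n := n) hi)
    rcases le_or_gt ‖orb n c 0 i - x‖ η with h3 | h3
    · left
      calc ‖orb n c 0 i - orb n c 0 k0‖ = ‖(orb n c 0 i - x) - (orb n c 0 k0 - x)‖ := by
            congr 1; ring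
        _ ≤ ‖orb n c 0 i - x‖ + ‖orb n c 0 k0 - x‖ := norm_sub_le _ _
        _ ≤ 2 * η := by linarith
    · right
      have h4 : L * η ≤ ‖orb n c 0 i - x‖ := by
        by_contra h5
        exact h2 ⟨h3, not_le.mp h5⟩
      have h5 : ‖orb n c 0 i - x‖ ≤ ‖orb n c 0 i - orb n c 0 k0‖ + ‖orb n c 0 k0 - x‖ := by
        have := norm_add_le (orb n c 0 i - orb n c 0 k0) (orb n c 0 k0 - x)
        rwa [sub_add_sub_cancel] at this
      linarith
  -- the first such point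
  have hex : ∃ k, 1 ≤ k ∧ ‖orb n c 0 k - orb n c 0 k0‖ ≤ 2 * η :=
    ⟨k0, hk0, by rw [sub_self, norm_zero]; positivity⟩
  set k := Nat.find hex with hk
  obtain ⟨hk1, hk2⟩ := Nat.find_spec hex
  rw [← hk] at hk1 hk2
  have hkmin : ∀ i, 1 ≤ i → i < k → (L - 1) * η ≤ ‖orb n c 0 i - orb n c 0 k0‖ := by
    intro i hi hik
    have h2 := Nat.find_min hex (hk ▸ hik)
    rcases h1 i hi with h3 | h3
    · exact absurd ⟨hi, h3⟩ h2
    · exact h3
  have htri : ∀ i, ‖orb n c 0 i - orb n c 0 k0‖ ≤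
      ‖orb n c 0 i - orb n c 0 k‖ + ‖orb n c 0 k - orb n c 0 k0‖ := by
    intro i
    have := norm_add_le (orb n c 0 i - orb n c 0 k) (orb n c 0 k - orb n c 0 k0)
    rwa [sub_add_sub_cancel] at this
  have h2 : ∀ i, 1 ≤ i → ‖orb n c 0 i - orb n c 0 k‖ ≤ 4 * η ∨
      (L - 3) * η ≤ ‖orb n c 0 i - orb n c 0 k‖ := by
    intro i hi
    rcases h1 i hi with h3 | h3
    · left
      calc ‖orb n c 0 i - orb n c 0 k‖ = ‖(orb n c 0 i - orb n c 0 k0) -
            (orb n c 0 k - orb n c 0 k0)‖ := by congr 1; ring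
        _ ≤ ‖orb n c 0 i - orb n c 0 k0‖ + ‖orb n c 0 k - orb n c 0 k0‖ := norm_sub_le _ _
        _ ≤ 4 * η := by linarith
    · right
      linarith [htri i]
  set ρ : ℝ := (L - 3) * η with hρ
  have hL3 : 0 < L - 3 := by linarith
  have hρ0' : 0 < ρ := by positivity
  have hρ16 : 16 * η ≤ ρ := by rw [hρ]; nlinarith
  have hck : orb n c c (k - 1) = orb n c 0 k := by
    have : orb n c 0 (1 + (k - 1)) = orb n c (orb n c 0 1) (k - 1) := orb_add _ _ _
    rw [orb_one, zero_pow (by omega), zero_add] at this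
    rw [← this]
    congr 1
    omega
  obtain ⟨G, hG, hGc⟩ := exists_br' (p := orb n c 0 k) (ρ := ρ) hn (x := c) (k := k - 1)
    (by rw [hck]; exact mem_ball_self hρ0') (by
      intro j hj hjk hmem
      have h3 := hkmin j hj (by omega)
      rw [mem_ball, dist_eq_norm] at hmem
      linarith [htri j])
  rw [hck] at hGc
  set D := ‖deriv G (orb n c 0 k)‖ with hD
  have hD0 : 0 < D := norm_pos_iff.mpr (hG.deriv_ne (mem_ball_self hρ0'))
  have hsm : ρ * D < ρ0 ^ n / c0 := hd2 (k - 1) _ ρ G hρ0' (by rw [hρ]; linarith) hG (by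
    rw [hGc]; exact h.c_mem)
  rw [lt_div_iff₀ hc0] at hsm
  -- the gap at the critical value
  have h3 : ∀ i, 1 ≤ i → ‖orb n c 0 i - c‖ ≤ 4 * C0 * D * η ∨
      c0 * ρ * D ≤ ‖orb n c 0 i - c‖ := by
    intro i hi
    by_contra hcon
    push Not at hcon
    obtain ⟨h4, h5⟩ := hcon
    obtain ⟨h6, h7⟩ := hG.cover Kc hρ0' le_rfl (a := orb n c 0 i) (by rw [hGc]; exact h5)
    rw [← orb_add] at h6 h7
    rw [mem_ball, dist_eq_norm] at h6
    have h8 := (h2 (i + (k - 1)) (by omega)).resolve_right (by linarith)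
    have h9 := Kc.lip hρ0' hG.univ (w := orb n c 0 (i + (k - 1))) (by linarith)
    rw [h7, hGc] at h9
    have h10 : C0 * D * ‖orb n c 0 (i + (k - 1)) - orb n c 0 k‖ ≤ C0 * D * (4 * η) := by gcongr
    have : C0 * D * (4 * η) = 4 * C0 * D * η := by ring
    linarith
  obtain ⟨R1, hR1, hR1n⟩ := exists_root hn (y := 4 * C0 * D * η) (by positivity)
  have hK3n : (K3 * R1) ^ n ≤ c0 * ρ * D := by
    rw [mul_pow, hR1n, hρ]
    calc K3 ^ n * (4 * C0 * D * η) = 4 * C0 * K3 ^ n * (D * η) := by ring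
      _ ≤ c0 * (L - 3) * (D * η) := by gcongr
      _ = _ := by ring
  refine ⟨R1, hR1, ?_, ?_⟩
  · have h4 : (K3 * R1) ^ n < ρ0 ^ n := by
      have : c0 * ρ * D = ρ * D * c0 := by ring
      linarith
    exact lt_of_pow_lt_pow_left₀ n hρ0.le h4
  · intro j
    have h4 := h3 (j + 1) (by omega)
    rw [norm_orb_succ_sub] at h4
    rcases h4 with h4 | h4
    · left
      rw [← hR1n] at h4
      exact le_of_pow_le_pow_left₀ (by omega) hR1.le h4
    · right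
      exact le_of_pow_le_pow_left₀ (by omega) (norm_nonneg _) (hK3n.trans h4)

end Pool.Agent.J4H16
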