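import Mathlib
import Pool.Agent.J4H16.Gap

/-!
# Entrance lemmas
-/

set_option autoImplicit false
open Set Filter Topology Metric Complex MeasureTheory
open scoped ComplexConjugate

namespace Pool.Agent.J4H16

open Pool.Agent.W746.LD N62a1eb23

variable {n : ℕ} {c : ℂ} {r : ℝ}

/-- A holomorphic map of a disc into a much smaller concentric disc. -/
theorem attr_per {N : ℕ} (hN : 1 ≤ N) {s : ℝ} (hs : 0 < s)
    (h : ∀ x : ℂ, ‖x - c‖ ≤ s → ‖orb n c x N - c‖ ≤ s / 4) :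
    ∃ z, IsAttractingCycle (fun z => z ^ n + c) N z := by
  have hder : ∀ x : ℂ, HasDerivAt (fun z => orb n c z N) (P n c x N) x :=
    fun x => hasDerivAt_orb x N
  have hbd : ∀ x ∈ closedBall c (s / 4), ‖P n c x N‖ ≤ 1 / 3 := by
    intro x hx
    have hx' : ‖x - c‖ ≤ s / 4 := by simpa [dist_eq_norm] using hx
    have h1 : HasDerivAt (fun z => orb n c z N - c) (P n c x N) x := (hder x).sub_const c
    have h2 : ‖deriv (fun z => orb n c z N - c) x‖ ≤ s / 4 / (3 * s / 4) := by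
      apply Complex.norm_deriv_le_of_forall_mem_sphere_norm_le (by positivity)
      · exact Differentiable.diffContOnCl fun z => ((hder z).sub_const c).differentiableAt
      · intro z hz
        apply h
        have h3 : ‖z - x‖ = 3 * s / 4 := by simpa [dist_eq_norm] using hz
        calc ‖z - c‖ = ‖(z - x) + (x - c)‖ := by ring_nf
          _ ≤ ‖z - x‖ + ‖x - c‖ := norm_add_le _ _
          _ ≤ s := by linarith
    rw [h1.deriv] at h2
    have h4 : s / 4 / (3 * s / 4) = 1 / 3 := by field_simp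
    linarith
  have hmaps : MapsTo (fun z => orb n c z N) (closedBall c (s / 4)) (closedBall c (s / 4)) := by
    intro x hx
    have hx' : ‖x - c‖ ≤ s / 4 := by simpa [dist_eq_norm] using hx
    have := h x (by linarith)
    simpa [dist_eq_norm] using this
  have hcon : ContractingWith (1 / 3) (hmaps.restrict (fun z => orb n c z N) _ _) := by
    refine ⟨by norm_num, ?_⟩
    apply LipschitzWith.of_dist_le_mul
    rintro ⟨x, hx⟩ ⟨y, hy⟩
    have := (convex_closedBall c (s / 4)).norm_image_sub_le_of_norm_hasDerivWithin_le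
      (f := fun z => orb n c z N) (f' := fun z => P n c z N) (C := 1 / 3)
      (fun z _ => (hder z).hasDerivWithinAt) hbd hy hx
    simpa [Subtype.dist_eq, dist_eq_norm] using this
  obtain ⟨z, hz, hfix, -, -⟩ := ContractingWith.exists_fixedPoint' (isClosed_closedBall.isComplete)
    hmaps hcon (x := c) (mem_closedBall_self (by positivity)) (edist_ne_top _ _)
  refine ⟨z, by omega, hfix, (hder z).differentiableAt, ?_⟩
  have h5 : deriv (fun z => orb n c z N) z = P n c z N := (hder z).deriv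
  have h6 := hbd z hz
  rw [← h5] at h6
  exact lt_of_le_of_lt h6 (by norm_num)

theorem orb_one_crit (hn : 2 ≤ n) (m : ℕ) : orb n c 0 (m + 1) = orb n c c m := by
  rw [add_comm, orb_add, orb_one, zero_pow (by omega), zero_add]

/-- Derivative bound at the critical value. -/
theorem Q.star (h : Q n c r) {C0 c0 : ℝ} (Kc : KC C0 c0) {R1 R2 : ℝ} (hR1 : 0 < R1)
    (hR2 : 2 * R1 ≤ R2) (hgap : ∀ j, ‖orb n c 0 j‖ ≤ R1 ∨ R2 ≤ ‖orb n c 0 j‖) {m : ℕ} {g : ℂ → ℂ}
    (hg : Br n c m 0 R2 g) {z : ℂ} (hz : z ∈ ball (0 : ℂ) R2) (hgz : g z = c) :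
    ‖z‖ ≤ R1 ∧ ‖deriv g z‖ ≤ 2 ^ (n + 2) / c0 * R1 ^ (n - 1) := by
  have hn := h.hn
  have hc0 := Kc.pos
  have h1 := hg.crit hn hz hgz
  rw [mem_ball, dist_zero_right] at hz
  have h2 : ‖z‖ ≤ R1 := by
    have := hgap (m + 1)
    rw [h1] at this
    exact this.resolve_right (by linarith)
  refine ⟨h2, ?_⟩
  by_contra hcon
  push Not at hcon
  have hpow : R1 ^ (n - 1) * R1 = R1 ^ n := by
    rw [← pow_succ]
    congr 1
    omega
  have hs : 2 ^ (n + 2) * R1 ^ n < c0 * R1 * ‖deriv g z‖ := by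
    calc 2 ^ (n + 2) * R1 ^ n = c0 * R1 * (2 ^ (n + 2) / c0 * R1 ^ (n - 1)) := by
          rw [← hpow]
          field_simp
      _ < c0 * R1 * ‖deriv g z‖ := by gcongr
  obtain ⟨y, hy⟩ := attr_per (n := n) (c := c) (N := m + 1) (by omega) (s := 2 ^ (n + 2) * R1 ^ n)
    (by positivity) (by
      intro x hx
      have hsub : ball z R1 ⊆ ball 0 R2 := by
        intro u hu
        rw [mem_ball, dist_eq_norm] at hu
        rw [mem_ball, dist_zero_right]
        have : ‖u‖ ≤ ‖u - z‖ + ‖z‖ := by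
          have := norm_add_le (u - z) z
          rwa [sub_add_cancel] at this
        linarith
      obtain ⟨h3, -⟩ := hg.cover Kc hR1 hsub (a := x) (by rw [hgz]; linarith)
      rw [mem_ball, dist_eq_norm] at h3
      rw [norm_orb_succ_sub]
      have h4 : ‖orb n c x m‖ ≤ 2 * R1 := by
        have := norm_add_le (orb n c x m - z) z
        rw [sub_add_cancel] at this
        linarith
      calc ‖orb n c x m‖ ^ n ≤ (2 * R1) ^ n := by gcongr
        _ = 2 ^ (n + 2) * R1 ^ n / 4 := by rw [mul_pow, pow_add]; ring)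
  exact h.na c (mem_ball_self h.hr) ⟨_, _, hy⟩

/-- First entrance to `ball 0 R`. -/
theorem Q.ent1 (h : Q n c r) {C0 c0 : ℝ} (Kc : KC C0 c0) {R1 R R2 : ℝ} (hR1 : 0 < R1)
    (hR : R1 ≤ R) (hR2 : 9 * R ≤ R2) (hgap : ∀ j, ‖orb n c 0 j‖ ≤ R1 ∨ R2 ≤ ‖orb n c 0 j‖)
    (hC : 2 * C0 * (2 ^ (n + 2) / c0) * R1 ^ (n - 1) < R ^ (n - 1)) {x : ℂ} {k : ℕ}
    (hk : ‖orb n c x k‖ < R) (hki : ∀ i < k, R ≤ ‖orb n c x i‖) :
    ∃ G, Br n c k 0 R2 G ∧ G (orb n c x k) = x := by
  have hn := h.hn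
  have hc0 := Kc.pos
  have hC0 := Kc.one_le
  have hR0 : 0 < R := by linarith
  apply exists_br hn (by rw [mem_ball, dist_zero_right]; linarith)
  intro j hj g hg hgx z hz hgz
  obtain ⟨h1, h2⟩ := h.star Kc hR1 (by linarith) hgap hg hz hgz
  have hsub : ball z (R2 - R1) ⊆ ball 0 R2 := by
    intro u hu
    rw [mem_ball, dist_eq_norm] at hu
    rw [mem_ball, dist_zero_right]
    have := norm_add_le (u - z) z
    rw [sub_add_cancel] at this
    linarith
  have h3 : ‖orb n c x k - z‖ ≤ 2 * R := by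
    have := norm_sub_le (orb n c x k) z
    linarith
  have h4 := Kc.lip (by linarith : 0 < R2 - R1) (hg.univ.mono hsub) (w := orb n c x k)
    (by linarith)
  rw [hgx, hgz] at h4
  obtain ⟨i, hi⟩ : ∃ i, k - j = i + 1 := ⟨k - j - 1, by omega⟩
  rw [hi, norm_orb_succ_sub] at h4
  have h5 : R ^ n ≤ ‖orb n c x i‖ ^ n := by
    have := hki i (by omega)
    gcongr
  have h6 : C0 * ‖deriv g z‖ * ‖orb n c x k - z‖ ≤
      C0 * (2 ^ (n + 2) / c0 * R1 ^ (n - 1)) * (2 * R) := by gcongr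
  have h7 : R ^ (n - 1) * R = R ^ n := by
    rw [← pow_succ]
    congr 1
    omega
  have h8 : C0 * (2 ^ (n + 2) / c0 * R1 ^ (n - 1)) * (2 * R) < R ^ (n - 1) * R := by
    calc C0 * (2 ^ (n + 2) / c0 * R1 ^ (n - 1)) * (2 * R)
        = 2 * C0 * (2 ^ (n + 2) / c0) * R1 ^ (n - 1) * R := by ring
      _ < R ^ (n - 1) * R := by gcongr
  linarith

/-- The first return of the critical point. -/
structure RD (n : ℕ) (c : ℂ) (R1 R2 : ℝ) (s : ℕ) (g : ℂ → ℂ) : Prop where
  hs : 1 ≤ s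
  near : ‖orb n c 0 s‖ ≤ R1
  first : ∀ i, 1 ≤ i → i < s → R2 ≤ ‖orb n c 0 i‖
  br : Br n c (s - 1) 0 R2 g
  gz : g (orb n c 0 s) = c

theorem Q.exists_RD (h : Q n c r) {C0 c0 : ℝ} (Kc : KC C0 c0) {R1 R R2 : ℝ} (hR1 : 0 < R1)
    (hR : R1 < R) (hR2 : 9 * R ≤ R2) (hgap : ∀ j, ‖orb n c 0 j‖ ≤ R1 ∨ R2 ≤ ‖orb n c 0 j‖)
    (hC : 2 * C0 * (2 ^ (n + 2) / c0) * R1 ^ (n - 1) < R ^ (n - 1))
    (hret : ∃ j, 1 ≤ j ∧ ‖orb n c 0 j‖ ≤ R1) : ∃ s g, RD n c R1 R2 s g := by
  classical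
  have hn := h.hn
  obtain ⟨h1, h2⟩ := Nat.find_spec hret
  set s := Nat.find hret with hs
  have hmin : ∀ i, 1 ≤ i → i < s → R2 ≤ ‖orb n c 0 i‖ := by
    intro i hi his
    have h3 := Nat.find_min hret (hs ▸ his)
    rcases hgap i with h4 | h4
    · exact absurd ⟨hi, h4⟩ h3
    · exact h4
  have hcs : orb n c c (s - 1) = orb n c 0 s := by
    rw [← orb_one_crit hn]
    congr 1
    omega
  obtain ⟨G, hG, hGc⟩ := h.ent1 Kc hR1 hR.le hR2 hgap hC (x := c) (k := s - 1)
    (by rw [hcs]; linarith) (by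
      intro i hi
      rw [← orb_one_crit hn]
      have := hmin (i + 1) (by omega) (by omega)
      linarith)
  rw [hcs] at hGc
  exact ⟨s, G, h1, h2, hmin, hG, hGc⟩

/-- First entrance to the smaller ball. -/
theorem Q.ent2 (h : Q n c r) {C0 c0 : ℝ} (Kc : KC C0 c0) {R1 R2 M B : ℝ} (hR1 : 0 < R1)
    (hM : 1 ≤ M) (hB : 16 ^ n ≤ B) (hR2 : R2 = B * (M * R1))
    (hgap : ∀ j, ‖orb n c 0 j‖ ≤ R1 ∨ R2 ≤ ‖orb n c 0 j‖)
    (hM1 : 4 * C0 < c0 * M) (hM2 : C0 ^ 2 < c0 ^ 2 * M)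
    (hM3 : (4 * C0) ^ n * 2 ^ (n + 2) < 2 * c0 * (c0 * M) ^ (n - 1))
    (hM4 : 2 ^ (n + 2) ≤ M)
    {s : ℕ} {g : ℂ → ℂ} (hg : RD n c R1 R2 s g) {T Tb : ℝ} (hT : 0 < T) (hTb : 0 < Tb)
    (hTn : T ^ n = c0 / 2 * ‖deriv g (orb n c 0 s)‖ * (M * R1))
    (hTbn : Tb ^ n = c0 / 2 * ‖deriv g (orb n c 0 s)‖ * R2)
    {x : ℂ} {p : ℕ} (hp : ‖orb n c x p‖ < T) (hpi : ∀ i < p, T ≤ ‖orb n c x i‖) :
    16 * T ≤ Tb ∧ Tb ≤ R2 ∧ ∃ G, Br n c p 0 Tb G ∧ G (orb n c x p) = x := by
  have hn := h.hn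
  have hc0 := Kc.pos
  have hC0 := Kc.one_le
  have hc4 := Kc.le
  have hB1 : (1 : ℝ) ≤ B := le_trans (one_le_pow₀ (by norm_num)) hB
  have hB256 : (256 : ℝ) ≤ B := by
    refine le_trans ?_ hB
    calc (256 : ℝ) = 16 ^ 2 := by norm_num
      _ ≤ 16 ^ n := pow_le_pow_right₀ (by norm_num) hn
  set R : ℝ := M * R1 with hR
  have hR0 : 0 < R := by positivity
  have hR1R : R1 ≤ R := by rw [hR]; nlinarith
  have hR2R : 256 * R ≤ R2 := by rw [hR2]; gcongr
  have hR20 : 0 < R2 := by linarith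
  set a : ℝ := ‖deriv g (orb n c 0 s)‖ with ha
  have hsb : orb n c 0 s ∈ ball (0 : ℂ) R2 := by
    rw [mem_ball, dist_zero_right]
    linarith [hg.near]
  have ha0 : 0 < a := norm_pos_iff.mpr (hg.br.deriv_ne hsb)
  have haup : a ≤ 2 ^ (n + 2) / c0 * R1 ^ (n - 1) :=
    (h.star Kc hR1 (by linarith) hgap hg.br hsb hg.gz).2
  have hpow : R1 ^ (n - 1) * R1 = R1 ^ n := by
    rw [← pow_succ]
    congr 1
    omega
  -- sizes
  have hTTb : 16 * T ≤ Tb := by
    apply le_of_pow_le_pow_left₀ (by omega : n ≠ 0) hTb.le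
    rw [mul_pow, hTn, hTbn, hR2]
    calc 16 ^ n * (c0 / 2 * a * R) ≤ B * (c0 / 2 * a * R) := by gcongr
      _ = c0 / 2 * a * (B * R) := by ring
  have hTbR2 : Tb ≤ R2 := by
    apply le_of_pow_le_pow_left₀ (by omega : n ≠ 0) hR20.le
    rw [hTbn]
    have h1 : c0 / 2 * a * R2 ≤ c0 / 2 * (2 ^ (n + 2) / c0 * R1 ^ (n - 1)) * R2 := by gcongr
    have h2 : c0 / 2 * (2 ^ (n + 2) / c0 * R1 ^ (n - 1)) * R2 =
        2 ^ (n + 2) / 2 * R1 ^ (n - 1) * R2 := by field_simp
    have h3 : R2 ^ n = R2 ^ (n - 1) * R2 := by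
      rw [← pow_succ]
      congr 1
      omega
    rw [h3]
    refine h1.trans (h2.le.trans ?_)
    gcongr
    calc 2 ^ (n + 2) / 2 * R1 ^ (n - 1) ≤ M * R1 ^ (n - 1) := by
          gcongr
          linarith [show (0 : ℝ) < 2 ^ (n + 2) by positivity]
      _ ≤ M ^ (n - 1) * R1 ^ (n - 1) := by
          gcongr
          exact le_self_pow₀ hM (by omega)
      _ = R ^ (n - 1) := by rw [hR, mul_pow]
      _ ≤ R2 ^ (n - 1) := by
          gcongr
          linarith
  refine ⟨hTTb, hTbR2, ?_⟩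
  -- the ball around the return point
  have hsub1 : ball (orb n c 0 s) (R2 - R1) ⊆ ball 0 R2 := by
    intro u hu
    rw [mem_ball, dist_eq_norm] at hu
    rw [mem_ball, dist_zero_right]
    have := norm_add_le (u - orb n c 0 s) (orb n c 0 s)
    rw [sub_add_cancel] at this
    linarith [hg.near]
  have hlip : ∀ w : ℂ, ‖w - orb n c 0 s‖ ≤ R2 / 8 →
      ‖g w - c‖ ≤ C0 * a * ‖w - orb n c 0 s‖ := by
    intro w hw
    have := Kc.lip (by linarith : 0 < R2 - R1) (hg.br.univ.mono hsub1) (w := w) (by linarith)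
    rwa [hg.gz] at this
  -- the critical orbit inside `ball 0 Tb`
  have hgapT : ∀ i, ‖orb n c 0 i‖ < Tb → ‖orb n c 0 i‖ ≤ T := by
    intro i hi
    have h1 : ‖orb n c 0 (i + 1) - c‖ < c0 * (R2 / 2) * a := by
      rw [norm_orb_succ_sub]
      calc ‖orb n c 0 i‖ ^ n < Tb ^ n := by gcongr
        _ = c0 * (R2 / 2) * a := by rw [hTbn]; ring
    obtain ⟨h2, h3⟩ := hg.br.cover Kc (z := orb n c 0 s) (s := R2 / 2) (by positivity)
      ((ball_subset_ball (by linarith)).trans hsub1) (a := orb n c 0 (i + 1))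
      (by rw [hg.gz]; exact h1)
    rw [← orb_add] at h2 h3
    rw [mem_ball, dist_eq_norm] at h2
    have h4 : ‖orb n c 0 (i + 1 + (s - 1))‖ < R2 := by
      have := norm_add_le (orb n c 0 (i + 1 + (s - 1)) - orb n c 0 s) (orb n c 0 s)
      rw [sub_add_cancel] at this
      linarith [hg.near]
    have h5 := (hgap (i + 1 + (s - 1))).resolve_right (by linarith)
    have h6 : ‖orb n c 0 (i + 1 + (s - 1)) - orb n c 0 s‖ ≤ 2 * R1 := by
      have := norm_sub_le (orb n c 0 (i + 1 + (s - 1))) (orb n c 0 s)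
      linarith [hg.near]
    have h7 := hlip _ (h6.trans (by linarith))
    rw [h3, norm_orb_succ_sub] at h7
    apply le_of_pow_le_pow_left₀ (by omega : n ≠ 0) hT.le
    rw [hTn]
    refine h7.trans ?_
    calc C0 * a * ‖orb n c 0 (i + 1 + (s - 1)) - orb n c 0 s‖ ≤ C0 * a * (2 * R1) := by gcongr
      _ = (4 * C0) * (a * R1 / 2) := by ring
      _ ≤ (c0 * M) * (a * R1 / 2) := by gcongr
      _ = c0 / 2 * a * R := by rw [hR]; ring
  have hTR : 4 * C0 * T < c0 * R := by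
    have hlt : (4 * C0 * T) ^ n < (c0 * R) ^ n := by
      rw [mul_pow, hTn]
      have h1 : (4 * C0) ^ n * (c0 / 2 * a * R) ≤
          (4 * C0) ^ n * (c0 / 2 * (2 ^ (n + 2) / c0 * R1 ^ (n - 1)) * R) := by gcongr
      have h2 : (4 * C0) ^ n * (c0 / 2 * (2 ^ (n + 2) / c0 * R1 ^ (n - 1)) * R) =
          ((4 * C0) ^ n * 2 ^ (n + 2)) / 2 * (R1 ^ (n - 1) * R) := by
        field_simp
      have h3 : (c0 * R) ^ n = 2 * c0 * (c0 * M) ^ (n - 1) / 2 * (R1 ^ (n - 1) * R) := by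
        have : (c0 * R) ^ n = (c0 * R) ^ (n - 1) * (c0 * R) := by
          rw [← pow_succ]
          congr 1
          omega
        rw [this, hR]
        have : (c0 * (M * R1)) ^ (n - 1) = (c0 * M) ^ (n - 1) * R1 ^ (n - 1) := by
          rw [← mul_pow]
          congr 1
          ring
        rw [this]
        ring
      rw [h3]
      refine h1.trans_lt (h2.le.trans_lt ?_)
      gcongr
    exact lt_of_pow_lt_pow_left₀ n (by positivity) hlt
  have hTn' : T ^ n = C0 * a * (c0 * R / (2 * C0)) := by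
    rw [hTn]
    field_simp
  -- the pull-back
  apply exists_br hn (by rw [mem_ball, dist_zero_right]; linarith)
  intro j hj G hG hGx z hz hGz
  have hz1 := hG.crit hn hz hGz
  have hz' : ‖z‖ < Tb := by rwa [mem_ball, dist_zero_right] at hz
  have hzT : ‖z‖ ≤ T := by
    rw [← hz1] at hz' ⊢
    exact hgapT _ hz'
  have hjs : s ≤ j + 1 := by
    by_contra hlt
    push Not at hlt
    have := hg.first (j + 1) (by omega) hlt
    rw [hz1] at this
    linarith
  obtain ⟨i, hi⟩ : ∃ i, p - j = i + 1 := ⟨p - j - 1, by omega⟩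
  have hfar : T ^ n ≤ ‖orb n c x (p - j) - c‖ := by
    rw [hi, norm_orb_succ_sub]
    have := hpi i (by omega)
    gcongr
  have hcs : orb n c c (s - 1) = orb n c 0 s := by
    rw [← orb_one_crit hn]
    congr 1
    have := hg.hs
    omega
  obtain ⟨φ, hφd⟩ : ∃ φ : ℂ → ℂ, φ = fun w => orb n c (G w) (s - 1) := ⟨_, rfl⟩
  have hφ : Br n c (j - (s - 1)) 0 Tb φ := by
    rw [hφd]
    exact hG.shift (by omega)
  have hφz : φ z = orb n c 0 s := by rw [hφd, ← hcs, ← hGz]
  have hsubz : ball z (Tb / 2) ⊆ ball 0 Tb := by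
    intro u hu
    rw [mem_ball, dist_eq_norm] at hu
    rw [mem_ball, dist_zero_right]
    have := norm_add_le (u - z) z
    rw [sub_add_cancel] at this
    linarith
  have hT0 : 0 < Tb / 2 := by positivity
  have hmain : ∀ w ∈ ball z (2 * T), ‖φ w - orb n c 0 s‖ < c0 * R / (2 * C0) := by
    intro w hw
    rw [mem_ball, dist_eq_norm] at hw
    rcases Nat.lt_or_ge (s - 1) j with hlt | hge
    · have hom : ∀ u ∈ ball z (Tb / 2), φ u ≠ 0 := by
        intro u hu
        rw [hφd]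
        exact hG.orb_ne_zero hn (hsubz hu) hlt
      have h1 := Kc.komit φ z (Tb / 2) hT0 (hφ.univ.mono hsubz) 0 hom
      rw [hφz, sub_zero] at h1
      have h1' := h1.trans hg.near
      have h2 := Kc.lip hT0 (hφ.univ.mono hsubz) (w := w) (by linarith)
      rw [hφz] at h2
      refine h2.trans_lt ?_
      rw [lt_div_iff₀ (by positivity)]
      have h3 : c0 * (C0 * ‖deriv φ z‖ * ‖w - z‖ * (2 * C0)) ≤ C0 ^ 2 * R1 / 2 := by
        calc c0 * (C0 * ‖deriv φ z‖ * ‖w - z‖ * (2 * C0))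
            ≤ c0 * (C0 * ‖deriv φ z‖ * (Tb / 8) * (2 * C0)) := by
              gcongr
              linarith
          _ = C0 ^ 2 / 2 * (c0 * (Tb / 2) * ‖deriv φ z‖) := by ring
          _ ≤ C0 ^ 2 / 2 * R1 := by gcongr
          _ = C0 ^ 2 * R1 / 2 := by ring
      have h4 : C0 ^ 2 * R1 / 2 < c0 * (c0 * R) := by
        rw [hR]
        nlinarith
      exact lt_of_mul_lt_mul_left (h3.trans_lt h4) hc0.le
    · have hs1 := hg.hs
      have hjs' : j + 1 = s := by omega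
      have hw' : w ∈ ball (0 : ℂ) Tb := hsubz (by
        rw [mem_ball, dist_eq_norm]; linarith)
      have h1 : φ w = w := by
        have := hφ.eq w hw'
        have h0 : j - (s - 1) = 0 := by omega
        rw [h0, orb_zero] at this
        exact this
      rw [h1, ← hjs', hz1, lt_div_iff₀ (by positivity)]
      nlinarith
  have hR8 : c0 * R / (2 * C0) ≤ R2 / 8 := by
    rw [div_le_div_iff₀ (by positivity) (by norm_num)]
    nlinarith
  have hsubφ : ∀ w ∈ ball z (2 * T), φ w ∈ ball (0 : ℂ) R2 := by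
    intro w hw
    have h1 := hmain w hw
    rw [mem_ball, dist_zero_right]
    have := norm_add_le (φ w - orb n c 0 s) (orb n c 0 s)
    rw [sub_add_cancel] at this
    linarith [hg.near]
  have hsubT : ball z (2 * T) ⊆ ball 0 Tb := (ball_subset_ball (by linarith)).trans hsubz
  have hcomp : Br n c j z (2 * T) (fun w => g (φ w)) := by
    constructor
    · exact hg.br.diff.comp (hφ.diff.mono hsubT) hsubφ
    · intro w hw
      have e : j = (s - 1) + (j - (s - 1)) := by omega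
      have h1 : orb n c (g (φ w)) j = orb n c (orb n c (g (φ w)) (s - 1)) (j - (s - 1)) := by
        rw [← orb_add, ← e]
      rw [h1, hg.br.eq _ (hsubφ w hw), hφ.eq w (hsubT hw)]
  have huniq := (hG.mono hsubT).unique hn hcomp (mem_ball_self (by positivity)) (by
    simp only [hφz, hGz, hg.gz])
  have hxz : orb n c x p ∈ ball z (2 * T) := by
    rw [mem_ball, dist_eq_norm]
    have := norm_sub_le (orb n c x p) z
    linarith
  have h1 := huniq _ hxz
  rw [hGx] at h1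
  have h2 := hmain _ hxz
  have h3 := hlip (φ (orb n c x p)) (h2.le.trans hR8)
  rw [← h1] at h3
  have h4 : C0 * a * ‖φ (orb n c x p) - orb n c 0 s‖ < C0 * a * (c0 * R / (2 * C0)) := by gcongr
  linarith

end Pool.Agent.J4H16
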