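import Mathlib
import Pool.Agent.J4H16.Ent

/-!
# Near constancy of the line field
-/

set_option autoImplicit false
open Set Filter Topology Metric Complex MeasureTheory
open scoped ComplexConjugate

namespace Pool.Agent.J4H16

open Pool.Agent.W746.LD

variable {n : ℕ} {c : ℂ} {r : ℝ} {ν : ℂ → ℂ} {A : ℝ}

/-- Change of variables. -/
theorem cov {g : ℂ → ℂ} {U S : Set ℂ} (hU : IsOpen U) (hg : DifferentiableOn ℂ g U) (hSU : S ⊆ U)
    (hS : MeasurableSet S) (hinj : InjOn g S) (F : ℂ → ℝ) :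
    ∫ y in g '' S, F y = ∫ w in S, ‖deriv g w‖ ^ 2 * F (g w) := by
  have hd : ∀ w ∈ S, HasFDerivWithinAt g ((ContinuousLinearMap.toSpanSingleton ℂ
      (deriv g w)).restrictScalars ℝ : ℂ →L[ℝ] ℂ) S w := by
    intro w hw
    have h1 : HasDerivAt g (deriv g w) w :=
      (hg.differentiableAt (hU.mem_nhds (hSU hw))).hasDerivAt
    exact (h1.hasFDerivAt.restrictScalars ℝ).hasFDerivWithinAt
  rw [integral_image_eq_integral_abs_det_fderiv_smul volume hS hd hinj F]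
  apply setIntegral_congr_fun hS
  intro w _
  simp only [Pool.Agent.H713R5.QJ.af_det, smul_eq_mul]
  rw [abs_of_nonneg (by positivity)]

theorem cov_int {g : ℂ → ℂ} {U S : Set ℂ} (hU : IsOpen U) (hg : DifferentiableOn ℂ g U)
    (hSU : S ⊆ U) (hS : MeasurableSet S) (hinj : InjOn g S) (F : ℂ → ℝ) :
    IntegrableOn F (g '' S) ↔ IntegrableOn (fun w => ‖deriv g w‖ ^ 2 * F (g w)) S := by
  have hd : ∀ w ∈ S, HasFDerivWithinAt g ((ContinuousLinearMap.toSpanSingleton ℂ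
      (deriv g w)).restrictScalars ℝ : ℂ →L[ℝ] ℂ) S w := by
    intro w hw
    have h1 : HasDerivAt g (deriv g w) w :=
      (hg.differentiableAt (hU.mem_nhds (hSU hw))).hasDerivAt
    exact (h1.hasFDerivAt.restrictScalars ℝ).hasFDerivWithinAt
  rw [integrableOn_image_iff_integrableOn_abs_det_fderiv_smul volume hS hd hinj F]
  apply integrableOn_congr_fun _ hS
  intro w _
  simp only [Pool.Agent.H713R5.QJ.af_det, smul_eq_mul]
  rw [abs_of_nonneg (by positivity)]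

/-- Invariance along a branch. -/
theorem Inv.branch (hI : Inv n c ν A) (hn : 2 ≤ n) {m : ℕ} {p : ℂ} {ρ : ℝ} {g : ℂ → ℂ}
    (hg : Br n c m p ρ g) : ∀ᵐ w : ℂ, w ∈ ball p ρ → ν w = ν (g w) * ph (deriv g w) := by
  have h1 : volume {z : ℂ | ¬ ∀ k, ν z = ν (orb n c z k) * ph (P n c z k)} = 0 :=
    ae_iff.mp (hI.inv_k (c := c) hn)
  have h2 : volume ((fun z => orb n c z m) '' {z : ℂ | ¬ ∀ k, ν z = ν (orb n c z k) *
      ph (P n c z k)}) = 0 := by
    apply addHaar_image_eq_zero_of_differentiableOn_of_addHaar_eq_zero volume _ h1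
    exact ((differentiable_orb m).restrictScalars ℝ).differentiableOn
  have h3 := measure_eq_zero_iff_ae_notMem.mp h2
  filter_upwards [h3] with w hw hwb
  have h4 : ∀ k, ν (g w) = ν (orb n c (g w) k) * ph (P n c (g w) k) := by
    by_contra hcon
    exact hw ⟨g w, hcon, hg.eq w hwb⟩
  have h5 := h4 m
  rw [hg.eq w hwb] at h5
  have h6 : P n c (g w) m = (deriv g w)⁻¹ := eq_inv_of_mul_eq_one_left (hg.mul_deriv hwb)
  have h7 : ph (deriv g w) ≠ 0 := by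
    have := norm_ph (hg.deriv_ne hwb)
    intro h0
    rw [h0, norm_zero] at this
    exact zero_ne_one this
  rw [h5, h6, ph_inv, inv_mul_cancel_right₀ h7]

/-- Distortion of the phase. -/
theorem KC.phase {C0 c0 : ℝ} (K : KC C0 c0) {m : ℕ} {p : ℂ} {ρ : ℝ} {g : ℂ → ℂ}
    (hg : Br n c m p ρ g) {w : ℂ} (hw : ‖w - p‖ < ρ / 4) :
    ‖ph (deriv g w) - ph (deriv g p)‖ ≤ 8 * (C0 + 2) / ρ * ‖w - p‖ := by
  have hρ : 0 < ρ := by linarith [norm_nonneg (w - p)]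
  have hp : p ∈ ball p ρ := mem_ball_self hρ
  have hwb : w ∈ ball p ρ := by rw [mem_ball, dist_eq_norm]; linarith
  have h1 := ph_sub (hg.deriv_ne hwb) (hg.deriv_ne hp)
  have h2 := KC.distort K hρ hg.univ (hg.deriv_ne hp) hw
  have h3 : 0 < ‖deriv g p‖ := norm_pos_iff.mpr (hg.deriv_ne hp)
  refine h1.trans ?_
  rw [div_le_iff₀ h3]
  calc 2 * ‖deriv g w - deriv g p‖ ≤ 2 * (4 * (C0 + 2) / ρ * ‖w - p‖ * ‖deriv g p‖) := by gcongr
    _ = 8 * (C0 + 2) / ρ * ‖w - p‖ * ‖deriv g p‖ := by ring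

theorem aesm_comp (hI : Inv n c ν A) {g : ℂ → ℂ} {p : ℂ} {ρ : ℝ}
    (hg : DifferentiableOn ℂ g (ball p ρ)) {S : Set ℂ} (hS : MeasurableSet S)
    (hSb : S ⊆ ball p ρ) (l : ℂ) :
    IntegrableOn (fun w => ‖ν (g w) - l‖) S := by
  have hfin : volume S ≠ ⊤ := ne_top_of_le_ne_top (vol_ball_ne p ρ) (measure_mono hSb)
  have : IsFiniteMeasure (volume.restrict S) := ⟨by
    rw [Measure.restrict_apply_univ]
    exact lt_top_iff_ne_top.mpr hfin⟩
  have h1 : AEMeasurable g (volume.restrict S) := (hg.continuousOn.mono hSb).aemeasurable hS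
  refine Integrable.of_bound (C := A + ‖l‖) ?_ (Eventually.of_forall fun y => ?_)
  · exact (((hI.meas.comp_aemeasurable h1).sub_const l).norm).aestronglyMeasurable
  · rw [Real.norm_of_nonneg (norm_nonneg _)]
    exact (norm_sub_le _ _).trans (by gcongr; exact hI.bd _)

/-- Near constancy of the line field, transported from a good point. -/
theorem GP.near_const (hI : Inv n c ν A) (hn : 2 ≤ n) {C0 c0 : ℝ} (K : KC C0 c0) {x : ℂ}
    (hx : GP n c ν x) {θ : ℝ} (hθ : 0 < θ) :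
    ∃ δ0 : ℝ, 0 < δ0 ∧ ∀ (m : ℕ) (p : ℂ) (ρ σ : ℝ) (g : ℂ → ℂ) (q : ℂ), 0 < σ →
      4 * σ < ρ → 64 * (C0 + 2) * σ ≤ θ * ρ → Br n c m p ρ g → q ∈ ball p σ → g q = x →
      σ * ‖deriv g p‖ ≤ δ0 →
      ∃ l : ℂ, ‖l‖ = ‖ν x‖ ∧ ∫ w in ball p σ, ‖ν w - l‖ ≤ θ * ‖ν x‖ * σ ^ 2 := by
  have hC0 := K.one_le
  have hνx : 0 < ‖ν x‖ := norm_pos_iff.mpr hx.ne
  obtain ⟨δ1, hδ1, hleb⟩ := hx.leb (θ * ‖ν x‖ / (8 * C0 ^ 4)) (by positivity)
  refine ⟨δ1 / (2 * C0), by positivity, ?_⟩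
  intro m p ρ σ g q hσ hσρ hθρ hg hq hgq hsmall
  have hρ : 0 < ρ := by linarith
  have hp : p ∈ ball p ρ := mem_ball_self hρ
  set D := ‖deriv g p‖ with hD
  have hD0 : 0 < D := norm_pos_iff.mpr (hg.deriv_ne hp)
  set S : Set ℂ := ball p σ with hS
  have hSb : S ⊆ ball p ρ := ball_subset_ball (by linarith)
  have hSm : MeasurableSet S := measurableSet_ball
  have hw4 : ∀ w ∈ S, ‖w - p‖ < ρ / 4 := by
    intro w hw
    rw [hS, mem_ball, dist_eq_norm] at hw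
    linarith
  have hdl : ∀ w ∈ S, D ≤ C0 * ‖deriv g w‖ := fun w hw =>
    (K.kdist g p ρ hρ hg.univ w (hw4 w hw).le).2
  have hlip : ∀ w ∈ S, ‖g w - g p‖ ≤ C0 * D * σ := by
    intro w hw
    refine (K.lip hρ hg.univ (hw4 w hw).le).trans ?_
    gcongr
    rw [hS, mem_ball, dist_eq_norm] at hw
    exact hw.le
  refine ⟨ν x * ph (deriv g p), by rw [norm_mul, norm_ph (hg.deriv_ne hp), mul_one], ?_⟩
  -- the first integral
  have hI1 : ∫ w in S, ‖ν (g w) - ν x‖ ≤ θ * ‖ν x‖ / 2 * σ ^ 2 := by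
    have h1 : ∫ w in S, ‖ν (g w) - ν x‖ ≤
        ∫ w in S, (C0 / D) ^ 2 * (‖deriv g w‖ ^ 2 * ‖ν (g w) - ν x‖) := by
      apply setIntegral_mono_on (aesm_comp hI hg.diff hSm hSb (ν x)) _ hSm
      · intro w hw
        have h2 := hdl w hw
        have h3 : 1 ≤ (C0 / D) ^ 2 * ‖deriv g w‖ ^ 2 := by
          rw [← mul_pow]
          apply one_le_pow₀
          rw [div_mul_eq_mul_div, le_div_iff₀ hD0, one_mul]
          exact h2
        have h4 : 0 ≤ ‖ν (g w) - ν x‖ := norm_nonneg _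
        nlinarith
      · apply Integrable.const_mul
        have := (cov_int isOpen_ball hg.diff hSb hSm (hg.injOn.mono hSb)
          (fun y => ‖ν y - ν x‖)).mp
        apply this
        apply hI.intOn
        apply ne_top_of_le_ne_top (vol_closedBall_ne (g p) (C0 * D * σ))
        apply measure_mono
        rintro _ ⟨w, hw, rfl⟩
        rw [mem_closedBall, dist_eq_norm]
        exact hlip w hw
    have h2 : ∫ w in S, (C0 / D) ^ 2 * (‖deriv g w‖ ^ 2 * ‖ν (g w) - ν x‖) =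
        (C0 / D) ^ 2 * ∫ y in g '' S, ‖ν y - ν x‖ := by
      rw [cov isOpen_ball hg.diff hSb hSm (hg.injOn.mono hSb) (fun y => ‖ν y - ν x‖),
        integral_const_mul]
    have hδ : 0 < 2 * C0 * D * σ := by positivity
    have hδ' : 2 * C0 * D * σ ≤ δ1 := by
      rw [le_div_iff₀ (by positivity)] at hsmall
      have : σ * D * (2 * C0) = 2 * C0 * D * σ := by ring
      linarith
    have hsub : g '' S ⊆ closedBall x (2 * C0 * D * σ) := by
      rintro _ ⟨w, hw, rfl⟩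
      rw [mem_closedBall, dist_eq_norm, ← hgq]
      calc ‖g w - g q‖ = ‖(g w - g p) - (g q - g p)‖ := by congr 1; ring
        _ ≤ ‖g w - g p‖ + ‖g q - g p‖ := norm_sub_le _ _
        _ ≤ 2 * C0 * D * σ := by linarith [hlip w hw, hlip q hq]
    have h3 : ∫ y in g '' S, ‖ν y - ν x‖ ≤ ∫ y in closedBall x (2 * C0 * D * σ), ‖ν y - ν x‖ :=
      setIntegral_mono_set (hI.intOn _ (vol_closedBall_ne _ _))
        (Eventually.of_forall fun z => norm_nonneg _) (LE.le.eventuallyLE hsub)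
    have h4 := hleb _ hδ hδ'
    rw [h2] at h1
    refine h1.trans ?_
    calc (C0 / D) ^ 2 * ∫ y in g '' S, ‖ν y - ν x‖
        ≤ (C0 / D) ^ 2 * (θ * ‖ν x‖ / (8 * C0 ^ 4) * (2 * C0 * D * σ) ^ 2) := by
          gcongr
          exact h3.trans h4
      _ = θ * ‖ν x‖ / 2 * σ ^ 2 := by
          field_simp
          ring
  have hph : ∀ w ∈ S, ‖ph (deriv g w) - ph (deriv g p)‖ ≤ θ / 8 := by
    intro w hw
    refine (KC.phase K hg (hw4 w hw)).trans ?_
    rw [hS, mem_ball, dist_eq_norm] at hw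
    calc 8 * (C0 + 2) / ρ * ‖w - p‖ ≤ 8 * (C0 + 2) / ρ * σ := by gcongr
      _ = (64 * (C0 + 2) * σ) / (8 * ρ) := by field_simp; ring
      _ ≤ (θ * ρ) / (8 * ρ) := by gcongr
      _ = θ / 8 := by field_simp
  have hae : ∀ᵐ w ∂(volume.restrict S), ‖ν w - ν x * ph (deriv g p)‖ ≤
      ‖ν (g w) - ν x‖ + ‖ν x‖ * (θ / 8) := by
    rw [ae_restrict_iff' hSm]
    filter_upwards [hI.branch hn hg] with w hw hwS
    rw [hw (hSb hwS)]
    have e : ν (g w) * ph (deriv g w) - ν x * ph (deriv g p) =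
        (ν (g w) - ν x) * ph (deriv g w) + ν x * (ph (deriv g w) - ph (deriv g p)) := by ring
    rw [e]
    refine (norm_add_le _ _).trans ?_
    rw [norm_mul, norm_mul, norm_ph (hg.deriv_ne (hSb hwS)), mul_one]
    gcongr
    exact hph w hwS
  have hSfin : volume S ≠ ⊤ := vol_ball_ne p σ
  have hii := aesm_comp hI hg.diff hSm hSb (ν x)
  have hcst : IntegrableOn (fun _ : ℂ => ‖ν x‖ * (θ / 8)) S :=
    integrableOn_const hSfin
  calc ∫ w in S, ‖ν w - ν x * ph (deriv g p)‖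
      ≤ ∫ w in S, (‖ν (g w) - ν x‖ + ‖ν x‖ * (θ / 8)) :=
        integral_mono_ae (hI.intOn _ hSfin) (hii.add hcst) hae
    _ = (∫ w in S, ‖ν (g w) - ν x‖) + ∫ w in S, ‖ν x‖ * (θ / 8) := integral_add hii hcst
    _ ≤ θ * ‖ν x‖ / 2 * σ ^ 2 + Real.pi * σ ^ 2 * (‖ν x‖ * (θ / 8)) := by
        rw [setIntegral_const, hS, vol_ball_real p hσ.le, smul_eq_mul]
        gcongr
    _ ≤ θ * ‖ν x‖ * σ ^ 2 := by
        have h1 := Real.pi_lt_four
        have h2 : 0 ≤ σ ^ 2 * (‖ν x‖ * θ) := by positivity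
        nlinarith

/-- Near constancy transported by a branch. -/
theorem Inv.transport (hI : Inv n c ν A) (hn : 2 ≤ n) {C0 c0 : ℝ} (K : KC C0 c0) {θ : ℝ}
    (hθ : 0 < θ) {m : ℕ} {p : ℂ} {ρ σ : ℝ} {g : ℂ → ℂ} (hσ : 0 < σ) (hσρ : 4 * σ < ρ)
    (hθρ : 64 * (C0 + 2) * σ ≤ θ * ρ) (hg : Br n c m p ρ g) {l : ℂ}
    (hl : ∫ w in ball p σ, ‖ν w - l‖ ≤ θ * ‖l‖ * σ ^ 2) {S' : Set ℂ} (hS'm : S' ⊆ g '' ball p σ) :
    ∃ l' : ℂ, ‖l'‖ = ‖l‖ ∧ ∫ y in S', ‖ν y - l'‖ ≤ 2 * θ * ‖l‖ * (C0 * ‖deriv g p‖ * σ) ^ 2 := by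
  have hC0 := K.one_le
  have hρ : 0 < ρ := by linarith
  have hp : p ∈ ball p ρ := mem_ball_self hρ
  set D := ‖deriv g p‖ with hD
  have hD0 : 0 < D := norm_pos_iff.mpr (hg.deriv_ne hp)
  set S : Set ℂ := ball p σ with hS
  have hSb : S ⊆ ball p ρ := ball_subset_ball (by linarith)
  have hSm : MeasurableSet S := measurableSet_ball
  have hw4 : ∀ w ∈ S, ‖w - p‖ < ρ / 4 := by
    intro w hw
    rw [hS, mem_ball, dist_eq_norm] at hw
    linarith
  have hdu : ∀ w ∈ S, ‖deriv g w‖ ≤ C0 * D := fun w hw =>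
    (K.kdist g p ρ hρ hg.univ w (hw4 w hw).le).1
  have hlip : ∀ w ∈ S, ‖g w - g p‖ ≤ C0 * D * σ := by
    intro w hw
    refine (K.lip hρ hg.univ (hw4 w hw).le).trans ?_
    gcongr
    rw [hS, mem_ball, dist_eq_norm] at hw
    exact hw.le
  have hph1 : ∀ w ∈ ball p ρ, ‖ph (deriv g w)‖ = 1 := fun w hw => norm_ph (hg.deriv_ne hw)
  refine ⟨l * (ph (deriv g p))⁻¹, by rw [norm_mul, norm_inv, hph1 p hp, inv_one, mul_one], ?_⟩
  set l' := l * (ph (deriv g p))⁻¹ with hl'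
  have hbd : g '' S ⊆ closedBall (g p) (C0 * D * σ) := by
    rintro _ ⟨w, hw, rfl⟩
    rw [mem_closedBall, dist_eq_norm]
    exact hlip w hw
  have hfin : volume (g '' S) ≠ ⊤ :=
    ne_top_of_le_ne_top (vol_closedBall_ne (g p) (C0 * D * σ)) (measure_mono hbd)
  have hph : ∀ w ∈ S, ‖ph (deriv g w) - ph (deriv g p)‖ ≤ θ / 8 := by
    intro w hw
    refine (KC.phase K hg (hw4 w hw)).trans ?_
    rw [hS, mem_ball, dist_eq_norm] at hw
    calc 8 * (C0 + 2) / ρ * ‖w - p‖ ≤ 8 * (C0 + 2) / ρ * σ := by gcongr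
      _ = (64 * (C0 + 2) * σ) / (8 * ρ) := by field_simp; ring
      _ ≤ (θ * ρ) / (8 * ρ) := by gcongr
      _ = θ / 8 := by field_simp
  have h1 : ∫ y in S', ‖ν y - l'‖ ≤ ∫ y in g '' S, ‖ν y - l'‖ :=
    setIntegral_mono_set (hI.intOn _ hfin)
      (Eventually.of_forall fun z => norm_nonneg _) (LE.le.eventuallyLE hS'm)
  rw [cov isOpen_ball hg.diff hSb hSm (hg.injOn.mono hSb) (fun y => ‖ν y - l'‖)] at h1
  have hae : ∀ᵐ w ∂(volume.restrict S), ‖deriv g w‖ ^ 2 * ‖ν (g w) - l'‖ ≤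
      (C0 * D) ^ 2 * (‖ν w - l‖ + ‖l‖ * (θ / 8)) := by
    rw [ae_restrict_iff' hSm]
    filter_upwards [hI.branch hn hg] with w hw hwS
    have hwb := hSb hwS
    have h2 : ‖ν (g w) - l'‖ ≤ ‖ν w - l‖ + ‖l‖ * (θ / 8) := by
      have h3 : ph (deriv g w) ≠ 0 := by
        rw [← norm_ne_zero_iff, hph1 w hwb]; exact one_ne_zero
      have h4 : ph (deriv g p) ≠ 0 := by
        rw [← norm_ne_zero_iff, hph1 p hp]; exact one_ne_zero
      have e : ν (g w) - l' = ((ν w - l) + l * (ph (deriv g p) - ph (deriv g w)) *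
          (ph (deriv g p))⁻¹) * (ph (deriv g w))⁻¹ := by
        rw [hw hwb, hl']
        field_simp
        ring
      rw [e, norm_mul, norm_inv, hph1 w hwb, inv_one, mul_one]
      refine (norm_add_le _ _).trans ?_
      rw [norm_mul, norm_mul, norm_inv, hph1 p hp, inv_one, mul_one, norm_sub_rev (ph (deriv g p))]
      gcongr
      exact hph w hwS
    have h3 := hdu w hwS
    gcongr
  have hSfin : volume S ≠ ⊤ := vol_ball_ne p σ
  have hii := hI.intOn l hSfin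
  have hcst : IntegrableOn (fun _ : ℂ => ‖l‖ * (θ / 8)) S :=
    integrableOn_const hSfin
  refine h1.trans ?_
  calc ∫ w in S, ‖deriv g w‖ ^ 2 * ‖ν (g w) - l'‖
      ≤ ∫ w in S, (C0 * D) ^ 2 * (‖ν w - l‖ + ‖l‖ * (θ / 8)) := by
        apply integral_mono_ae _ ((hii.add hcst).const_mul _) hae
        exact (cov_int isOpen_ball hg.diff hSb hSm (hg.injOn.mono hSb)
          (fun y => ‖ν y - l'‖)).mp (hI.intOn _ hfin)
    _ = (C0 * D) ^ 2 * ((∫ w in S, ‖ν w - l‖) + ∫ w in S, ‖l‖ * (θ / 8)) := by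
        rw [integral_const_mul, integral_add hii hcst]
    _ ≤ (C0 * D) ^ 2 * (θ * ‖l‖ * σ ^ 2 + Real.pi * σ ^ 2 * (‖l‖ * (θ / 8))) := by
        rw [setIntegral_const, hS, vol_ball_real p hσ.le, smul_eq_mul]
        gcongr
    _ ≤ (C0 * D) ^ 2 * (2 * θ * ‖l‖ * σ ^ 2) := by
        have h1 := Real.pi_lt_four
        have h2 : 0 ≤ σ ^ 2 * (‖l‖ * θ) := by positivity
        gcongr
        nlinarith
    _ = _ := by ring

end Pool.Agent.J4H16
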