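import Mathlib
import Pool.Agent.J4H16.NA

/-!
# The final identity
-/

set_option autoImplicit false
open Set Filter Topology Metric Complex MeasureTheory
open scoped ComplexConjugate

namespace Pool.Agent.J4H16

open Pool.Agent.W746.LD

variable {n : ℕ} {c : ℂ} {r : ℝ} {ν : ℂ → ℂ} {A : ℝ}

/-- The integral of a monomial over a disc vanishes. -/
theorem int_pow_zero {m : ℕ} (hm : 1 ≤ m) (T : ℝ) : ∫ z in ball (0 : ℂ) T, z ^ m = 0 := by
  set ω : ℂ := Complex.exp ((Real.pi / m : ℝ) * I) with hω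
  have hωn : ‖ω‖ = 1 := by rw [hω]; exact Complex.norm_exp_ofReal_mul_I _
  have hm0 : (m : ℂ) ≠ 0 := by exact_mod_cast (by omega : m ≠ 0)
  have hωm : ω ^ m = -1 := by
    rw [hω, ← Complex.exp_nat_mul]
    have : (m : ℂ) * (((Real.pi / m : ℝ) : ℂ) * I) = Real.pi * I := by
      push_cast
      field_simp
    rw [this, Complex.exp_pi_mul_I]
  set a : Circle := ⟨ω, by rw [Submonoid.unitSphere]; simp [hωn]⟩ with ha
  have hmp : MeasurePreserving (rotation a) (volume : Measure ℂ) volume :=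
    (rotation a).measurePreserving
  have hme : MeasurableEmbedding (rotation a) :=
    (rotation a).toHomeomorph.measurableEmbedding
  have h1 := hmp.setIntegral_preimage_emb hme (fun z : ℂ => z ^ m) (ball (0 : ℂ) T)
  have h2 : (rotation a) ⁻¹' ball (0 : ℂ) T = ball (0 : ℂ) T := by
    ext z
    simp only [mem_preimage, mem_ball, dist_zero_right, LinearIsometryEquiv.norm_map]
  rw [h2] at h1
  have h3 : ∀ z : ℂ, (rotation a z) ^ m = - z ^ m := by
    intro z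
    rw [rotation_apply, mul_pow]
    have : (a : ℂ) = ω := rfl
    rw [this, hωm]
    ring
  simp only [h3] at h1
  rw [integral_neg] at h1
  have h4 : (2 : ℂ) * ∫ z in ball (0 : ℂ) T, z ^ m = 0 := by linear_combination -h1
  simpa using h4

theorem roots_card (hn : 2 ≤ n) (w : ℂ) :
    (pol n c - Polynomial.C w).roots.toFinset.card ≤ n := by
  refine (Multiset.toFinset_card_le _).trans ((Polynomial.card_roots' _).trans ?_)
  rw [Polynomial.natDegree_sub_C, pol_deg hn]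

theorem roots_ne (hn : 2 ≤ n) (w : ℂ) : 1 ≤ (pol n c - Polynomial.C w).roots.toFinset.card := by
  rw [Nat.one_le_iff_ne_zero, Finset.card_ne_zero]
  obtain ⟨z, hz⟩ : ∃ z : ℂ, z ^ n = w - c := by
    obtain ⟨z, hz⟩ := IsAlgClosed.exists_pow_nat_eq (w - c) (by omega : 0 < n)
    exact ⟨z, hz⟩
  refine ⟨z, ?_⟩
  rw [Pool.Agent.H713R5.QJ.af_mem (by rw [pol_deg hn]; omega), pol_ev]
  simp only [hz]
  ring

theorem preim_ball (hn : 2 ≤ n) {T : ℝ} (hT : 0 < T) :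
    (fun z : ℂ => z ^ n + c) ⁻¹' ball c (T ^ n) = ball 0 T := by
  ext z
  rw [mem_preimage, mem_ball, mem_ball, dist_eq_norm, add_sub_cancel_right, norm_pow,
    dist_zero_right]
  exact pow_lt_pow_iff_left₀ (norm_nonneg _) hT.le (by omega)

/-- Area formula: upper bound. -/
theorem area_up (hn : 2 ≤ n) {T : ℝ} (hT : 0 < T) (hI : Inv n c ν A) (l : ℂ) :
    ∫ z in ball (0 : ℂ) T, ‖ν (z ^ n + c) - l‖ * ‖n * z ^ (n - 1)‖ ^ 2 ≤
      n * ∫ w in ball c (T ^ n), ‖ν w - l‖ := by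
  have hcont : Continuous fun z : ℂ => z ^ n + c := by fun_prop
  have hm1 : Measurable fun z : ℂ => ‖ν (z ^ n + c) - l‖ :=
    ((hI.meas.comp hcont.measurable).sub_const l).norm
  have hm2 : Measurable fun z : ℂ => ‖ν z - l‖ := (hI.meas.sub_const l).norm
  have hm3 : Measurable fun z : ℂ => ‖(n : ℂ) * z ^ (n - 1)‖ ^ 2 := by fun_prop
  have h1 := Pool.Agent.H713R5.QJ.af_holds (pol n c)
    (fun z => ENNReal.ofReal ‖ν (z ^ n + c) - l‖) (ball c (T ^ n)) (by rw [pol_deg hn]; omega)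
    (ENNReal.measurable_ofReal.comp hm1) measurableSet_ball
  rw [pol_ev, preim_ball hn hT] at h1
  have h2 : ∫⁻ w in ball c (T ^ n), ∑ ζ ∈ (pol n c - Polynomial.C w).roots.toFinset,
      ENNReal.ofReal ‖ν (ζ ^ n + c) - l‖ ≤
      ∫⁻ w in ball c (T ^ n), n * ENNReal.ofReal ‖ν w - l‖ := by
    apply lintegral_mono
    intro w
    calc ∑ ζ ∈ (pol n c - Polynomial.C w).roots.toFinset, ENNReal.ofReal ‖ν (ζ ^ n + c) - l‖
        = ∑ ζ ∈ (pol n c - Polynomial.C w).roots.toFinset, ENNReal.ofReal ‖ν w - l‖ := by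
          apply Finset.sum_congr rfl
          intro ζ hζ
          rw [Pool.Agent.H713R5.QJ.af_mem (by rw [pol_deg hn]; omega), pol_ev] at hζ
          rw [show ζ ^ n + c = w from hζ]
      _ = (pol n c - Polynomial.C w).roots.toFinset.card * ENNReal.ofReal ‖ν w - l‖ := by
          rw [Finset.sum_const, nsmul_eq_mul]
      _ ≤ n * ENNReal.ofReal ‖ν w - l‖ := by
          gcongr
          exact roots_card hn w
  have hcm : ∫⁻ w in ball c (T ^ n), n * ENNReal.ofReal ‖ν w - l‖ =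
      n * ∫⁻ w in ball c (T ^ n), ENNReal.ofReal ‖ν w - l‖ :=
    lintegral_const_mul _ hm2.ennreal_ofReal
  rw [h1, hcm] at h2
  have h3 : ∫⁻ z in ball (0 : ℂ) T, ENNReal.ofReal ‖ν (z ^ n + c) - l‖ *
      ENNReal.ofReal (‖(Polynomial.derivative (pol n c)).eval z‖ ^ 2) =
      ∫⁻ z in ball (0 : ℂ) T, ENNReal.ofReal (‖ν (z ^ n + c) - l‖ * ‖n * z ^ (n - 1)‖ ^ 2) := by
    congr 1
    funext z
    rw [pol_der, ENNReal.ofReal_mul (norm_nonneg _)]
  rw [h3] at h2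
  have h4 : ∫ z in ball (0 : ℂ) T, ‖ν (z ^ n + c) - l‖ * ‖n * z ^ (n - 1)‖ ^ 2 =
      (∫⁻ z in ball (0 : ℂ) T, ENNReal.ofReal (‖ν (z ^ n + c) - l‖ *
        ‖n * z ^ (n - 1)‖ ^ 2)).toReal := by
    have hmm : Measurable fun z : ℂ => ‖ν (z ^ n + c) - l‖ * ‖(n : ℂ) * z ^ (n - 1)‖ ^ 2 :=
      hm1.mul hm3
    exact integral_eq_lintegral_of_nonneg_ae (Eventually.of_forall fun z => by positivity)
      hmm.aestronglyMeasurable
  have h5 : ∫ w in ball c (T ^ n), ‖ν w - l‖ =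
      (∫⁻ w in ball c (T ^ n), ENNReal.ofReal ‖ν w - l‖).toReal := by
    rw [integral_eq_lintegral_of_nonneg_ae (Eventually.of_forall fun z => norm_nonneg _)
      hm2.aestronglyMeasurable]
  have hfin : ∫⁻ w in ball c (T ^ n), ENNReal.ofReal ‖ν w - l‖ ≠ ⊤ := by
    have := (hI.intOn l (vol_ball_ne c (T ^ n))).lintegral_lt_top
    exact this.ne
  rw [h4, h5]
  have h6 : (n : ℝ) * (∫⁻ w in ball c (T ^ n), ENNReal.ofReal ‖ν w - l‖).toReal =
      (n * ∫⁻ w in ball c (T ^ n), ENNReal.ofReal ‖ν w - l‖).toReal := by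
    rw [ENNReal.toReal_mul, ENNReal.toReal_natCast]
  rw [h6]
  apply ENNReal.toReal_mono _ h2
  exact ENNReal.mul_ne_top (ENNReal.natCast_ne_top n) hfin

/-- Area formula: lower bound. -/
theorem area_low (hn : 2 ≤ n) (c : ℂ) {T : ℝ} (hT : 0 < T) :
    Real.pi * (T ^ n) ^ 2 ≤ ∫ z in ball (0 : ℂ) T, ‖(n : ℂ) * z ^ (n - 1)‖ ^ 2 := by
  have hcont : Continuous fun z : ℂ => z ^ n + c := by fun_prop
  have hm3 : Continuous fun z : ℂ => ‖(n : ℂ) * z ^ (n - 1)‖ ^ 2 := by fun_prop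
  have h1 := Pool.Agent.H713R5.QJ.af_holds (pol n c)
    (fun z => 1) (ball c (T ^ n)) (by rw [pol_deg hn]; omega) measurable_const measurableSet_ball
  rw [pol_ev, preim_ball hn hT] at h1
  have h2 : volume (ball c (T ^ n)) ≤ ∫⁻ w in ball c (T ^ n),
      ∑ ζ ∈ (pol n c - Polynomial.C w).roots.toFinset, (1 : ENNReal) := by
    rw [← setLIntegral_one]
    apply lintegral_mono
    intro w
    simp only [Finset.sum_const, nsmul_eq_mul, mul_one]
    exact_mod_cast roots_ne hn w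
  rw [h1] at h2
  have h3 : ∫⁻ z in ball (0 : ℂ) T, 1 *
      ENNReal.ofReal (‖(Polynomial.derivative (pol n c)).eval z‖ ^ 2) =
      ∫⁻ z in ball (0 : ℂ) T, ENNReal.ofReal (‖(n : ℂ) * z ^ (n - 1)‖ ^ 2) := by
    congr 1
    funext z
    rw [pol_der, one_mul]
  rw [h3] at h2
  rw [integral_eq_lintegral_of_nonneg_ae (Eventually.of_forall fun z => by positivity)
      hm3.aestronglyMeasurable, ← vol_ball_real c (by positivity : (0 : ℝ) ≤ T ^ n), Measure.real]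
  apply ENNReal.toReal_mono _ h2
  have hint : IntegrableOn (fun z : ℂ => ‖(n : ℂ) * z ^ (n - 1)‖ ^ 2) (ball 0 T) :=
    (hm3.continuousOn.integrableOn_compact (isCompact_closedBall 0 T)).mono_set
      ball_subset_closedBall
  exact hint.lintegral_lt_top.ne

/-- The line field cannot be nearly constant at the critical point and at the critical value. -/
theorem Inv.final (hI : Inv n c ν A) (hn : 2 ≤ n) {T : ℝ} (hT : 0 < T) {l1 l2 : ℂ} {α β : ℝ}
    (h1 : ∫ w in ball c (T ^ n), ‖ν w - l1‖ ≤ α * (T ^ n) ^ 2)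
    (h2 : ∫ z in ball (0 : ℂ) T, ‖ν z - l2‖ ≤ β * T ^ 2) :
    ‖l1‖ * Real.pi ≤ n * α + n ^ 2 * β := by
  obtain ⟨d, hd⟩ : ∃ d : ℂ → ℂ, d = fun z : ℂ => (n : ℂ) * z ^ (n - 1) := ⟨_, rfl⟩
  have hdc : Continuous d := by rw [hd]; fun_prop
  have hcont : Continuous fun z : ℂ => z ^ n + c := by fun_prop
  set S := ball (0 : ℂ) T with hS
  have hSm : MeasurableSet S := measurableSet_ball
  have hSfin : volume S ≠ ⊤ := vol_ball_ne 0 T
  have hbc : ∀ F : ℂ → ℂ, Continuous F → IntegrableOn F S := fun F hF =>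
    (hF.continuousOn.integrableOn_compact (isCompact_closedBall 0 T)).mono_set
      ball_subset_closedBall
  have hbr : ∀ F : ℂ → ℝ, Continuous F → IntegrableOn F S := fun F hF =>
    (hF.continuousOn.integrableOn_compact (isCompact_closedBall 0 T)).mono_set
      ball_subset_closedBall
  -- vanishing
  have hz : ∫ z in S, l2 * d z ^ 2 = 0 := by
    have e : ∀ z : ℂ, l2 * d z ^ 2 = (l2 * n ^ 2) * z ^ (2 * (n - 1)) := by
      intro z
      simp only [hd]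
      rw [mul_comm 2, pow_mul]
      ring
    simp only [e]
    rw [integral_const_mul, int_pow_zero (by omega), mul_zero]
  have hlow : Real.pi * (T ^ n) ^ 2 ≤ ∫ z in S, ‖d z‖ ^ 2 := by
    rw [hd]; exact area_low hn c hT
  -- the main identity
  have hae : ∀ᵐ z ∂(volume.restrict S), ‖l1 * ((‖d z‖ ^ 2 : ℝ) : ℂ) - l2 * d z ^ 2‖ ≤
      ‖ν (z ^ n + c) - l1‖ * ‖d z‖ ^ 2 + ‖ν z - l2‖ * ‖d z‖ ^ 2 := by
    have h0 : ∀ᵐ z : ℂ, z ≠ 0 := by
      have := (countable_singleton (0 : ℂ)).measure_zero volume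
      rw [ae_iff]
      simp [this]
    apply ae_restrict_of_ae
    filter_upwards [hI.inv, h0] with z hz hz0
    have hdz : d z ≠ 0 := by
      simp only [hd]
      have : (n : ℂ) ≠ 0 := by exact_mod_cast (by omega : n ≠ 0)
      exact mul_ne_zero this (pow_ne_zero _ hz0)
    have h3 : ν z * d z ^ 2 = ν (z ^ n + c) * ((‖d z‖ ^ 2 : ℝ) : ℂ) := by
      have h4 : ((‖d z‖ ^ 2 : ℝ) : ℂ) = d z * conj (d z) := by
        rw [Complex.mul_conj, Complex.normSq_eq_norm_sq]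
      have hz' : ν z = ν (z ^ n + c) * (conj (d z) / d z) := by rw [hd]; exact hz
      rw [h4, hz']
      field_simp
    have e : l1 * ((‖d z‖ ^ 2 : ℝ) : ℂ) - l2 * d z ^ 2 =
        -((ν (z ^ n + c) - l1) * ((‖d z‖ ^ 2 : ℝ) : ℂ)) + (ν z - l2) * d z ^ 2 := by
      linear_combination (-1 : ℂ) * h3
    rw [e]
    refine (norm_add_le _ _).trans ?_
    rw [norm_neg, norm_mul, norm_mul, norm_pow, Complex.norm_real, Real.norm_of_nonneg (by positivity)]
  have hdT : ∀ z ∈ S, ‖d z‖ ^ 2 ≤ (n * T ^ (n - 1)) ^ 2 := by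
    intro z hz
    rw [hS, mem_ball, dist_zero_right] at hz
    simp only [hd, norm_mul, Complex.norm_natCast, norm_pow]
    gcongr
  have hsq : Continuous fun z => ‖d z‖ ^ 2 := by fun_prop
  have i1 : IntegrableOn (fun z => ‖ν (z ^ n + c) - l1‖ * ‖d z‖ ^ 2) S := by
    have : IsFiniteMeasure (volume.restrict S) := ⟨by
      rw [Measure.restrict_apply_univ]
      exact lt_top_iff_ne_top.mpr hSfin⟩
    have hmm : Measurable fun z : ℂ => ‖ν (z ^ n + c) - l1‖ * ‖d z‖ ^ 2 :=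
      (((hI.meas.comp hcont.measurable).sub_const l1).norm).mul hsq.measurable
    refine Integrable.of_bound (C := (A + ‖l1‖) * (n * T ^ (n - 1)) ^ 2)
      hmm.aestronglyMeasurable ?_
    rw [ae_restrict_iff' hSm]
    refine Eventually.of_forall fun z hz => ?_
    rw [Real.norm_of_nonneg (by positivity)]
    have h5 := hdT z hz
    have h6 : ‖ν (z ^ n + c) - l1‖ ≤ A + ‖l1‖ :=
      (norm_sub_le _ _).trans (by gcongr; exact hI.bd _)
    have h7 : 0 ≤ A + ‖l1‖ := (norm_nonneg _).trans h6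
    gcongr
  have i2 : IntegrableOn (fun z => ‖ν z - l2‖ * ‖d z‖ ^ 2) S := by
    have : IsFiniteMeasure (volume.restrict S) := ⟨by
      rw [Measure.restrict_apply_univ]
      exact lt_top_iff_ne_top.mpr hSfin⟩
    have hmm : Measurable fun z : ℂ => ‖ν z - l2‖ * ‖d z‖ ^ 2 :=
      ((hI.meas.sub_const l2).norm).mul hsq.measurable
    refine Integrable.of_bound (C := (A + ‖l2‖) * (n * T ^ (n - 1)) ^ 2)
      hmm.aestronglyMeasurable ?_
    rw [ae_restrict_iff' hSm]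
    refine Eventually.of_forall fun z hz => ?_
    rw [Real.norm_of_nonneg (by positivity)]
    have h5 := hdT z hz
    have h6 : ‖ν z - l2‖ ≤ A + ‖l2‖ :=
      (norm_sub_le _ _).trans (by gcongr; exact hI.bd _)
    have h7 : 0 ≤ A + ‖l2‖ := (norm_nonneg _).trans h6
    gcongr
  have j1 : IntegrableOn (fun z => l1 * ((‖d z‖ ^ 2 : ℝ) : ℂ)) S := hbc _ (by fun_prop)
  have j2 : IntegrableOn (fun z => l2 * d z ^ 2) S := hbc _ (by fun_prop)
  have e1 : ∫ z in S, (l1 * ((‖d z‖ ^ 2 : ℝ) : ℂ) - l2 * d z ^ 2) =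
      l1 * ((∫ z in S, ‖d z‖ ^ 2 : ℝ) : ℂ) := by
    rw [integral_sub j1 j2, hz, sub_zero, integral_const_mul, integral_complex_ofReal]
  have i12 : Integrable (fun z => ‖ν (z ^ n + c) - l1‖ * ‖d z‖ ^ 2 + ‖ν z - l2‖ * ‖d z‖ ^ 2)
      (volume.restrict S) := Integrable.add i1 i2
  have h5 : ‖l1‖ * ∫ z in S, ‖d z‖ ^ 2 ≤
      (∫ z in S, ‖ν (z ^ n + c) - l1‖ * ‖d z‖ ^ 2) + ∫ z in S, ‖ν z - l2‖ * ‖d z‖ ^ 2 := by
    calc ‖l1‖ * ∫ z in S, ‖d z‖ ^ 2 = ‖∫ z in S, (l1 * ((‖d z‖ ^ 2 : ℝ) : ℂ) - l2 * d z ^ 2)‖ := by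
          rw [e1, norm_mul, Complex.norm_real, Real.norm_of_nonneg]
          exact integral_nonneg fun z => by positivity
      _ ≤ ∫ z in S, ‖l1 * ((‖d z‖ ^ 2 : ℝ) : ℂ) - l2 * d z ^ 2‖ := norm_integral_le_integral_norm _
      _ ≤ ∫ z in S, (‖ν (z ^ n + c) - l1‖ * ‖d z‖ ^ 2 + ‖ν z - l2‖ * ‖d z‖ ^ 2) :=
          integral_mono_ae (Integrable.norm (Integrable.sub j1 j2)) i12 hae
      _ = _ := integral_add i1 i2
  have h6 : ∫ z in S, ‖ν (z ^ n + c) - l1‖ * ‖d z‖ ^ 2 ≤ n * ∫ w in ball c (T ^ n), ‖ν w - l1‖ := by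
    rw [hd]; exact area_up hn hT hI l1
  have h7 : ∫ z in S, ‖ν z - l2‖ * ‖d z‖ ^ 2 ≤ (n * T ^ (n - 1)) ^ 2 * (β * T ^ 2) := by
    calc ∫ z in S, ‖ν z - l2‖ * ‖d z‖ ^ 2
        ≤ ∫ z in S, (n * T ^ (n - 1)) ^ 2 * ‖ν z - l2‖ := by
          apply setIntegral_mono_on i2 ((hI.intOn l2 hSfin).const_mul _) hSm
          intro z hz
          have := hdT z hz
          have h8 : 0 ≤ ‖ν z - l2‖ := norm_nonneg _
          nlinarith
      _ = (n * T ^ (n - 1)) ^ 2 * ∫ z in S, ‖ν z - l2‖ := integral_const_mul _ _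
      _ ≤ _ := by gcongr
  have hTn : 0 < (T ^ n) ^ 2 := by positivity
  have hpow : (n * T ^ (n - 1)) ^ 2 * (β * T ^ 2) = n ^ 2 * β * (T ^ n) ^ 2 := by
    have : T ^ n = T ^ (n - 1) * T := by
      rw [← pow_succ]
      congr 1
      omega
    rw [this]
    ring
  have h8 : ‖l1‖ * (Real.pi * (T ^ n) ^ 2) ≤ (n * α + n ^ 2 * β) * (T ^ n) ^ 2 := by
    calc ‖l1‖ * (Real.pi * (T ^ n) ^ 2) ≤ ‖l1‖ * ∫ z in S, ‖d z‖ ^ 2 := by gcongr
      _ ≤ n * (α * (T ^ n) ^ 2) + n ^ 2 * β * (T ^ n) ^ 2 := by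
          rw [← hpow]
          refine h5.trans (add_le_add (h6.trans ?_) h7)
          gcongr
      _ = _ := by ring
  have h9 : (‖l1‖ * Real.pi) * (T ^ n) ^ 2 ≤ (n * α + n ^ 2 * β) * (T ^ n) ^ 2 := by
    calc _ = ‖l1‖ * (Real.pi * (T ^ n) ^ 2) := by ring
      _ ≤ _ := h8
  exact le_of_mul_le_mul_right h9 hTn

end Pool.Agent.J4H16
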