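import Mathlib
import Pool.Agent.J4H16.Fid

/-!
# Distortion along radii, and near constancy at a bounded distance
-/

set_option autoImplicit false
open Set Filter Topology Metric Complex MeasureTheory
open scoped ComplexConjugate

namespace Pool.Agent.J4H16

open Pool.Agent.W746.LD

variable {n : ℕ} {c : ℂ} {r : ℝ} {ν : ℂ → ℂ} {A : ℝ}

/-- Distortion along radii. -/
theorem KC.rad {C0 c0 : ℝ} (K : KC C0 c0) {φ : ℂ → ℂ} {R : ℝ} (hR : 0 < R) (hu : Univ φ 0 R)
    (m : ℕ) : ∀ p : ℂ, ‖p‖ ≤ (1 - (3 / 4) ^ m) * R →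
      ‖deriv φ p‖ ≤ C0 ^ m * ‖deriv φ 0‖ ∧ ‖deriv φ 0‖ ≤ C0 ^ m * ‖deriv φ p‖ := by
  have hC0 := K.one_le
  induction m with
  | zero =>
    intro p hp
    have : p = 0 := by
      rw [← norm_le_zero_iff]
      simpa using hp
    subst this
    simp
  | succ m ih =>
    intro p hp
    rcases le_or_gt ‖p‖ ((1 - (3 / 4) ^ m) * R) with h1 | h1
    · obtain ⟨h2, h3⟩ := ih p h1
      constructor
      · refine h2.trans ?_
        gcongr
        exact Nat.le_succ m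
      · refine h3.trans ?_
        gcongr
        exact Nat.le_succ m
    · set s : ℝ := (1 - (3 / 4) ^ m) * R with hs
      have hpow : (0 : ℝ) < (3 / 4) ^ m := by positivity
      have hpow1 : ((3 : ℝ) / 4) ^ m ≤ 1 := pow_le_one₀ (by norm_num) (by norm_num)
      have hs0 : 0 ≤ s := by
        rw [hs]
        exact mul_nonneg (by linarith) hR.le
      have hp0 : 0 < ‖p‖ := lt_of_le_of_lt hs0 h1
      set q : ℂ := ((s / ‖p‖ : ℝ) : ℂ) * p with hq
      have hqn : ‖q‖ = s := by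
        rw [hq, norm_mul, Complex.norm_real, Real.norm_of_nonneg (by positivity)]
        field_simp
      have hpq : ‖p - q‖ ≤ (3 / 4) ^ m * R / 4 := by
        have e : p - q = ((1 - s / ‖p‖ : ℝ) : ℂ) * p := by
          rw [hq]; push_cast; ring
        have h2 : 0 ≤ 1 - s / ‖p‖ := by
          rw [sub_nonneg, div_le_one hp0]; exact h1.le
        rw [e, norm_mul, Complex.norm_real, Real.norm_of_nonneg h2]
        have h3 : (1 - s / ‖p‖) * ‖p‖ = ‖p‖ - s := by field_simp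
        rw [h3]
        rw [pow_succ] at hp
        rw [hs]
        linarith
      have hsub : ball q ((3 / 4) ^ m * R) ⊆ ball 0 R := by
        intro u hu'
        rw [mem_ball, dist_eq_norm] at hu'
        rw [mem_ball, dist_zero_right]
        have := norm_add_le (u - q) q
        rw [sub_add_cancel, hqn] at this
        rw [hs] at this
        linarith
      obtain ⟨h4, h5⟩ := K.kdist φ q ((3 / 4) ^ m * R) (by positivity) (hu.mono hsub) p hpq
      obtain ⟨h2, h3⟩ := ih q hqn.le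
      constructor
      · calc ‖deriv φ p‖ ≤ C0 * ‖deriv φ q‖ := h4
          _ ≤ C0 * (C0 ^ m * ‖deriv φ 0‖) := by gcongr
          _ = C0 ^ (m + 1) * ‖deriv φ 0‖ := by ring
      · calc ‖deriv φ 0‖ ≤ C0 ^ m * ‖deriv φ q‖ := h3
          _ ≤ C0 ^ m * (C0 * ‖deriv φ p‖) := by gcongr
          _ = C0 ^ (m + 1) * ‖deriv φ p‖ := by ring

/-- Mean value form of the distortion along radii. -/
theorem KC.rad_lip2 {C0 c0 : ℝ} (K : KC C0 c0) {φ : ℂ → ℂ} {R s : ℝ} (hR : 0 < R)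
    (hu : Univ φ 0 R) (m : ℕ) (hs : s ≤ (1 - (3 / 4) ^ m) * R) {x u : ℂ} (hx : ‖x‖ ≤ s)
    (hu' : ‖u‖ ≤ s) : ‖φ x - φ u‖ ≤ 2 * s * C0 ^ (2 * m) * ‖deriv φ u‖ := by
  have hC0 := K.one_le
  have hpow : (0 : ℝ) < (3 / 4) ^ m := by positivity
  have hsR : s < R := by nlinarith
  have hs0 : 0 ≤ s := (norm_nonneg _).trans hx
  have hconv : Convex ℝ (closedBall (0 : ℂ) s) := convex_closedBall 0 _
  have hsub : closedBall (0 : ℂ) s ⊆ ball 0 R := closedBall_subset_ball hsR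
  have h1 : ‖φ x - φ u‖ ≤ C0 ^ m * ‖deriv φ 0‖ * ‖x - u‖ := by
    refine hconv.norm_image_sub_le_of_norm_deriv_le (𝕜 := ℂ) (f := φ)
      (C := C0 ^ m * ‖deriv φ 0‖) ?_ ?_ ?_ ?_
    · intro y hy
      exact hu.1.differentiableAt (isOpen_ball.mem_nhds (hsub hy))
    · intro y hy
      rw [mem_closedBall, dist_zero_right] at hy
      exact (KC.rad K hR hu m y (hy.trans hs)).1
    · rw [mem_closedBall, dist_zero_right]; exact hu'
    · rw [mem_closedBall, dist_zero_right]; exact hx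
  have h2 : ‖x - u‖ ≤ 2 * s := by
    have := norm_sub_le x u
    linarith
  have h3 := (KC.rad K hR hu m u (hu'.trans hs)).2
  calc ‖φ x - φ u‖ ≤ C0 ^ m * ‖deriv φ 0‖ * ‖x - u‖ := h1
    _ ≤ C0 ^ m * (C0 ^ m * ‖deriv φ u‖) * (2 * s) := by gcongr
    _ = 2 * s * C0 ^ (2 * m) * ‖deriv φ u‖ := by rw [two_mul m, pow_add]; ring

theorem KC.rad_lip {C0 c0 : ℝ} (K : KC C0 c0) {φ : ℂ → ℂ} {R : ℝ} (hR : 0 < R)
    (hu : Univ φ 0 R) (m : ℕ) {x u : ℂ} (hx : ‖x‖ ≤ (1 - (3 / 4) ^ m) * R)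
    (hu' : ‖u‖ ≤ (1 - (3 / 4) ^ m) * R) :
    ‖φ x - φ u‖ ≤ 2 * R * C0 ^ (2 * m) * ‖deriv φ u‖ := by
  refine (KC.rad_lip2 K hR hu m le_rfl hx hu').trans ?_
  have hpow : (0 : ℝ) < (3 / 4) ^ m := by positivity
  have hC0 := K.one_le
  gcongr
  nlinarith

theorem exists_rad {θ : ℝ} (hθ : θ < 1) : ∃ m : ℕ, θ ≤ 1 - (3 / 4) ^ m := by
  obtain ⟨m, hm⟩ := exists_pow_lt_of_lt_one (by linarith : 0 < 1 - θ)
    (by norm_num : (3 / 4 : ℝ) < 1)
  exact ⟨m, by linarith⟩

/-- Near constancy of the line field, transported from a good point at a bounded distance. -/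
theorem GP.near_const' (hI : Inv n c ν A) (hn : 2 ≤ n) {C0 c0 : ℝ} (K : KC C0 c0) {x : ℂ}
    (hx : GP n c ν x) {θ M : ℝ} (hθ : 0 < θ) (hM : 0 ≤ M) :
    ∃ δ0 : ℝ, 0 < δ0 ∧ ∀ (m : ℕ) (p : ℂ) (ρ σ : ℝ) (g : ℂ → ℂ), 0 < σ →
      4 * σ < ρ → 64 * (C0 + 2) * σ ≤ θ * ρ → Br n c m p ρ g →
      ‖g p - x‖ ≤ M * σ * ‖deriv g p‖ → σ * ‖deriv g p‖ ≤ δ0 →
      ∃ l : ℂ, ‖l‖ = ‖ν x‖ ∧ ∫ w in ball p σ, ‖ν w - l‖ ≤ θ * ‖ν x‖ * σ ^ 2 := by
  have hC0 := K.one_le
  have hνx : 0 < ‖ν x‖ := norm_pos_iff.mpr hx.ne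
  obtain ⟨δ1, hδ1, hleb⟩ := hx.leb (θ * ‖ν x‖ / (2 * C0 ^ 2 * (C0 + M) ^ 2)) (by positivity)
  refine ⟨δ1 / (C0 + M), by positivity, ?_⟩
  intro m p ρ σ g hσ hσρ hθρ hg hgq hsmall
  have hρ : 0 < ρ := by linarith
  have hp : p ∈ ball p ρ := mem_ball_self hρ
  set D := ‖deriv g p‖ with hD
  have hD0 : 0 < D := norm_pos_iff.mpr (hg.deriv_ne hp)
  set S : Set ℂ := ball p σ with hS
  have hSb : S ⊆ ball p ρ := ball_subset_ball (by linarith)
  have hSm : MeasurableSet S := measurableSet_ball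
  have hw4 : ∀ w ∈ S, ‖w - p‖ < ρ / 4 := by
    intro w hw
    rw [hS, mem_ball, dist_eq_norm] at hw
    linarith
  have hdl : ∀ w ∈ S, D ≤ C0 * ‖deriv g w‖ := fun w hw =>
    (K.kdist g p ρ hρ hg.univ w (hw4 w hw).le).2
  have hlip : ∀ w ∈ S, ‖g w - g p‖ ≤ C0 * D * σ := by
    intro w hw
    refine (K.lip hρ hg.univ (hw4 w hw).le).trans ?_
    gcongr
    rw [hS, mem_ball, dist_eq_norm] at hw
    exact hw.le
  refine ⟨ν x * ph (deriv g p), by rw [norm_mul, norm_ph (hg.deriv_ne hp), mul_one], ?_⟩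
  -- the first integral
  have hI1 : ∫ w in S, ‖ν (g w) - ν x‖ ≤ θ * ‖ν x‖ / 2 * σ ^ 2 := by
    have h1 : ∫ w in S, ‖ν (g w) - ν x‖ ≤
        ∫ w in S, (C0 / D) ^ 2 * (‖deriv g w‖ ^ 2 * ‖ν (g w) - ν x‖) := by
      apply setIntegral_mono_on (aesm_comp hI hg.diff hSm hSb (ν x)) _ hSm
      · intro w hw
        have h2 := hdl w hw
        have h3 : 1 ≤ (C0 / D) ^ 2 * ‖deriv g w‖ ^ 2 := by
          rw [← mul_pow]
          apply one_le_pow₀
          rw [div_mul_eq_mul_div, le_div_iff₀ hD0, one_mul]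
          exact h2
        have h4 : 0 ≤ ‖ν (g w) - ν x‖ := norm_nonneg _
        nlinarith
      · apply Integrable.const_mul
        have := (cov_int isOpen_ball hg.diff hSb hSm (hg.injOn.mono hSb)
          (fun y => ‖ν y - ν x‖)).mp
        apply this
        apply hI.intOn
        apply ne_top_of_le_ne_top (vol_closedBall_ne (g p) (C0 * D * σ))
        apply measure_mono
        rintro _ ⟨w, hw, rfl⟩
        rw [mem_closedBall, dist_eq_norm]
        exact hlip w hw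
    have h2 : ∫ w in S, (C0 / D) ^ 2 * (‖deriv g w‖ ^ 2 * ‖ν (g w) - ν x‖) =
        (C0 / D) ^ 2 * ∫ y in g '' S, ‖ν y - ν x‖ := by
      rw [cov isOpen_ball hg.diff hSb hSm (hg.injOn.mono hSb) (fun y => ‖ν y - ν x‖),
        integral_const_mul]
    have hδ : 0 < (C0 + M) * D * σ := by positivity
    have hδ' : (C0 + M) * D * σ ≤ δ1 := by
      rw [le_div_iff₀ (by positivity)] at hsmall
      have : σ * D * (C0 + M) = (C0 + M) * D * σ := by ring
      linarith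
    have hsub : g '' S ⊆ closedBall x ((C0 + M) * D * σ) := by
      rintro _ ⟨w, hw, rfl⟩
      rw [mem_closedBall, dist_eq_norm]
      calc ‖g w - x‖ = ‖(g w - g p) + (g p - x)‖ := by congr 1; ring
        _ ≤ ‖g w - g p‖ + ‖g p - x‖ := norm_add_le _ _
        _ ≤ C0 * D * σ + M * σ * D := add_le_add (hlip w hw) hgq
        _ = (C0 + M) * D * σ := by ring
    have h3 : ∫ y in g '' S, ‖ν y - ν x‖ ≤ ∫ y in closedBall x ((C0 + M) * D * σ), ‖ν y - ν x‖ :=
      setIntegral_mono_set (hI.intOn _ (vol_closedBall_ne _ _))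
        (Eventually.of_forall fun z => norm_nonneg _) (LE.le.eventuallyLE hsub)
    have h4 := hleb _ hδ hδ'
    rw [h2] at h1
    refine h1.trans ?_
    calc (C0 / D) ^ 2 * ∫ y in g '' S, ‖ν y - ν x‖
        ≤ (C0 / D) ^ 2 * (θ * ‖ν x‖ / (2 * C0 ^ 2 * (C0 + M) ^ 2) * ((C0 + M) * D * σ) ^ 2) := by
          gcongr
          exact h3.trans h4
      _ = θ * ‖ν x‖ / 2 * σ ^ 2 := by
          have : C0 + M ≠ 0 := by positivity
          field_simp
  have hph : ∀ w ∈ S, ‖ph (deriv g w) - ph (deriv g p)‖ ≤ θ / 8 := by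
    intro w hw
    refine (KC.phase K hg (hw4 w hw)).trans ?_
    rw [hS, mem_ball, dist_eq_norm] at hw
    calc 8 * (C0 + 2) / ρ * ‖w - p‖ ≤ 8 * (C0 + 2) / ρ * σ := by gcongr
      _ = (64 * (C0 + 2) * σ) / (8 * ρ) := by field_simp; ring
      _ ≤ (θ * ρ) / (8 * ρ) := by gcongr
      _ = θ / 8 := by field_simp
  have hae : ∀ᵐ w ∂(volume.restrict S), ‖ν w - ν x * ph (deriv g p)‖ ≤
      ‖ν (g w) - ν x‖ + ‖ν x‖ * (θ / 8) := by
    rw [ae_restrict_iff' hSm]
    filter_upwards [hI.branch hn hg] with w hw hwS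
    rw [hw (hSb hwS)]
    have e : ν (g w) * ph (deriv g w) - ν x * ph (deriv g p) =
        (ν (g w) - ν x) * ph (deriv g w) + ν x * (ph (deriv g w) - ph (deriv g p)) := by ring
    rw [e]
    refine (norm_add_le _ _).trans ?_
    rw [norm_mul, norm_mul, norm_ph (hg.deriv_ne (hSb hwS)), mul_one]
    gcongr
    exact hph w hwS
  have hSfin : volume S ≠ ⊤ := vol_ball_ne p σ
  have hii := aesm_comp hI hg.diff hSm hSb (ν x)
  have hcst : IntegrableOn (fun _ : ℂ => ‖ν x‖ * (θ / 8)) S :=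
    integrableOn_const hSfin
  calc ∫ w in S, ‖ν w - ν x * ph (deriv g p)‖
      ≤ ∫ w in S, (‖ν (g w) - ν x‖ + ‖ν x‖ * (θ / 8)) :=
        integral_mono_ae (hI.intOn _ hSfin) (hii.add hcst) hae
    _ = (∫ w in S, ‖ν (g w) - ν x‖) + ∫ w in S, ‖ν x‖ * (θ / 8) := integral_add hii hcst
    _ ≤ θ * ‖ν x‖ / 2 * σ ^ 2 + Real.pi * σ ^ 2 * (‖ν x‖ * (θ / 8)) := by
        rw [setIntegral_const, hS, vol_ball_real p hσ.le, smul_eq_mul]
        gcongr
    _ ≤ θ * ‖ν x‖ * σ ^ 2 := by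
        have h1 := Real.pi_lt_four
        have h2 : 0 ≤ σ ^ 2 * (‖ν x‖ * θ) := by positivity
        nlinarith

/-- In degree at least three the line field has mean zero on the discs around the critical
point. -/
theorem Inv.mean_zero (hI : Inv n c ν A) (hn : 3 ≤ n) (T : ℝ) :
    ∫ z in ball (0 : ℂ) T, ν z = 0 := by
  set ω : ℂ := Complex.exp (2 * Real.pi * I / n) with hω
  have hn0 : n ≠ 0 := by omega
  have hprim : IsPrimitiveRoot ω n := Complex.isPrimitiveRoot_exp n hn0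
  have hωn : ‖ω‖ = 1 := Complex.norm_eq_one_of_pow_eq_one hprim.pow_eq_one hn0
  have hω0 : ω ≠ 0 := by
    intro h0
    rw [h0, norm_zero] at hωn
    exact zero_ne_one hωn
  have hω2 : ω ^ 2 ≠ 1 := fun h => by
    have := hprim.dvd_of_pow_eq_one 2 h
    exact absurd (Nat.le_of_dvd (by norm_num) this) (by omega)
  set a : Circle := ⟨ω, by rw [Submonoid.unitSphere]; simp [hωn]⟩ with ha
  have hmp : MeasurePreserving (rotation a) (volume : Measure ℂ) volume :=
    (rotation a).measurePreserving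
  have hme : MeasurableEmbedding (rotation a) :=
    (rotation a).toHomeomorph.measurableEmbedding
  have h1 := hmp.setIntegral_preimage_emb hme ν (ball (0 : ℂ) T)
  have h2 : (rotation a) ⁻¹' ball (0 : ℂ) T = ball (0 : ℂ) T := by
    ext z
    simp only [mem_preimage, mem_ball, dist_zero_right, LinearIsometryEquiv.norm_map]
  rw [h2] at h1
  have hra : ∀ z : ℂ, rotation a z = ω * z := fun z => by
    rw [rotation_apply]
  have h3 : ∀ᵐ z : ℂ, ν (rotation a z) = ω ^ 2 * ν z := by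
    have h4 : ∀ᵐ z : ℂ, ν (rotation a z) = ν ((rotation a z) ^ n + c) *
        (conj (n * (rotation a z) ^ (n - 1)) / (n * (rotation a z) ^ (n - 1))) :=
      hmp.quasiMeasurePreserving.ae hI.inv
    filter_upwards [h4, hI.inv] with z hz1 hz2
    rw [hz1, hz2, hra, mul_pow, hprim.pow_eq_one, one_mul, mul_pow]
    have h5 : conj ω = ω⁻¹ := by
      rw [Complex.inv_def, Complex.normSq_eq_norm_sq, hωn]
      simp
    have h6 : ω ^ n = ω ^ (n - 1) * ω := by
      rw [← pow_succ]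
      congr 1
      omega
    have h7 : (ω ^ (n - 1))⁻¹ = ω := by
      rw [hprim.pow_eq_one] at h6
      exact inv_eq_of_mul_eq_one_right h6.symm
    rw [map_mul, map_mul, map_pow, map_natCast, h5, inv_pow, h7, map_mul, map_natCast]
    have h8 : ω ^ (n - 1) = ω⁻¹ := inv_eq_iff_eq_inv.mp h7
    rw [h8]
    by_cases hz : z = 0
    · subst hz
      have : (0 : ℂ) ^ (n - 1) = 0 := zero_pow (by omega)
      simp [this]
    · have hz' : z ^ (n - 1) ≠ 0 := pow_ne_zero _ hz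
      have hnC : (n : ℂ) ≠ 0 := by exact_mod_cast hn0
      field_simp
  have h4 : ∫ z in ball (0 : ℂ) T, ν (rotation a z) = ∫ z in ball (0 : ℂ) T, ω ^ 2 * ν z :=
    setIntegral_congr_ae measurableSet_ball (h3.mono fun z hz _ => hz)
  rw [h4, integral_const_mul] at h1
  have h5 : (ω ^ 2 - 1) * ∫ z in ball (0 : ℂ) T, ν z = 0 := by linear_combination h1
  rcases mul_eq_zero.mp h5 with h6 | h6
  · exact absurd (sub_eq_zero.mp h6) hω2
  · exact h6

/-- Near constancy around the critical point is impossible in degree at least three. -/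
theorem Inv.no_const (hI : Inv n c ν A) (hn : 3 ≤ n) {σ : ℝ} (hσ : 0 < σ) {l : ℂ} (hl : l ≠ 0)
    (h : ∫ w in ball (0 : ℂ) σ, ‖ν w - l‖ ≤ 1 * ‖l‖ * σ ^ 2) : False := by
  have hl0 : 0 < ‖l‖ := norm_pos_iff.mpr hl
  have hfin := vol_ball_ne (0 : ℂ) σ
  have h1 : IntegrableOn ν (ball (0 : ℂ) σ) := hI.locInt.integrableOn_isCompact
    (isCompact_closedBall 0 σ) |>.mono_set ball_subset_closedBall
  have h2 : IntegrableOn (fun _ : ℂ => l) (ball (0 : ℂ) σ) := integrableOn_const hfin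
  have h3 : ∫ w in ball (0 : ℂ) σ, (ν w - l) = - ((Real.pi * σ ^ 2 : ℝ) * l) := by
    rw [integral_sub h1 h2, hI.mean_zero hn, setIntegral_const, vol_ball_real 0 hσ.le, zero_sub]
    simp
  have h4 : ‖∫ w in ball (0 : ℂ) σ, (ν w - l)‖ ≤ ∫ w in ball (0 : ℂ) σ, ‖ν w - l‖ :=
    norm_integral_le_integral_norm _
  rw [h3, norm_neg, norm_mul, Complex.norm_real, Real.norm_of_nonneg (by positivity)] at h4
  have h5 := Real.pi_gt_three
  have h6 : 0 < ‖l‖ * σ ^ 2 := by positivity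
  nlinarith

end Pool.Agent.J4H16
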