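import Mathlib
import Pool.Agent.J4H16.Rad
import Pool.Agent.Helper202.Univ

/-!
# Inner pairs of domains around the critical point
-/

set_option autoImplicit false
open Set Filter Topology Metric Complex MeasureTheory
open scoped ComplexConjugate

namespace Pool.Agent.J4H16

open Pool.Agent.W746.LD

variable {n : ℕ} {c : ℂ} {r : ℝ} {ν : ℂ → ℂ} {A : ℝ}

/-- `h` is a lift of `φ` by the `m`-th iterate. -/
structure Lf (n : ℕ) (c : ℂ) (m : ℕ) (φ h : ℂ → ℂ) : Prop where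
  diff : DifferentiableOn ℂ h (ball 0 1)
  eq : ∀ ζ ∈ ball (0 : ℂ) 1, orb n c (h ζ) m = φ ζ

theorem Lf.injOn {m : ℕ} {φ h : ℂ → ℂ} (hh : Lf n c m φ h) (hφ : Univ φ 0 1) :
    InjOn h (ball 0 1) := by
  intro x hx y hy hxy
  apply hφ.2 hx hy
  rw [← hh.eq x hx, ← hh.eq y hy, hxy]

theorem Lf.univ {m : ℕ} {φ h : ℂ → ℂ} (hh : Lf n c m φ h) (hφ : Univ φ 0 1) :
    Univ h 0 1 := ⟨hh.diff, hh.injOn hφ⟩

theorem lf_zero {φ : ℂ → ℂ} (hφ : Univ φ 0 1) : Lf n c 0 φ φ := ⟨hφ.1, fun _ _ => rfl⟩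

/-- Extension of a lift by one step. -/
theorem Lf.ext (hn : 2 ≤ n) {m : ℕ} {φ h : ℂ → ℂ} (hh : Lf n c m φ h)
    (hne : ∀ w ∈ ball (0 : ℂ) 1, h w ≠ c) {w0 z : ℂ}
    (hw0 : w0 ∈ ball (0 : ℂ) 1) (hz : z ^ n + c = h w0) :
    ∃ h' : ℂ → ℂ, Lf n c (m + 1) φ h' ∧ h' w0 = z ∧ ∀ w ∈ ball (0 : ℂ) 1, h' w ^ n + c = h w := by
  have hn0 : (n : ℂ) ≠ 0 := by exact_mod_cast (by omega : n ≠ 0)
  have hp : (0 : ℂ) ∈ ball (0 : ℂ) 1 := mem_ball_self one_pos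
  have hz0 : z ≠ 0 := by
    rintro rfl
    rw [zero_pow (by omega), zero_add] at hz
    exact hne w0 hw0 hz.symm
  obtain ⟨l, hl1, hl2, hl3⟩ := Pool.Agent.H712R2.M.exists_log_ball one_pos (hh.diff.sub_const c)
    (fun ζ hζ => sub_ne_zero.mpr (hne ζ hζ)) (Complex.log (h 0 - c)) (by
      rw [Complex.exp_log (sub_ne_zero.mpr (hne 0 hp))])
  set u : ℂ := z / Complex.exp (l w0 / n) with hu
  have he0 : ∀ w, Complex.exp (l w / n) ≠ 0 := fun w => Complex.exp_ne_zero _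
  have hu1 : u ^ n = 1 := by
    rw [hu, div_pow, exp_pow hn, hl3 w0 hw0, ← hz, add_sub_cancel_right, div_self]
    exact pow_ne_zero _ hz0
  have key : ∀ w ∈ ball (0 : ℂ) 1, (u * Complex.exp (l w / n)) ^ n + c = h w := by
    intro w hw
    rw [mul_pow, hu1, one_mul, exp_pow hn, hl3 w hw]
    ring
  refine ⟨fun w => u * Complex.exp (l w / n), ⟨?_, ?_⟩, ?_, key⟩
  · exact ((hl1.div_const _).cexp).const_mul u
  · intro w hw
    rw [add_comm, orb_add, orb_one, key w hw, hh.eq w hw]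
  · simp only [hu]
    rw [div_mul_cancel₀ _ (he0 w0)]

/-- Lifts along an orbit. -/
theorem exists_lf (hn : 2 ≤ n) {φ : ℂ → ℂ} (hφ : Univ φ 0 1) {x : ℂ} {k : ℕ} {ζ0 : ℂ}
    (hζ0 : ζ0 ∈ ball (0 : ℂ) 1) (hx : φ ζ0 = orb n c x k)
    (H : ∀ j < k, ∀ h, Lf n c j φ h → h ζ0 = orb n c x (k - j) →
      ∀ w ∈ ball (0 : ℂ) 1, h w ≠ c) :
    ∃ h, Lf n c k φ h ∧ h ζ0 = x := by
  have key : ∀ j ≤ k, ∃ h, Lf n c j φ h ∧ h ζ0 = orb n c x (k - j) := by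
    intro j
    induction j with
    | zero => intro _; exact ⟨φ, lf_zero hφ, hx⟩
    | succ j ih =>
      intro hj
      obtain ⟨g, h1, h2⟩ := ih (by omega)
      have h3 := H j (by omega) g h1 h2
      have h4 : (orb n c x (k - (j + 1))) ^ n + c = g ζ0 := by
        rw [h2, ← orb_succ]
        congr 1
        omega
      obtain ⟨g', h5, h6, -⟩ := h1.ext hn h3 hζ0 h4
      exact ⟨g', h5, h6⟩
  obtain ⟨G, h1, h2⟩ := key k le_rfl
  exact ⟨G, h1, by simpa using h2⟩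

/-- The pair `(V, D)` of neighbourhoods of the critical point is inner: if an iterate maps a
neighbourhood `W` of the critical value conformally onto `V`, then the pull-back of `D` to the
preimage of `W` is contained in `D`. -/
def Inner (n : ℕ) (c : ℂ) (V D : Set ℂ) : Prop :=
  ∀ (m : ℕ) (W : Set ℂ), IsOpen W → c ∈ W → InjOn (fun z => orb n c z m) W →
    (fun z => orb n c z m) '' W = V → ∀ z : ℂ, z ^ n + c ∈ W → orb n c z (m + 1) ∈ D → z ∈ D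

/-- The first entrance of an orbit to the inner domain is univalent on the outer domain. -/
theorem Inner.lift (hn : 2 ≤ n) {φ : ℂ → ℂ} (hφ : Univ φ 0 1) {D : Set ℂ}
    (hI : Inner n c (φ '' ball 0 1) D) {x : ℂ} {k : ℕ} {ζ0 : ℂ} (hζ0 : ζ0 ∈ ball (0 : ℂ) 1)
    (hx : φ ζ0 = orb n c x k) (hk : orb n c x k ∈ D) (hki : ∀ i < k, orb n c x i ∉ D) :
    ∃ h, Lf n c k φ h ∧ h ζ0 = x := by
  apply exists_lf hn hφ hζ0 hx
  intro j hj h hh hh0 w hw hwc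
  apply hki (k - (j + 1)) (by omega)
  have hin := hh.injOn hφ
  apply hI j (h '' ball 0 1)
  · exact Pool.Agent.Helper202.Univ.isOpen_image isOpen_ball hh.diff hin isOpen_ball Subset.rfl
  · exact ⟨w, hw, hwc⟩
  · rintro _ ⟨a, ha, rfl⟩ _ ⟨b, hb, rfl⟩ hab
    simp only [hh.eq a ha, hh.eq b hb] at hab
    rw [hφ.2 ha hb hab]
  · ext y
    constructor
    · rintro ⟨_, ⟨a, ha, rfl⟩, rfl⟩
      exact ⟨a, ha, (hh.eq a ha).symm⟩
    · rintro ⟨a, ha, rfl⟩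
      exact ⟨h a, ⟨a, ha, rfl⟩, hh.eq a ha⟩
  · refine ⟨ζ0, hζ0, ?_⟩
    rw [hh0, ← orb_succ]
    congr 1
    omega
  · rw [← orb_add]
    have : k - (j + 1) + (j + 1) = k := by omega
    rw [this]
    exact hk

/-- The branch on a ball around a point of the domain. -/
theorem Lf.br {m : ℕ} {φ h : ℂ → ℂ} (hh : Lf n c m φ h) (hφ : Univ φ 0 1) {p : ℂ} {ρ : ℝ}
    (hsub : ball p ρ ⊆ φ '' ball 0 1) :
    Br n c m p ρ (fun w => h (Function.invFunOn φ (ball 0 1) w)) := by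
  have hmem : ∀ w ∈ ball p ρ, Function.invFunOn φ (ball 0 1) w ∈ ball (0 : ℂ) 1 := fun w hw =>
    Pool.Agent.Helper202.Univ.invFunOn_mem (hsub hw)
  constructor
  · apply hh.diff.comp _ hmem
    intro w hw
    exact (Pool.Agent.Helper202.Univ.differentiableAt_inv isOpen_ball hφ.1 hφ.2
      (hsub hw)).differentiableWithinAt
  · intro w hw
    rw [hh.eq _ (hmem w hw), Pool.Agent.Helper202.Univ.invFunOn_right (hsub hw)]

/-- A ball in the image of a univalent function. -/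
theorem KC.ball_sub {C0 c0 : ℝ} (K : KC C0 c0) {φ : ℂ → ℂ} (hφ : Univ φ 0 1) {ζ : ℂ} {s : ℝ}
    (hs : 0 < s) (hsub : ball ζ s ⊆ ball 0 1) :
    ball (φ ζ) (c0 * s * ‖deriv φ ζ‖) ⊆ φ '' ball 0 1 := by
  intro w hw
  rw [mem_ball, dist_eq_norm] at hw
  obtain ⟨u, hu, huw⟩ := KC.cover K hs (hφ.mono hsub) hw
  exact ⟨u, hsub hu, huw⟩

/-- Near constancy on a ball in the outer domain, at the first entrance of a good point. -/
theorem GP.near_pair (h : Q n c r) (hd : Dense (K n c)ᶜ) {C0 c0 : ℝ} (Kc : KC C0 c0)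
    (hI : Inv n c ν A) {x : ℂ} (hx : GP n c ν x) {θ θ' : ℝ} (hθ0' : 0 < θ') (hθ' : θ' < 1)
    (hθ : 0 < θ) : ∃ κ : ℝ, 0 < κ ∧ ∀ κ1 : ℝ, 0 < κ1 → ∃ ε : ℝ, 0 < ε ∧
      ∀ (φ : ℂ → ℂ) (D : Set ℂ) (k : ℕ), Univ φ 0 1 →
      ‖deriv φ 0‖ < ε → D ⊆ φ '' ball 0 θ' → Inner n c (φ '' ball 0 1) D →
      orb n c x k ∈ D → (∀ i < k, orb n c x i ∉ D) → ∀ ζ : ℂ, ‖ζ‖ < θ' → φ ζ ∈ K n c →
      ∀ σ : ℝ, κ1 * ‖deriv φ 0‖ ≤ σ → σ ≤ κ * ‖deriv φ 0‖ →
        ∃ l : ℂ, ‖l‖ = ‖ν x‖ ∧ ∫ w in ball (φ ζ) σ, ‖ν w - l‖ ≤ θ * ‖ν x‖ * σ ^ 2 := by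
  have hn := h.hn
  have hc0 := Kc.pos
  have hc4 := Kc.le
  have hC0 := Kc.one_le
  obtain ⟨m0, hm0⟩ := exists_rad hθ'
  have hCm : 1 ≤ C0 ^ m0 := one_le_pow₀ hC0
  have h1θ : 0 < 1 - θ' := by linarith
  set q : ℝ := c0 * (1 - θ') / C0 ^ m0 with hq
  have hq0 : 0 < q := by positivity
  have hq1 : q ≤ 1 := by
    rw [hq, div_le_one (by positivity)]
    nlinarith
  refine ⟨min (1 / 8) (θ / (64 * (C0 + 2))) * q, by positivity, ?_⟩
  intro κ1 hκ1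
  obtain ⟨δ0, hδ0, hNC⟩ := hx.near_const' hI hn Kc hθ (M := 2 * C0 ^ (3 * m0) / κ1)
    (by positivity)
  obtain ⟨d, hd1, hd2⟩ := h.branch_small hd Kc hδ0
  refine ⟨d, hd1, ?_⟩
  intro φ D k hφ hsm hDs hin hk hki ζ hζ hζK σ hσ1 hσ2
  set a : ℝ := ‖deriv φ 0‖ with ha
  have h0b : (0 : ℂ) ∈ ball (0 : ℂ) 1 := mem_ball_self one_pos
  have ha0 : 0 < a := norm_pos_iff.mpr
    (Pool.Agent.Helper202.Univ.deriv_ne_zero isOpen_ball hφ.1 hφ.2 h0b)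
  have hσ0 : 0 < σ := lt_of_lt_of_le (by positivity) hσ1
  obtain ⟨ζ0, hζ0, hζ0x⟩ := hDs hk
  rw [mem_ball, dist_zero_right] at hζ0
  have hζ0b : ζ0 ∈ ball (0 : ℂ) 1 := by rw [mem_ball, dist_zero_right]; linarith
  have hζb : ζ ∈ ball (0 : ℂ) 1 := by rw [mem_ball, dist_zero_right]; linarith
  obtain ⟨g, hg, hgx⟩ := hin.lift hn hφ hζ0b hζ0x hk hki
  have hr1 := KC.rad Kc one_pos hφ m0 ζ (by rw [mul_one]; linarith)
  have hsubζ : ball ζ (1 - θ') ⊆ ball 0 1 := by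
    intro u hu
    rw [mem_ball, dist_eq_norm] at hu
    rw [mem_ball, dist_zero_right]
    have := norm_add_le (u - ζ) ζ
    rw [sub_add_cancel] at this
    linarith
  have hρle : q * a ≤ c0 * (1 - θ') * ‖deriv φ ζ‖ := by
    rw [hq, div_mul_eq_mul_div, div_le_iff₀ (by positivity)]
    calc c0 * (1 - θ') * a ≤ c0 * (1 - θ') * (C0 ^ m0 * ‖deriv φ ζ‖) := by
          gcongr
          exact hr1.2
      _ = _ := by ring
  have hsubV : ball (φ ζ) (q * a) ⊆ φ '' ball 0 1 :=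
    (ball_subset_ball hρle).trans (KC.ball_sub Kc hφ h1θ hsubζ)
  have hG := hg.br hφ hsubV
  set G : ℂ → ℂ := fun w => g (Function.invFunOn φ (ball 0 1) w) with hGd
  have hGζ : G (φ ζ) = g ζ := by
    simp only [hGd]
    rw [Pool.Agent.Helper202.Univ.invFunOn_left hφ.2 hζb]
  have hpb : φ ζ ∈ ball (φ ζ) (q * a) := mem_ball_self (by positivity)
  have hderiv : deriv g ζ = deriv G (φ ζ) * deriv φ ζ := by
    have h1 : HasDerivAt g (deriv g ζ) ζ :=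
      (hg.diff.differentiableAt (isOpen_ball.mem_nhds hζb)).hasDerivAt
    have h2 : HasDerivAt φ (deriv φ ζ) ζ :=
      (hφ.1.differentiableAt (isOpen_ball.mem_nhds hζb)).hasDerivAt
    have h3 : HasDerivAt (fun w => G (φ w)) (deriv G (φ ζ) * deriv φ ζ) ζ :=
      (hG.hasDerivAt hpb).comp ζ h2
    have h4 : (fun w => G (φ w)) =ᶠ[𝓝 ζ] g := by
      filter_upwards [isOpen_ball.mem_nhds hζb] with u hu
      simp only [hGd]
      rw [Pool.Agent.Helper202.Univ.invFunOn_left hφ.2 hu]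
    exact h1.unique (h3.congr_of_eventuallyEq h4.symm)
  have hlip := KC.rad_lip Kc one_pos (hg.univ hφ) m0 (x := ζ0) (u := ζ)
    (by rw [mul_one]; linarith) (by rw [mul_one]; linarith)
  rw [hgx] at hlip
  have hmin1 : min (1 / 8) (θ / (64 * (C0 + 2))) ≤ 1 / 8 := min_le_left _ _
  have hmin2 : min (1 / 8) (θ / (64 * (C0 + 2))) ≤ θ / (64 * (C0 + 2)) := min_le_right _ _
  refine hNC k (φ ζ) (q * a) σ G hσ0 ?_ ?_ hG ?_ ?_
  · have : min (1 / 8) (θ / (64 * (C0 + 2))) * q * a ≤ 1 / 8 * q * a := by gcongr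
    have h2 : 0 < q * a := by positivity
    linarith
  · have h2 : min (1 / 8) (θ / (64 * (C0 + 2))) * q * a ≤ θ / (64 * (C0 + 2)) * q * a := by
      gcongr
    calc 64 * (C0 + 2) * σ ≤ 64 * (C0 + 2) * (θ / (64 * (C0 + 2)) * q * a) := by
          gcongr
          exact hσ2.trans h2
      _ = θ * (q * a) := by
          have : C0 + 2 ≠ 0 := by positivity
          field_simp
  · rw [hGζ]
    rw [norm_sub_rev] at hlip
    refine hlip.trans ?_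
    rw [hderiv, norm_mul]
    calc 2 * 1 * C0 ^ (2 * m0) * (‖deriv G (φ ζ)‖ * ‖deriv φ ζ‖)
        ≤ 2 * 1 * C0 ^ (2 * m0) * (‖deriv G (φ ζ)‖ * (C0 ^ m0 * a)) := by
          gcongr
          exact hr1.1
      _ = 2 * C0 ^ (3 * m0) / κ1 * (κ1 * a) * ‖deriv G (φ ζ)‖ := by
          have e : C0 ^ (3 * m0) = C0 ^ (2 * m0) * C0 ^ m0 := by
            rw [← pow_add]; congr 1; ring
          rw [e]
          field_simp
      _ ≤ 2 * C0 ^ (3 * m0) / κ1 * σ * ‖deriv G (φ ζ)‖ := by gcongr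
  · have h1 := hd2 k (φ ζ) (q * a) G (by positivity) (by nlinarith) hG (by
      rw [← orb_mem_K hn h.c2 _ k, hG.eq _ hpb]
      exact hζK)
    have h3 : σ ≤ q * a := by
      have : min (1 / 8) (θ / (64 * (C0 + 2))) * q * a ≤ 1 / 8 * q * a := by gcongr
      have h2 : 0 < q * a := by positivity
      linarith
    have h2 : σ * ‖deriv G (φ ζ)‖ ≤ q * a * ‖deriv G (φ ζ)‖ := by gcongr
    linarith

/-- The orbit of a good point enters a neighbourhood of the critical point. -/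
theorem GP.first_in (h : Q n c r) (hd : Dense (K n c)ᶜ) {C0 c0 : ℝ} (Kc : KC C0 c0)
    (hI : Inv n c ν A) {x : ℂ} (hx : GP n c ν x) (H : HypII n c) {D : Set ℂ}
    (hD : D ∈ 𝓝 (0 : ℂ)) : ∃ k, orb n c x k ∈ D ∧ ∀ i < k, orb n c x i ∉ D := by
  classical
  obtain ⟨δ, hδ, hsub⟩ := Metric.mem_nhds_iff.mp hD
  obtain ⟨k, hk⟩ := hx.zero_acc h hd Kc hI H hδ
  have hex : ∃ k, orb n c x k ∈ D := ⟨k, hsub (by rw [mem_ball, dist_zero_right]; exact hk)⟩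
  exact ⟨Nat.find hex, Nat.find_spec hex, fun i hi => Nat.find_min hex hi⟩

/-- Inner pairs at arbitrarily small scales are impossible in degree at least three. -/
theorem Q.inner3 (h : Q n c r) (hd : Dense (K n c)ᶜ) (hn3 : 3 ≤ n) (H : HypII n c) {θ' : ℝ}
    (hθ0' : 0 < θ') (hθ' : θ' < 1)
    (HV : ∀ ε : ℝ, 0 < ε → ∃ (φ : ℂ → ℂ) (D : Set ℂ), Univ φ 0 1 ∧ φ 0 = 0 ∧
      ‖deriv φ 0‖ < ε ∧ D ∈ 𝓝 (0 : ℂ) ∧ D ⊆ φ '' ball 0 θ' ∧ Inner n c (φ '' ball 0 1) D) :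
    False := by
  obtain ⟨C0, c0, Kc⟩ := exists_KC
  obtain ⟨ν, A, hI⟩ := h.exists_inv hd
  obtain ⟨x, hx⟩ := hI.exists_good h.hn
  obtain ⟨κ, hκ, hκ'⟩ := hx.near_pair h hd Kc hI (θ := 1) hθ0' hθ' one_pos
  obtain ⟨ε, hε, hN⟩ := hκ' κ hκ
  obtain ⟨φ, D, hφ, hφ0, hsm, hD, hDs, hin⟩ := HV ε hε
  obtain ⟨k, hk1, hk2⟩ := hx.first_in h hd Kc hI H hD
  have ha0 : 0 < ‖deriv φ 0‖ := norm_pos_iff.mpr
    (Pool.Agent.Helper202.Univ.deriv_ne_zero isOpen_ball hφ.1 hφ.2 (mem_ball_self one_pos))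
  obtain ⟨l, hl, hl'⟩ := hN φ D k hφ hsm hDs hin hk1 hk2 0 (by simpa using hθ0')
    (by rw [hφ0]; exact h.zero_mem) (κ * ‖deriv φ 0‖) le_rfl le_rfl
  rw [hφ0] at hl'
  have hl0 : l ≠ 0 := by
    intro h0
    rw [h0, norm_zero] at hl
    exact hx.ne (norm_eq_zero.mp hl.symm)
  rw [← hl] at hl'
  exact hI.no_const hn3 (by positivity) hl0 hl'

end Pool.Agent.J4H16
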