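import Mathlib

/-!
# Uniformly perfect sets have positive Hausdorff dimension
-/

set_option autoImplicit false
open Set Filter Topology Metric
open scoped NNReal ENNReal

namespace Pool.Agent.J4H16

/-- the exponent -/
noncomputable def dexp (K : ℝ) : ℝ := Real.log 2 / Real.log (8 * K)

theorem dexp_pos {K : ℝ} (hK : 1 ≤ K) : 0 < dexp K :=
  div_pos (Real.log_pos (by norm_num)) (Real.log_pos (by linarith))

/-- A closed set without gaps of ratio `K` at small scales has dimension at least `dexp K`. -/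
theorem dim_lower {K : ℝ} (hK : 1 ≤ K) {E : Set ℂ} (hE : IsClosed E) (hne : E.Nonempty)
    {η0 : ℝ} (hη0 : 0 < η0)
    (h : ∀ η : ℝ, 0 < η → η < η0 → ∀ x ∈ E, ∃ u ∈ E, η < ‖u - x‖ ∧ ‖u - x‖ < K * η) :
    ENNReal.ofReal (dexp K) ≤ dimH E := by
  classical
  obtain ⟨x0, hx0⟩ := hne
  set q : ℝ := 1 / (8 * K) with hq
  have hK0 : 0 < K := by linarith
  have hq0 : 0 < q := by positivity
  have hq1 : q ≤ 1 / 8 := by
    rw [hq]
    apply one_div_le_one_div_of_le (by norm_num)
    linarith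
  have hKq : K * q = 1 / 8 := by rw [hq]; field_simp
  set e : ℕ → ℝ := fun m => η0 / 2 * q ^ m with he
  have he0 : ∀ m, 0 < e m := fun m => by positivity
  have he1 : ∀ m, e m < η0 := by
    intro m
    have h1 : q ^ m ≤ 1 := pow_le_one₀ hq0.le (by linarith)
    have : e m ≤ η0 / 2 * 1 := by
      simp only [he]
      gcongr
    linarith
  have hstep : ∀ (m : ℕ) (x : ℂ), ∃ u : ℂ, x ∈ E → u ∈ E ∧ e m < ‖u - x‖ ∧ ‖u - x‖ < K * e m := by
    intro m x
    by_cases hx : x ∈ E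
    · obtain ⟨u, hu1, hu2⟩ := h (e m) (he0 m) (he1 m) x hx
      exact ⟨u, fun _ => ⟨hu1, hu2⟩⟩
    · exact ⟨0, fun hx' => absurd hx' hx⟩
  choose st hst using hstep
  let node : (ℕ → Fin 2) → ℕ → ℂ := fun σ m =>
    Nat.rec x0 (fun i x => if σ i = 1 then st i x else x) m
  have hn0 : ∀ σ, node σ 0 = x0 := fun σ => rfl
  have hns : ∀ σ m, node σ (m + 1) = if σ m = 1 then st m (node σ m) else node σ m :=
    fun σ m => rfl
  have hmem : ∀ σ m, node σ m ∈ E := by
    intro σ m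
    induction m with
    | zero => exact hx0
    | succ m ih =>
      rw [hns]
      split_ifs
      · exact (hst m _ ih).1
      · exact ih
  have hdist : ∀ σ m, dist (node σ m) (node σ (m + 1)) ≤ (K * (η0 / 2)) * q ^ m := by
    intro σ m
    rw [hns]
    split_ifs
    · rw [dist_comm, dist_eq_norm]
      have := (hst m _ (hmem σ m)).2.2
      have h2 : K * e m = K * (η0 / 2) * q ^ m := by simp only [he]; ring
      rw [← h2]
      exact this.le
    · rw [dist_self]
      positivity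
  have hlim : ∀ σ, ∃ a, Tendsto (node σ) atTop (𝓝 a) := fun σ =>
    cauchySeq_tendsto_of_complete (cauchySeq_of_le_geometric q _ (by linarith) (hdist σ))
  choose π hπ using hlim
  have hπE : ∀ σ, π σ ∈ E := fun σ =>
    hE.mem_of_tendsto (hπ σ) (Eventually.of_forall (hmem σ))
  have hπd : ∀ σ m, dist (node σ m) (π σ) ≤ (K * (η0 / 2)) * q ^ m / (1 - q) := fun σ m =>
    dist_le_of_le_geometric_of_tendsto q _ (by linarith) (hdist σ) (hπ σ) m
  have hsame : ∀ σ τ m, (∀ i < m, σ i = τ i) → node σ m = node τ m := by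
    intro σ τ m
    induction m with
    | zero => intro _; rfl
    | succ m ih =>
      intro hi
      rw [hns, hns, ih fun i hi' => hi i (by omega), hi m (by omega)]
  -- separation
  have hsep1 : ∀ σ τ m, (∀ i < m, σ i = τ i) → σ m = 0 → τ m = 1 → e m / 2 ≤ dist (π σ) (π τ) := by
    intro σ τ m hi h0 h1
    have e1 := hsame σ τ m hi
    have e2 : node σ (m + 1) = node τ m := by
      rw [hns, h0, if_neg (by decide), e1]
    have e3 : node τ (m + 1) = st m (node τ m) := by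
      rw [hns, h1, if_pos rfl]
    have e4 := (hst m _ (hmem τ m)).2.1
    have e5 := hπd σ (m + 1)
    have e6 := hπd τ (m + 1)
    rw [e2] at e5
    rw [e3] at e6
    have e7 : K * (η0 / 2) * q ^ (m + 1) / (1 - q) ≤ e m / 4 := by
      have : K * (η0 / 2) * q ^ (m + 1) = K * q * e m := by simp only [he]; ring
      rw [this, hKq, div_le_iff₀ (by linarith)]
      have := he0 m
      nlinarith
    have e8 : dist (st m (node τ m)) (node τ m) ≤
        dist (st m (node τ m)) (π τ) + dist (π τ) (π σ) + dist (π σ) (node τ m) :=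
      dist_triangle4 _ _ _ _
    rw [dist_eq_norm (st m (node τ m)) (node τ m), dist_comm (π σ) (node τ m),
      dist_comm (π τ) (π σ)] at e8
    linarith
  have hfin : ∀ a : Fin 2, a = 0 ∨ a = 1 := by decide
  have hsep : ∀ σ τ m, (∀ i < m, σ i = τ i) → σ m ≠ τ m → e m / 2 ≤ dist (π σ) (π τ) := by
    intro σ τ m hi hm
    rcases hfin (σ m) with h0 | h0 <;> rcases hfin (τ m) with h1 | h1
    · exact absurd (h0.trans h1.symm) hm
    · exact hsep1 σ τ m hi h0 h1
    · rw [dist_comm]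
      exact hsep1 τ σ m (fun i hi' => (hi i hi').symm) h1 h0
    · exact absurd (h0.trans h1.symm) hm
  have hfirst : ∀ σ τ : ℕ → Fin 2, σ ≠ τ → ∃ m, (∀ i < m, σ i = τ i) ∧ σ m ≠ τ m := by
    intro σ τ hne
    have hex : ∃ m, σ m ≠ τ m := by
      by_contra hcon
      push Not at hcon
      exact hne (funext hcon)
    refine ⟨Nat.find hex, fun i hi => ?_, Nat.find_spec hex⟩
    exact not_not.mp (Nat.find_min hex hi)
  have hinj : Function.Injective π := by
    intro σ τ hστ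
    by_contra hne
    obtain ⟨m, h1, h2⟩ := hfirst σ τ hne
    have h3 := hsep σ τ m h1 h2
    rw [hστ, dist_self] at h3
    linarith [he0 m]
  -- the Hölder map
  set s : ℝ := dexp K with hs
  have hs0 : 0 < s := dexp_pos hK
  set φ : ℂ → ℝ := fun u => Real.ofDigits (Function.invFun π u) with hφ
  have hφπ : ∀ σ, φ (π σ) = Real.ofDigits σ := by
    intro σ
    simp only [hφ]
    rw [Function.leftInverse_invFun hinj σ]
  have hqs : ∀ m : ℕ, ((2 : ℝ) ^ m)⁻¹ = (q ^ m) ^ s := by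
    intro m
    have h8 : 0 < Real.log (8 * K) := Real.log_pos (by linarith)
    rw [← Real.rpow_natCast q m, ← Real.rpow_mul hq0.le, Real.rpow_def_of_pos hq0,
      ← Real.exp_log (show (0 : ℝ) < (2 ^ m)⁻¹ by positivity)]
    congr 1
    rw [Real.log_inv, Real.log_pow, hq, one_div, Real.log_inv, hs, dexp]
    field_simp
  have hreal : ∀ σ τ, |φ (π σ) - φ (π τ)| ≤ (4 / η0) ^ s * dist (π σ) (π τ) ^ s := by
    intro σ τ
    rw [hφπ, hφπ]
    by_cases hne : σ = τ
    · rw [hne, sub_self, abs_zero]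
      positivity
    · obtain ⟨m, h1, h2⟩ := hfirst σ τ hne
      have h3 := hsep σ τ m h1 h2
      have h4 := Real.abs_ofDigits_sub_ofDigits_le h1
      refine h4.trans ?_
      have h5 : (((2 : ℕ) : ℝ) ^ m)⁻¹ = (q ^ m) ^ s := by
        rw [← hqs m]
        norm_num
      rw [h5, ← Real.mul_rpow (by positivity) dist_nonneg]
      apply Real.rpow_le_rpow (by positivity) _ hs0.le
      have h6 : e m / 2 = η0 / 4 * q ^ m := by simp only [he]; ring
      rw [h6] at h3
      calc q ^ m = 4 / η0 * (η0 / 4 * q ^ m) := by field_simp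
        _ ≤ 4 / η0 * dist (π σ) (π τ) := by gcongr
  have hC0 : 0 ≤ (4 / η0) ^ s := by positivity
  obtain ⟨S, hS⟩ : ∃ S : ℝ≥0, (S : ℝ) = s := ⟨⟨s, hs0.le⟩, rfl⟩
  obtain ⟨C, hC⟩ : ∃ C : ℝ≥0, (C : ℝ) = (4 / η0) ^ s := ⟨⟨(4 / η0) ^ s, hC0⟩, rfl⟩
  have hS0 : 0 < S := by
    rw [← NNReal.coe_pos, hS]
    exact hs0
  have hHol : HolderOnWith C S φ (range π) := by
    rintro _ ⟨σ, rfl⟩ _ ⟨τ, rfl⟩
    have h1 := hreal σ τ
    rw [edist_dist, edist_dist, Real.dist_eq]
    have h2 : ENNReal.ofReal |φ (π σ) - φ (π τ)| ≤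
        ENNReal.ofReal ((4 / η0) ^ s * dist (π σ) (π τ) ^ s) := ENNReal.ofReal_le_ofReal h1
    refine h2.trans ?_
    rw [ENNReal.ofReal_mul hC0, ← ENNReal.ofReal_rpow_of_nonneg dist_nonneg hs0.le, ← hC,
      ENNReal.ofReal_coe_nnreal, hS]
  have himg : Icc (0 : ℝ) 1 ⊆ φ '' range π := by
    intro y hy
    obtain ⟨σ, -, hσ⟩ := Real.ofDigits_SurjOn (b := 2) (by norm_num) hy
    exact ⟨π σ, ⟨σ, rfl⟩, by rw [hφπ]; exact hσ⟩
  have hdim1 : dimH (Icc (0 : ℝ) 1) = 1 := by
    rw [← segment_eq_Icc (by norm_num : (0 : ℝ) ≤ 1)]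
    exact Real.dimH_segment (by norm_num)
  have h1 : (1 : ℝ≥0∞) ≤ dimH (range π) / (S : ℝ≥0∞) := by
    rw [← hdim1]
    exact (dimH_mono himg).trans (hHol.dimH_image_le hS0)
  have h2 : (S : ℝ≥0∞) ≤ dimH (range π) := by
    have h3 : (S : ℝ≥0∞) ≠ 0 := by
      rw [Ne, ENNReal.coe_eq_zero]
      exact hS0.ne'
    have h4 := (ENNReal.le_div_iff_mul_le (Or.inl h3) (Or.inl ENNReal.coe_ne_top)).mp h1
    rwa [one_mul] at h4
  have h5 : ENNReal.ofReal s = (S : ℝ≥0∞) := by
    rw [← hS, ENNReal.ofReal_coe_nnreal]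
  rw [h5]
  refine h2.trans (dimH_mono ?_)
  rintro _ ⟨σ, rfl⟩
  exact hπE σ

end Pool.Agent.J4H16
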