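import Mathlib
import Pool.Agent.J4H16.Fid

/-!
# The main argument
-/

set_option autoImplicit false
open Set Filter Topology Metric Complex MeasureTheory
open scoped ComplexConjugate

namespace Pool.Agent.J4H16

open Pool.Agent.W746.LD

variable {n : ℕ} {c : ℂ} {r : ℝ} {ν : ℂ → ℂ} {A : ℝ}

theorem GP.zero_acc' (h : Q n c r) (hd : Dense (K n c)ᶜ) {C0 c0 : ℝ} (Kc : KC C0 c0)
    (hI : Inv n c ν A) {x : ℂ} (hx : GP n c ν x) (H : HypII n c) {δ : ℝ} (hδ : 0 < δ) (N : ℕ) :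
    ∃ k ≥ N, ‖orb n c x k‖ < δ := by
  induction N generalizing δ with
  | zero =>
    obtain ⟨k, hk⟩ := hx.zero_acc h hd Kc hI H hδ
    exact ⟨k, Nat.zero_le k, hk⟩
  | succ N ih =>
    have h1 : 0 < ‖orb n c x N‖ := norm_pos_iff.mpr (hx.orb_ne N)
    obtain ⟨k, hk1, hk2⟩ := ih (lt_min hδ h1)
    refine ⟨k, ?_, hk2.trans_le (min_le_left _ _)⟩
    have h2 := hk2.trans_le (min_le_right _ _)
    rcases Nat.lt_or_ge N k with h3 | h3
    · exact h3
    · exfalso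
      have : k = N := by omega
      rw [this] at h2
      exact lt_irrefl _ h2

theorem GP.first (h : Q n c r) (hd : Dense (K n c)ᶜ) {C0 c0 : ℝ} (Kc : KC C0 c0)
    (hI : Inv n c ν A) {x : ℂ} (hx : GP n c ν x) (H : HypII n c) {δ : ℝ} (hδ : 0 < δ) :
    ∃ k, ‖orb n c x k‖ < δ ∧ ∀ i < k, δ ≤ ‖orb n c x i‖ := by
  classical
  have hex := hx.zero_acc h hd Kc hI H hδ
  refine ⟨Nat.find hex, Nat.find_spec hex, ?_⟩
  intro i hi
  exact not_lt.mp (Nat.find_min hex hi)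

/-- The constants. -/
structure CC (n : ℕ) (C0 c0 θ B M : ℝ) : Prop where
  θ0 : 0 < θ
  θ1 : θ * (8 * n * C0 ^ 4 / c0 ^ 2 + n ^ 2) ≤ 1
  B1 : 16 ^ n ≤ B
  B2 : 64 * (C0 + 2) ≤ θ * B
  B3 : (64 * (C0 + 2)) ^ n ≤ θ ^ n * B
  M0 : 1 < M
  M1 : 4 * C0 < c0 * M
  M2 : C0 ^ 2 < c0 ^ 2 * M
  M3 : (4 * C0) ^ n * 2 ^ (n + 2) < 2 * c0 * (c0 * M) ^ (n - 1)
  M4 : 2 ^ (n + 2) ≤ M
  M5 : 2 * C0 * (2 ^ (n + 2) / c0) < M ^ (n - 1)

theorem exists_CC (hn : 2 ≤ n) {C0 c0 : ℝ} (Kc : KC C0 c0) : ∃ θ B M : ℝ, CC n C0 c0 θ B M := by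
  have hc0 := Kc.pos
  have hC0 := Kc.one_le
  have hn0 : (0 : ℝ) < n := by exact_mod_cast (by omega : 0 < n)
  have hn1 : (1 : ℝ) ≤ n := by exact_mod_cast (by omega : 1 ≤ n)
  set Z : ℝ := 8 * n * C0 ^ 4 / c0 ^ 2 + n ^ 2 with hZ
  have hZ1 : 1 ≤ Z := by
    have h1 : (0 : ℝ) ≤ 8 * n * C0 ^ 4 / c0 ^ 2 := by positivity
    have h2 : (1 : ℝ) ≤ (n : ℝ) ^ 2 := one_le_pow₀ hn1
    linarith
  have hZ0 : 0 < Z := by linarith
  have hb1 : 16 ≤ 64 * (C0 + 2) * Z := by nlinarith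
  have hb2 : 1 ≤ 64 * (C0 + 2) * Z := by linarith
  set W : ℝ := (4 * C0) ^ n * 2 ^ (n + 2) with hW
  have hW0 : 0 < W := by positivity
  set M : ℝ := 2 + 4 * C0 / c0 + C0 ^ 2 / c0 ^ 2 + (1 + W / c0) / c0 + 2 ^ (n + 2) +
    2 * C0 * (2 ^ (n + 2) / c0) with hM
  have q1 : 0 < 4 * C0 / c0 := by positivity
  have q2 : 0 < C0 ^ 2 / c0 ^ 2 := by positivity
  have q3 : 0 < (1 + W / c0) / c0 := by positivity
  have q4 : (0 : ℝ) < 2 ^ (n + 2) := by positivity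
  have q5 : 0 < 2 * C0 * (2 ^ (n + 2) / c0) := by positivity
  have hM1 : 1 < M := by linarith
  refine ⟨1 / Z, (64 * (C0 + 2) * Z) ^ n, M, ?_, ?_, ?_, ?_, ?_, hM1, ?_, ?_, ?_, ?_, ?_⟩
  · positivity
  · rw [one_div, inv_mul_cancel₀ hZ0.ne']
  · gcongr
  · rw [one_div, inv_mul_eq_div, le_div_iff₀ hZ0]
    exact le_self_pow₀ hb2 (by omega)
  · rw [← mul_pow]
    apply le_of_eq
    congr 1
    field_simp
  · have h1 : 4 * C0 / c0 < M := by linarith
    rw [div_lt_iff₀ hc0] at h1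
    linarith
  · have h1 : C0 ^ 2 / c0 ^ 2 < M := by linarith
    rw [div_lt_iff₀ (by positivity)] at h1
    linarith
  · have h1 : (1 + W / c0) / c0 < M := by linarith
    rw [div_lt_iff₀ hc0] at h1
    have h2 : 1 ≤ c0 * M := by
      have : 0 < W / c0 := by positivity
      linarith
    have h3 : c0 * M ≤ (c0 * M) ^ (n - 1) := le_self_pow₀ h2 (by omega)
    have h4 : W / c0 < (c0 * M) ^ (n - 1) := by linarith
    rw [div_lt_iff₀ hc0] at h4
    have h5 : 0 < (c0 * M) ^ (n - 1) * c0 := by positivity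
    linarith
  · linarith
  · have h1 : M ≤ M ^ (n - 1) := le_self_pow₀ hM1.le (by omega)
    linarith

/-- The main argument. -/
theorem Q.main (h : Q n c r) (hd : Dense (K n c)ᶜ) {C0 c0 θ B M L : ℝ} (Kc : KC C0 c0)
    (hC : CC n C0 c0 θ B M) (hL1 : 19 ≤ L) (hL2 : 4 * C0 * (B * M) ^ n ≤ c0 * (L - 3))
    (H1 : HypI n c L) (H2 : HypII n c) : False := by
  have hn := h.hn
  have hc0 := Kc.pos
  have hC0 := Kc.one_le
  have hn0 : (0 : ℝ) < n := by exact_mod_cast (by omega : 0 < n)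
  have hθ := hC.θ0
  have hM0 := hC.M0
  have hB256 : (256 : ℝ) ≤ B := by
    refine le_trans ?_ hC.B1
    calc (256 : ℝ) = 16 ^ 2 := by norm_num
      _ ≤ 16 ^ n := pow_le_pow_right₀ (by norm_num) hn
  obtain ⟨ν, A, hI⟩ := h.exists_inv hd
  obtain ⟨x, hx⟩ := hI.exists_good hn
  have hνx : 0 < ‖ν x‖ := norm_pos_iff.mpr hx.ne
  obtain ⟨δ0, hδ0, hNC⟩ := hx.near_const hI hn Kc hθ
  obtain ⟨d, hd1, hd2⟩ := h.branch_small hd Kc hδ0
  obtain ⟨R1, hR1, hR1d, hgap⟩ := h.gap_zero hd Kc (K3 := B * M) (L := L)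
    (by nlinarith) hL1 hL2 H1 hd1
  set R : ℝ := M * R1 with hR
  set R2 : ℝ := B * R with hR2
  have hBM : B * M * R1 = R2 := by rw [hR2, hR]; ring
  rw [hBM] at hR1d hgap
  have hR1R : R1 < R := by rw [hR]; nlinarith
  have hR0 : 0 < R := by linarith
  have hR2R : 256 * R ≤ R2 := by rw [hR2]; gcongr
  have hCent : 2 * C0 * (2 ^ (n + 2) / c0) * R1 ^ (n - 1) < R ^ (n - 1) := by
    rw [hR, mul_pow]
    exact mul_lt_mul_of_pos_right hC.M5 (by positivity)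
  have hGK : ∀ (m : ℕ) (ρ : ℝ) (g : ℂ → ℂ), 0 < ρ → Br n c m 0 ρ g → g 0 ∈ K n c := by
    intro m ρ g hρ hg
    rw [← orb_mem_K hn h.c2 _ m, hg.eq 0 (mem_ball_self hρ)]
    exact h.zero_mem
  -- the first entrance to `ball 0 R`
  obtain ⟨k, hk1, hk2⟩ := hx.first h hd Kc hI H2 hR0
  obtain ⟨G, hG, hGx⟩ := h.ent1 Kc hR1 hR1R.le (by linarith) hgap hCent hk1 hk2
  -- the return
  have hret : ∃ j, 1 ≤ j ∧ ‖orb n c 0 j‖ ≤ R1 := by
    by_contra hcon
    push Not at hcon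
    obtain ⟨N, hN⟩ := hx.conical h hd Kc hI (ρ := R2 - R) (by linarith)
    obtain ⟨i, hi1, hi2⟩ := hx.zero_acc' h hd Kc hI H2 hR0 N
    obtain ⟨G', hG', hG'x⟩ := exists_br' (p := 0) (ρ := R2) hn (x := x) (k := i)
      (by rw [mem_ball, dist_zero_right]; linarith) (by
        intro j hj _ hmem
        rw [mem_ball, dist_zero_right] at hmem
        have h1 := hcon j hj
        rcases hgap j with h2 | h2 <;> linarith)
    refine hN i hi1 G' (hG'.mono ?_) hG'x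
    intro u hu
    rw [mem_ball, dist_eq_norm] at hu
    rw [mem_ball, dist_zero_right]
    have := norm_add_le (u - orb n c x i) (orb n c x i)
    rw [sub_add_cancel] at this
    linarith
  obtain ⟨s, g, hg⟩ := h.exists_RD Kc hR1 hR1R (by linarith) hgap hCent hret
  set a : ℝ := ‖deriv g (orb n c 0 s)‖ with ha
  have hsb : orb n c 0 s ∈ ball (0 : ℂ) R2 := by
    rw [mem_ball, dist_zero_right]
    linarith [hg.near]
  have ha0 : 0 < a := norm_pos_iff.mpr (hg.br.deriv_ne hsb)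
  obtain ⟨T, hT, hTn⟩ := exists_root hn (y := c0 / 2 * a * R) (by positivity)
  obtain ⟨Tb, hTb, hTbn⟩ := exists_root hn (y := c0 / 2 * a * R2) (by positivity)
  -- the first entrance to `ball 0 T`
  obtain ⟨p, hp1, hp2⟩ := hx.first h hd Kc hI H2 hT
  obtain ⟨hTTb, hTbR2, G2, hG2, hG2x⟩ := h.ent2 Kc hR1 hM0.le hC.B1 rfl hgap hC.M1 hC.M2
    hC.M3 hC.M4 hg hT hTb hTn hTbn hp1 hp2
  -- near constancy on `ball 0 R`
  obtain ⟨l1, hl1, hl1'⟩ := hNC k 0 R2 R G (orb n c x k) hR0 (by linarith)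
    (by rw [hR2]
        calc 64 * (C0 + 2) * R ≤ θ * B * R := by
              have := hC.B2
              gcongr
          _ = θ * (B * R) := by ring) hG
    (by rw [mem_ball, dist_zero_right]; exact hk1) hGx
    (by
      have h1 := hd2 k 0 R2 G (by linarith) hR1d.le hG (hGK k R2 G (by linarith) hG)
      have h2 : R * ‖deriv G 0‖ ≤ R2 * ‖deriv G 0‖ := by gcongr; linarith
      linarith)
  -- near constancy on `ball 0 T`
  obtain ⟨l2, hl2, hl2'⟩ := hNC p 0 Tb T G2 (orb n c x p) hT (by linarith)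
    (by
      apply le_of_pow_le_pow_left₀ (by omega : n ≠ 0) (by positivity)
      rw [mul_pow, mul_pow θ, hTn, hTbn]
      calc (64 * (C0 + 2)) ^ n * (c0 / 2 * a * R) ≤ θ ^ n * B * (c0 / 2 * a * R) := by
            have := hC.B3
            gcongr
        _ = θ ^ n * (c0 / 2 * a * R2) := by rw [hR2]; ring) hG2
    (by rw [mem_ball, dist_zero_right]; exact hp1) hG2x
    (by
      have h1 := hd2 p 0 Tb G2 hTb (by linarith) hG2 (hGK p Tb G2 hTb hG2)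
      have h2 : T * ‖deriv G2 0‖ ≤ Tb * ‖deriv G2 0‖ := by gcongr; linarith
      linarith)
  -- transport to the critical value
  have hcover : ball c (T ^ n) ⊆ g '' ball 0 R := by
    intro y hy
    rw [mem_ball, dist_eq_norm] at hy
    have hsub : ball (orb n c 0 s) (R / 2) ⊆ ball 0 R := by
      intro u hu
      rw [mem_ball, dist_eq_norm] at hu
      rw [mem_ball, dist_zero_right]
      have := norm_add_le (u - orb n c 0 s) (orb n c 0 s)
      rw [sub_add_cancel] at this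
      have h1 := hg.near
      have h2 : 2 * R1 ≤ R := by
        rw [hR]
        have h3 : (2 : ℝ) ≤ M := by
          refine le_trans ?_ hC.M4
          calc (2 : ℝ) = 2 ^ 1 := by norm_num
            _ ≤ 2 ^ (n + 2) := pow_le_pow_right₀ (by norm_num) (by omega)
        gcongr
      linarith
    obtain ⟨h1, h2⟩ := hg.br.cover Kc (z := orb n c 0 s) (s := R / 2) (by positivity)
      (hsub.trans (ball_subset_ball (by linarith))) (a := y) (by
        rw [hg.gz]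
        calc ‖y - c‖ < T ^ n := hy
          _ = c0 * (R / 2) * a := by rw [hTn]; ring)
    exact ⟨_, hsub h1, h2⟩
  obtain ⟨l1', hl3, hl3'⟩ := hI.transport hn Kc hθ hR0 (by linarith)
    (by rw [hR2]
        calc 64 * (C0 + 2) * R ≤ θ * B * R := by
              have := hC.B2
              gcongr
          _ = θ * (B * R) := by ring) hg.br (l := l1) (by rw [hl1]; exact hl1') hcover
  have hD : ‖deriv g 0‖ ≤ C0 * a :=
    (Kc.kdist g 0 R2 (by linarith) hg.br.univ (orb n c 0 s) (by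
      rw [sub_zero]; linarith [hg.near])).2
  have hfin := hI.final hn hT (l1 := l1') (l2 := l2) (α := 8 * θ * ‖ν x‖ * C0 ^ 4 / c0 ^ 2)
    (β := θ * ‖ν x‖) (by
      refine hl3'.trans ?_
      rw [hl1]
      calc 2 * θ * ‖ν x‖ * (C0 * ‖deriv g 0‖ * R) ^ 2
          ≤ 2 * θ * ‖ν x‖ * (C0 * (C0 * a) * R) ^ 2 := by gcongr
        _ = 8 * θ * ‖ν x‖ * C0 ^ 4 / c0 ^ 2 * (c0 / 2 * a * R) ^ 2 := by
            field_simp
            ring
        _ = 8 * θ * ‖ν x‖ * C0 ^ 4 / c0 ^ 2 * (T ^ n) ^ 2 := by rw [hTn]) hl2'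
  rw [hl3, hl1] at hfin
  have h1 : n * (8 * θ * ‖ν x‖ * C0 ^ 4 / c0 ^ 2) + n ^ 2 * (θ * ‖ν x‖) =
      ‖ν x‖ * (θ * (8 * n * C0 ^ 4 / c0 ^ 2 + n ^ 2)) := by ring
  rw [h1] at hfin
  have h2 : ‖ν x‖ * (θ * (8 * n * C0 ^ 4 / c0 ^ 2 + n ^ 2)) ≤ ‖ν x‖ * 1 := by
    have := hC.θ1
    gcongr
  have h3 := Real.pi_gt_three
  nlinarith

end Pool.Agent.J4H16
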