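import Mathlib
import Pool.Agent.J4H16.NN

/-!
# All cycles are repelling
-/

set_option autoImplicit false
open Set Filter Topology Metric Complex

namespace Pool.Agent.J4H16

open Pool.Agent.W746.LD N62a1eb23

/-- The iterates as polynomials with coefficients polynomial in the parameter. -/
noncomputable def itp (n : ℕ) : ℕ → Polynomial (Polynomial ℂ)
  | 0 => Polynomial.X
  | k + 1 => (itp n k) ^ n + Polynomial.C Polynomial.X

theorem itp_eval (n k : ℕ) (a z : ℂ) :
    ((itp n k).map (Polynomial.evalRingHom a)).eval z = orb n a z k := by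
  induction k with
  | zero => simp [itp]
  | succ k ih =>
    rw [itp, Polynomial.map_add, Polynomial.map_pow, Polynomial.map_C, Polynomial.eval_add,
      Polynomial.eval_pow, ih, Polynomial.eval_C, orb_succ]
    simp

theorem itp_monic {n : ℕ} (hn : 2 ≤ n) (k : ℕ) :
    (itp n k).Monic ∧ (itp n k).natDegree = n ^ k := by
  induction k with
  | zero => exact ⟨Polynomial.monic_X, by simp [itp]⟩
  | succ k ih =>
    obtain ⟨h1, h2⟩ := ih
    have h3 : ((itp n k) ^ n).Monic := h1.pow n
    have h4 : ((itp n k) ^ n).natDegree = n ^ (k + 1) := by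
      rw [h1.natDegree_pow, h2, pow_succ, mul_comm]
    refine ⟨?_, ?_⟩
    · rw [itp]
      apply h3.add_of_left
      rw [Polynomial.degree_eq_natDegree h3.ne_zero, h4]
      refine (Polynomial.degree_C_le).trans_lt ?_
      have : 0 < n ^ (k + 1) := by positivity
      exact_mod_cast this
    · rw [itp, Polynomial.natDegree_add_C, h4]

theorem itp_deriv (n k : ℕ) (a z : ℂ) :
    ((Polynomial.derivative (itp n k)).map (Polynomial.evalRingHom a)).eval z = P n a z k := by
  rw [← Polynomial.derivative_map]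
  have h1 := ((itp n k).map (Polynomial.evalRingHom a)).hasDerivAt z
  have h2 : (fun x => ((itp n k).map (Polynomial.evalRingHom a)).eval x) =
      fun x => orb n a x k := by
    funext x
    exact itp_eval n k a x
  rw [h2] at h1
  exact h1.unique (hasDerivAt_orb z k)

/-- The resultant. -/
noncomputable def RR (n p : ℕ) (T : ℂ) : Polynomial ℂ :=
  Polynomial.resultant (itp n p - Polynomial.X)
    (Polynomial.C (Polynomial.C T) - Polynomial.derivative (itp n p)) (n ^ p) (n ^ p)

/-- the periodic points -/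
noncomputable def Fp (n p : ℕ) (a : ℂ) : Polynomial ℂ :=
  (itp n p - Polynomial.X).map (Polynomial.evalRingHom a)

theorem Fp_eval (n p : ℕ) (a z : ℂ) : (Fp n p a).eval z = orb n a z p - z := by
  rw [Fp, Polynomial.map_sub, Polynomial.eval_sub, itp_eval, Polynomial.map_X, Polynomial.eval_X]

theorem Fp_monic {n : ℕ} (hn : 2 ≤ n) {p : ℕ} (hp : 1 ≤ p) (a : ℂ) :
    (Fp n p a).Monic ∧ (Fp n p a).natDegree = n ^ p := by
  obtain ⟨h1, h2⟩ := itp_monic hn p
  have hlt : 1 < n ^ p := Nat.one_lt_pow (by omega) (by omega)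
  have h3 : (itp n p - Polynomial.X).Monic := by
    apply h1.sub_of_left
    rw [Polynomial.degree_eq_natDegree h1.ne_zero, h2, Polynomial.degree_X]
    exact_mod_cast hlt
  have h4 : (itp n p - Polynomial.X).natDegree = n ^ p := by
    rw [Polynomial.natDegree_sub_eq_left_of_natDegree_lt, h2]
    rw [Polynomial.natDegree_X, h2]
    exact hlt
  refine ⟨h3.map _, ?_⟩
  rw [Fp, h3.natDegree_map, h4]

theorem RR_eval {n : ℕ} (hn : 2 ≤ n) {p : ℕ} (hp : 1 ≤ p) (T a : ℂ) :
    (RR n p T).eval a = ((Fp n p a).roots.map fun z => T - P n a z p).prod := by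
  obtain ⟨h1, h2⟩ := Fp_monic hn hp a
  have h3 : (RR n p T).eval a = Polynomial.evalRingHom a (RR n p T) := rfl
  rw [h3, RR, ← Polynomial.resultant_map_map]
  have h4 : (itp n p - Polynomial.X).map (Polynomial.evalRingHom a) = Fp n p a := rfl
  rw [h4]
  set G := (Polynomial.C (Polynomial.C T) - Polynomial.derivative (itp n p)).map
    (Polynomial.evalRingHom a) with hG
  have hGd : G.natDegree ≤ n ^ p := by
    refine Polynomial.natDegree_map_le.trans ((Polynomial.natDegree_sub_le _ _).trans ?_)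
    rw [Polynomial.natDegree_C]
    refine max_le (Nat.zero_le _) ((Polynomial.natDegree_derivative_le _).trans ?_)
    rw [(itp_monic hn p).2]
    omega
  have h5 := Polynomial.resultant_eq_prod_eval (Fp n p a) G (n ^ p) hGd
    (IsAlgClosed.splits _)
  rw [h2] at h5
  rw [h5, h1.leadingCoeff, one_pow, one_mul]
  congr 1
  apply Multiset.map_congr rfl
  intro z _
  rw [hG, Polynomial.map_sub, Polynomial.eval_sub, itp_deriv, Polynomial.map_C, Polynomial.eval_C]
  simp

/-- for large parameters all cycles are repelling -/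
theorem large_rep {n : ℕ} (hn : 2 ≤ n) {p : ℕ} (hp : 1 ≤ p) {a z : ℂ} (ha : ‖a‖ = 8)
    (hz : orb n a z p = z) : 1 < ‖P n a z p‖ := by
  have hstep : ∀ w : ℂ, 4 < ‖w‖ → ‖w‖ + 1 < ‖w ^ n + a‖ := by
    intro w hw
    have h1 : ‖w‖ ^ 2 ≤ ‖w‖ ^ n := pow_le_pow_right₀ (by linarith) hn
    have h2 : ‖w ^ n‖ ≤ ‖w ^ n + a‖ + ‖a‖ := by
      have := norm_sub_le (w ^ n + a) a
      rwa [add_sub_cancel_right] at this
    rw [norm_pow, ha] at h2
    nlinarith
  have hbd : ∀ j, ‖orb n a z j‖ ≤ 4 := by
    intro j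
    by_contra hcon
    push Not at hcon
    have h1 : ∀ m, ‖orb n a z j‖ + m ≤ ‖orb n a z (j + m)‖ := by
      intro m
      induction m with
      | zero => simp
      | succ m ih =>
        have h2 := hstep (orb n a z (j + m)) (by
          have : (0 : ℝ) ≤ m := Nat.cast_nonneg m
          linarith)
        rw [← orb_succ] at h2
        rw [← add_assoc]
        push_cast
        linarith
    have h2 := h1 p
    rw [add_comm j p, orb_add, hz] at h2
    have : (1 : ℝ) ≤ p := by exact_mod_cast hp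
    linarith
  have hge : ∀ j, 1 ≤ ‖orb n a z j‖ := by
    intro j
    by_contra hcon
    push Not at hcon
    have h1 : ‖orb n a z j‖ ^ n ≤ 1 := pow_le_one₀ (norm_nonneg _) hcon.le
    have h2 := norm_orb_succ_sub_le n a z j ha
    have h3 := hbd (j + 1)
    linarith
  have hP : ∀ k, (2 : ℝ) ^ k ≤ ‖P n a z k‖ := by
    intro k
    induction k with
    | zero => simp
    | succ k ih =>
      rw [norm_P_succ, pow_succ]
      have h1 : (1 : ℝ) ≤ ‖orb n a z k‖ ^ (n - 1) := one_le_pow₀ (hge k)
      have h2 : (2 : ℝ) ≤ n := by exact_mod_cast hn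
      have h3 : (2 : ℝ) ≤ n * ‖orb n a z k‖ ^ (n - 1) := by nlinarith
      gcongr
  have h1 := hP p
  have h2 : (1 : ℝ) < 2 ^ p := one_lt_pow₀ (by norm_num) (by omega)
  linarith
where
  norm_orb_succ_sub_le (n : ℕ) (a z : ℂ) (j : ℕ) (ha : ‖a‖ = 8) :
      8 ≤ ‖orb n a z j‖ ^ n + ‖orb n a z (j + 1)‖ := by
    have h1 : a = orb n a z (j + 1) - (orb n a z j) ^ n := by
      rw [orb_succ]; ring
    have h2 := norm_sub_le (orb n a z (j + 1)) ((orb n a z j) ^ n)
    rw [← h1, ha, norm_pow] at h2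
    linarith

theorem Q.norm_mult {n : ℕ} {c : ℂ} {r : ℝ} (h : Q n c r) {a : ℂ} (ha : a ∈ ball c r) {p : ℕ}
    (hp : 1 ≤ p) {z : ℂ} (hz : orb n a z p = z) : 1 ≤ ‖P n a z p‖ := by
  by_contra hcon
  push Not at hcon
  refine h.na a ha ⟨p, z, hp, hz, (hasDerivAt_orb (n := n) (c := a) z p).differentiableAt, ?_⟩
  have h1 : deriv (fun z => z ^ n + a)^[p] z = P n a z p :=
    (hasDerivAt_orb (n := n) (c := a) z p).deriv
  rw [h1]
  exact hcon

theorem Q.repelling {n : ℕ} {c : ℂ} {r : ℝ} (h : Q n c r) {p : ℕ} (hp : 1 ≤ p) {z : ℂ}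
    (hz : orb n c z p = z) : 1 < ‖P n c z p‖ := by
  have hn := h.hn
  have hr := h.hr
  by_contra hcon
  push Not at hcon
  have h1 := h.norm_mult (mem_ball_self hr) hp hz
  set l : ℂ := P n c z p with hl
  have hl1 : ‖l‖ = 1 := le_antisymm hcon h1
  -- the polynomial is not zero
  have hne : RR n p l ≠ 0 := by
    intro h0
    have h2 := RR_eval hn hp l (8 : ℂ)
    rw [h0, Polynomial.eval_zero] at h2
    have h3 := Multiset.prod_eq_zero_iff.mp h2.symm
    rw [Multiset.mem_map] at h3
    obtain ⟨w, hw1, hw2⟩ := h3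
    have hw3 : orb n 8 w p = w := by
      have := (Polynomial.mem_roots (Fp_monic hn hp 8).1.ne_zero).mp hw1
      rw [Polynomial.IsRoot.def, Fp_eval] at this
      exact sub_eq_zero.mp this
    have h4 := large_rep hn hp (a := 8) (by simp) hw3
    rw [← sub_eq_zero.mp hw2, hl1] at h4
    exact lt_irrefl _ h4
  -- the sphere
  obtain ⟨ε, hε, hεr⟩ : ∃ ε ∈ Ioo (0 : ℝ) r, ε ∉ (RR n p l).roots.toFinset.image fun a => ‖a - c‖ :=
    (Ioo_infinite hr).exists_notMem_finset _
  have hε0 : 0 < ε := hε.1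
  have hsph : ∀ a ∈ sphere c ε, (RR n p l).eval a ≠ 0 := by
    intro a ha h0
    apply hεr
    rw [Finset.mem_image]
    refine ⟨a, ?_, ?_⟩
    · rw [Multiset.mem_toFinset, Polynomial.mem_roots hne]
      exact h0
    · rw [mem_sphere, dist_eq_norm] at ha
      exact ha
  have hcomp : IsCompact (sphere c ε) := isCompact_sphere c ε
  have hsne : (sphere c ε).Nonempty := NormedSpace.sphere_nonempty.mpr hε0.le
  obtain ⟨a0, ha0, hmin⟩ := hcomp.exists_isMinOn hsne
    (f := fun a => ‖(RR n p l).eval a‖) ((RR n p l).continuous.norm.continuousOn)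
  set m0 : ℝ := ‖(RR n p l).eval a0‖ with hm0
  have hm0p : 0 < m0 := norm_pos_iff.mpr (hsph a0 ha0)
  have hsub : closedBall c ε ⊆ ball c r := closedBall_subset_ball hε.2
  -- comparison
  have hroot : ∀ a ∈ closedBall c ε, ∀ w ∈ (Fp n p a).roots, 1 ≤ ‖P n a w p‖ := by
    intro a ha w hw
    have hw3 : orb n a w p = w := by
      have := (Polynomial.mem_roots (Fp_monic hn hp a).1.ne_zero).mp hw
      rw [Polynomial.IsRoot.def, Fp_eval] at this
      exact sub_eq_zero.mp this
    exact h.norm_mult (hsub ha) hp hw3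
  have hfac : ∀ t : ℝ, 0 < t → t < 1 → ∀ D : ℂ, 1 ≤ ‖D‖ → ‖l - D‖ ≤ 2 * ‖t * l - D‖ ∧
      t * l - D ≠ 0 := by
    intro t ht0 ht1 D hD
    have e1 : ‖(t : ℂ) * l‖ = t := by
      rw [norm_mul, Complex.norm_real, Real.norm_of_nonneg ht0.le, hl1, mul_one]
    have h2 : 1 - t ≤ ‖t * l - D‖ := by
      have := norm_sub_norm_le D (t * l)
      rw [e1, norm_sub_rev] at this
      linarith
    have h3 : ‖l - D‖ ≤ (1 - t) + ‖t * l - D‖ := by
      have e : l - D = ((1 - t : ℝ) : ℂ) * l + (t * l - D) := by push_cast; ring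
      rw [e]
      refine (norm_add_le _ _).trans ?_
      rw [norm_mul, Complex.norm_real, Real.norm_of_nonneg (by linarith), hl1, mul_one]
    refine ⟨by linarith, ?_⟩
    intro h0
    rw [h0, norm_zero] at h2
    linarith
  have hmult : ∀ t : ℝ, 0 < t → t < 1 → ∀ (a : ℂ) (s : Multiset ℂ),
      (∀ w ∈ s, 1 ≤ ‖P n a w p‖) →
      ‖(s.map fun z => l - P n a z p).prod‖ ≤
        2 ^ s.card * ‖(s.map fun z => t * l - P n a z p).prod‖ := by
    intro t ht0 ht1 a s
    induction s using Multiset.induction_on with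
    | empty => intro _; simp
    | cons w s ih =>
      intro hs
      have h2 := ih fun u hu => hs u (Multiset.mem_cons_of_mem hu)
      have h3 := (hfac t ht0 ht1 _ (hs w (Multiset.mem_cons_self w s))).1
      rw [Multiset.map_cons, Multiset.prod_cons, Multiset.map_cons, Multiset.prod_cons,
        Multiset.card_cons, norm_mul, norm_mul, pow_succ]
      calc ‖l - P n a w p‖ * ‖(s.map fun z => l - P n a z p).prod‖
          ≤ (2 * ‖t * l - P n a w p‖) *
            (2 ^ s.card * ‖(s.map fun z => t * l - P n a z p).prod‖) := by gcongr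
        _ = _ := by ring
  have hlow : ∀ t : ℝ, 0 < t → t < 1 → m0 / 2 ^ (n ^ p) ≤ ‖(RR n p (t * l)).eval c‖ := by
    intro t ht0 ht1
    set N := n ^ p with hN
    have hnz : ∀ a ∈ closedBall c ε, (RR n p (t * l)).eval a ≠ 0 := by
      intro a ha h0
      rw [RR_eval hn hp] at h0
      have h3 := Multiset.prod_eq_zero_iff.mp h0
      rw [Multiset.mem_map] at h3
      obtain ⟨w, hw1, hw2⟩ := h3
      exact (hfac t ht0 ht1 _ (hroot a ha w hw1)).2 hw2
    have hbdS : ∀ a ∈ sphere c ε, m0 / 2 ^ N ≤ ‖(RR n p (t * l)).eval a‖ := by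
      intro a ha
      have h2 := hmult t ht0 ht1 a (Fp n p a).roots (hroot a (sphere_subset_closedBall ha))
      rw [← RR_eval hn hp, ← RR_eval hn hp] at h2
      have h3 : m0 ≤ ‖(RR n p l).eval a‖ := hmin ha
      have h4 : (Fp n p a).roots.card ≤ N := by
        refine (Polynomial.card_roots' _).trans ?_
        rw [(Fp_monic hn hp a).2]
      rw [div_le_iff₀ (by positivity)]
      calc m0 ≤ 2 ^ (Fp n p a).roots.card * ‖(RR n p (t * l)).eval a‖ := h3.trans h2
        _ ≤ 2 ^ N * ‖(RR n p (t * l)).eval a‖ := by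
            gcongr
            norm_num
        _ = _ := mul_comm _ _
    have hδ : 0 < m0 / 2 ^ N := by positivity
    have hd : DiffContOnCl ℂ (fun a => ((RR n p (t * l)).eval a)⁻¹) (ball c ε) := by
      apply DifferentiableOn.diffContOnCl
      intro a ha
      rw [closure_ball c hε0.ne'] at ha
      exact ((RR n p (t * l)).differentiable a).inv (hnz a ha) |>.differentiableWithinAt
    have h5 := Complex.norm_le_of_forall_mem_frontier_norm_le (isBounded_ball) hd
      (C := (m0 / 2 ^ N)⁻¹) (by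
        intro a ha
        rw [frontier_ball c hε0.ne'] at ha
        rw [norm_inv]
        exact inv_anti₀ hδ (hbdS a ha)) (subset_closure (mem_ball_self hε0))
    rw [norm_inv] at h5
    exact (inv_le_inv₀ (norm_pos_iff.mpr (hnz c (mem_closedBall_self hε0.le))) hδ).mp h5
  -- the limit
  have hcont : Continuous fun T : ℂ => (RR n p T).eval c := by
    have e : (fun T : ℂ => (RR n p T).eval c) =
        fun T : ℂ => ((Fp n p c).roots.map fun z => T - P n c z p).prod := by
      funext T
      exact RR_eval hn hp T c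
    rw [e]
    exact continuous_multiset_prod _ fun z _ => by fun_prop
  have hzero : (RR n p l).eval c = 0 := by
    rw [RR_eval hn hp, Multiset.prod_eq_zero_iff, Multiset.mem_map]
    refine ⟨z, ?_, by rw [hl, sub_self]⟩
    rw [Polynomial.mem_roots (Fp_monic hn hp c).1.ne_zero, Polynomial.IsRoot.def, Fp_eval, hz,
      sub_self]
  have ht : Tendsto (fun t : ℝ => ‖(RR n p (t * l)).eval c‖) (𝓝[<] 1) (𝓝 0) := by
    have h2 : Continuous fun t : ℝ => ‖(RR n p (t * l)).eval c‖ :=
      (hcont.comp (by fun_prop : Continuous fun t : ℝ => (t : ℂ) * l)).norm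
    have h3 := (h2.tendsto 1).mono_left (nhdsWithin_le_nhds (s := Iio 1))
    simpa [hzero] using h3
  have h6 := ge_of_tendsto ht (b := m0 / 2 ^ (n ^ p)) (by
    have : Ioo (0 : ℝ) 1 ∈ 𝓝[<] (1 : ℝ) := Ioo_mem_nhdsLT one_pos
    filter_upwards [this] with t ht
    exact hlow t ht.1 ht.2)
  have h7 : 0 < m0 / 2 ^ (n ^ p) := by positivity
  linarith

end Pool.Agent.J4H16
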