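import Mathlib
import Pool.Agent.J4H16.Rep
import Pool.Agent.N291.W.NW
import Pool.Agent.N291.W.CT01
import Pool.Agent.N833.W.WeylPB
import Pool.Agent.N717.W.HOL
import Pool.Agent.N194.W.MU
import Pool.Agent.N690.W.MOM
import Pool.Agent.N726.W.PROP
import Pool.Agent.N207.W.RADO
import Pool.Agent.N207.W.COV
import Pool.Agent.W363.JQ.Dom
import Pool.Agent.W346.JQ.Basic

/-!
# The interior of the filled Julia set: components, no wandering components
-/

set_option autoImplicit false
open Set Filter Topology Metric Complex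

namespace Pool.Agent.J4H16

open Pool.Agent.W746.LD

variable {n : ℕ} {c : ℂ} {r : ℝ}

/-- the interior of the filled Julia set -/
def F0 (n : ℕ) (c : ℂ) : Set ℂ := interior (K n c)

/-- its components -/
def cp (n : ℕ) (c z : ℂ) : Set ℂ := connectedComponentIn (F0 n c) z

theorem isOpen_F0 : IsOpen (F0 n c) := isOpen_interior

theorem isOpen_cp (z : ℂ) : IsOpen (cp n c z) := isOpen_F0.connectedComponentIn

theorem cp_sub (z : ℂ) : cp n c z ⊆ F0 n c := connectedComponentIn_subset _ _

theorem F0_sub : F0 n c ⊆ K n c := interior_subset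

theorem mem_F0_iff (hn : 2 ≤ n) (hc : ‖c‖ ≤ 2) (z : ℂ) : z ^ n + c ∈ F0 n c ↔ z ∈ F0 n c := by
  have hcont : Continuous fun z : ℂ => z ^ n + c := by fun_prop
  constructor
  · intro h
    have h1 : (fun z : ℂ => z ^ n + c) ⁻¹' F0 n c ⊆ K n c := by
      intro w hw
      exact (mem_K_iff hn hc w).mp (F0_sub hw)
    exact interior_maximal h1 (isOpen_F0.preimage hcont) h
  · intro h
    have hK : K n c ∈ 𝓝 z := mem_interior_iff_mem_nhds.mp h
    have han : AnalyticAt ℂ (fun z : ℂ => z ^ n + c) z := by fun_prop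
    rcases han.eventually_constant_or_nhds_le_map_nhds with h1 | h1
    · exfalso
      obtain ⟨ε, hε, hε'⟩ := Metric.eventually_nhds_iff.mp h1
      -- a nonconstant polynomial
      have hd : ∀ w ∈ ball z ε, (n : ℂ) * w ^ (n - 1) = 0 := by
        intro w hw
        have h2 : HasDerivAt (fun z : ℂ => z ^ n + c) (n * w ^ (n - 1)) w :=
          (hasDerivAt_pow n w).add_const c
        have h3 : (fun z : ℂ => z ^ n + c) =ᶠ[𝓝 w] fun _ => z ^ n + c := by
          filter_upwards [isOpen_ball.mem_nhds hw] with u hu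
          exact hε' hu
        exact h2.unique ((hasDerivAt_const w (z ^ n + c)).congr_of_eventuallyEq h3)
      have hnC : (n : ℂ) ≠ 0 := by exact_mod_cast (by omega : n ≠ 0)
      have h4 : ∀ w ∈ ball z ε, w = 0 := by
        intro w hw
        rcases mul_eq_zero.mp (hd w hw) with h5 | h5
        · exact absurd h5 hnC
        · exact pow_eq_zero_iff (by omega) |>.mp h5
      have h5 := h4 z (mem_ball_self hε)
      have h6 := h4 (z + (ε / 2 : ℝ)) (by
        rw [mem_ball, dist_eq_norm, add_sub_cancel_left, Complex.norm_real,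
          Real.norm_of_nonneg (by linarith)]
        linarith)
      rw [h5, zero_add] at h6
      have : ε / 2 = 0 := by exact_mod_cast h6
      linarith
    · rw [F0, mem_interior_iff_mem_nhds]
      apply h1
      rw [mem_map]
      filter_upwards [hK] with w hw
      exact (mem_K_iff hn hc w).mpr hw

theorem orb_mem_F0 (hn : 2 ≤ n) (hc : ‖c‖ ≤ 2) (z : ℂ) (k : ℕ) :
    orb n c z k ∈ F0 n c ↔ z ∈ F0 n c := by
  induction k with
  | zero => simp
  | succ k ih => rw [orb_succ, mem_F0_iff hn hc, ih]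

theorem mapsTo_cp (hn : 2 ≤ n) (hc : ‖c‖ ≤ 2) {z : ℂ} (hz : z ∈ F0 n c) :
    MapsTo (fun z : ℂ => z ^ n + c) (cp n c z) (cp n c (z ^ n + c)) := by
  have hcont : Continuous fun z : ℂ => z ^ n + c := by fun_prop
  have h1 : IsPreconnected ((fun z : ℂ => z ^ n + c) '' cp n c z) :=
    isPreconnected_connectedComponentIn.image _ hcont.continuousOn
  have h2 : (fun z : ℂ => z ^ n + c) '' cp n c z ⊆ F0 n c := by
    rintro _ ⟨w, hw, rfl⟩
    exact (mem_F0_iff hn hc w).mpr (cp_sub z hw)
  have h3 := h1.subset_connectedComponentIn (x := z ^ n + c)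
    ⟨z, mem_connectedComponentIn hz, rfl⟩ h2
  exact mapsTo_iff_image_subset.mpr h3

theorem mapsTo_orb_cp (hn : 2 ≤ n) (hc : ‖c‖ ≤ 2) {z : ℂ} (hz : z ∈ F0 n c) (k : ℕ) :
    MapsTo (fun w => orb n c w k) (cp n c z) (cp n c (orb n c z k)) := by
  induction k with
  | zero => intro w hw; exact hw
  | succ k ih =>
    intro w hw
    have h1 := ih hw
    have h2 := mapsTo_cp hn hc ((orb_mem_F0 hn hc z k).mpr hz) h1
    simp only [orb_succ]
    exact h2

theorem cp_eq {z w : ℂ} (h : w ∈ cp n c z) : cp n c z = cp n c w := connectedComponentIn_eq h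

theorem cp_disj {z w : ℂ} (h : cp n c z ≠ cp n c w) : Disjoint (cp n c z) (cp n c w) := by
  rw [Set.disjoint_left]
  intro u hu hu'
  exact h ((cp_eq hu).trans (cp_eq hu').symm)

/-- fullness -/
theorem cp_full {z : ℂ} {E : Set ℂ} (hE : IsCompact E) (hEs : E ⊆ cp n c z) {w : ℂ}
    (hw : w ∉ cp n c z) : ¬ Bornology.IsBounded (connectedComponentIn Eᶜ w) := by
  intro hb
  have hO : IsOpen Eᶜ := hE.isClosed.isOpen_compl
  have hwE : w ∈ Eᶜ := fun h => hw (hEs h)
  set B := connectedComponentIn Eᶜ w with hB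
  have hBo : IsOpen B := hO.connectedComponentIn
  have hwB : w ∈ B := mem_connectedComponentIn hwE
  have hfr : frontier B ⊆ E := by
    intro y hy
    by_contra hyn
    exact Set.disjoint_left.1 (Pool.Agent.W363.JQ.frontier_compIn hO w) hyn hy
  have hBK : B ⊆ K n c := by
    intro u hu k
    have h1 : DiffContOnCl ℂ (fun z => orb n c z k) B :=
      (differentiable_orb k).diffContOnCl
    exact Complex.norm_le_of_forall_mem_frontier_norm_le hb h1 (fun y hy =>
      F0_sub (cp_sub z (hEs (hfr hy))) k) (subset_closure hu)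
  have hBF : B ⊆ F0 n c := interior_maximal hBK hBo
  have hfn : (frontier B).Nonempty := by
    rw [nonempty_frontier_iff]
    refine ⟨⟨w, hwB⟩, fun h => ?_⟩
    rw [h] at hb
    exact NormedSpace.unbounded_univ ℝ ℂ hb
  obtain ⟨y, hy⟩ := hfn
  have hyV : y ∈ cp n c z := hEs (hfr hy)
  obtain ⟨u, hu1, hu2⟩ := mem_closure_iff.1 (frontier_subset_closure hy) _ (isOpen_cp z) hyV
  have h2 : B ⊆ cp n c u :=
    isPreconnected_connectedComponentIn.subset_connectedComponentIn hu2 hBF
  rw [← cp_eq hu1] at h2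
  exact hw (h2 hwB)

/-- injectivity -/
theorem injOn_cp (hn : 2 ≤ n) (hc : ‖c‖ ≤ 2) {z : ℂ} (hz : z ∈ F0 n c) (h0 : (0 : ℂ) ∉ cp n c z) :
    InjOn (fun z : ℂ => z ^ n + c) (cp n c z) := by
  have hcont : Continuous fun z : ℂ => z ^ n + c := by fun_prop
  have hnC : (n : ℂ) ≠ 0 := by exact_mod_cast (by omega : n ≠ 0)
  intro x hx y hy hxy
  have hconn : IsConnected (cp n c z) := ⟨⟨z, mem_connectedComponentIn hz⟩,
    isPreconnected_connectedComponentIn⟩
  have hpc : IsPathConnected (cp n c z) := (isOpen_cp z).isConnected_iff_isPathConnected.mp hconn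
  obtain ⟨γ, hγ⟩ := hpc.joinedIn x hx y hy
  have hder : ∀ w : ℂ, deriv (fun z : ℂ => z ^ n + c) w = n * w ^ (n - 1) := fun w =>
    ((hasDerivAt_pow n w).add_const c).deriv
  have hrc : IsCompact (range γ) := isCompact_range γ.continuous
  have hrp : IsPreconnected (range γ) := isPreconnected_range γ.continuous
  have hrs : range γ ⊆ cp n c z := by
    rintro _ ⟨t, rfl⟩
    exact hγ t
  have hmaps := mapsTo_cp hn hc hz
  have key := Pool.Agent.N207.W.COV.t_COV (cp n c z) (cp n c (z ^ n + c)) (range γ)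
    ((fun z : ℂ => z ^ n + c) '' range γ) (fun z : ℂ => z ^ n + c) (isOpen_cp _) (isOpen_cp _)
    ?_ ?_ ?_ hmaps ?_ (hrc.image hcont) ?_ ?_ hrp hrs (mapsTo_image _ _)
  · exact key ⟨0, γ.source⟩ ⟨1, γ.target⟩ hxy
  · apply (isCompact_K n c).isBounded.subset
    exact (cp_sub _).trans F0_sub
  · exact (by fun_prop : Differentiable ℂ fun z : ℂ => z ^ n + c).differentiableOn
  · intro w hw
    rw [hder]
    refine mul_ne_zero hnC (pow_ne_zero _ ?_)
    rintro rfl
    exact h0 hw
  · intro K' hK' hK'c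
    have hcl : IsClosed (cp n c z ∩ (fun z : ℂ => z ^ n + c) ⁻¹' K') := by
      rw [← closure_subset_iff_isClosed]
      intro w hw
      have h1 : w ∈ (fun z : ℂ => z ^ n + c) ⁻¹' K' := by
        have hclosed : IsClosed ((fun z : ℂ => z ^ n + c) ⁻¹' K') := hK'c.isClosed.preimage hcont
        exact closure_minimal inter_subset_right hclosed hw
      refine ⟨?_, h1⟩
      have h2 : w ∈ F0 n c := (mem_F0_iff hn hc w).mp (cp_sub _ (hK' h1))
      obtain ⟨u, hu1, hu2⟩ := mem_closure_iff.1 hw _ (isOpen_cp w) (mem_connectedComponentIn h2)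
      have h3 : cp n c w = cp n c u := cp_eq hu1
      have h4 : cp n c z = cp n c u := cp_eq hu2.1
      rw [h4, ← h3]
      exact mem_connectedComponentIn h2
    apply (isCompact_K n c).of_isClosed_subset hcl
    exact inter_subset_left.trans ((cp_sub _).trans F0_sub)
  · exact ⟨⟨_, ⟨γ 0, mem_range_self _, rfl⟩⟩, hrp.image _ hcont.continuousOn⟩
  · intro w hw
    exact cp_full (hrc.image hcont) (by
      rintro _ ⟨u, hu, rfl⟩
      exact hmaps (hrs hu)) hw

theorem t_nw : Pool.Agent.N291.W.S_NW := by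
  have h0 := Pool.Agent.N291.W.t_CT0
  have h1 := Pool.Agent.N291.W.t_CT1
  have h2 : Pool.Agent.N291.W.S_CT2 := Pool.Agent.N123.W.t_CT2
  have h3 : Pool.Agent.N291.W.S_CT3 := Pool.Agent.N123.W.t_CT3
  have h4 : Pool.Agent.N291.W.S_CT4 := Pool.Agent.N123.W.t_CT4
  have hfin : Pool.Agent.N291.W.S_FIN := Pool.Agent.N717.W.t_FIN
  have hhol : Pool.Agent.N291.W.S_HOL :=
    Pool.Agent.N717.W.t_HOL h1 h3 Pool.Agent.N833.W.t_WEYL Pool.Agent.N833.W.t_PB
  have hmom : Pool.Agent.N291.W.S_MOM := Pool.Agent.N690.W.t_MOM hfin h1 h2 h3 h4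
  exact Pool.Agent.N291.W.t_NW h0 h1 h3 h4 hfin hhol Pool.Agent.N194.W.MU.t_MU hmom
    Pool.Agent.N726.W.t_PROP Pool.Agent.N207.W.RADO.t_RADO

theorem dyn (hn : 2 ≤ n) (hc : ‖c‖ ≤ 2) :
    Pool.Agent.N291.W.Dyn (fun z : ℂ => z ^ n + c) (ball 0 4) ∅ 4 8 := by
  have hnC : (n : ℂ) ≠ 0 := by exact_mod_cast (by omega : n ≠ 0)
  have hder : ∀ w : ℂ, deriv (fun z : ℂ => z ^ n + c) w = n * w ^ (n - 1) := fun w =>
    ((hasDerivAt_pow n w).add_const c).deriv
  refine ⟨isOpen_ball, ?_, ?_, le_rfl, by norm_num, finite_empty, empty_subset _, ?_, ?_, ?_, ?_,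
    ?_⟩
  · exact ⟨⟨0, mem_ball_self (by norm_num)⟩, (convex_ball _ _).isPreconnected⟩
  · have h1 : IsPreconnected {z : ℂ | 4 < ‖z‖} := Pool.Agent.W346.JQ.conn_out 4 (by norm_num)
    have h2 : closure {z : ℂ | 4 < ‖z‖} = (ball (0 : ℂ) 4)ᶜ := by
      have h3 : {z : ℂ | 4 < ‖z‖} = (closedBall (0 : ℂ) 4)ᶜ := by
        ext z
        simp
      rw [h3, closure_compl, interior_closedBall _ (by norm_num)]
    rw [← h2]
    exact h1.closure
  · intro z _ _
    fun_prop
  · intro p hp; exact absurd hp (notMem_empty p)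
  · intro p hp; exact absurd hp (notMem_empty p)
  · intro z hz
    rw [frontier_ball _ (by norm_num), mem_sphere, dist_zero_right] at hz
    have := grow hn hc (z := z) (by rw [hz]; norm_num)
    rw [hz] at this
    linarith
  · intro z _ _
    have key : ∀ᶠ w in 𝓝[≠] z, w ≠ 0 := by
      rcases eq_or_ne z 0 with rfl | hz
      · exact self_mem_nhdsWithin
      · exact mem_nhdsWithin_of_mem_nhds (isOpen_ne.mem_nhds hz)
    filter_upwards [key] with w hw
    rw [hder]
    exact mul_ne_zero hnC (pow_ne_zero _ hw)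

/-- No wandering components. -/
theorem no_wander (hn : 2 ≤ n) (hc : ‖c‖ ≤ 2) {z : ℂ} (hz : z ∈ F0 n c) :
    ∃ k l, k < l ∧ cp n c (orb n c z k) = cp n c (orb n c z l) := by
  by_contra hcon
  push Not at hcon
  have hzk : ∀ k, orb n c z k ∈ F0 n c := fun k => (orb_mem_F0 hn hc z k).mpr hz
  have hne : ∀ k l, k ≠ l → cp n c (orb n c z k) ≠ cp n c (orb n c z l) := by
    intro k l hkl
    rcases lt_or_gt_of_ne hkl with h | h
    · exact hcon k l h
    · exact (hcon l k h).symm
  obtain ⟨m, hm⟩ : ∃ m, ∀ k ≥ m, (0 : ℂ) ∉ cp n c (orb n c z k) := by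
    by_cases h0 : ∃ k, (0 : ℂ) ∈ cp n c (orb n c z k)
    · obtain ⟨k, hk⟩ := h0
      refine ⟨k + 1, fun l hl h0l => ?_⟩
      exact Set.disjoint_left.mp (cp_disj (hne k l (by omega))) hk h0l
    · push Not at h0
      exact ⟨0, fun k _ => h0 k⟩
  set U := cp n c (orb n c z m) with hU
  have hmaps : ∀ k, MapsTo (fun w => orb n c w k) U (cp n c (orb n c z (m + k))) := by
    intro k
    have := mapsTo_orb_cp hn hc (hzk m) k
    rwa [← orb_add] at this
  have hinj : ∀ k, InjOn (fun w => orb n c w k) U := by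
    intro k
    induction k with
    | zero => intro x _ y _ h; exact h
    | succ k ih =>
      intro x hx y hy hxy
      simp only [orb_succ] at hxy
      have h1 := injOn_cp hn hc (hzk (m + k)) (hm _ (by omega)) (hmaps k hx) (hmaps k hy) hxy
      exact ih hx hy h1
  have hUK : U ⊆ K n c := (cp_sub _).trans F0_sub
  have hUcl : closure U ⊆ K n c := closure_minimal hUK (isClosed_K n c)
  have hit : ∀ (k : ℕ) (w : ℂ), (fun z : ℂ => z ^ n + c)^[k] w = orb n c w k := fun k w => rfl
  have hW : Pool.Agent.N291.W.Wan (fun z : ℂ => z ^ n + c) (ball 0 4) ∅ U := by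
    refine ⟨isOpen_cp _, ⟨_, mem_connectedComponentIn (hzk m)⟩, ?_, ?_, ?_, ?_⟩
    · intro w hw
      rw [mem_ball, dist_zero_right]
      linarith [K_sub (hUcl hw)]
    · intro k w hw
      refine ⟨?_, notMem_empty _⟩
      rw [mem_ball, dist_zero_right, hit]
      linarith [hUK hw k]
    · intro k l hkl
      rw [Set.disjoint_left]
      rintro _ ⟨x, hx, rfl⟩ ⟨y, hy, hxy⟩
      have h1 := hmaps k hx
      have h2 := hmaps l hy
      simp only [hit] at hxy
      simp only at h1 h2
      rw [hxy] at h2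
      exact Set.disjoint_left.mp (cp_disj (hne (m + k) (m + l) (by omega))) h1 h2
    · intro k
      exact hinj k
  obtain ⟨a, ha, r', hr', hball⟩ := t_nw _ _ _ _ _ _ (dyn hn hc) hW
  have hsub : ball a r' ⊆ K n c := by
    intro w hw k
    by_contra hk
    push Not at hk
    have h1 := (orb_grow hn hc hk 1).1
    have h2 := (hball w hw (k + 1)).1
    rw [closure_ball _ (by norm_num), mem_closedBall, dist_zero_right, hit] at h2
    linarith
  have haF : a ∈ F0 n c := interior_maximal hsub isOpen_ball (mem_ball_self hr')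
  exact Set.disjoint_left.mp (Pool.Agent.W363.JQ.frontier_compIn isOpen_F0 _) haF ha

end Pool.Agent.J4H16
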