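import Mathlib
import Pool.Agent.J4H16.Fat
import Pool.Agent.W538.JQ.Rmt
import Pool.Agent.Helper233.BA.Harn
import Pool.Agent.Helper321.DW.Ball

/-!
# No periodic components: the filled Julia set has empty interior
-/

set_option autoImplicit false
open Set Filter Topology Metric Complex

namespace Pool.Agent.J4H16

open Pool.Agent.W746.LD

variable {n : ℕ} {c : ℂ} {r : ℝ}

theorem conn_compl_K (hn : 2 ≤ n) (hc : ‖c‖ ≤ 2) : IsConnected (K n c)ᶜ := by
  set p : Polynomial ℂ := Polynomial.X ^ n + Polynomial.C c with hp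
  have hdeg : p.natDegree = n := Polynomial.natDegree_X_pow_add_C
  have hev : (fun w : ℂ => p.eval w) = f n c := by
    funext w
    simp [hp, f]
  have hKK : Pool.Agent.W363.JQ.KK p = K n c := by
    ext z
    constructor
    · intro hz
      by_contra hcon
      obtain ⟨k, hk⟩ := not_mem_K.mp hcon
      have hz' : Bornology.IsBounded (Set.range (fun m : ℕ => (fun w : ℂ => p.eval w)^[m] z)) := hz
      rw [hev] at hz'
      obtain ⟨M, hM⟩ := hz'.exists_norm_le
      obtain ⟨m, hm⟩ := pow_unbounded_of_one_lt M (one_lt_two : (1 : ℝ) < 2)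
      have h1 := (orb_grow hn hc hk m).1
      have h2 : ‖orb n c z (k + m)‖ ≤ M := hM _ ⟨k + m, rfl⟩
      have h3 : (0 : ℝ) < 2 ^ m := by positivity
      nlinarith
    · intro hz
      show Bornology.IsBounded (Set.range (fun m : ℕ => (fun w : ℂ => p.eval w)^[m] z))
      rw [hev]
      refine isBounded_iff_forall_norm_le.2 ⟨3, ?_⟩
      rintro _ ⟨k, rfl⟩
      exact hz k
  rw [← hKK]
  exact Pool.Agent.W346.JQ.cconn p (by rw [hdeg]; exact hn)

theorem conn_compl_cp (hn : 2 ≤ n) (hc : ‖c‖ ≤ 2) {z : ℂ} (hz : z ∈ F0 n c) :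
    IsConnected (cp n c z)ᶜ := by
  have e : closure (K n c)ᶜ = (F0 n c)ᶜ := closure_compl
  refine Pool.Agent.W363.JQ.comp (closure (K n c)ᶜ) (cp n c z) isClosed_closure ?_ (isOpen_cp z)
    ⟨⟨z, mem_connectedComponentIn hz⟩, isPreconnected_connectedComponentIn⟩ ?_ ?_
  · exact ⟨(conn_compl_K hn hc).nonempty.closure, (conn_compl_K hn hc).isPreconnected.closure⟩
  · rw [e, Set.disjoint_left]
    exact fun y hy hn => hn (cp_sub z hy)
  · rw [e]
    intro y hy hyF
    exact Set.disjoint_left.mp (Pool.Agent.W363.JQ.frontier_compIn isOpen_F0 _) hyF hy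

theorem orb_mul (c z : ℂ) (p k : ℕ) : orb n c z (p * k) = (fun w => orb n c w p)^[k] z := by
  induction k with
  | zero => simp
  | succ k ih => rw [Function.iterate_succ_apply', ← ih, Nat.mul_succ, orb_add]

/-- No periodic component. -/
theorem Q.no_per (h : Q n c r) {z : ℂ} (hz : z ∈ F0 n c) {p : ℕ} (hp : 1 ≤ p)
    (hm : MapsTo (fun w => orb n c w p) (cp n c z) (cp n c z)) : False := by
  classical
  set U := cp n c z with hU
  set g : ℂ → ℂ := fun w => orb n c w p with hg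
  have hgd : Differentiable ℂ g := differentiable_orb p
  have hUo : IsOpen U := isOpen_cp z
  have hUK : U ⊆ K n c := (cp_sub z).trans F0_sub
  have hUc : IsConnected U := ⟨⟨z, mem_connectedComponentIn hz⟩,
    isPreconnected_connectedComponentIn⟩
  have hUb : Bornology.IsBounded U := (isCompact_K n c).isBounded.subset hUK
  have hUcc := conn_compl_cp h.hn h.c2 hz
  have hzU : z ∈ U := mem_connectedComponentIn hz
  have hmk : ∀ k, MapsTo (g^[k]) U U := fun k => hm.iterate k
  have hgk : ∀ (k : ℕ) (w : ℂ), g^[k] w = orb n c w (p * k) := fun k w => (orb_mul c w p k).symm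
  -- no fixed point in U
  have hnf : ∀ w ∈ U, g w ≠ w := by
    intro w hw hfix
    have hrep := h.repelling hp hfix
    obtain ⟨ε, hε, hball⟩ := Metric.isOpen_iff.mp hUo w hw
    have hder : ∀ k, HasDerivAt (fun u => orb n c u (p * k)) (P n c w (p * k)) w :=
      fun k => hasDerivAt_orb w (p * k)
    have hPk : ∀ k, P n c w (p * k) = (P n c w p) ^ k := by
      intro k
      induction k with
      | zero => simp
      | succ k ih =>
        rw [Nat.mul_succ, P_add, ih, pow_succ]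
        have h1 : orb n c w (p * k) = w := by
          rw [orb_mul]
          exact Function.iterate_fixed hfix k
        rw [h1]
    obtain ⟨k, hk⟩ := pow_unbounded_of_one_lt (3 / (ε / 2)) hrep
    have hC := Complex.norm_deriv_le_of_forall_mem_sphere_norm_le (c := w) (R := ε / 2) (C := 3)
      (f := fun u => orb n c u (p * k)) (half_pos hε) (differentiable_orb (p * k)).diffContOnCl
      (by
        intro u hu
        have hu' : u ∈ U := hball (by
          rw [mem_sphere] at hu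
          rw [mem_ball, hu]
          linarith)
        exact hUK hu' _)
    rw [(hder k).deriv, hPk, norm_pow] at hC
    linarith
  -- the Riemann map
  have hgzU : g z ∈ U := hm hzU
  obtain ⟨ψ, χ, hψ, hχ, hψ0, h1, h2⟩ := Pool.Agent.W538.JQ.rmt U (g z) hUo hUc hUb hUcc hgzU
  set x : ℕ → ℂ := fun k => g^[k] z with hx
  have hxU : ∀ k, x k ∈ U := fun k => hmk k hzU
  have hxs : ∀ k, x (k + 1) = g (x k) := fun k => Function.iterate_succ_apply' g k z
  -- Denjoy-Wolff
  set G : ℂ → ℂ := fun w => ψ (g (χ w)) with hG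
  have hGd : DifferentiableOn ℂ G (ball 0 1) := by
    have e1 : DifferentiableOn ℂ (fun w => g (χ w)) (ball 0 1) :=
      hgd.comp_differentiableOn hχ
    exact hψ.comp e1 (fun w hw => hm (h2 w hw).1)
  have hGm : MapsTo G (ball 0 1) (ball 0 1) := fun w hw => (h1 _ (hm (h2 w hw).1)).1
  have hGnf : ∀ w ∈ ball (0 : ℂ) 1, G w ≠ w := by
    intro w hw hfix
    have e1 := (h1 _ (hm (h2 w hw).1)).2
    change χ (G w) = g (χ w) at e1
    rw [hfix] at e1
    exact hnf _ (h2 w hw).1 e1.symm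
  obtain ⟨ξ, hξ, hDW⟩ := Pool.Agent.Helper321.DW.DW_ball hGd hGm hGnf
  have hGk : ∀ k, G^[k] (ψ z) = ψ (x k) := by
    intro k
    induction k with
    | zero => rfl
    | succ k ih =>
      rw [Function.iterate_succ_apply', ih, hxs]
      show ψ (g (χ (ψ (x k)))) = _
      rw [(h1 _ (hxU k)).2]
  have hψx : Tendsto (fun k => ψ (x k)) atTop (𝓝 ξ) := by
    have := hDW (ψ z) (h1 z hzU).1
    simpa only [hGk] using this
  -- limit points are outside U
  have hlim : ∀ (φ : ℕ → ℕ) (ζ : ℂ), StrictMono φ → Tendsto (fun j => x (φ j)) atTop (𝓝 ζ) →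
      ζ ∉ U := by
    intro φ ζ hφ hζ hζU
    have e1 : Tendsto (fun j => ψ (x (φ j))) atTop (𝓝 (ψ ζ)) :=
      ((hψ.differentiableAt (hUo.mem_nhds hζU)).continuousAt.tendsto).comp hζ
    have e2 := tendsto_nhds_unique e1 (hψx.comp hφ.tendsto_atTop)
    have e3 := (h1 ζ hζU).1
    rw [e2, mem_ball_zero_iff, hξ] at e3
    exact lt_irrefl _ e3
  -- Harnack
  set w0 := ψ z with hw0
  have hw0b : ‖w0‖ < 1 := mem_ball_zero_iff.mp (h1 z hzU).1
  set M : ℝ := 1 + 2 * ‖w0‖ / (1 - ‖w0‖) with hM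
  have hMpos : 0 < M := by
    have : 0 < 1 - ‖w0‖ := by linarith
    positivity
  have hharn : ∀ ζ, ζ ∉ U → ‖ζ‖ ≤ 3 → ∀ k,
      Real.log (7 / ‖x k - ζ‖) ≤ Real.log (7 / ‖x (k + 1) - ζ‖) * M := by
    intro ζ hζ hζ3 k
    have e1 : DifferentiableOn ℂ (fun w => g^[k] (χ w) - ζ) (ball 0 1) := by
      have e2 : DifferentiableOn ℂ (fun w => g^[k] (χ w)) (ball 0 1) := by
        have e3 : Differentiable ℂ (g^[k]) := by
          have : g^[k] = fun w => orb n c w (p * k) := funext fun w => hgk k w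
          rw [this]
          exact differentiable_orb _
        exact e3.comp_differentiableOn hχ
      exact e2.sub_const _
    have e2 := Pool.Agent.Helper233.BA.harnack (fun w => g^[k] (χ w) - ζ) 0 1 one_pos e1
      (fun w hw h0 => by
        apply hζ
        rw [← sub_eq_zero.mp h0]
        exact hmk k (h2 w hw).1) 7
      (fun w hw => by
        have e3 := K_sub (hUK (hmk k (h2 w hw).1))
        calc ‖g^[k] (χ w) - ζ‖ ≤ ‖g^[k] (χ w)‖ + ‖ζ‖ := norm_sub_le _ _
          _ < 7 := by linarith)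
      w0 (by simpa using hw0b)
    simp only [sub_zero] at e2
    have e4 : χ w0 = z := (h1 z hzU).2
    have e5 : χ 0 = g z := by
      rw [← hψ0]
      exact (h1 _ hgzU).2
    rw [e4, e5] at e2
    have e6 : g^[k] (g z) = x (k + 1) := (Function.iterate_succ_apply g k z).symm
    rw [e6] at e2
    exact e2
  -- limit points are fixed
  have hfix : ∀ (φ : ℕ → ℕ) (ζ : ℂ), StrictMono φ → Tendsto (fun j => x (φ j)) atTop (𝓝 ζ) →
      g ζ = ζ := by
    intro φ ζ hφ hζ
    have hζU := hlim φ ζ hφ hζ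
    have hζ3 : ‖ζ‖ ≤ 3 := le_of_tendsto hζ.norm (Eventually.of_forall fun j => K_sub (hUK (hxU _)))
    have e1 : Tendsto (fun j => x (φ j + 1)) atTop (𝓝 (g ζ)) := by
      simp only [hxs]
      exact (hgd.continuous.tendsto ζ).comp hζ
    have hne : ∀ k, 0 < ‖x k - ζ‖ := fun k => norm_pos_iff.mpr (fun h0 => hζU (by
      rw [← sub_eq_zero.mp h0]; exact hxU k))
    have e2 : Tendsto (fun j => ‖x (φ j) - ζ‖) atTop (𝓝[>] 0) := by
      rw [tendsto_nhdsWithin_iff]
      refine ⟨?_, Eventually.of_forall fun j => hne _⟩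
      have := (hζ.sub_const ζ).norm
      simpa using this
    have e3 : Tendsto (fun j => Real.log (7 / ‖x (φ j) - ζ‖)) atTop atTop := by
      apply Real.tendsto_log_atTop.comp
      have : Tendsto (fun j => 7 * (‖x (φ j) - ζ‖)⁻¹) atTop atTop :=
        (tendsto_inv_nhdsGT_zero.comp e2).const_mul_atTop (by norm_num)
      simpa [div_eq_mul_inv] using this
    have e4 : Tendsto (fun j => Real.log (7 / ‖x (φ j + 1) - ζ‖)) atTop atTop := by
      have e5 : Tendsto (fun j => Real.log (7 / ‖x (φ j) - ζ‖) / M) atTop atTop :=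
        e3.atTop_div_const hMpos
      refine tendsto_atTop_mono (fun j => ?_) e5
      rw [div_le_iff₀ hMpos]
      exact hharn ζ hζU hζ3 _
    have e6 : Tendsto (fun j => ‖x (φ j + 1) - ζ‖) atTop (𝓝 0) := by
      have e7 : ∀ j, ‖x (φ j + 1) - ζ‖ = 7 * Real.exp (-Real.log (7 / ‖x (φ j + 1) - ζ‖)) := by
        intro j
        rw [Real.exp_neg, Real.exp_log (div_pos (by norm_num) (hne _))]
        field_simp
      have e8 : Tendsto (fun j => 7 * Real.exp (-Real.log (7 / ‖x (φ j + 1) - ζ‖))) atTop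
          (𝓝 (7 * 0)) :=
        (Real.tendsto_exp_neg_atTop_nhds_zero.comp e4).const_mul 7
      rw [mul_zero] at e8
      refine e8.congr fun j => (e7 j).symm
    have e9 : Tendsto (fun j => x (φ j + 1)) atTop (𝓝 ζ) :=
      tendsto_iff_norm_sub_tendsto_zero.mpr e6
    exact tendsto_nhds_unique e1 e9
  -- a limit point
  obtain ⟨ζ, -, φ, hφ, hζ⟩ := (isCompact_K n c).tendsto_subseq (fun k => hUK (hxU k))
  have hζU := hlim φ ζ hφ hζ
  have hζf := hfix φ ζ hφ hζ
  have hrep := h.repelling hp hζf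
  have hder : HasDerivAt g (P n c ζ p) ζ := hasDerivAt_orb ζ p
  set lam : ℝ := (1 + ‖P n c ζ p‖) / 2 with hlam
  have hlam1 : 1 < lam := by rw [hlam]; linarith
  set L : ℝ := ‖P n c ζ p‖ + 1 with hL
  have hL1 : 1 ≤ L := by rw [hL]; linarith [norm_nonneg (P n c ζ p)]
  obtain ⟨ρ, hρ, hlow, hup⟩ : ∃ ρ > 0, (∀ y, ‖y - ζ‖ ≤ ρ → lam * ‖y - ζ‖ ≤ ‖g y - ζ‖) ∧
      (∀ y, ‖y - ζ‖ ≤ ρ → ‖g y - ζ‖ ≤ L * ‖y - ζ‖) := by
    have e1 := hder.isLittleO
    have hε : 0 < min 1 ((‖P n c ζ p‖ - 1) / 2) := lt_min one_pos (by linarith)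
    have e2 := (Asymptotics.isLittleO_iff.mp e1) hε
    obtain ⟨ρ, hρ, h3⟩ := Metric.eventually_nhds_iff.mp e2
    have h4 : ∀ y, ‖y - ζ‖ ≤ ρ / 2 →
        ‖g y - ζ - (y - ζ) * P n c ζ p‖ ≤ min 1 ((‖P n c ζ p‖ - 1) / 2) * ‖y - ζ‖ := by
      intro y hy
      have := h3 (y := y) (by rw [dist_eq_norm]; linarith)
      rw [hζf] at this
      simpa using this
    refine ⟨ρ / 2, half_pos hρ, fun y hy => ?_, fun y hy => ?_⟩
    · have h5 := h4 y hy
      have h6 : ‖(y - ζ) * P n c ζ p‖ ≤ ‖g y - ζ‖ + ‖g y - ζ - (y - ζ) * P n c ζ p‖ := by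
        have := norm_sub_norm_le ((y - ζ) * P n c ζ p) (g y - ζ)
        rw [norm_sub_rev ((y - ζ) * P n c ζ p) (g y - ζ)] at this
        linarith
      rw [norm_mul] at h6
      have h7 : min 1 ((‖P n c ζ p‖ - 1) / 2) * ‖y - ζ‖ ≤ ((‖P n c ζ p‖ - 1) / 2) * ‖y - ζ‖ :=
        mul_le_mul_of_nonneg_right (min_le_right _ _) (norm_nonneg _)
      have h8 : lam * ‖y - ζ‖ = ‖y - ζ‖ * ‖P n c ζ p‖ - ((‖P n c ζ p‖ - 1) / 2) * ‖y - ζ‖ := by
        rw [hlam]; ring
      rw [h8]
      linarith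
    · have h5 := h4 y hy
      have h6 : ‖g y - ζ‖ ≤ ‖(y - ζ) * P n c ζ p‖ + ‖g y - ζ - (y - ζ) * P n c ζ p‖ := by
        have := norm_add_le ((y - ζ) * P n c ζ p) (g y - ζ - (y - ζ) * P n c ζ p)
        rwa [add_sub_cancel] at this
      rw [norm_mul] at h6
      have h7 : min 1 ((‖P n c ζ p‖ - 1) / 2) * ‖y - ζ‖ ≤ 1 * ‖y - ζ‖ :=
        mul_le_mul_of_nonneg_right (min_le_left _ _) (norm_nonneg _)
      have h8 : L * ‖y - ζ‖ = ‖y - ζ‖ * ‖P n c ζ p‖ + 1 * ‖y - ζ‖ := by
        rw [hL]; ring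
      rw [h8]
      linarith
  have hLpos : 0 < L := by linarith
  have hne : ∀ k, 0 < ‖x k - ζ‖ := fun k => norm_pos_iff.mpr (fun h0 => hζU (by
      rw [← sub_eq_zero.mp h0]; exact hxU k))
  -- infinitely often in the annulus
  have hann : ∀ N, ∃ k ≥ N, ρ / L ≤ ‖x k - ζ‖ ∧ ‖x k - ζ‖ ≤ ρ := by
    intro N
    have e1 : ∀ᶠ j in atTop, ‖x (φ j) - ζ‖ < ρ / L := by
      have := (hζ.sub_const ζ).norm
      simp only [sub_self, norm_zero] at this
      exact this.eventually_lt_const (div_pos hρ hLpos)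
    obtain ⟨j, hj1, hj2⟩ := (e1.and (eventually_ge_atTop N)).exists
    have hNj : N ≤ φ j := hj2.trans (hφ.id_le j)
    -- first exit
    have hex : ∃ m, ρ < ‖x (φ j + m) - ζ‖ := by
      by_contra hcon
      push Not at hcon
      have e2 : ∀ m, lam ^ m * ‖x (φ j) - ζ‖ ≤ ‖x (φ j + m) - ζ‖ := by
        intro m
        induction m with
        | zero => simp
        | succ m ih =>
          have e3 := hlow _ (hcon m)
          rw [← hxs] at e3
          rw [← add_assoc, pow_succ]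
          have : (0 : ℝ) < lam := by linarith
          nlinarith
      obtain ⟨m, hm⟩ := pow_unbounded_of_one_lt (ρ / ‖x (φ j) - ζ‖) hlam1
      rw [div_lt_iff₀ (hne _)] at hm
      linarith [e2 m, hcon m]
    set m := Nat.find hex with hmdef
    have hm1 : ρ < ‖x (φ j + m) - ζ‖ := Nat.find_spec hex
    have hm0 : m ≠ 0 := by
      intro h0
      rw [h0, add_zero] at hm1
      have : ρ / L ≤ ρ := div_le_self hρ.le hL1
      linarith
    obtain ⟨m', hm'⟩ := Nat.exists_eq_succ_of_ne_zero hm0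
    have hm2 : ‖x (φ j + m') - ζ‖ ≤ ρ := by
      have := Nat.find_min hex (m := m') (by omega)
      exact not_lt.mp this
    refine ⟨φ j + m', by omega, ?_, hm2⟩
    have e3 := hup _ hm2
    rw [← hxs] at e3
    have e4 : φ j + m = φ j + m' + 1 := by omega
    rw [e4] at hm1
    rw [div_le_iff₀ hLpos]
    linarith
  choose k hk1 hk2 hk3 using hann
  have htop : Tendsto k atTop atTop := tendsto_atTop_mono hk1 tendsto_id
  obtain ⟨θ, hθ1, hθ2⟩ := Filter.strictMono_subseq_of_tendsto_atTop htop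
  obtain ⟨y, -, φ', hφ', hy⟩ := (isCompact_K n c).tendsto_subseq
    (fun j => hUK (hxU (k (θ j))))
  have hyf := hfix (fun j => k (θ (φ' j))) y (hθ2.comp hφ') hy
  have hy1 : ρ / L ≤ ‖y - ζ‖ := by
    refine ge_of_tendsto ((hy.sub_const ζ).norm) (Eventually.of_forall fun j => hk2 _)
  have hy2 : ‖y - ζ‖ ≤ ρ := by
    refine le_of_tendsto ((hy.sub_const ζ).norm) (Eventually.of_forall fun j => hk3 _)
  have e1 := hlow y hy2
  rw [hyf] at e1
  have e2 : 0 < ‖y - ζ‖ := (div_pos hρ hLpos).trans_le hy1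
  nlinarith

/-- The interior of the filled Julia set is empty. -/
theorem Q.no_int (h : Q n c r) : F0 n c = ∅ := by
  rw [Set.eq_empty_iff_forall_notMem]
  intro z hz
  obtain ⟨k, l, hkl, he⟩ := no_wander h.hn h.c2 hz
  have hzk : orb n c z k ∈ F0 n c := (orb_mem_F0 h.hn h.c2 z k).mpr hz
  refine h.no_per hzk (p := l - k) (by omega) ?_
  have h1 := mapsTo_orb_cp h.hn h.c2 hzk (l - k)
  rw [← orb_add, Nat.add_sub_cancel' hkl.le, ← he] at h1
  exact h1

theorem Q.dense (h : Q n c r) : Dense (K n c)ᶜ := by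
  have h1 := h.no_int
  rw [F0] at h1
  exact interior_eq_empty_iff_dense_compl.mp h1

end Pool.Agent.J4H16
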