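import Mathlib
import Pool.Agent.J4H16.Main
import Pool.Agent.J4H16.Per
import Pool.Agent.J4H16.Dim

/-!
# The theorem on gaps of the postcritical set
-/

set_option autoImplicit false
open Set Filter Topology Metric Complex MeasureTheory

namespace Pool.Agent.J4H16

open Pool.Agent.W746.LD

/-- A parameter of the Multibrot set which is not a limit of parameters with attracting cycles. -/
theorem exists_Q {n : ℕ} (hn : 2 ≤ n) {c : ℂ} (hc : c ∈ N62a1eb23.multibrotSet n)
    (hcl : c ∉ closure {c' : ℂ | ∃ m z, N62a1eb23.IsAttractingCycle (fun z => z ^ n + c') m z}) :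
    ∃ r, Q n c r := by
  have h1 : (closure {c' : ℂ | ∃ m z, N62a1eb23.IsAttractingCycle (fun z => z ^ n + c') m z})ᶜ ∈
      𝓝 c := isClosed_closure.isOpen_compl.mem_nhds hcl
  obtain ⟨r, hr, hsub⟩ := Metric.mem_nhds_iff.mp h1
  have hno : ∀ c' ∈ ball c r, ¬ ∃ m z, N62a1eb23.IsAttractingCycle (fun z => z ^ n + c') m z := by
    intro c' hc' hmz
    exact hsub hc' (subset_closure hmz)
  have hM := Pool.Agent.H713R2.AR.ball_subset hn hr hc hno
  exact ⟨r, hn, hr, fun a ha => (Pool.Agent.H712R2.mem_multibrot_iff hn a).mp (hM ha), hno⟩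

theorem isClosed_PC (n : ℕ) (c : ℂ) : IsClosed (PC n c) := isClosed_closure

theorem PC_nonempty (n : ℕ) (c : ℂ) : (PC n c).Nonempty := ⟨_, orb_mem_PC le_rfl⟩

/-- Gaps of large ratio at arbitrarily small scales, or small dimension. -/
theorem gap_thm {n : ℕ} (hn : 2 ≤ n) : ∃ L : ℝ, 1 < L ∧ ∀ c ∈ N62a1eb23.multibrotSet n,
    HypII n c → (HypI n c L ∨ dimH (PC n c) < ENNReal.ofReal (dexp L)) →
      c ∈ closure {c' : ℂ | ∃ m z, N62a1eb23.IsAttractingCycle (fun z => z ^ n + c') m z} := by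
  obtain ⟨C0, c0, Kc⟩ := exists_KC
  obtain ⟨θ, B, M, hC⟩ := exists_CC hn Kc
  have hc0 := Kc.pos
  set L : ℝ := max 19 (3 + 4 * C0 * (B * M) ^ n / c0) with hL
  have hL1 : 19 ≤ L := le_max_left _ _
  have hL2 : 4 * C0 * (B * M) ^ n ≤ c0 * (L - 3) := by
    have h1 : 3 + 4 * C0 * (B * M) ^ n / c0 ≤ L := le_max_right _ _
    have h2 : 4 * C0 * (B * M) ^ n / c0 ≤ L - 3 := by linarith
    rw [div_le_iff₀ hc0] at h2
    linarith
  refine ⟨L, by linarith, ?_⟩
  intro c hc H2 H
  by_contra hcl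
  obtain ⟨r, h⟩ := exists_Q hn hc hcl
  have H1 : HypI n c L := by
    rcases H with H | H
    · exact H
    · intro η0 hη0
      by_contra hcon
      push Not at hcon
      have h1 := dim_lower (K := L) (by linarith) (isClosed_PC n c) (PC_nonempty n c) hη0
        (fun η h2 h3 x hx => by
          obtain ⟨u, hu1, hu2, hu3⟩ := hcon η h2 h3 x hx
          exact ⟨u, hu1, hu2, hu3⟩)
      exact absurd h1 (not_le.mpr H)
  exact h.main h.dense Kc hC hL1 hL2 H1 H2

end Pool.Agent.J4H16
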