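import Mathlib
import Pool.Agent.J4H16.Cpl
import Pool.Agent.J4H16.Thm

/-!
# Small gaps of the critical orbit in large degree
-/

set_option autoImplicit false
open Set Filter Topology Metric Complex MeasureTheory

namespace Pool.Agent.J4H16

open Pool.Agent.W746.LD

variable {n : ℕ} {c : ℂ} {r : ℝ} {ν : ℂ → ℂ} {A : ℝ}

/-- A gap of the critical orbit gives an inner pair of discs. -/
theorem Q.inner_of_gap (h : Q n c r) {C0 c0 : ℝ} (Kc : KC C0 c0) {t ρ : ℝ} (ht : 1 < t)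
    (hρ : 0 < ρ) {k : ℕ} (hk : 1 / t ^ 2 ≤ 1 - (3 / 4) ^ k)
    (hC : 8 * C0 ^ (2 * k) * t ^ 2 < c0 * (t - 1) * t ^ n)
    (hgap : ∀ j, 1 ≤ j → ‖orb n c 0 j‖ ≤ ρ ∨ t ^ 4 * ρ ≤ ‖orb n c 0 j‖) :
    Inner n c (ball 0 (t ^ 4 * ρ)) (ball 0 (t ^ 2 * ρ)) := by
  intro m W hW hcW hinj himg z hzW hzD
  have hn := h.hn
  have hc0 := Kc.pos
  have hC0 := Kc.one_le
  have ht0 : 0 < t := by linarith
  rw [mem_ball, dist_zero_right] at hzD ⊢
  by_contra hcon
  push Not at hcon
  set R : ℝ := t ^ 4 * ρ with hR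
  set σ : ℝ := t ^ 2 * ρ with hσ
  set τ : ℝ := t * ρ with hτ
  have hR0 : 0 < R := by positivity
  have hσ0 : 0 < σ := by positivity
  have hρσ : ρ ≤ σ := by
    rw [hσ]
    have : 1 ≤ t ^ 2 := one_le_pow₀ ht.le
    nlinarith
  have hτR : τ ≤ R := by
    rw [hτ, hR]
    have : t ≤ t ^ 4 := le_self_pow₀ ht.le (by norm_num)
    gcongr
  have hσR : σ ≤ (1 - (3 / 4) ^ k) * R := by
    calc σ = 1 / t ^ 2 * R := by
          rw [hσ, hR]
          field_simp
      _ ≤ (1 - (3 / 4) ^ k) * R := by gcongr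
  have hσR' : σ < R := by
    have : (0 : ℝ) < (3 / 4) ^ k := by positivity
    nlinarith
  -- the inverse branch
  set F : ℂ → ℂ := fun z => orb n c z m with hF
  have hFd : DifferentiableOn ℂ F W := (differentiable_orb m).differentiableOn
  set g : ℂ → ℂ := Function.invFunOn F W with hg
  have hbr : Br n c m 0 R g := by
    constructor
    · intro w hw
      rw [← himg] at hw
      exact (Pool.Agent.Helper202.Univ.differentiableAt_inv hW hFd hinj hw).differentiableWithinAt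
    · intro w hw
      rw [← himg] at hw
      exact Pool.Agent.Helper202.Univ.invFunOn_right hw
  have hgl : ∀ y ∈ W, g (orb n c y m) = y := fun y hy =>
    Pool.Agent.Helper202.Univ.invFunOn_left hinj hy
  have hu : orb n c c m ∈ ball (0 : ℂ) R := by rw [← himg]; exact ⟨c, hcW, rfl⟩
  have hun : ‖orb n c c m‖ ≤ ρ := by
    have h1 := hgap (m + 1) (by omega)
    rw [orb_one_crit hn] at h1
    rw [mem_ball, dist_zero_right] at hu
    exact h1.resolve_right (by linarith)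
  have hv : orb n c (z ^ n + c) m = orb n c z (m + 1) := by
    rw [add_comm m 1, orb_add, orb_one]
  have h1 := KC.rad_lip2 Kc hR0 hbr.univ k hσR (x := orb n c (z ^ n + c) m)
    (u := orb n c c m) (by rw [hv]; exact hzD.le) (hun.trans hρσ)
  rw [hgl _ hzW, hgl _ hcW, add_sub_cancel_right, norm_pow] at h1
  set D : ℝ := ‖deriv g (orb n c c m)‖ with hD
  have h2 : σ ^ n ≤ 2 * σ * C0 ^ (2 * k) * D := by
    refine le_trans ?_ h1
    gcongr
  have hD0 : 0 < D := norm_pos_iff.mpr (hbr.deriv_ne hu)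
  have hkey : 4 * τ ^ n < c0 * (τ - ρ) * D := by
    have h3 : 8 * C0 ^ (2 * k) * t ^ 2 * ρ * (t ^ n * ρ ^ n) <
        c0 * (t - 1) * t ^ n * ρ * (t ^ n * ρ ^ n) := by gcongr
    have h4 : c0 * (t - 1) * ρ * σ ^ n ≤ c0 * (t - 1) * ρ * (2 * σ * C0 ^ (2 * k) * D) := by
      have : 0 < t - 1 := by linarith
      gcongr
    have h5 : 8 * C0 ^ (2 * k) * t ^ 2 * ρ * (t ^ n * ρ ^ n) =
        (2 * σ * C0 ^ (2 * k)) * (4 * τ ^ n) := by
      rw [hσ, hτ, mul_pow]
      ring
    have h6 : c0 * (t - 1) * t ^ n * ρ * (t ^ n * ρ ^ n) = c0 * (t - 1) * ρ * σ ^ n := by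
      rw [hσ, mul_pow, ← pow_mul, mul_comm 2 n, pow_mul]
      ring
    have h7 : c0 * (t - 1) * ρ * (2 * σ * C0 ^ (2 * k) * D) =
        (2 * σ * C0 ^ (2 * k)) * (c0 * (τ - ρ) * D) := by
      rw [hτ]
      ring
    rw [h5, h6] at h3
    rw [h7] at h4
    exact lt_of_mul_lt_mul_left (h3.trans_le h4) (by positivity)
  have hτρ : 0 < τ - ρ := by
    rw [hτ]
    nlinarith
  have hτ0 : 0 < τ := by positivity
  obtain ⟨y, hy⟩ := attr_per (n := n) (c := c) (N := m + 1) (by omega) (s := 4 * τ ^ n)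
    (by positivity) (by
      intro x hx
      have hsub : ball (orb n c c m) (τ - ρ) ⊆ ball 0 R := by
        intro u hu'
        rw [mem_ball, dist_eq_norm] at hu'
        rw [mem_ball, dist_zero_right]
        have := norm_add_le (u - orb n c c m) (orb n c c m)
        rw [sub_add_cancel] at this
        linarith
      obtain ⟨h3, -⟩ := hbr.cover Kc hτρ hsub (a := x) (by rw [hgl _ hcW]; linarith)
      rw [mem_ball, dist_eq_norm] at h3
      rw [norm_orb_succ_sub]
      have h4 : ‖orb n c x m‖ ≤ τ := by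
        have := norm_add_le (orb n c x m - orb n c c m) (orb n c c m)
        rw [sub_add_cancel] at this
        linarith
      calc ‖orb n c x m‖ ^ n ≤ τ ^ n := by gcongr
        _ = 4 * τ ^ n / 4 := by ring)
  exact h.na c (mem_ball_self h.hr) ⟨_, _, hy⟩

/-- The constants for the small gaps. -/
theorem exists_consts {C0 c0 : ℝ} (Kc : KC C0 c0) : ∃ C : ℕ, 1 ≤ C ∧ ∀ n : ℕ, 2 ≤ n →
    ∃ (t : ℝ) (k : ℕ), 1 < t ∧ t ^ 4 ≤ 1 + C * Real.log n / n ∧ 1 / t ^ 2 ≤ 1 - (3 / 4) ^ k ∧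
      8 * C0 ^ (2 * k) * t ^ 2 < c0 * (t - 1) * t ^ n := by
  have hc0 := Kc.pos
  have hC0 := Kc.one_le
  obtain ⟨E, hE⟩ := pow_unbounded_of_one_lt (C0 ^ 2) (by norm_num : (1 : ℝ) < 4 / 3)
  obtain ⟨B, hB⟩ := pow_unbounded_of_one_lt (32 * 3 ^ E * C0 ^ 2 / c0) (by norm_num : (1 : ℝ) < 2)
  rw [div_lt_iff₀ hc0] at hB
  set N : ℕ := E + 1 + 2 ^ B with hN
  have hN1 : 1 ≤ N := by
    have := Nat.one_le_two_pow (n := B)
    omega
  refine ⟨16 * (2 * N) ^ 4, by
    have : 0 < (2 * N) ^ 4 := by positivity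
    omega, ?_⟩
  intro n hn
  have hn0 : (0 : ℝ) < n := by exact_mod_cast (by omega : 0 < n)
  have hn2 : (2 : ℝ) ≤ n := by exact_mod_cast hn
  have hNr : (1 : ℝ) ≤ N := by exact_mod_cast hN1
  have hlog2 : (1 / 2 : ℝ) ≤ Real.log n := by
    have h1 : Real.log 2 ≤ Real.log n := Real.log_le_log (by norm_num) hn2
    have h2 := Real.log_two_gt_d9
    linarith
  have hlogn : Real.log n ≤ n := by
    have := Real.log_le_sub_one_of_pos hn0
    linarith
  set ε : ℝ := 2 * N * Real.log n / n with hε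
  have hε0 : 0 < ε := by positivity
  have hεn : 1 / (n : ℝ) ≤ ε := by
    rw [hε]
    gcongr
    nlinarith
  have hε4 : (1 + ε) ^ 4 ≤ 1 + (16 * (2 * N) ^ 4 : ℕ) * Real.log n / n := by
    have e1 : ((16 * (2 * N) ^ 4 : ℕ) : ℝ) * Real.log n / n = 16 * (2 * N) ^ 3 * ε := by
      rw [hε]
      push_cast
      ring
    rw [e1]
    have h2N : (1 : ℝ) ≤ (2 * N) ^ 3 := one_le_pow₀ (by linarith)
    rcases le_total ε 1 with h1 | h1
    · have h2 : (1 + ε) ^ 4 ≤ 1 + 15 * ε := by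
        have q2 : ε ^ 2 ≤ ε := by nlinarith
        have q3 : ε ^ 3 ≤ ε := by nlinarith
        have q4 : ε ^ 4 ≤ ε := by nlinarith
        nlinarith
      nlinarith
    · have h2 : ε ≤ 2 * N := by
        rw [hε, div_le_iff₀ hn0]
        gcongr
      have h3 : (1 + ε) ^ 4 ≤ (2 * ε) ^ 4 := by gcongr; linarith
      have h4 : (2 * ε) ^ 4 = 16 * ε ^ 3 * ε := by ring
      have h5 : 16 * ε ^ 3 * ε ≤ 16 * (2 * N) ^ 3 * ε := by gcongr
      linarith
  rcases lt_or_ge ε 1 with h1 | h1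
  · -- small `ε`
    classical
    have hex : ∃ k : ℕ, (3 / 4 : ℝ) ^ k ≤ ε / 2 := by
      obtain ⟨k, hk⟩ := exists_pow_lt_of_lt_one (by positivity : 0 < ε / 2)
        (by norm_num : (3 / 4 : ℝ) < 1)
      exact ⟨k, hk.le⟩
    set k := Nat.find hex with hk
    have hk1 : (3 / 4 : ℝ) ^ k ≤ ε / 2 := Nat.find_spec hex
    have hk0 : k ≠ 0 := by
      intro h0
      rw [h0, pow_zero] at hk1
      linarith
    obtain ⟨k', hk'⟩ : ∃ k', k = k' + 1 := ⟨k - 1, by omega⟩
    have hk2 : ε / 2 < (3 / 4 : ℝ) ^ k' := by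
      have := Nat.find_min hex (m := k') (by rw [← hk]; omega)
      exact not_le.mp this
    have hk3 : (4 / 3 : ℝ) ^ k ≤ 3 / ε := by
      rw [le_div_iff₀ hε0, hk', pow_succ]
      have h3 : (4 / 3 : ℝ) ^ k' * (3 / 4 : ℝ) ^ k' = 1 := by
        rw [← mul_pow]; norm_num
      have h4 : (0 : ℝ) < (4 / 3) ^ k' := by positivity
      nlinarith
    have hC : C0 ^ (2 * k) ≤ (3 / ε) ^ E := by
      rw [pow_mul]
      calc (C0 ^ 2) ^ k ≤ ((4 / 3 : ℝ) ^ E) ^ k := by gcongr
        _ = ((4 / 3 : ℝ) ^ k) ^ E := by rw [← pow_mul, ← pow_mul, mul_comm]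
        _ ≤ (3 / ε) ^ E := by gcongr
    refine ⟨1 + ε, k, by linarith, hε4, ?_, ?_⟩
    · rw [div_le_iff₀ (by positivity)]
      have h2 : (1 - ε / 2) * (1 + ε) ^ 2 ≤ (1 - (3 / 4) ^ k) * (1 + ε) ^ 2 := by gcongr
      have h3 : ε ^ 3 ≤ ε := by
        have : ε ^ 3 = ε * ε ^ 2 := by ring
        rw [this]
        have h4 : ε ^ 2 ≤ 1 := pow_le_one₀ hε0.le h1.le
        nlinarith
      have h4 : (1 - ε / 2) * (1 + ε) ^ 2 = 1 + 3 / 2 * ε - ε ^ 3 / 2 := by ring
      linarith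
    · rw [add_sub_cancel_left]
      have hpow : (n : ℝ) ^ N ≤ (1 + ε) ^ n := by
        have h3 : ε / 2 ≤ Real.log (1 + ε) := by
          have h4 := Real.one_sub_inv_le_log_of_pos (by linarith : 0 < 1 + ε)
          have h5 : ε / 2 ≤ 1 - (1 + ε)⁻¹ := by
            rw [le_sub_iff_add_le, ← le_sub_iff_add_le', inv_le_iff_one_le_mul₀ (by linarith)]
            nlinarith
          linarith
        rw [← Real.log_le_log_iff (by positivity) (by positivity), Real.log_pow, Real.log_pow]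
        have h6 : (N : ℝ) * Real.log n = n * (ε / 2) := by
          rw [hε]
          field_simp
        rw [h6]
        gcongr
      have hεE : (1 / (n : ℝ)) ^ (E + 1) ≤ ε ^ (E + 1) := by gcongr
      have hnB : (2 : ℝ) ^ B ≤ (n : ℝ) ^ (2 ^ B) := by
        calc (2 : ℝ) ^ B ≤ 2 ^ (2 ^ B) := pow_le_pow_right₀ (by norm_num) Nat.lt_two_pow_self.le
          _ ≤ (n : ℝ) ^ (2 ^ B) := by gcongr
      have hmain : 32 * 3 ^ E < c0 * (ε ^ (E + 1) * (1 + ε) ^ n) := by
        have h3 : (2 : ℝ) ^ B ≤ ε ^ (E + 1) * (1 + ε) ^ n := by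
          calc (2 : ℝ) ^ B ≤ (n : ℝ) ^ (2 ^ B) := hnB
            _ = (1 / (n : ℝ)) ^ (E + 1) * (n : ℝ) ^ N := by
                rw [hN, pow_add (n : ℝ) (E + 1), ← mul_assoc, ← mul_pow]
                rw [one_div, inv_mul_cancel₀ hn0.ne', one_pow, one_mul]
            _ ≤ ε ^ (E + 1) * (1 + ε) ^ n := by gcongr
        have h4 : 32 * 3 ^ E ≤ 32 * 3 ^ E * C0 ^ 2 := by
          have : 1 ≤ C0 ^ 2 := one_le_pow₀ hC0
          have h5 : (0 : ℝ) < 32 * 3 ^ E := by positivity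
          nlinarith
        have h5 : 2 ^ B * c0 ≤ c0 * (ε ^ (E + 1) * (1 + ε) ^ n) := by
          rw [mul_comm]
          gcongr
        linarith
      calc 8 * C0 ^ (2 * k) * (1 + ε) ^ 2 ≤ 8 * (3 / ε) ^ E * 4 := by
            gcongr
            nlinarith
        _ = 32 * 3 ^ E / ε ^ E := by rw [div_pow]; ring
        _ < c0 * (ε ^ (E + 1) * (1 + ε) ^ n) / ε ^ E := by gcongr
        _ = c0 * ε * (1 + ε) ^ n := by
            field_simp
            ring
  · -- large `ε`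
    refine ⟨1 + ε, 1, by linarith, hε4, ?_, ?_⟩
    · rw [div_le_iff₀ (by positivity)]
      nlinarith
    · rw [add_sub_cancel_left]
      have h2 : (n : ℝ) ≤ 2 * 2 ^ (n - 2) := by
        have h3 : ∀ m : ℕ, ((m + 2 : ℕ) : ℝ) ≤ 2 * 2 ^ m := by
          intro m
          induction m with
          | zero => norm_num
          | succ m ih =>
            push_cast at ih ⊢
            rw [pow_succ]
            have : (1 : ℝ) ≤ 2 ^ m := one_le_pow₀ (by norm_num)
            linarith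
        have := h3 (n - 2)
        rwa [Nat.sub_add_cancel hn] at this
      have h3 : (N : ℝ) / 2 ≤ ε * (1 + ε) ^ (n - 2) := by
        have h4 : (2 : ℝ) ^ (n - 2) ≤ (1 + ε) ^ (n - 2) := by
          gcongr
          linarith
        have h5 : ε * n = 2 * N * Real.log n := by
          rw [hε]
          field_simp
        have h6 : (N : ℝ) ≤ ε * n := by
          rw [h5]
          nlinarith
        have h7 : ε * n ≤ ε * (2 * (1 + ε) ^ (n - 2)) := by
          gcongr
          linarith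
        linarith
      have h8 : (2 : ℝ) ^ B ≤ N := by
        rw [hN]
        push_cast
        have : (0 : ℝ) ≤ E := Nat.cast_nonneg E
        linarith
      have h9 : 8 * C0 ^ (2 * 1) < c0 * (ε * (1 + ε) ^ (n - 2)) := by
        have h10 : 32 * C0 ^ 2 ≤ 32 * 3 ^ E * C0 ^ 2 := by
          have : (1 : ℝ) ≤ 3 ^ E := one_le_pow₀ (by norm_num)
          have h5 : (0 : ℝ) < 32 * C0 ^ 2 := by positivity
          nlinarith
        have h11 : c0 * (N / 2) ≤ c0 * (ε * (1 + ε) ^ (n - 2)) := by gcongr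
        have h12 : (2 : ℝ) ^ B * c0 ≤ N * c0 := by gcongr
        rw [mul_one]
        have : 0 < C0 ^ 2 := by positivity
        linarith
      have h13 : (1 + ε) ^ n = (1 + ε) ^ (n - 2) * (1 + ε) ^ 2 := by
        rw [← pow_add]
        congr 1
        omega
      rw [h13]
      calc 8 * C0 ^ (2 * 1) * (1 + ε) ^ 2 < c0 * (ε * (1 + ε) ^ (n - 2)) * (1 + ε) ^ 2 := by
            gcongr
        _ = _ := by ring

end Pool.Agent.J4H16
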