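import Mathlib
import Pool.Agent.J4H16.Gp

/-!
# Gaps of the postcritical set, with explicit constants
-/

set_option autoImplicit false
open Set Filter Topology Metric Complex MeasureTheory

namespace Pool.Agent.J4H16

open Pool.Agent.W746.LD

variable {n : ℕ} {c : ℂ} {r : ℝ}

/-- the critical orbit has gaps of ratio `L` around the critical point at arbitrarily small
scales -/
def Hyp0 (n : ℕ) (c : ℂ) (L : ℝ) : Prop :=
  ∀ ρ0 : ℝ, 0 < ρ0 → ∃ ρ : ℝ, 0 < ρ ∧ ρ < ρ0 ∧ ∀ j, 1 ≤ j →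
    ¬ (ρ < ‖orb n c 0 j‖ ∧ ‖orb n c 0 j‖ < L * ρ)

theorem Hyp0.mono {L L' : ℝ} (h : Hyp0 n c L) (hL : L' ≤ L) : Hyp0 n c L' := by
  intro ρ0 hρ0
  obtain ⟨ρ, h1, h2, h3⟩ := h ρ0 hρ0
  refine ⟨ρ, h1, h2, fun j hj hcon => h3 j hj ⟨hcon.1, hcon.2.trans_le ?_⟩⟩
  gcongr

theorem HypI.mono {L L' : ℝ} (h : HypI n c L) (hL : L' ≤ L) : HypI n c L' := by
  intro η0 hη0
  obtain ⟨η, h1, h2, x, hx, h3⟩ := h η0 hη0
  refine ⟨η, h1, h2, x, hx, fun u hu hcon => h3 u hu ⟨hcon.1, hcon.2.trans_le ?_⟩⟩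
  gcongr

theorem univ_mul {R : ℝ} (hR : 0 < R) : Univ (fun ζ : ℂ => R * ζ) 0 1 := by
  refine ⟨by fun_prop, ?_⟩
  intro x _ y _ hxy
  have : (R : ℂ) ≠ 0 := by exact_mod_cast hR.ne'
  exact mul_left_cancel₀ this hxy

theorem image_mul {R : ℝ} (hR : 0 < R) (s : ℝ) :
    (fun ζ : ℂ => R * ζ) '' ball 0 s = ball 0 (R * s) := by
  have hRC : (R : ℂ) ≠ 0 := by exact_mod_cast hR.ne'
  ext w
  constructor
  · rintro ⟨ζ, hζ, rfl⟩
    rw [mem_ball, dist_zero_right] at hζ ⊢
    simp only [norm_mul, Complex.norm_real, Real.norm_of_nonneg hR.le]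
    gcongr
  · intro hw
    rw [mem_ball, dist_zero_right] at hw
    refine ⟨w / R, ?_, by field_simp⟩
    rw [mem_ball, dist_zero_right, norm_div, Complex.norm_real, Real.norm_of_nonneg hR.le,
      div_lt_iff₀ hR]
    linarith

/-- Degree at least three: small gaps. -/
theorem Q.no_gap3 (h : Q n c r) (hn3 : 3 ≤ n) (H : HypII n c) {C0 c0 : ℝ}
    (Kc : KC C0 c0) {t : ℝ} {k : ℕ} (ht : 1 < t) (hk : 1 / t ^ 2 ≤ 1 - (3 / 4) ^ k)
    (hC : 8 * C0 ^ (2 * k) * t ^ 2 < c0 * (t - 1) * t ^ n) (H0 : Hyp0 n c (t ^ 4)) : False := by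
  have ht0 : 0 < t := by linarith
  have ht2 : 1 < t ^ 2 := one_lt_pow₀ ht (by norm_num)
  refine h.inner3 h.dense hn3 H (θ' := 1 / t ^ 2) (by positivity)
    (by rw [div_lt_one (by positivity)]; exact ht2) ?_
  intro ε hε
  obtain ⟨ρ, hρ, hρ1, hgap⟩ := H0 (ε / t ^ 4) (by positivity)
  rw [lt_div_iff₀ (by positivity)] at hρ1
  have hR : 0 < t ^ 4 * ρ := by positivity
  refine ⟨fun ζ => ((t ^ 4 * ρ : ℝ) : ℂ) * ζ, ball 0 (t ^ 2 * ρ), univ_mul hR, by simp, ?_, ?_, ?_,
    ?_⟩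
  · have : deriv (fun ζ : ℂ => ((t ^ 4 * ρ : ℝ) : ℂ) * ζ) 0 = ((t ^ 4 * ρ : ℝ) : ℂ) := by
      rw [deriv_const_mul _ differentiableAt_id]
      simp
    rw [this, Complex.norm_real, Real.norm_of_nonneg hR.le]
    linarith
  · exact ball_mem_nhds 0 (by positivity)
  · rw [image_mul hR]
    apply ball_subset_ball
    apply le_of_eq
    field_simp
  · rw [image_mul hR, mul_one]
    apply h.inner_of_gap Kc ht hρ hk hC
    intro j hj
    by_contra hcon
    push Not at hcon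
    exact hgap j hj hcon

/-- The critical point is in the postcritical set. -/
theorem Q.zero_PC (h : Q n c r) (H : HypII n c) : (0 : ℂ) ∈ PC n c := by
  obtain ⟨C0, c0, Kc⟩ := exists_KC
  have hn := h.hn
  have hd := h.dense
  obtain ⟨ν, A, hI⟩ := h.exists_inv hd
  obtain ⟨x, hx⟩ := hI.exists_good hn
  by_contra h0
  have h1 : (PC n c)ᶜ ∈ 𝓝 (0 : ℂ) := (isClosed_PC n c).isOpen_compl.mem_nhds h0
  obtain ⟨δ, hδ, hsub⟩ := Metric.mem_nhds_iff.mp h1
  obtain ⟨N, hN⟩ := hx.conical h hd Kc hI (ρ := δ / 2) (by positivity)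
  obtain ⟨i, hi1, hi2⟩ := hx.zero_acc' h hd Kc hI H (δ := δ / 2) (by positivity) N
  obtain ⟨G', hG', hG'x⟩ := exists_br' (p := 0) (ρ := δ) hn (x := x) (k := i)
    (by rw [mem_ball, dist_zero_right]; linarith) (by
      intro j hj _ hmem
      exact hsub hmem (orb_mem_PC hj))
  refine hN i hi1 G' (hG'.mono ?_) hG'x
  intro u hu
  rw [mem_ball, dist_eq_norm] at hu
  rw [mem_ball, dist_zero_right]
  have := norm_add_le (u - orb n c x i) (orb n c x i)
  rw [sub_add_cancel] at this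
  linarith

/-- Gaps of the critical orbit around the critical point are gaps of the postcritical set. -/
theorem Q.hypI_of_hyp0 (h : Q n c r) (H : HypII n c) {L : ℝ} (H0 : Hyp0 n c L) : HypI n c L := by
  intro η0 hη0
  obtain ⟨ρ, hρ, hρ1, hgap⟩ := H0 η0 hη0
  refine ⟨ρ, hρ, hρ1, 0, h.zero_PC H, ?_⟩
  intro u hu hcon
  rw [sub_zero] at hcon
  have hopen : IsOpen {w : ℂ | ρ < ‖w‖ ∧ ‖w‖ < L * ρ} :=
    (isOpen_lt continuous_const continuous_norm).inter
      (isOpen_lt continuous_norm continuous_const)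
  obtain ⟨w, hw1, ⟨j, hj, rfl⟩⟩ := mem_closure_iff.mp hu _ hopen hcon
  exact hgap j hj hw1

/-- Small dimension gives gaps. -/
theorem hypI_of_dim {L : ℝ} (hL : 1 ≤ L) (H : dimH (PC n c) < ENNReal.ofReal (dexp L)) :
    HypI n c L := by
  intro η0 hη0
  by_contra hcon
  push Not at hcon
  have h1 := dim_lower (K := L) hL (isClosed_PC n c) (PC_nonempty n c) hη0
    (fun η h2 h3 x hx => by
      obtain ⟨u, hu1, hu2, hu3⟩ := hcon η h2 h3 x hx
      exact ⟨u, hu1, hu2, hu3⟩)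
  exact absurd h1 (not_le.mpr H)

/-- Degree at least three: gaps of ratio a power of the degree anywhere in the postcritical set. -/
theorem exists_L3 : ∃ C C' : ℕ, 1 ≤ C ∧ ∀ n : ℕ, 3 ≤ n → ∀ (c : ℂ) (r : ℝ), Q n c r → HypII n c →
    (Hyp0 n c (1 + C * Real.log n / n) → False) ∧ (HypI n c ((n : ℝ) ^ C') → False) := by
  obtain ⟨C0, c0, Kc⟩ := exists_KC
  have hc0 := Kc.pos
  have hC0 := Kc.one_le
  obtain ⟨C, hC1, hC⟩ := exists_consts Kc
  obtain ⟨B, hB⟩ := pow_unbounded_of_one_lt (19 + 4 * C0 / c0) (by norm_num : (1 : ℝ) < 2)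
  refine ⟨C, B + C, hC1, ?_⟩
  intro n hn3 c r h H
  have hn : 2 ≤ n := by omega
  have hn0 : (0 : ℝ) < n := by exact_mod_cast (by omega : 0 < n)
  have hn2 : (2 : ℝ) ≤ n := by exact_mod_cast hn
  have hlog0 : 0 ≤ Real.log n := Real.log_nonneg (by linarith)
  have hmain : Hyp0 n c (1 + C * Real.log n / n) → False := by
    intro H0
    obtain ⟨t, k, ht, ht4, hk, hCC⟩ := hC n hn
    exact h.no_gap3 hn3 H Kc ht hk hCC (H0.mono ht4)
  refine ⟨hmain, fun H1 => hmain ?_⟩
  set K3 : ℝ := 1 + C * Real.log n / n with hK3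
  have hK31 : 1 ≤ K3 := by
    have : 0 ≤ C * Real.log n / n := by positivity
    linarith
  have hK3n : K3 ^ n ≤ (n : ℝ) ^ C := by
    have h1 : K3 ≤ Real.exp (C * Real.log n / n) := by
      have := Real.add_one_le_exp (C * Real.log n / n)
      linarith
    calc K3 ^ n ≤ Real.exp (C * Real.log n / n) ^ n := by gcongr
      _ = Real.exp (C * Real.log n) := by
          rw [← Real.exp_nat_mul]
          congr 1
          field_simp
      _ = (n : ℝ) ^ C := by
          rw [mul_comm, Real.exp_mul, Real.exp_log hn0, Real.rpow_natCast]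
  have hnB : (2 : ℝ) ^ B ≤ (n : ℝ) ^ B := by gcongr
  have hnC : (1 : ℝ) ≤ (n : ℝ) ^ C := one_le_pow₀ (by linarith)
  have hnBC : (n : ℝ) ^ (B + C) = (n : ℝ) ^ B * (n : ℝ) ^ C := pow_add _ _ _
  have hq : 0 < 4 * C0 / c0 := by positivity
  have hL1 : 19 ≤ (n : ℝ) ^ (B + C) := by
    rw [hnBC]
    nlinarith
  have hL2 : 4 * C0 * K3 ^ n ≤ c0 * ((n : ℝ) ^ (B + C) - 3) := by
    have h1 : (19 + 4 * C0 / c0) * (n : ℝ) ^ C ≤ (n : ℝ) ^ (B + C) := by
      rw [hnBC]
      gcongr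
      linarith
    have h2 : c0 * ((19 + 4 * C0 / c0) * (n : ℝ) ^ C - 3) ≤ c0 * ((n : ℝ) ^ (B + C) - 3) := by
      gcongr
    have h3 : c0 * ((19 + 4 * C0 / c0) * (n : ℝ) ^ C - 3) =
        c0 * (19 * (n : ℝ) ^ C - 3) + 4 * C0 * (n : ℝ) ^ C := by
      field_simp
      ring
    have h4 : 0 ≤ c0 * (19 * (n : ℝ) ^ C - 3) := by
      apply mul_nonneg hc0.le
      linarith
    have h5 : 4 * C0 * K3 ^ n ≤ 4 * C0 * (n : ℝ) ^ C := by gcongr
    linarith
  intro ρ0 hρ0
  obtain ⟨R1, hR1, hR1ρ, hgap⟩ := h.gap_zero h.dense Kc hK31 hL1 hL2 H1 hρ0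
  refine ⟨R1, hR1, by nlinarith, ?_⟩
  intro j _ hcon
  rcases hgap j with h1 | h1 <;> linarith [hcon.1, hcon.2]

/-- All degrees. -/
theorem uni_thm : ∃ C : ℕ, 1 ≤ C ∧ ∀ n : ℕ, 2 ≤ n → ∀ c ∈ N62a1eb23.multibrotSet n, HypII n c →
    (Hyp0 n c (1 + C * Real.log n / n) ∨ HypI n c ((n : ℝ) ^ C) ∨
      dimH (PC n c) < ENNReal.ofReal (1 / (C * Real.log n))) →
      c ∈ closure {c' : ℂ | ∃ m z, N62a1eb23.IsAttractingCycle (fun z => z ^ n + c') m z} := by
  obtain ⟨C, C', hC1, hL3⟩ := exists_L3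
  obtain ⟨L, hL, hL2⟩ := gap_thm (n := 2) le_rfl
  obtain ⟨B, hB⟩ := exists_nat_ge (4 * L)
  have hlog2 := Real.log_two_gt_d9
  have hlog2' := Real.log_two_lt_d9
  set N : ℕ := C + C' + 2 * (C' + B + 3) + B with hN
  have hBN : (B : ℝ) ≤ N := by exact_mod_cast (by omega : B ≤ N)
  have hCN : (C : ℝ) ≤ N := by exact_mod_cast (by omega : C ≤ N)
  refine ⟨N, by omega, ?_⟩
  intro n hn c hc H2 H
  by_contra hcl
  obtain ⟨r, h⟩ := exists_Q hn hc hcl
  have hn0 : (0 : ℝ) < n := by exact_mod_cast (by omega : 0 < n)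
  have hn2 : (2 : ℝ) ≤ n := by exact_mod_cast hn
  have hlogn : Real.log 2 ≤ Real.log n := Real.log_le_log (by norm_num) hn2
  have hN0 : (0 : ℝ) < N := by
    have : 0 < N := by omega
    exact_mod_cast this
  have hdim : ∀ L' : ℝ, 1 ≤ L' → Real.log (8 * L') ≤ (C' + B + 3 : ℕ) * Real.log n →
      ENNReal.ofReal (1 / (N * Real.log n)) ≤ ENNReal.ofReal (dexp L') := by
    intro L' hL' h1
    apply ENNReal.ofReal_le_ofReal
    unfold dexp
    have h8 : 0 < Real.log (8 * L') := Real.log_pos (by linarith)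
    have hlogp : 0 < Real.log n := by linarith
    rw [div_le_div_iff₀ (by positivity) h8, one_mul]
    have h2 : (2 : ℝ) * (C' + B + 3 : ℕ) ≤ N := by
      have : 2 * (C' + B + 3) ≤ N := by omega
      exact_mod_cast this
    have hlog0 : 0 < Real.log n := by linarith
    calc Real.log (8 * L') ≤ (C' + B + 3 : ℕ) * Real.log n := h1
      _ ≤ Real.log 2 * (2 * (C' + B + 3 : ℕ)) * Real.log n := by
          have h3 : (0 : ℝ) ≤ (C' + B + 3 : ℕ) * Real.log n := by positivity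
          nlinarith
      _ ≤ Real.log 2 * N * Real.log n := by gcongr
      _ = Real.log 2 * (N * Real.log n) := by ring
  rcases Nat.lt_or_ge n 3 with hn3 | hn3
  · -- degree two
    have hn2' : n = 2 := by omega
    subst hn2'
    have key : HypI 2 c L := by
      rcases H with H | H | H
      · apply HypI.mono (h.hypI_of_hyp0 H2 H)
        have h1 : (4 : ℝ) * L * Real.log 2 / 2 ≤ N * Real.log 2 / 2 := by
          gcongr
          linarith
        have h2 : L ≤ 4 * L * Real.log 2 / 2 := by nlinarith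
        push_cast
        linarith
      · apply H.mono
        have h1 : (N : ℝ) ≤ 2 ^ N := by exact_mod_cast Nat.lt_two_pow_self.le
        push_cast
        linarith
      · apply hypI_of_dim hL.le
        refine H.trans_le (hdim L hL.le ?_)
        have h1 : Real.log (8 * L) ≤ Real.log ((2 : ℝ) ^ (C' + B + 3)) := by
          apply Real.log_le_log (by linarith)
          rw [pow_add]
          have h2 : L ≤ (2 : ℝ) ^ (C' + B) := by
            have h3 : (B : ℝ) ≤ 2 ^ B := by exact_mod_cast Nat.lt_two_pow_self.le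
            have h4 : (2 : ℝ) ^ B ≤ 2 ^ (C' + B) := pow_le_pow_right₀ (by norm_num) (by omega)
            linarith
          norm_num
          linarith
        rw [Real.log_pow] at h1
        exact_mod_cast h1
    exact hcl (hL2 c hc H2 (Or.inl key))
  · obtain ⟨h1, h2⟩ := hL3 n hn3 c r h H2
    rcases H with H | H | H
    · apply h1
      apply H.mono
      have hlog0 : 0 ≤ Real.log n := by linarith
      gcongr
    · apply h2
      apply H.mono
      apply pow_le_pow_right₀ (by linarith)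
      omega
    · apply h2
      have hnC : (1 : ℝ) ≤ (n : ℝ) ^ C' := one_le_pow₀ (by linarith)
      apply hypI_of_dim hnC
      refine H.trans_le (hdim _ hnC ?_)
      rw [Real.log_mul (by norm_num) (by positivity), Real.log_pow]
      have h3 : Real.log 8 ≤ 3 * Real.log n := by
        have : (8 : ℝ) = 2 ^ 3 := by norm_num
        rw [this, Real.log_pow]
        push_cast
        gcongr
      have hlog0 : 0 ≤ Real.log n := by linarith
      push_cast
      have : 0 ≤ (B : ℝ) * Real.log n := by positivity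
      nlinarith

end Pool.Agent.J4H16
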