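import Mathlib
import Pool.Agent.J4H16.Uni

/-!
# Moebius maps of the disc and the root transform
-/

set_option autoImplicit false
open Set Filter Topology Metric Complex MeasureTheory
open scoped ComplexConjugate

namespace Pool.Agent.J4H16

open Pool.Agent.W746.LD

/-- The Moebius map of the disc with value `a` at `0`. -/
noncomputable def mob (a ζ : ℂ) : ℂ := (ζ + a) / (1 + conj a * ζ)

theorem mob_zero (a : ℂ) : mob a 0 = a := by simp [mob]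

theorem mob_den {a ζ : ℂ} (ha : ‖a‖ < 1) (hζ : ‖ζ‖ < 1) : 1 + conj a * ζ ≠ 0 := by
  intro h
  have h1 : conj a * ζ = -1 := by linear_combination h
  have h2 : ‖conj a * ζ‖ = 1 := by rw [h1]; simp
  rw [norm_mul, RCLike.norm_conj] at h2
  nlinarith [norm_nonneg a, norm_nonneg ζ]

theorem mob_id (a ζ : ℂ) : ‖1 + conj a * ζ‖ ^ 2 - ‖ζ + a‖ ^ 2 = (1 - ‖a‖ ^ 2) * (1 - ‖ζ‖ ^ 2) := by
  rw [← Complex.normSq_eq_norm_sq, ← Complex.normSq_eq_norm_sq, ← Complex.normSq_eq_norm_sq,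
    ← Complex.normSq_eq_norm_sq]
  simp only [Complex.normSq_apply, Complex.add_re, Complex.add_im, Complex.mul_re, Complex.mul_im,
    Complex.conj_re, Complex.conj_im, Complex.one_re, Complex.one_im]
  ring

theorem mob_norm {a ζ : ℂ} (ha : ‖a‖ < 1) (hζ : ‖ζ‖ < 1) :
    (1 - ‖mob a ζ‖ ^ 2) * ‖1 + conj a * ζ‖ ^ 2 = (1 - ‖a‖ ^ 2) * (1 - ‖ζ‖ ^ 2) := by
  have h1 : ‖1 + conj a * ζ‖ ≠ 0 := norm_ne_zero_iff.mpr (mob_den ha hζ)
  unfold mob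
  rw [norm_div, div_pow, sub_mul, div_mul_cancel₀ _ (pow_ne_zero 2 h1), one_mul, mob_id]

theorem mob_lt {a ζ : ℂ} (ha : ‖a‖ < 1) (hζ : ‖ζ‖ < 1) : ‖mob a ζ‖ < 1 := by
  have h1 := mob_norm ha hζ
  have h2 : 0 < ‖1 + conj a * ζ‖ := norm_pos_iff.mpr (mob_den ha hζ)
  have h3 : 0 < (1 - ‖a‖ ^ 2) * (1 - ‖ζ‖ ^ 2) := by
    apply mul_pos <;> nlinarith [norm_nonneg a, norm_nonneg ζ]
  rw [← h1] at h3
  have h4 : 0 < 1 - ‖mob a ζ‖ ^ 2 := pos_of_mul_pos_left h3 (by positivity)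
  nlinarith [norm_nonneg (mob a ζ)]

theorem mob_inv {a ζ : ℂ} (ha : ‖a‖ < 1) (hζ : ‖ζ‖ < 1) : mob (-a) (mob a ζ) = ζ := by
  have h1 := mob_den ha hζ
  have h2 : (1 : ℂ) - conj a * a ≠ 0 := by
    have := mob_den (a := -a) (ζ := a) (by rwa [norm_neg]) ha
    rw [map_neg] at this
    intro h0
    apply this
    linear_combination h0
  have h3 : 1 + conj (-a) * mob a ζ = (1 - conj a * a) / (1 + conj a * ζ) := by
    unfold mob
    rw [map_neg, eq_div_iff h1, add_mul, mul_assoc (-conj a), div_mul_cancel₀ _ h1]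
    ring
  have h4 : mob a ζ + -a = ζ * (1 - conj a * a) / (1 + conj a * ζ) := by
    unfold mob
    rw [eq_div_iff h1, add_mul, div_mul_cancel₀ _ h1]
    ring
  have h5 : mob (-a) (mob a ζ) = (mob a ζ + -a) / (1 + conj (-a) * mob a ζ) := rfl
  rw [h5, h3, h4, div_div_div_cancel_right₀ h1, mul_div_assoc, div_self h2, mul_one]

theorem mob_univ {a : ℂ} (ha : ‖a‖ < 1) : Univ (mob a) 0 1 := by
  constructor
  · intro ζ hζ
    rw [mem_ball, dist_zero_right] at hζ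
    apply DifferentiableAt.differentiableWithinAt
    unfold mob
    exact (by fun_prop : DifferentiableAt ℂ (fun ζ : ℂ => ζ + a) ζ).div (by fun_prop)
      (mob_den ha hζ)
  · intro x hx y hy hxy
    rw [mem_ball, dist_zero_right] at hx hy
    rw [← mob_inv ha hx, hxy, mob_inv ha hy]

theorem mob_image {a : ℂ} (ha : ‖a‖ < 1) : mob a '' ball 0 1 = ball 0 1 := by
  ext w
  constructor
  · rintro ⟨ζ, hζ, rfl⟩
    rw [mem_ball, dist_zero_right] at hζ ⊢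
    exact mob_lt ha hζ
  · intro hw
    rw [mem_ball, dist_zero_right] at hw
    have ha' : ‖-a‖ < 1 := by rwa [norm_neg]
    refine ⟨mob (-a) w, ?_, ?_⟩
    · rw [mem_ball, dist_zero_right]
      exact mob_lt ha' hw
    · have := mob_inv ha' hw
      rwa [neg_neg] at this

theorem mob_deriv {a : ℂ} (ha : ‖a‖ < 1) : deriv (mob a) 0 = 1 - conj a * a := by
  have h1 : HasDerivAt (fun ζ : ℂ => ζ + a) 1 0 := (hasDerivAt_id 0).add_const a
  have h2 : HasDerivAt (fun ζ : ℂ => 1 + conj a * ζ) (conj a) 0 := by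
    have := ((hasDerivAt_id (0 : ℂ)).const_mul (conj a)).const_add 1
    simpa using this
  have h3 := h1.div h2 (mob_den ha (by simp))
  have h4 : mob a = (fun ζ : ℂ => ζ + a) / fun ζ : ℂ => 1 + conj a * ζ := rfl
  rw [h4, h3.deriv]
  simp
  ring

/-- The preimage of a smaller disc under a Moebius map. -/
theorem mob_small {a ζ : ℂ} {θ : ℝ} (hθ : θ < 1) (ha : ‖a‖ ≤ θ) (hζ : ‖ζ‖ < 1)
    (h : ‖mob a ζ‖ ≤ θ) : ‖ζ‖ ^ 2 ≤ 1 - (1 - θ ^ 2) ^ 2 / 4 := by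
  have ha1 : ‖a‖ < 1 := by linarith
  have hθ0 : 0 ≤ θ := (norm_nonneg _).trans ha
  have hw1 := mob_lt ha1 hζ
  have ha' : ‖-a‖ < 1 := by rwa [norm_neg]
  have h1 := mob_norm ha' hw1
  rw [mob_inv ha1 hζ, norm_neg] at h1
  have h2 : ‖1 + conj (-a) * mob a ζ‖ ≤ 2 := by
    refine (norm_add_le _ _).trans ?_
    rw [norm_one, norm_mul, RCLike.norm_conj, norm_neg]
    nlinarith [norm_nonneg a, norm_nonneg (mob a ζ)]
  have h3 : (1 - θ ^ 2) ^ 2 ≤ (1 - ‖a‖ ^ 2) * (1 - ‖mob a ζ‖ ^ 2) := by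
    rw [sq (1 - θ ^ 2)]
    have hq : 0 ≤ 1 - θ ^ 2 := by nlinarith
    have q1 : 1 - θ ^ 2 ≤ 1 - ‖a‖ ^ 2 := by gcongr
    have q2 : 1 - θ ^ 2 ≤ 1 - ‖mob a ζ‖ ^ 2 := by gcongr
    exact mul_le_mul q1 q2 hq (hq.trans q1)
  have h4 : 0 ≤ 1 - ‖ζ‖ ^ 2 := by nlinarith [norm_nonneg ζ]
  have h5 : ‖1 + conj (-a) * mob a ζ‖ ^ 2 ≤ 4 := by
    nlinarith [norm_nonneg (1 + conj (-a) * mob a ζ)]
  have h6 : (1 - ‖ζ‖ ^ 2) * ‖1 + conj (-a) * mob a ζ‖ ^ 2 ≤ (1 - ‖ζ‖ ^ 2) * 4 := by gcongr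
  linarith

/-- The root transform of a univalent function. -/
theorem root_transform {n : ℕ} (hn : 2 ≤ n) {ψ : ℂ → ℂ} (hψ : Univ ψ 0 1) :
    ∃ φ1 : ℂ → ℂ, Univ φ1 0 1 ∧ φ1 0 = 0 ∧
      (∀ ζ ∈ ball (0 : ℂ) 1, φ1 ζ ^ n = ψ (ζ ^ n) - ψ 0) ∧
      ‖deriv φ1 0‖ ^ n = ‖deriv ψ 0‖ ∧
      ∀ y w : ℂ, w ∈ ball (0 : ℂ) 1 → y ^ n = ψ w - ψ 0 →
        ∃ ζ ∈ ball (0 : ℂ) 1, ζ ^ n = w ∧ φ1 ζ = y := by
  have h0b : (0 : ℂ) ∈ ball (0 : ℂ) 1 := mem_ball_self one_pos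
  have hn0 : n ≠ 0 := by omega
  have hnC : (n : ℂ) ≠ 0 := by exact_mod_cast hn0
  have hud : DifferentiableOn ℂ (dslope ψ 0) (ball 0 1) :=
    (differentiableOn_dslope (isOpen_ball.mem_nhds h0b)).mpr hψ.1
  have hu0 : ∀ w ∈ ball (0 : ℂ) 1, dslope ψ 0 w ≠ 0 := by
    intro w hw
    by_cases hw0 : w = 0
    · subst hw0
      rw [dslope_same]
      exact Pool.Agent.Helper202.Univ.deriv_ne_zero isOpen_ball hψ.1 hψ.2 h0b
    · rw [dslope_of_ne _ hw0, slope_def_field]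
      have h1 : ψ w - ψ 0 ≠ 0 := fun h => hw0 (hψ.2 hw h0b (sub_eq_zero.mp h))
      exact div_ne_zero h1 (sub_ne_zero.mpr hw0)
  obtain ⟨l, hl1, -, hl3⟩ := Pool.Agent.H712R2.M.exists_log_ball one_pos hud hu0
    (Complex.log (dslope ψ 0 0)) (by rw [Complex.exp_log (hu0 0 h0b)])
  have hpow : ∀ ζ ∈ ball (0 : ℂ) 1, ζ ^ n ∈ ball (0 : ℂ) 1 := by
    intro ζ hζ
    rw [mem_ball, dist_zero_right] at hζ ⊢
    rw [norm_pow]
    exact pow_lt_one₀ (norm_nonneg _) hζ hn0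
  set E : ℂ → ℂ := fun w => Complex.exp (l w / n) with hE
  have hE0 : ∀ w, E w ≠ 0 := fun w => Complex.exp_ne_zero _
  have hEn : ∀ w ∈ ball (0 : ℂ) 1, E w ^ n = dslope ψ 0 w := by
    intro w hw
    simp only [hE]
    rw [exp_pow hn, hl3 w hw]
  have hEd : DifferentiableOn ℂ E (ball 0 1) := (hl1.div_const _).cexp
  set φ1 : ℂ → ℂ := fun ζ => ζ * E (ζ ^ n) with hφ1
  have hφ1n : ∀ ζ ∈ ball (0 : ℂ) 1, φ1 ζ ^ n = ψ (ζ ^ n) - ψ 0 := by
    intro ζ hζ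
    simp only [hφ1]
    rw [mul_pow, hEn _ (hpow ζ hζ)]
    have := sub_smul_dslope ψ 0 (ζ ^ n)
    rw [sub_zero, smul_eq_mul] at this
    exact this
  have hcomp : DifferentiableOn ℂ (fun ζ : ℂ => E (ζ ^ n)) (ball 0 1) :=
    hEd.comp (by fun_prop) hpow
  have hφ1d : DifferentiableOn ℂ φ1 (ball 0 1) := differentiableOn_id.mul hcomp
  refine ⟨φ1, ⟨hφ1d, ?_⟩, by simp [hφ1], hφ1n, ?_, ?_⟩
  · intro x hx y hy hxy
    have h1 : ψ (x ^ n) - ψ 0 = ψ (y ^ n) - ψ 0 := by rw [← hφ1n x hx, ← hφ1n y hy, hxy]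
    have h2 : x ^ n = y ^ n := hψ.2 (hpow x hx) (hpow y hy) (sub_left_injective h1)
    simp only [hφ1, h2] at hxy
    exact mul_right_cancel₀ (hE0 _) hxy
  · have h1 : HasDerivAt (fun ζ : ℂ => E (ζ ^ n)) (deriv (fun ζ : ℂ => E (ζ ^ n)) 0) 0 :=
      (hcomp.differentiableAt (isOpen_ball.mem_nhds h0b)).hasDerivAt
    have h2 := (hasDerivAt_id (0 : ℂ)).mul h1
    have h3 : deriv φ1 0 = E 0 := by
      have h4 : HasDerivAt φ1 (1 * E ((0 : ℂ) ^ n) +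
          id 0 * deriv (fun ζ : ℂ => E (ζ ^ n)) 0) 0 := h2
      rw [h4.deriv, zero_pow hn0]
      simp
    rw [h3, ← norm_pow, hEn 0 h0b, dslope_same]
  · intro y w hw hy
    obtain ⟨ζ, hζ⟩ := IsAlgClosed.exists_pow_nat_eq w (by omega : 0 < n)
    have hζb : ζ ∈ ball (0 : ℂ) 1 := by
      rw [mem_ball, dist_zero_right] at hw ⊢
      rw [← hζ, norm_pow] at hw
      by_contra hcon
      push Not at hcon
      exact absurd (one_le_pow₀ hcon) (not_le.mpr hw)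
    by_cases hφ0 : φ1 ζ = 0
    · have h1 : y = 0 := by
        have h2 := hφ1n ζ hζb
        rw [hφ0, zero_pow hn0, hζ, ← hy] at h2
        exact (pow_eq_zero_iff hn0).mp h2.symm
      exact ⟨ζ, hζb, hζ, by rw [hφ0, h1]⟩
    · set η : ℂ := y / φ1 ζ with hη
      have hη1 : η ^ n = 1 := by
        rw [hη, div_pow, hφ1n ζ hζb, hζ, ← hy, div_self]
        rw [hy, ← hζ, ← hφ1n ζ hζb]
        exact pow_ne_zero _ hφ0
      have hηn : ‖η‖ = 1 := Complex.norm_eq_one_of_pow_eq_one hη1 hn0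
      refine ⟨η * ζ, ?_, ?_, ?_⟩
      · rw [mem_ball, dist_zero_right] at hζb ⊢
        rw [norm_mul, hηn, one_mul]
        exact hζb
      · rw [mul_pow, hη1, one_mul, hζ]
      · simp only [hφ1] at hφ0 ⊢
        rw [mul_pow, hη1, one_mul, mul_assoc]
        have h2 : η * (ζ * E (ζ ^ n)) = y := by
          rw [hη]
          simp only [hφ1]
          exact div_mul_cancel₀ y hφ0
        exact h2

end Pool.Agent.J4H16
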