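import Mathlib
import Pool.Agent.J4H16.Mob

/-!
# Nice couples around the critical point
-/

set_option autoImplicit false
open Set Filter Topology Metric Complex MeasureTheory
open scoped ComplexConjugate

namespace Pool.Agent.J4H16

open Pool.Agent.W746.LD

variable {n : ℕ} {c : ℂ} {r : ℝ} {ν : ℂ → ℂ} {A : ℝ}

/-- The boundary of `D` never returns to `V`. -/
def Nice (n : ℕ) (c : ℂ) (V D : Set ℂ) : Prop :=
  ∀ z ∈ frontier D, ∀ k, 1 ≤ k → orb n c z k ∉ V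

/-- The parametrization of the preimage of a domain around the critical value. -/
theorem exists_pull (hn : 2 ≤ n) {m : ℕ} {φ h : ℂ → ℂ} (hφ : Univ φ 0 1) (hh : Lf n c m φ h)
    {ζ1 : ℂ} (hζ1 : ‖ζ1‖ < 1) (hc : h ζ1 = c) :
    ∃ φ1 : ℂ → ℂ, Univ φ1 0 1 ∧ φ1 0 = 0 ∧
      (∀ ζ ∈ ball (0 : ℂ) 1, φ1 ζ ^ n + c = h (mob ζ1 (ζ ^ n))) ∧
      ‖deriv φ1 0‖ ^ n = ‖deriv h ζ1‖ * (1 - ‖ζ1‖ ^ 2) ∧
      ∀ y w : ℂ, w ∈ ball (0 : ℂ) 1 → y ^ n + c = h w →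
        ∃ ζ ∈ ball (0 : ℂ) 1, mob ζ1 (ζ ^ n) = w ∧ φ1 ζ = y := by
  have h0b : (0 : ℂ) ∈ ball (0 : ℂ) 1 := mem_ball_self one_pos
  have hm := mob_univ hζ1
  have hmaps : ∀ ζ ∈ ball (0 : ℂ) 1, mob ζ1 ζ ∈ ball (0 : ℂ) 1 := by
    intro ζ hζ
    rw [mem_ball, dist_zero_right] at hζ ⊢
    exact mob_lt hζ1 hζ
  have hhu := hh.univ hφ
  have hψ : Univ (fun ζ => h (mob ζ1 ζ)) 0 1 := by
    refine ⟨hhu.1.comp hm.1 hmaps, ?_⟩
    intro x hx y hy hxy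
    exact hm.2 hx hy (hhu.2 (hmaps x hx) (hmaps y hy) hxy)
  obtain ⟨φ1, h1, h2, h3, h4, h5⟩ := root_transform hn hψ
  have hψ0 : h (mob ζ1 0) = c := by rw [mob_zero, hc]
  refine ⟨φ1, h1, h2, ?_, ?_, ?_⟩
  · intro ζ hζ
    rw [h3 ζ hζ, hψ0, sub_add_cancel]
  · rw [h4]
    have hζ1b : ζ1 ∈ ball (0 : ℂ) 1 := by rw [mem_ball, dist_zero_right]; exact hζ1
    have e1 : HasDerivAt (mob ζ1) (1 - conj ζ1 * ζ1) 0 := by
      rw [← mob_deriv hζ1]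
      exact (hm.1.differentiableAt (isOpen_ball.mem_nhds h0b)).hasDerivAt
    have e2 : HasDerivAt h (deriv h ζ1) (mob ζ1 0) := by
      rw [mob_zero]
      exact (hhu.1.differentiableAt (isOpen_ball.mem_nhds hζ1b)).hasDerivAt
    have e3 : HasDerivAt (fun ζ => h (mob ζ1 ζ)) (deriv h ζ1 * (1 - conj ζ1 * ζ1)) 0 :=
      e2.comp 0 e1
    rw [e3.deriv, norm_mul]
    congr 1
    have e4 : (1 : ℂ) - conj ζ1 * ζ1 = ((1 - ‖ζ1‖ ^ 2 : ℝ) : ℂ) := by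
      rw [mul_comm, Complex.mul_conj, Complex.normSq_eq_norm_sq]
      push_cast
      ring
    rw [e4, Complex.norm_real, Real.norm_of_nonneg]
    nlinarith [norm_nonneg ζ1]
  · intro y w hw hy
    obtain ⟨w', hw', rfl⟩ : ∃ w' ∈ ball (0 : ℂ) 1, mob ζ1 w' = w := by
      rw [← mob_image hζ1] at hw
      exact hw
    obtain ⟨ζ, hζ, hζ', hζy⟩ := h5 y w' hw' (by
      rw [hψ0, ← hy]
      ring)
    exact ⟨ζ, hζ, by rw [hζ'], hζy⟩

/-- The lift defined by a neighbourhood of the critical value. -/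
theorem exists_lift {m : ℕ} {φ : ℂ → ℂ} (hφ : Univ φ 0 1) {W : Set ℂ} (hW : IsOpen W)
    (hinj : InjOn (fun z => orb n c z m) W)
    (him : (fun z => orb n c z m) '' W = φ '' ball 0 1) :
    ∃ h, Lf n c m φ h ∧ h '' ball 0 1 = W := by
  set F : ℂ → ℂ := fun z => orb n c z m with hF
  have hFd : DifferentiableOn ℂ F W := (differentiable_orb m).differentiableOn
  have hmem : ∀ ζ ∈ ball (0 : ℂ) 1, φ ζ ∈ F '' W := fun ζ hζ => by
    rw [him]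
    exact ⟨ζ, hζ, rfl⟩
  refine ⟨fun ζ => Function.invFunOn F W (φ ζ), ⟨?_, ?_⟩, ?_⟩
  · intro ζ hζ
    have h1 := Pool.Agent.Helper202.Univ.differentiableAt_inv hW hFd hinj (hmem ζ hζ)
    have h2 : DifferentiableAt ℂ φ ζ := hφ.1.differentiableAt (isOpen_ball.mem_nhds hζ)
    exact (DifferentiableAt.comp ζ h1 h2).differentiableWithinAt
  · intro ζ hζ
    exact Pool.Agent.Helper202.Univ.invFunOn_right (hmem ζ hζ)
  · ext y
    constructor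
    · rintro ⟨ζ, hζ, rfl⟩
      exact Pool.Agent.Helper202.Univ.invFunOn_mem (hmem ζ hζ)
    · intro hy
      have h1 : F y ∈ φ '' ball 0 1 := by
        rw [← him]
        exact ⟨y, hy, rfl⟩
      obtain ⟨ζ, hζ, hζy⟩ := h1
      refine ⟨ζ, hζ, ?_⟩
      simp only [hζy]
      exact Pool.Agent.Helper202.Univ.invFunOn_left hinj hy

theorem not_frontier_sub {U D : Set ℂ} (hU : IsPreconnected U) (hD : IsOpen D)
    (hne : (U ∩ D).Nonempty) (h : ∀ y ∈ U, y ∉ frontier D) : U ⊆ D := by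
  apply hU.subset_left_of_subset_union hD (isClosed_closure (s := D)).isOpen_compl _ _ hne
  · rw [Set.disjoint_left]
    intro y hy hy'
    exact hy' (subset_closure hy)
  · intro y hy
    by_contra hcon
    rw [mem_union, not_or, mem_compl_iff, not_not] at hcon
    apply h y hy
    rw [hD.frontier_eq]
    exact ⟨hcon.2, hcon.1⟩

/-- Nice couples are inner. -/
theorem Nice.inner (hn : 2 ≤ n) {φ : ℂ → ℂ} (hφ : Univ φ 0 1) {D : Set ℂ} (hD : IsOpen D)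
    (hD0 : (0 : ℂ) ∈ D) (hN : Nice n c (φ '' ball 0 1) D) : Inner n c (φ '' ball 0 1) D := by
  intro m W hW hcW hinj him z hz hzD
  obtain ⟨h, hh, hhW⟩ := exists_lift hφ hW hinj him
  obtain ⟨ζ1, hζ1, hζ1c⟩ : c ∈ h '' ball 0 1 := by rw [hhW]; exact hcW
  rw [mem_ball, dist_zero_right] at hζ1
  obtain ⟨φ1, h1, h2, h3, h4, h5⟩ := exists_pull hn hφ hh hζ1 hζ1c
  have hpre : IsPreconnected (φ1 '' ball 0 1) :=
    (convex_ball (0 : ℂ) 1).isPreconnected.image φ1 h1.1.continuousOn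
  have hsub : φ1 '' ball 0 1 ⊆ D := by
    apply not_frontier_sub hpre hD ⟨0, ⟨0, mem_ball_self one_pos, h2⟩, hD0⟩
    rintro _ ⟨ζ, hζ, rfl⟩ hfr
    apply hN _ hfr (m + 1) (by omega)
    rw [add_comm, orb_add, orb_one, h3 ζ hζ]
    have hζn : mob ζ1 (ζ ^ n) ∈ ball (0 : ℂ) 1 := by
      rw [mem_ball, dist_zero_right] at hζ ⊢
      apply mob_lt hζ1
      rw [norm_pow]
      exact pow_lt_one₀ (norm_nonneg _) hζ (by omega)
    rw [hh.eq _ hζn]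
    exact ⟨_, hζn, rfl⟩
  obtain ⟨w, hw, hwz⟩ : z ^ n + c ∈ h '' ball 0 1 := by rw [hhW]; exact hz
  obtain ⟨ζ, hζ, -, hζz⟩ := h5 z w hw hwz.symm
  exact hsub ⟨ζ, hζ, hζz⟩

/-- The pull-back of a nice couple by the first return of the critical point. -/
theorem Nice.pull (hn : 2 ≤ n) {m : ℕ} {φ h : ℂ → ℂ} (hφ : Univ φ 0 1) (hh : Lf n c m φ h)
    {ζ1 : ℂ} (hζ1 : ‖ζ1‖ < 1) {D : Set ℂ} (hD : IsOpen D)
    {θ' : ℝ} (hθ' : θ' < 1) (hζ1' : ‖ζ1‖ ≤ θ') (hDs : D ⊆ φ '' ball 0 θ')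
    (hN : Nice n c (φ '' ball 0 1) D) {φ1 : ℂ → ℂ} (h1 : Univ φ1 0 1)
    (h3 : ∀ ζ ∈ ball (0 : ℂ) 1, φ1 ζ ^ n + c = h (mob ζ1 (ζ ^ n)))
    {θ1 : ℝ} (hθ1 : θ1 < 1) (hθ1' : 0 < θ1) (hθn : 1 - (1 - θ' ^ 2) ^ 2 / 4 < θ1 ^ (2 * n)) :
    IsOpen {y | y ∈ φ1 '' ball 0 1 ∧ orb n c y (m + 1) ∈ D} ∧
    {y | y ∈ φ1 '' ball 0 1 ∧ orb n c y (m + 1) ∈ D} ⊆ φ1 '' ball 0 θ1 ∧
    Nice n c (φ1 '' ball 0 1) {y | y ∈ φ1 '' ball 0 1 ∧ orb n c y (m + 1) ∈ D} := by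
  have hζn : ∀ ζ ∈ ball (0 : ℂ) 1, ζ ^ n ∈ ball (0 : ℂ) 1 := by
    intro ζ hζ
    rw [mem_ball, dist_zero_right] at hζ ⊢
    rw [norm_pow]
    exact pow_lt_one₀ (norm_nonneg _) hζ (by omega)
  have hmn : ∀ ζ ∈ ball (0 : ℂ) 1, mob ζ1 (ζ ^ n) ∈ ball (0 : ℂ) 1 := by
    intro ζ hζ
    have := hζn ζ hζ
    rw [mem_ball, dist_zero_right] at this ⊢
    exact mob_lt hζ1 this
  have horb : ∀ ζ ∈ ball (0 : ℂ) 1, orb n c (φ1 ζ) (m + 1) = φ (mob ζ1 (ζ ^ n)) := by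
    intro ζ hζ
    rw [add_comm, orb_add, orb_one, h3 ζ hζ, hh.eq _ (hmn ζ hζ)]
  have hUo : IsOpen (φ1 '' ball 0 1) :=
    Pool.Agent.Helper202.Univ.isOpen_image isOpen_ball h1.1 h1.2 isOpen_ball Subset.rfl
  have hcont : Continuous fun y => orb n c y (m + 1) := (differentiable_orb (m + 1)).continuous
  set D1 : Set ℂ := {y | y ∈ φ1 '' ball 0 1 ∧ orb n c y (m + 1) ∈ D} with hD1
  have hD1o : IsOpen D1 := hUo.inter (hD.preimage hcont)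
  have hD1s : D1 ⊆ φ1 '' ball 0 θ1 := by
    rintro _ ⟨⟨ζ, hζ, rfl⟩, hζD⟩
    refine ⟨ζ, ?_, rfl⟩
    rw [horb ζ hζ] at hζD
    obtain ⟨w, hw, hwe⟩ := hDs hζD
    have hw1 : w ∈ ball (0 : ℂ) 1 := ball_subset_ball hθ'.le hw
    have hwm : w = mob ζ1 (ζ ^ n) := hφ.2 hw1 (hmn ζ hζ) hwe
    have hz := hζn ζ hζ
    rw [mem_ball, dist_zero_right] at hz hw
    have hs := mob_small hθ' hζ1' hz (by rw [← hwm]; exact hw.le)
    rw [norm_pow, ← pow_mul, mul_comm n 2] at hs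
    rw [mem_ball, dist_zero_right]
    exact lt_of_pow_lt_pow_left₀ (2 * n) hθ1'.le (hs.trans_lt hθn)
  refine ⟨hD1o, hD1s, ?_⟩
  intro z hz k hk hzU
  have hz2 := hz
  rw [hD1o.frontier_eq] at hz2
  obtain ⟨hz3, hz4⟩ := hz2
  have hcl : closure D1 ⊆ φ1 '' closedBall 0 θ1 := by
    apply closure_minimal (hD1s.trans (image_mono ball_subset_closedBall))
    apply IsCompact.isClosed
    exact (isCompact_closedBall (0 : ℂ) θ1).image_of_continuousOn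
      (h1.1.continuousOn.mono (closedBall_subset_ball hθ1))
  have hzU1 : z ∈ φ1 '' ball 0 1 := image_mono (closedBall_subset_ball hθ1) (hcl hz3)
  have hz5 : orb n c z (m + 1) ∈ closure D := by
    have h6 : closure D1 ⊆ (fun y => orb n c y (m + 1)) ⁻¹' closure D :=
      closure_minimal (fun y hy => subset_closure hy.2) (isClosed_closure.preimage hcont)
    exact h6 hz3
  have hz6 : orb n c z (m + 1) ∈ frontier D := by
    rw [hD.frontier_eq]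
    exact ⟨hz5, fun h7 => hz4 ⟨hzU1, h7⟩⟩
  apply hN _ hz6 k hk
  obtain ⟨ζ, hζ, hζz⟩ := hzU
  rw [← orb_add, add_comm, orb_add, ← hζz, horb ζ hζ]
  exact ⟨_, hmn ζ hζ, rfl⟩

end Pool.Agent.J4H16
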