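import Mathlib
import Pool.Agent.J4H16.Nice

/-!
# Nice couples at arbitrarily small scales
-/

set_option autoImplicit false
open Set Filter Topology Metric Complex MeasureTheory
open scoped ComplexConjugate

namespace Pool.Agent.J4H16

open Pool.Agent.W746.LD

variable {n : ℕ} {c : ℂ} {r : ℝ} {ν : ℂ → ℂ} {A : ℝ}

/-- Nice couples at arbitrarily small scales are impossible. -/
theorem Q.nice2 (h : Q n c r) (H : HypII n c) {θ' : ℝ} (hθ0' : 0 < θ') (hθ' : θ' < 1)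
    (HV : ∀ ε : ℝ, 0 < ε → ∃ (φ : ℂ → ℂ) (D : Set ℂ), Univ φ 0 1 ∧ φ 0 = 0 ∧
      ‖deriv φ 0‖ < ε ∧ IsOpen D ∧ (0 : ℂ) ∈ D ∧ D ⊆ φ '' ball 0 θ' ∧
      Nice n c (φ '' ball 0 1) D) : False := by
  classical
  have hn := h.hn
  have hd := h.dense
  have hn0 : n ≠ 0 := by omega
  have hnR : (0 : ℝ) < n := by exact_mod_cast (by omega : 0 < n)
  obtain ⟨C0, c0, Kc⟩ := exists_KC
  have hc0 := Kc.pos
  have hc4 := Kc.le
  have hC0 := Kc.one_le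
  obtain ⟨ν, A, hI⟩ := h.exists_inv hd
  obtain ⟨x, hx⟩ := hI.exists_good hn
  have hνx : 0 < ‖ν x‖ := norm_pos_iff.mpr hx.ne
  obtain ⟨m0, hm0⟩ := exists_rad hθ'
  have hCm : 1 ≤ C0 ^ m0 := one_le_pow₀ hC0
  have h1θ : 0 < 1 - θ' := by linarith
  have h1θ2 : 0 < 1 - θ' ^ 2 := by nlinarith
  have h1θ2' : 1 - θ' ^ 2 ≤ 1 := by nlinarith
  -- the constants
  set θ : ℝ := 1 / (2 * n * C0 ^ 2 / c0 ^ 2 + n ^ 2) with hθd
  have hθ : 0 < θ := by positivity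
  obtain ⟨θ1, hθ10, hθ1n⟩ := exists_root (n := 2 * n) (by omega)
    (y := 1 - (1 - θ' ^ 2) ^ 2 / 8) (by nlinarith [sq_nonneg (1 - θ' ^ 2)])
  have hsq : 0 < (1 - θ' ^ 2) ^ 2 := by positivity
  have hθ11 : θ1 < 1 := by
    by_contra hcon
    push Not at hcon
    have := one_le_pow₀ (n := 2 * n) hcon
    linarith
  have hθ12 : 1 - (1 - θ' ^ 2) ^ 2 / 4 < θ1 ^ (2 * n) := by
    rw [hθ1n]
    linarith
  set q : ℝ := c0 * (1 - θ') / C0 ^ m0 with hq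
  have hq0 : 0 < q := by positivity
  have hq1 : q ≤ 1 := by
    rw [hq, div_le_one (by positivity)]
    nlinarith
  obtain ⟨κV, hκV, hNV⟩ := hx.near_pair h hd Kc hI hθ0' hθ' hθ
  obtain ⟨κU, hκU, hNU⟩ := hx.near_pair h hd Kc hI hθ10 hθ11 hθ
  obtain ⟨κ, hκ, hk1, hk2, hk3, hk4, hk5, hk6⟩ : ∃ κ : ℝ, 0 < κ ∧ κ ≤ κV ∧ κ ≤ κU ∧ κ ≤ 1 ∧
      κ ≤ c0 / C0 ^ m0 ∧ κ ≤ 1 / 8 * q ∧ κ ≤ θ / (64 * (C0 + 2)) * q := by
    refine ⟨min (min (min κV κU) (min 1 (c0 / C0 ^ m0)))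
      (min (1 / 8 * q) (θ / (64 * (C0 + 2)) * q)), by positivity, ?_, ?_, ?_, ?_, ?_, ?_⟩
    · exact (min_le_left _ _).trans ((min_le_left _ _).trans (min_le_left _ _))
    · exact (min_le_left _ _).trans ((min_le_left _ _).trans (min_le_right _ _))
    · exact (min_le_left _ _).trans ((min_le_right _ _).trans (min_le_left _ _))
    · exact (min_le_left _ _).trans ((min_le_right _ _).trans (min_le_right _ _))
    · exact (min_le_right _ _).trans (min_le_left _ _)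
    · exact (min_le_right _ _).trans (min_le_right _ _)
  set κ1 : ℝ := κ ^ n * (1 - θ' ^ 2) / (c0 * C0 ^ m0) with hκ1
  have hκ10 : 0 < κ1 := by positivity
  obtain ⟨εV, hεV, hNV'⟩ := hNV κ1 hκ10
  obtain ⟨εU, hεU, hNU'⟩ := hNU κ hκ
  obtain ⟨d, hd1, hd2⟩ := h.branch_small hd Kc (ε := εU ^ n * q / C0 ^ m0) (by positivity)
  obtain ⟨φ, D, hφ, hφ0, hsm, hD, hD0, hDs, hN⟩ := HV (min εV d) (lt_min hεV hd1)
  have hin : Inner n c (φ '' ball 0 1) D := hN.inner hn hφ hD hD0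
  have h0b : (0 : ℂ) ∈ ball (0 : ℂ) 1 := mem_ball_self one_pos
  set a : ℝ := ‖deriv φ 0‖ with ha
  have ha0 : 0 < a := norm_pos_iff.mpr
    (Pool.Agent.Helper202.Univ.deriv_ne_zero isOpen_ball hφ.1 hφ.2 h0b)
  have haV : a < εV := hsm.trans_le (min_le_left _ _)
  have had : a < d := hsm.trans_le (min_le_right _ _)
  -- the first return of the critical point
  have hret : ∃ j, 1 ≤ j ∧ orb n c 0 j ∈ D := by
    obtain ⟨y, hy1, ⟨j, hj, rfl⟩⟩ := mem_closure_iff.mp (h.zero_PC H) D hD hD0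
    exact ⟨j, hj, hy1⟩
  obtain ⟨hj1, hj2⟩ := Nat.find_spec hret
  set j := Nat.find hret with hj
  obtain ⟨m, hm⟩ : ∃ m, j = m + 1 := ⟨j - 1, by omega⟩
  rw [hm, orb_one_crit hn] at hj2
  have hjmin : ∀ i < m, orb n c c i ∉ D := by
    intro i hi hiD
    rw [← orb_one_crit hn] at hiD
    exact Nat.find_min hret (m := i + 1) (by rw [← hj]; omega) ⟨by omega, hiD⟩
  obtain ⟨ζ1, hζ1, hζ1φ⟩ := hDs hj2
  rw [mem_ball, dist_zero_right] at hζ1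
  have hζ1b : ζ1 ∈ ball (0 : ℂ) 1 := by rw [mem_ball, dist_zero_right]; linarith
  have hζ11 : ‖ζ1‖ < 1 := by linarith
  obtain ⟨g, hg, hgc⟩ := hin.lift hn hφ hζ1b hζ1φ hj2 hjmin
  obtain ⟨φ1, p1, p2, p3, p4, p5⟩ := exists_pull hn hφ hg hζ11 hgc
  obtain ⟨s1, s2, s3⟩ := Nice.pull hn hφ hg hζ11 hD hθ' hζ1.le hDs hN p1 p3 hθ11 hθ10 hθ12
  set D1 : Set ℂ := {y | y ∈ φ1 '' ball 0 1 ∧ orb n c y (m + 1) ∈ D} with hD1
  have hD10 : (0 : ℂ) ∈ D1 := ⟨⟨0, h0b, p2⟩, by rw [orb_one_crit hn]; exact hj2⟩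
  have hin1 : Inner n c (φ1 '' ball 0 1) D1 := s3.inner hn p1 s1 hD10
  -- the branch at the return point
  have hr1 := KC.rad Kc one_pos hφ m0 ζ1 (by rw [mul_one]; linarith)
  have hsubζ : ball ζ1 (1 - θ') ⊆ ball 0 1 := by
    intro u hu
    rw [mem_ball, dist_eq_norm] at hu
    rw [mem_ball, dist_zero_right]
    have := norm_add_le (u - ζ1) ζ1
    rw [sub_add_cancel] at this
    linarith
  have hρle : q * a ≤ c0 * (1 - θ') * ‖deriv φ ζ1‖ := by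
    rw [hq, div_mul_eq_mul_div, div_le_iff₀ (by positivity)]
    calc c0 * (1 - θ') * a ≤ c0 * (1 - θ') * (C0 ^ m0 * ‖deriv φ ζ1‖) := by
          gcongr
          exact hr1.2
      _ = _ := by ring
  have hsubV : ball (φ ζ1) (q * a) ⊆ φ '' ball 0 1 :=
    (ball_subset_ball hρle).trans (KC.ball_sub Kc hφ h1θ hsubζ)
  have hG := hg.br hφ hsubV
  set G : ℂ → ℂ := fun w => g (Function.invFunOn φ (ball 0 1) w) with hGd
  have hGζ : G (φ ζ1) = c := by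
    simp only [hGd]
    rw [Pool.Agent.Helper202.Univ.invFunOn_left hφ.2 hζ1b, hgc]
  have hpb : φ ζ1 ∈ ball (φ ζ1) (q * a) := mem_ball_self (by positivity)
  have hderiv : deriv g ζ1 = deriv G (φ ζ1) * deriv φ ζ1 := by
    have h1 : HasDerivAt g (deriv g ζ1) ζ1 :=
      (hg.diff.differentiableAt (isOpen_ball.mem_nhds hζ1b)).hasDerivAt
    have h2 : HasDerivAt φ (deriv φ ζ1) ζ1 :=
      (hφ.1.differentiableAt (isOpen_ball.mem_nhds hζ1b)).hasDerivAt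
    have h3 : HasDerivAt (fun w => G (φ w)) (deriv G (φ ζ1) * deriv φ ζ1) ζ1 :=
      (hG.hasDerivAt hpb).comp ζ1 h2
    have h4 : (fun w => G (φ w)) =ᶠ[𝓝 ζ1] g := by
      filter_upwards [isOpen_ball.mem_nhds hζ1b] with u hu
      simp only [hGd]
      rw [Pool.Agent.Helper202.Univ.invFunOn_left hφ.2 hu]
    exact h1.unique (h3.congr_of_eventuallyEq h4.symm)
  set b : ℝ := ‖deriv φ1 0‖ with hb
  have hb0 : 0 < b := norm_pos_iff.mpr
    (Pool.Agent.Helper202.Univ.deriv_ne_zero isOpen_ball p1.1 p1.2 h0b)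
  set E : ℝ := ‖deriv G (φ ζ1)‖ with hE
  have hE0 : 0 < E := norm_pos_iff.mpr (hG.deriv_ne hpb)
  rw [hderiv, norm_mul] at p4
  have hζsq : 1 - θ' ^ 2 ≤ 1 - ‖ζ1‖ ^ 2 := by
    have := norm_nonneg ζ1
    gcongr
  have hζsq' : 1 - ‖ζ1‖ ^ 2 ≤ 1 := by
    have := sq_nonneg ‖ζ1‖
    linarith
  have hζp : 0 < 1 - ‖ζ1‖ ^ 2 := by linarith
  -- the scales
  set T : ℝ := κ * b with hT
  have hT0 : 0 < T := by positivity
  set σ : ℝ := T ^ n / (c0 * E) with hσ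
  have hTn : T ^ n = κ ^ n * (E * ‖deriv φ ζ1‖ * (1 - ‖ζ1‖ ^ 2)) := by
    rw [hT, mul_pow, p4]
  have hσ' : σ = κ ^ n * (1 - ‖ζ1‖ ^ 2) / c0 * ‖deriv φ ζ1‖ := by
    rw [hσ, hTn]
    field_simp
  have hσ0 : 0 < σ := by positivity
  have hσlow : κ1 * a ≤ σ := by
    rw [hσ', hκ1]
    calc κ ^ n * (1 - θ' ^ 2) / (c0 * C0 ^ m0) * a
        ≤ κ ^ n * (1 - θ' ^ 2) / (c0 * C0 ^ m0) * (C0 ^ m0 * ‖deriv φ ζ1‖) := by
          gcongr
          exact hr1.2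
      _ = κ ^ n * (1 - θ' ^ 2) / c0 * ‖deriv φ ζ1‖ := by field_simp
      _ ≤ κ ^ n * (1 - ‖ζ1‖ ^ 2) / c0 * ‖deriv φ ζ1‖ := by gcongr
  have hσup : σ ≤ κ * a := by
    rw [hσ']
    have e1 : κ ^ n ≤ κ * (c0 / C0 ^ m0) := by
      calc κ ^ n ≤ κ ^ 2 := pow_le_pow_of_le_one hκ.le hk3 hn
        _ = κ * κ := sq κ
        _ ≤ κ * (c0 / C0 ^ m0) := by gcongr
    calc κ ^ n * (1 - ‖ζ1‖ ^ 2) / c0 * ‖deriv φ ζ1‖
        ≤ κ * (c0 / C0 ^ m0) * 1 / c0 * (C0 ^ m0 * a) := by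
          gcongr
          exact hr1.1
      _ = κ * a := by field_simp
  -- the derivative of the parametrization of the pull-back is small
  have hbU : b < εU := by
    have e1 := hd2 m (φ ζ1) (q * a) G (by positivity) (by nlinarith) hG (by
      rw [hGζ]
      exact h.c_mem)
    apply lt_of_pow_lt_pow_left₀ n hεU.le
    rw [p4]
    calc E * ‖deriv φ ζ1‖ * (1 - ‖ζ1‖ ^ 2) ≤ E * (C0 ^ m0 * a) * 1 := by
          gcongr
          exact hr1.1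
      _ = q * a * E * (C0 ^ m0 / q) := by field_simp
      _ < εU ^ n * q / C0 ^ m0 * (C0 ^ m0 / q) := by gcongr
      _ = εU ^ n := by field_simp
  -- near constancy at the return point
  obtain ⟨k, hk1', hk2'⟩ := hx.first_in h hd Kc hI H (hD.mem_nhds hD0)
  obtain ⟨l1, hl1, hl1'⟩ := hNV' φ D k hφ haV hDs hin hk1' hk2' ζ1 hζ1
    (by
      rw [hζ1φ, orb_mem_K hn h.c2]
      exact h.c_mem) σ hσlow (hσup.trans (by gcongr))
  -- near constancy at the critical point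
  obtain ⟨p, hp1', hp2'⟩ := hx.first_in h hd Kc hI H (s1.mem_nhds hD10)
  obtain ⟨l2, hl2, hl2'⟩ := hNU' φ1 D1 p p1 hbU s2 hin1 hp1' hp2' 0 (by simpa using hθ10)
    (by rw [p2]; exact h.zero_mem) T le_rfl (by rw [hT]; gcongr)
  rw [p2] at hl2'
  -- transport to the critical value
  have hcover : ball c (T ^ n) ⊆ G '' ball (φ ζ1) σ := by
    intro y hy
    rw [mem_ball, dist_eq_norm] at hy
    have hsub : ball (φ ζ1) σ ⊆ ball (φ ζ1) (q * a) := by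
      apply ball_subset_ball
      refine hσup.trans ?_
      gcongr
      linarith
    obtain ⟨e1, e2⟩ := hG.cover Kc (z := φ ζ1) (s := σ) hσ0 hsub (a := y) (by
      rw [hGζ]
      calc ‖y - c‖ < T ^ n := hy
        _ = c0 * σ * E := by
            rw [hσ]
            field_simp)
    exact ⟨_, e1, e2⟩
  obtain ⟨l1', hl3, hl3'⟩ := hI.transport hn Kc hθ hσ0
    (ρ := q * a) (p := φ ζ1) (by
      have : κ * a ≤ 1 / 8 * q * a := by gcongr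
      have h2 : 0 < q * a := by positivity
      linarith)
    (by
      calc 64 * (C0 + 2) * σ ≤ 64 * (C0 + 2) * (θ / (64 * (C0 + 2)) * q * a) := by
            gcongr
            refine hσup.trans ?_
            gcongr
        _ = θ * (q * a) := by
            have : C0 + 2 ≠ 0 := by positivity
            field_simp) hG (l := l1) (by rw [hl1]; exact hl1') hcover
  have hfin := hI.final hn hT0 (l1 := l1') (l2 := l2) (α := 2 * θ * ‖ν x‖ * C0 ^ 2 / c0 ^ 2)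
    (β := θ * ‖ν x‖) (by
      refine hl3'.trans ?_
      rw [hl1]
      calc 2 * θ * ‖ν x‖ * (C0 * ‖deriv G (φ ζ1)‖ * σ) ^ 2
          = 2 * θ * ‖ν x‖ * C0 ^ 2 / c0 ^ 2 * (c0 * σ * E) ^ 2 := by
            rw [← hE]
            field_simp
        _ = 2 * θ * ‖ν x‖ * C0 ^ 2 / c0 ^ 2 * (T ^ n) ^ 2 := by
            congr 2
            rw [hσ]
            field_simp
        _ ≤ 2 * θ * ‖ν x‖ * C0 ^ 2 / c0 ^ 2 * (T ^ n) ^ 2 := le_rfl) hl2'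
  rw [hl3, hl1] at hfin
  have e1 : n * (2 * θ * ‖ν x‖ * C0 ^ 2 / c0 ^ 2) + n ^ 2 * (θ * ‖ν x‖) =
      ‖ν x‖ * (θ * (2 * n * C0 ^ 2 / c0 ^ 2 + n ^ 2)) := by ring
  have e2 : θ * (2 * n * C0 ^ 2 / c0 ^ 2 + n ^ 2) = 1 := by
    rw [hθd, one_div, inv_mul_cancel₀ (by positivity)]
  rw [e1, e2] at hfin
  have e3 := Real.pi_gt_three
  nlinarith

/-- Nice couples or inner pairs. -/
theorem pair_thm {n : ℕ} (hn : 2 ≤ n) {c : ℂ} (hc : c ∈ N62a1eb23.multibrotSet n)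
    (H : HypII n c) {θ' : ℝ} (hθ' : θ' < 1)
    (HV : ∀ ε : ℝ, 0 < ε → ∃ (φ : ℂ → ℂ) (D : Set ℂ), Univ φ 0 1 ∧ φ 0 = 0 ∧
      ‖deriv φ 0‖ < ε ∧ IsOpen D ∧ (0 : ℂ) ∈ D ∧ D ⊆ φ '' ball 0 θ' ∧
      (Nice n c (φ '' ball 0 1) D ∨ (3 ≤ n ∧ Inner n c (φ '' ball 0 1) D))) :
    c ∈ closure {c' : ℂ | ∃ m z, N62a1eb23.IsAttractingCycle (fun z => z ^ n + c') m z} := by
  by_contra hcl
  obtain ⟨r, h⟩ := exists_Q hn hc hcl
  have hθ0' : 0 < θ' := by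
    obtain ⟨φ, D, -, -, -, -, h2, h3, -⟩ := HV 1 one_pos
    obtain ⟨w, hw, -⟩ := h3 h2
    exact pos_of_mem_ball hw
  rcases Nat.lt_or_ge n 3 with hn3 | hn3
  · refine h.nice2 H hθ0' hθ' ?_
    intro ε hε
    obtain ⟨φ, D, h1, h2, h3, h4, h5, h6, h7⟩ := HV ε hε
    refine ⟨φ, D, h1, h2, h3, h4, h5, h6, ?_⟩
    rcases h7 with h7 | h7
    · exact h7
    · omega
  · refine h.inner3 h.dense hn3 H hθ0' hθ' ?_
    intro ε hε
    obtain ⟨φ, D, h1, h2, h3, h4, h5, h6, h7⟩ := HV ε hε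
    refine ⟨φ, D, h1, h2, h3, h4.mem_nhds h5, h6, ?_⟩
    rcases h7 with h7 | h7
    · exact h7.inner hn h1 h4 h5
    · exact h7.2

end Pool.Agent.J4H16
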