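import Mathlib
import Pool.Agent.J4H16.Nice2
import Pool.Agent.Helper287.AM.Fin

/-!
# The growth theorem between two points
-/

set_option autoImplicit false
open Set Filter Topology Metric Complex MeasureTheory
open scoped ComplexConjugate

namespace Pool.Agent.J4H16

open Pool.Agent.W746.LD

/-- The growth theorem for univalent functions. -/
theorem growth0 {h : ℂ → ℂ} (hh : Univ h 0 1) {ζ : ℂ} (hζ : ‖ζ‖ < 1) :
    ‖h ζ - h 0‖ ≤ ‖deriv h 0‖ * (‖ζ‖ / (1 - ‖ζ‖) ^ 2) := by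
  have h0b : (0 : ℂ) ∈ ball (0 : ℂ) 1 := mem_ball_self one_pos
  have hd : deriv h 0 ≠ 0 := Pool.Agent.Helper202.Univ.deriv_ne_zero isOpen_ball hh.1 hh.2 h0b
  set F : ℂ → ℂ := fun z => (h z - h 0) / deriv h 0 with hF
  have hFd : DifferentiableOn ℂ F (ball 0 1) := (hh.1.sub_const _).div_const _
  have hF0 : F 0 = 0 := by simp [hF]
  have hFder : deriv F 0 = 1 := by
    have h1 : HasDerivAt h (deriv h 0) 0 :=
      (hh.1.differentiableAt (isOpen_ball.mem_nhds h0b)).hasDerivAt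
    have h2 := (h1.sub_const (h 0)).div_const (deriv h 0)
    rw [div_self hd] at h2
    exact h2.deriv
  have hFi : InjOn F (ball 0 1) := by
    intro x hx y hy hxy
    simp only [hF] at hxy
    have h1 : h x - h 0 = h y - h 0 := by
      have := congrArg (fun t => t * deriv h 0) hxy
      simpa [div_mul_cancel₀ _ hd] using this
    exact hh.2 hx hy (sub_left_injective h1)
  have hAMC : ∀ R : ℝ, 0 < R → (∫⁻ w in ball (0 : ℂ) R,
      ENat.toENNReal (Set.encard {z : ℂ | z ∈ ball (0 : ℂ) 1 ∧ F z = w})) ≤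
        ENNReal.ofReal (Real.pi * R ^ 2) := by
    intro R hR
    calc ∫⁻ w in ball (0 : ℂ) R, ENat.toENNReal (Set.encard {z : ℂ | z ∈ ball (0 : ℂ) 1 ∧ F z = w})
        ≤ ∫⁻ _ in ball (0 : ℂ) R, 1 := by
          apply lintegral_mono
          intro w
          have h1 : Set.encard {z : ℂ | z ∈ ball (0 : ℂ) 1 ∧ F z = w} ≤ 1 := by
            rw [Set.encard_le_one_iff]
            rintro a b ⟨ha, ha'⟩ ⟨hb, hb'⟩
            exact hFi ha hb (ha'.trans hb'.symm)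
          have h2 : ENat.toENNReal (Set.encard {z : ℂ | z ∈ ball (0 : ℂ) 1 ∧ F z = w}) ≤
              ENat.toENNReal 1 := ENat.toENNReal_le.mpr h1
          simpa using h2
      _ = volume (ball (0 : ℂ) R) := by simp
      _ = ENNReal.ofReal (Real.pi * R ^ 2) := by
          rw [Complex.volume_ball, mul_comm, ENNReal.ofReal_mul Real.pi_pos.le,
            ENNReal.ofReal_pow hR.le]
          congr 1
          exact (NNReal.coe_real_pi ▸ ENNReal.ofReal_coe_nnreal).symm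
  have key := AM287.main_thm F hFd hF0 hFder hAMC ζ (by rw [mem_ball, dist_zero_right]; exact hζ)
  have h3 : h ζ - h 0 = deriv h 0 * F ζ := by
    simp only [hF]
    rw [mul_div_cancel₀ _ hd]
  rw [h3, norm_mul]
  gcongr

/-- The growth theorem between two points of a disc. -/
theorem growth2 {g : ℂ → ℂ} {R : ℝ} (hR : 0 < R) (hg : Univ g 0 R) {u v : ℂ} (hu : ‖u‖ < R)
    {s : ℝ} (hs : s < 1) (hv : ‖v‖ ≤ s * R) :
    ‖g v - g u‖ * ((R - ‖u‖) * (1 - s ^ 2) ^ 2) ≤ 64 * R ^ 2 * ‖deriv g u‖ := by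
  have hRC : (R : ℂ) ≠ 0 := by exact_mod_cast hR.ne'
  have hs0 : 0 ≤ s := by
    by_contra hcon
    push Not at hcon
    have : s * R < 0 := mul_neg_of_neg_of_pos hcon hR
    linarith [norm_nonneg v]
  have hvR : ‖v‖ < R := by nlinarith
  set a : ℂ := u / R with ha
  set b : ℂ := v / R with hb
  have han : ‖a‖ = ‖u‖ / R := by rw [ha, norm_div, Complex.norm_real, Real.norm_of_nonneg hR.le]
  have hbn : ‖b‖ = ‖v‖ / R := by rw [hb, norm_div, Complex.norm_real, Real.norm_of_nonneg hR.le]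
  have ha1 : ‖a‖ < 1 := by rw [han, div_lt_one hR]; exact hu
  have hb1 : ‖b‖ < 1 := by rw [hbn, div_lt_one hR]; exact hvR
  have hbs : ‖b‖ ≤ s := by rw [hbn, div_le_iff₀ hR]; exact hv
  have ha' : ‖-a‖ < 1 := by rwa [norm_neg]
  have hm := mob_univ ha1
  have hmaps : ∀ ζ ∈ ball (0 : ℂ) 1, (R : ℂ) * mob a ζ ∈ ball (0 : ℂ) R := by
    intro ζ hζ
    rw [mem_ball, dist_zero_right] at hζ ⊢
    rw [norm_mul, Complex.norm_real, Real.norm_of_nonneg hR.le]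
    have := mob_lt ha1 hζ
    nlinarith
  set h : ℂ → ℂ := fun ζ => g (R * mob a ζ) with hh
  have hhu : Univ h 0 1 := by
    constructor
    · exact hg.1.comp (hm.1.const_mul _) hmaps
    · intro x hx y hy hxy
      have h1 := hg.2 (hmaps x hx) (hmaps y hy) hxy
      exact hm.2 hx hy (mul_left_cancel₀ hRC h1)
  have h0b : (0 : ℂ) ∈ ball (0 : ℂ) 1 := mem_ball_self one_pos
  have hu0 : (R : ℂ) * mob a 0 = u := by
    rw [mob_zero, ha, mul_div_cancel₀ _ hRC]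
  have hh0 : h 0 = g u := by simp only [hh]; rw [hu0]
  have hder : deriv h 0 = deriv g u * (R * (1 - conj a * a)) := by
    have e1 : HasDerivAt (fun ζ => (R : ℂ) * mob a ζ) (R * (1 - conj a * a)) 0 := by
      rw [← mob_deriv ha1]
      exact ((hm.1.differentiableAt (isOpen_ball.mem_nhds h0b)).hasDerivAt).const_mul _
    have e2 : HasDerivAt g (deriv g u) ((R : ℂ) * mob a 0) := by
      rw [hu0]
      exact (hg.1.differentiableAt (isOpen_ball.mem_nhds (by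
        rw [mem_ball, dist_zero_right]; exact hu))).hasDerivAt
    exact (e2.comp 0 e1).deriv
  have hdern : ‖deriv h 0‖ = ‖deriv g u‖ * (R * (1 - ‖a‖ ^ 2)) := by
    rw [hder, norm_mul, norm_mul, Complex.norm_real, Real.norm_of_nonneg hR.le]
    congr 2
    have e4 : (1 : ℂ) - conj a * a = ((1 - ‖a‖ ^ 2 : ℝ) : ℂ) := by
      rw [mul_comm, Complex.mul_conj, Complex.normSq_eq_norm_sq]
      push_cast
      ring
    rw [e4, Complex.norm_real, Real.norm_of_nonneg]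
    nlinarith [norm_nonneg a]
  set ζ : ℂ := mob (-a) b with hζ
  have hζ1 : ‖ζ‖ < 1 := mob_lt ha' hb1
  have hζb : mob a ζ = b := by
    have := mob_inv ha' hb1
    rwa [neg_neg] at this
  have hhζ : h ζ = g v := by
    simp only [hh]
    rw [hζb, hb, mul_div_cancel₀ _ hRC]
  have hgr := growth0 hhu hζ1
  rw [hhζ, hh0, hdern] at hgr
  -- lower bound for `1 - ‖ζ‖`
  have hid := mob_norm ha' hb1
  rw [← hζ, norm_neg] at hid
  have h2 : ‖1 + conj (-a) * b‖ ≤ 2 := by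
    refine (norm_add_le _ _).trans ?_
    rw [norm_one, norm_mul, RCLike.norm_conj, norm_neg]
    nlinarith [norm_nonneg a, norm_nonneg b]
  have h5 : ‖1 + conj (-a) * b‖ ^ 2 ≤ 4 := by
    nlinarith [norm_nonneg (1 + conj (-a) * b)]
  have hζn := norm_nonneg ζ
  have h4 : 0 ≤ 1 - ‖ζ‖ ^ 2 := by nlinarith
  have ha2 : 0 < 1 - ‖a‖ ^ 2 := by nlinarith [norm_nonneg a]
  have hs2 : 0 < 1 - s ^ 2 := by nlinarith
  have hbs2 : 1 - s ^ 2 ≤ 1 - ‖b‖ ^ 2 := by gcongr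
  have h6 : (1 - ‖a‖ ^ 2) * (1 - s ^ 2) ≤ 8 * (1 - ‖ζ‖) := by
    have e1 : (1 - ‖ζ‖ ^ 2) * ‖1 + conj (-a) * b‖ ^ 2 ≤ (1 - ‖ζ‖ ^ 2) * 4 := by gcongr
    have e2 : (1 - ‖a‖ ^ 2) * (1 - s ^ 2) ≤ (1 - ‖a‖ ^ 2) * (1 - ‖b‖ ^ 2) := by gcongr
    nlinarith
  have h7 : ((1 - ‖a‖ ^ 2) * (1 - s ^ 2)) ^ 2 ≤ 64 * (1 - ‖ζ‖) ^ 2 := by
    have : 64 * (1 - ‖ζ‖) ^ 2 = (8 * (1 - ‖ζ‖)) ^ 2 := by ring
    rw [this]
    gcongr
  have h8 : 0 < (1 - ‖ζ‖) ^ 2 := by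
    have : 0 < 1 - ‖ζ‖ := by linarith
    positivity
  -- conclusion
  have h9 : ‖g v - g u‖ * (1 - ‖ζ‖) ^ 2 ≤ ‖deriv g u‖ * (R * (1 - ‖a‖ ^ 2)) := by
    have e1 : ‖deriv g u‖ * (R * (1 - ‖a‖ ^ 2)) * (‖ζ‖ / (1 - ‖ζ‖) ^ 2) * (1 - ‖ζ‖) ^ 2 =
        ‖deriv g u‖ * (R * (1 - ‖a‖ ^ 2)) * ‖ζ‖ := by
      rw [mul_assoc (‖deriv g u‖ * (R * (1 - ‖a‖ ^ 2))), div_mul_cancel₀ _ h8.ne']
    calc ‖g v - g u‖ * (1 - ‖ζ‖) ^ 2
        ≤ ‖deriv g u‖ * (R * (1 - ‖a‖ ^ 2)) * (‖ζ‖ / (1 - ‖ζ‖) ^ 2) * (1 - ‖ζ‖) ^ 2 := by gcongr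
      _ = ‖deriv g u‖ * (R * (1 - ‖a‖ ^ 2)) * ‖ζ‖ := e1
      _ ≤ ‖deriv g u‖ * (R * (1 - ‖a‖ ^ 2)) * 1 := by
          gcongr
      _ = _ := mul_one _
  have h10 : ‖g v - g u‖ * ((1 - ‖a‖ ^ 2) * (1 - s ^ 2)) ^ 2 ≤
      64 * (‖deriv g u‖ * (R * (1 - ‖a‖ ^ 2))) := by
    calc ‖g v - g u‖ * ((1 - ‖a‖ ^ 2) * (1 - s ^ 2)) ^ 2
        ≤ ‖g v - g u‖ * (64 * (1 - ‖ζ‖) ^ 2) := by gcongr
      _ = 64 * (‖g v - g u‖ * (1 - ‖ζ‖) ^ 2) := by ring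
      _ ≤ _ := by gcongr
  have h11 : ‖g v - g u‖ * ((1 - ‖a‖ ^ 2) * (1 - s ^ 2) ^ 2) ≤ 64 * (‖deriv g u‖ * R) := by
    have e1 : (1 - ‖a‖ ^ 2) * (‖g v - g u‖ * ((1 - ‖a‖ ^ 2) * (1 - s ^ 2) ^ 2)) ≤
        (1 - ‖a‖ ^ 2) * (64 * (‖deriv g u‖ * R)) := by
      calc (1 - ‖a‖ ^ 2) * (‖g v - g u‖ * ((1 - ‖a‖ ^ 2) * (1 - s ^ 2) ^ 2))
          = ‖g v - g u‖ * ((1 - ‖a‖ ^ 2) * (1 - s ^ 2)) ^ 2 := by ring
        _ ≤ 64 * (‖deriv g u‖ * (R * (1 - ‖a‖ ^ 2))) := h10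
        _ = _ := by ring
    exact le_of_mul_le_mul_left e1 ha2
  have h12 : R - ‖u‖ ≤ R * (1 - ‖a‖ ^ 2) := by
    have e1 : ‖u‖ = R * ‖a‖ := by rw [han]; field_simp
    have e2 := norm_nonneg a
    rw [e1]
    nlinarith [mul_nonneg hR.le e2]
  calc ‖g v - g u‖ * ((R - ‖u‖) * (1 - s ^ 2) ^ 2)
      ≤ ‖g v - g u‖ * (R * (1 - ‖a‖ ^ 2) * (1 - s ^ 2) ^ 2) := by gcongr
    _ = R * (‖g v - g u‖ * ((1 - ‖a‖ ^ 2) * (1 - s ^ 2) ^ 2)) := by ring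
    _ ≤ R * (64 * (‖deriv g u‖ * R)) := by gcongr
    _ = _ := by ring

end Pool.Agent.J4H16
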