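import Mathlib
import Pool.Agent.J4H16.Gro

/-!
# Large derivatives at the returns to one scale
-/

set_option autoImplicit false
open Set Filter Topology Metric Complex MeasureTheory
open scoped ComplexConjugate

namespace Pool.Agent.J4H16

open Pool.Agent.W746.LD

variable {n : ℕ} {c : ℂ} {r : ℝ}

/-- A radius that is not close to any of countably many given numbers. -/
theorem exists_radius {a b : ℝ} (hab : a < b) (y w : ℕ → ℝ) (hw : ∀ k, 0 ≤ w k)
    (hsum : ∀ F : Finset ℕ, ∑ k ∈ F, w k ≤ (b - a) / 2) :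
    ∃ R, a < R ∧ R < b ∧ ∀ k, y k < R → w k ≤ R - y k := by
  set bad : Set ℝ := ⋃ k, Ioo (y k) (y k + w k) with hbad
  have h1 : volume bad ≤ ENNReal.ofReal ((b - a) / 2) := by
    calc volume bad ≤ ∑' k, volume (Ioo (y k) (y k + w k)) := measure_iUnion_le _
      _ = ∑' k, ENNReal.ofReal (w k) := by
          congr 1
          funext k
          rw [Real.volume_Ioo, add_sub_cancel_left]
      _ ≤ ENNReal.ofReal ((b - a) / 2) := by
          rw [ENNReal.tsum_eq_iSup_sum]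
          apply iSup_le
          intro F
          rw [← ENNReal.ofReal_sum_of_nonneg fun k _ => hw k]
          exact ENNReal.ofReal_le_ofReal (hsum F)
  have h2 : volume bad < volume (Ioo a b) := by
    rw [Real.volume_Ioo]
    refine h1.trans_lt ?_
    rw [ENNReal.ofReal_lt_ofReal_iff (by linarith)]
    linarith
  obtain ⟨R, hR1, hR2⟩ : (Ioo a b \ bad).Nonempty := by
    by_contra hcon
    rw [Set.not_nonempty_iff_eq_empty, Set.sdiff_eq_empty] at hcon
    exact absurd (measure_mono hcon) (not_le.mpr h2)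
  refine ⟨R, hR1.1, hR1.2, ?_⟩
  intro k hk
  by_contra hcon
  push Not at hcon
  exact hR2 (mem_iUnion.mpr ⟨k, hk, by linarith⟩)

theorem quarter (hn : 2 ≤ n) : (1 : ℝ) / 4 ≤ (1 - 1 / n) ^ n := by
  have hn0 : (2 : ℝ) ≤ n := by exact_mod_cast hn
  have hx : (-1 : ℝ) ≤ -(1 / n) := by
    rw [neg_le_neg_iff, div_le_one (by linarith)]
    linarith
  have h1 := one_add_mul_self_le_rpow_one_add hx (p := (n : ℝ) / 2) (by linarith)
  have h2 : 1 + (n : ℝ) / 2 * -(1 / n) = 1 / 2 := by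
    field_simp
    ring
  rw [h2] at h1
  have h3 : (0 : ℝ) ≤ 1 + -(1 / n) := by linarith
  have h4 : (1 - 1 / (n : ℝ)) ^ n = ((1 + -(1 / n)) ^ ((n : ℝ) / 2)) ^ 2 := by
    rw [← Real.rpow_natCast (((1 : ℝ) + -(1 / n)) ^ ((n : ℝ) / 2)), ← Real.rpow_mul h3,
      ← Real.rpow_natCast]
    congr 1
    push_cast
    ring
  rw [h4]
  nlinarith

/-- Large derivatives at the returns to a disc give an inner pair. -/
theorem Q.inner_of_sum (h : Q n c r) {ρ : ℝ} (hρ : 0 < ρ)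
    (HS : ∀ F : Finset ℕ, (∀ k ∈ F, ‖orb n c c k‖ < ρ) →
      ∑ k ∈ F, 1 / ‖P n c c k‖ ≤ ρ ^ (n - 1) / (8192 * n ^ 3)) :
    ∃ R, (1 - 1 / (2 * n)) * ρ < R ∧ R < ρ ∧ Inner n c (ball 0 R) (ball 0 ((1 - 1 / n) * ρ)) := by
  classical
  have hn := h.hn
  have hn2 : (2 : ℝ) ≤ n := by exact_mod_cast hn
  have hn0 : (0 : ℝ) < n := by linarith
  have hρn : 0 < ρ ^ (n - 1) := by positivity
  have hinv1 : 1 / (2 * (n : ℝ)) ≤ 1 / 4 := by
    rw [div_le_div_iff₀ (by positivity) (by norm_num)]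
    linarith
  have hinv0 : 0 < 1 / (2 * (n : ℝ)) := by positivity
  set w : ℕ → ℝ := fun k => if ‖orb n c c k‖ < ρ then
    2048 * n ^ 2 * ρ / ρ ^ (n - 1) * (1 / ‖P n c c k‖) else 0 with hw
  obtain ⟨R, hR1, hR2, hR3⟩ := exists_radius (a := (1 - 1 / (2 * n)) * ρ) (b := ρ)
    (by nlinarith) (fun k => ‖orb n c c k‖) w (by
      intro k
      simp only [hw]
      split_ifs <;> positivity) (by
      intro F
      have e1 : ∑ k ∈ F, w k = 2048 * n ^ 2 * ρ / ρ ^ (n - 1) *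
          ∑ k ∈ F.filter (fun k => ‖orb n c c k‖ < ρ), 1 / ‖P n c c k‖ := by
        rw [Finset.mul_sum, Finset.sum_filter]
      rw [e1]
      have e2 := HS (F.filter (fun k => ‖orb n c c k‖ < ρ)) (fun k hk =>
        (Finset.mem_filter.mp hk).2)
      calc 2048 * n ^ 2 * ρ / ρ ^ (n - 1) *
            ∑ k ∈ F.filter (fun k => ‖orb n c c k‖ < ρ), 1 / ‖P n c c k‖
          ≤ 2048 * n ^ 2 * ρ / ρ ^ (n - 1) * (ρ ^ (n - 1) / (8192 * n ^ 3)) := by gcongr
        _ = (ρ - (1 - 1 / (2 * n)) * ρ) / 2 := by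
            field_simp
            ring)
  refine ⟨R, hR1, hR2, ?_⟩
  have hR0 : 0 < R := lt_trans (by nlinarith) hR1
  intro m W hW hcW hinj himg z hzW hzD
  rw [mem_ball, dist_zero_right] at hzD ⊢
  -- the inverse branch
  set F : ℂ → ℂ := fun z => orb n c z m with hF
  have hFd : DifferentiableOn ℂ F W := (differentiable_orb m).differentiableOn
  set g : ℂ → ℂ := Function.invFunOn F W with hg
  have hbr : Br n c m 0 R g := by
    constructor
    · intro w hw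
      rw [← himg] at hw
      exact (Pool.Agent.Helper202.Univ.differentiableAt_inv hW hFd hinj hw).differentiableWithinAt
    · intro w hw
      rw [← himg] at hw
      exact Pool.Agent.Helper202.Univ.invFunOn_right hw
  have hgl : ∀ y ∈ W, g (orb n c y m) = y := fun y hy =>
    Pool.Agent.Helper202.Univ.invFunOn_left hinj hy
  have hu : orb n c c m ∈ ball (0 : ℂ) R := by rw [← himg]; exact ⟨c, hcW, rfl⟩
  have hun : ‖orb n c c m‖ < R := by rwa [mem_ball, dist_zero_right] at hu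
  have hv : orb n c (z ^ n + c) m = orb n c z (m + 1) := by
    rw [add_comm m 1, orb_add, orb_one]
  have hmd := hbr.mul_deriv hu
  rw [hgl _ hcW] at hmd
  have hD : ‖deriv g (orb n c c m)‖ = 1 / ‖P n c c m‖ := by
    have h1 : ‖P n c c m‖ * ‖deriv g (orb n c c m)‖ = 1 := by rw [← norm_mul, hmd, norm_one]
    have h2 : ‖P n c c m‖ ≠ 0 := left_ne_zero_of_mul_eq_one h1
    field_simp
    linarith
  have hD0 : 0 < ‖deriv g (orb n c c m)‖ := norm_pos_iff.mpr (hbr.deriv_ne hu)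
  have hgap := hR3 m hun
  simp only [hw] at hgap
  rw [if_pos (hun.trans hR2), ← hD] at hgap
  set D : ℝ := ‖deriv g (orb n c c m)‖ with hDd
  -- the growth theorem
  have hs : 1 - 1 / (2 * (n : ℝ)) < 1 := by linarith
  have hvs : ‖orb n c (z ^ n + c) m‖ ≤ (1 - 1 / (2 * n)) * R := by
    rw [hv]
    refine hzD.le.trans ?_
    have e1 : 1 - 1 / (n : ℝ) ≤ (1 - 1 / (2 * n)) * (1 - 1 / (2 * n)) := by
      have : 1 / (n : ℝ) = 2 * (1 / (2 * n)) := by field_simp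
      rw [this]
      nlinarith
    calc (1 - 1 / (n : ℝ)) * ρ ≤ (1 - 1 / (2 * n)) * (1 - 1 / (2 * n)) * ρ := by gcongr
      _ = (1 - 1 / (2 * n)) * ((1 - 1 / (2 * n)) * ρ) := by ring
      _ ≤ (1 - 1 / (2 * n)) * R := by
          have : 0 ≤ 1 - 1 / (2 * (n : ℝ)) := by linarith
          gcongr
  have h1 := growth2 hR0 hbr.univ hun hs hvs
  rw [hgl _ hzW, hgl _ hcW, add_sub_cancel_right, norm_pow] at h1
  have hs2 : 1 / (2 * (n : ℝ)) ≤ 1 - (1 - 1 / (2 * n)) ^ 2 := by nlinarith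
  have h2 : ‖z‖ ^ n * (2048 * n ^ 2 * ρ / ρ ^ (n - 1) * D * (1 / (2 * n)) ^ 2) ≤
      64 * ρ ^ 2 * D := by
    calc ‖z‖ ^ n * (2048 * n ^ 2 * ρ / ρ ^ (n - 1) * D * (1 / (2 * n)) ^ 2)
        ≤ ‖z‖ ^ n * ((R - ‖orb n c c m‖) * (1 - (1 - 1 / (2 * n)) ^ 2) ^ 2) := by
          gcongr
      _ ≤ 64 * R ^ 2 * D := h1
      _ ≤ 64 * ρ ^ 2 * D := by gcongr
  have hpow : ρ ^ n = ρ ^ (n - 1) * ρ := by
    rw [← pow_succ]
    congr 1
    omega
  have h3 : ‖z‖ ^ n * 8 ≤ ρ ^ n := by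
    have e1 : ‖z‖ ^ n * (2048 * n ^ 2 * ρ / ρ ^ (n - 1) * D * (1 / (2 * n)) ^ 2) =
        (64 * ρ * D / ρ ^ (n - 1)) * (‖z‖ ^ n * 8) := by
      field_simp
      ring
    have e2 : 64 * ρ ^ 2 * D = (64 * ρ * D / ρ ^ (n - 1)) * ρ ^ n := by
      rw [hpow]
      field_simp
    rw [e1, e2] at h2
    exact le_of_mul_le_mul_left h2 (by positivity)
  have h4 : ‖z‖ ^ n < ((1 - 1 / n) * ρ) ^ n := by
    rw [mul_pow]
    have e1 := quarter (n := n) hn
    have e2 : 0 < ρ ^ n := by positivity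
    have e3 : (1 : ℝ) / 4 * ρ ^ n ≤ (1 - 1 / n) ^ n * ρ ^ n := by gcongr
    linarith
  refine lt_of_pow_lt_pow_left₀ n ?_ h4
  have : 0 ≤ 1 - 1 / (n : ℝ) := by
    rw [sub_nonneg, div_le_one hn0]
    linarith
  positivity

/-- Large derivatives at the returns to arbitrarily small discs, in degree at least three. -/
theorem sum_thm {n : ℕ} (hn3 : 3 ≤ n) {c : ℂ} (hc : c ∈ N62a1eb23.multibrotSet n)
    (H : HypII n c)
    (HS : ∀ ρ₀ : ℝ, 0 < ρ₀ → ∃ ρ : ℝ, 0 < ρ ∧ ρ < ρ₀ ∧ ∀ F : Finset ℕ,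
      (∀ k ∈ F, ‖orb n c c k‖ < ρ) →
        ∑ k ∈ F, 1 / ‖P n c c k‖ ≤ ρ ^ (n - 1) / (8192 * n ^ 3)) :
    c ∈ closure {c' : ℂ | ∃ m z, N62a1eb23.IsAttractingCycle (fun z => z ^ n + c') m z} := by
  by_contra hcl
  have hn : 2 ≤ n := by omega
  obtain ⟨r, h⟩ := exists_Q hn hc hcl
  have hn2 : (3 : ℝ) ≤ n := by exact_mod_cast hn3
  have hn0 : (0 : ℝ) < n := by linarith
  have hinv : 1 / (n : ℝ) ≤ 1 / 3 := by
    rw [div_le_div_iff₀ (by positivity) (by norm_num)]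
    linarith
  have hinv0 : 0 < 1 / (n : ℝ) := by positivity
  have hhalf : 1 / (2 * (n : ℝ)) = 1 / n / 2 := by field_simp
  refine h.inner3 h.dense hn3 H (θ' := (1 - 1 / n) / (1 - 1 / (2 * n))) ?_ ?_ ?_
  · apply div_pos <;> linarith
  · rw [div_lt_one (by linarith)]
    linarith
  · intro ε hε
    obtain ⟨ρ, hρ, hρ1, hF⟩ := HS ε hε
    obtain ⟨R, hR1, hR2, hin⟩ := h.inner_of_sum hρ hF
    have hR : 0 < R := lt_trans (by nlinarith) hR1
    refine ⟨fun ζ => ((R : ℝ) : ℂ) * ζ, ball 0 ((1 - 1 / n) * ρ), univ_mul hR, by simp, ?_, ?_, ?_,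
      ?_⟩
    · have : deriv (fun ζ : ℂ => ((R : ℝ) : ℂ) * ζ) 0 = ((R : ℝ) : ℂ) := by
        rw [deriv_const_mul _ differentiableAt_id]
        simp
      rw [this, Complex.norm_real, Real.norm_of_nonneg hR.le]
      linarith
    · apply ball_mem_nhds
      have : 0 < 1 - 1 / (n : ℝ) := by linarith
      positivity
    · rw [image_mul hR]
      apply ball_subset_ball
      have e1 : 0 < 1 - 1 / (2 * (n : ℝ)) := by linarith
      rw [mul_div_assoc', le_div_iff₀ e1]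
      have e2 : 0 < 1 - 1 / (n : ℝ) := by linarith
      calc (1 - 1 / (n : ℝ)) * ρ * (1 - 1 / (2 * n)) = (1 - 1 / (n : ℝ)) *
            ((1 - 1 / (2 * n)) * ρ) := by ring
        _ ≤ (1 - 1 / (n : ℝ)) * R := by gcongr
        _ = R * (1 - 1 / n) := by ring
    · rw [image_mul hR, mul_one]
      exact hin

end Pool.Agent.J4H16
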